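import Mathlib

namespace Pool.Agent.Helper198.Brandt

open Finset Matrix

/-- geometric sum 1 + z + ... + z^(m-1), by recursion -/
noncomputable def P : ℕ → ℝ → ℝ
  | 0, _ => 0
  | m + 1, z => 1 + z * P m z

/-- its derivative -/
noncomputable def dP : ℕ → ℝ → ℝ
  | 0, _ => 0
  | m + 1, z => P m z + z * dP m z

lemma P_nonneg (m : ℕ) {z : ℝ} (hz : 0 ≤ z) : 0 ≤ P m z := by
  induction m with
  | zero => simp [P]
  | succ m ih => simp only [P]; positivity

lemma dP_nonneg (m : ℕ) {z : ℝ} (hz : 0 ≤ z) : 0 ≤ dP m z := by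
  induction m with
  | zero => simp [dP]
  | succ m ih => 
    have := P_nonneg m hz
    simp only [dP]; positivity

lemma P_pos (m : ℕ) {z : ℝ} (hz : 0 ≤ z) : 0 < P (m + 1) z := by
  have := P_nonneg m hz
  simp only [P]; positivity

lemma P_eq (m : ℕ) (z : ℝ) : P m z = ∑ j ∈ range m, z ^ j := by
  induction m with
  | zero => simp [P]
  | succ m ih => 
    rw [Finset.sum_range_succ', P, ih, Finset.mul_sum]
    simp only [pow_succ, pow_zero]
    rw [add_comm]
    congr 1
    exact Finset.sum_congr rfl (fun i _ => by ring)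

lemma P_mono (m : ℕ) {z t : ℝ} (hz : 0 ≤ z) (h : z ≤ t) : P m z ≤ P m t := by
  induction m with
  | zero => simp [P]
  | succ m ih =>
    have := P_nonneg m hz
    simp only [P]
    have : z * P m z ≤ t * P m t := mul_le_mul h ih this (hz.trans h)
    linarith

lemma P_le_succ (m : ℕ) {z : ℝ} (hz : 0 ≤ z) : P m z ≤ 1 + z * P m z := by
  have h1 : 1 + z * P m z = P m z + z ^ m := by
    have : P (m+1) z = ∑ j ∈ range (m+1), z ^ j := P_eq _ _
    rw [Finset.sum_range_succ, ← P_eq] at this
    simpa [P] using this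
  rw [h1]
  have : 0 ≤ z ^ m := by positivity
  linarith

lemma P_diff (m : ℕ) {z t : ℝ} (hz : 0 ≤ z) (ht : 0 ≤ t) :
    ∃ D, 0 ≤ D ∧ P m z - P m t = (z - t) * D ∧ D ≤ P m t * P m z := by
  induction m with
  | zero => exact ⟨0, le_refl _, by simp [P], by simp [P]⟩
  | succ m ih =>
    obtain ⟨D, hD, h1, h2⟩ := ih
    have hq := P_nonneg m hz
    have hp := P_nonneg m ht
    refine ⟨P m z + t * D, by positivity, ?_, ?_⟩
    · simp only [P]; linear_combination t * h1
    · simp only [P]
      have h3 := P_le_succ m hz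
      have h4 : t * D ≤ t * (P m t * P m z) := mul_le_mul_of_nonneg_left h2 ht
      have h5 : P m z * (1 + t * P m t) ≤ (1 + z * P m z) * (1 + t * P m t) :=
        mul_le_mul_of_nonneg_right h3 (by positivity)
      nlinarith

lemma tangent (m : ℕ) {z t : ℝ} (hz : 0 ≤ z) (ht : 0 ≤ t) :
    P m t * (P m z + dP m z * (z - t)) ≤ P m z ^ 2 := by
  induction m with
  | zero => simp [P]
  | succ m ih =>
    rcases Nat.eq_zero_or_pos m with h0 | h0
    · subst h0; simp [P, dP]
    obtain ⟨m', rfl⟩ : ∃ m', m = m' + 1 := ⟨m - 1, by omega⟩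
    obtain ⟨D, hD, h1, h2⟩ := P_diff (m' + 1) hz ht
    have hp := P_pos m' ht
    have hq := P_pos m' hz
    have hd := dP_nonneg (m' + 1) hz
    have e2 : P (m' + 1 + 1) t = 1 + t * P (m' + 1) t := rfl
    have e3 : P (m' + 1 + 1) z = 1 + z * P (m' + 1) z := rfl
    have e4 : dP (m' + 1 + 1) z = P (m' + 1) z + z * dP (m' + 1) z := rfl
    rw [e2, e3, e4]
    clear e2 e3 e4
    generalize P (m' + 1) t = p at *
    generalize P (m' + 1) z = q at *
    generalize dP (m' + 1) z = d at *
    have key : 0 ≤ p * ((1 + z * q) ^ 2 - (1 + t * p) * (1 + z * q + (q + z * d) * (z - t))) := by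
      have e1 : p * ((1 + z * q) ^ 2 - (1 + t * p) * (1 + z * q + (q + z * d) * (z - t)))
          = (1 + t * p) * z * (q ^ 2 - p * (q + d * (z - t))) + (z - t) ^ 2 * (q + t * D) * (p * q - D) := by
        have hpe : p = q - (z - t) * D := by linarith
        subst hpe
        ring
      rw [e1]
      have a1 : 0 ≤ (1 + t * p) * z := by positivity
      have a2 : 0 ≤ q ^ 2 - p * (q + d * (z - t)) := by linarith
      have a3 : 0 ≤ (z - t) ^ 2 * (q + t * D) := by positivity
      have a4 : 0 ≤ p * q - D := by linarith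
      have := mul_nonneg a1 a2
      have := mul_nonneg a3 a4
      linarith
    have := nonneg_of_mul_nonneg_right key hp
    linarith

end Pool.Agent.Helper198.Brandt
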