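import Mathlib
import Pool.Agent.Helper198.BrandtA

namespace Pool.Agent.Helper198.Brandt

open Finset Matrix

variable {V : Type*} [Fintype V] [DecidableEq V] (G : SimpleGraph V) [DecidableRel G.Adj]

/-- the bilinear form of the adjacency matrix -/
noncomputable def B (x y : V → ℝ) : ℝ := x ⬝ᵥ (G.adjMatrix ℝ *ᵥ y)

lemma B_symm (x y : V → ℝ) : B G x y = B G y x := by
  unfold B
  rw [Matrix.dotProduct_mulVec, ← Matrix.mulVec_transpose, G.transpose_adjMatrix, dotProduct_comm]

lemma B_sum (x y : V → ℝ) : B G x y = ∑ i, ∑ j, (if G.Adj i j then x i * y j else 0) := by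
  unfold B
  simp only [dotProduct, Matrix.mulVec, SimpleGraph.adjMatrix_apply, Finset.mul_sum]
  refine Finset.sum_congr rfl (fun i _ => Finset.sum_congr rfl (fun j _ => ?_))
  split_ifs <;> ring

lemma B_add_smul (x g : V → ℝ) (t : ℝ) :
    B G (x + t • g) (x + t • g) = B G x x + 2 * t * B G x g + t ^ 2 * B G g g := by
  have h := B_symm G x g
  unfold B at *
  simp only [Matrix.mulVec_add, Matrix.mulVec_smul, dotProduct_add, add_dotProduct,
    smul_dotProduct, dotProduct_smul, smul_eq_mul]
  rw [← h]
  ring

lemma dot_add_smul (x g : V → ℝ) (t : ℝ) :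
    (x + t • g) ⬝ᵥ (x + t • g) = x ⬝ᵥ x + 2 * t * (x ⬝ᵥ g) + t ^ 2 * (g ⬝ᵥ g) := by
  simp only [dotProduct_add, add_dotProduct, smul_dotProduct, dotProduct_smul, smul_eq_mul]
  rw [dotProduct_comm g x]
  ring

lemma B_smul (x : V → ℝ) (t : ℝ) : B G (t • x) (t • x) = t ^ 2 * B G x x := by
  unfold B
  simp only [Matrix.mulVec_smul, smul_dotProduct, dotProduct_smul, smul_eq_mul]
  ring

lemma dot_self_nonneg (x : V → ℝ) : 0 ≤ x ⬝ᵥ x :=
  Finset.sum_nonneg (fun i _ => mul_self_nonneg _)

lemma exists_max (S : Finset V) (hS : S.Nonempty) :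
    ∃ x : V → ℝ, (∀ i, i ∉ S → x i = 0) ∧ x ⬝ᵥ x = 1 ∧
      ∀ y : V → ℝ, (∀ i, i ∉ S → y i = 0) → B G y y ≤ B G x x * (y ⬝ᵥ y) := by
  set K : Set (V → ℝ) := {x | (∀ i, i ∉ S → x i = 0) ∧ x ⬝ᵥ x = 1} with hK
  have hdc : Continuous (fun x : V → ℝ => x ⬝ᵥ x) := by
    unfold dotProduct
    fun_prop
  have hBc : Continuous (fun x : V → ℝ => B G x x) := by
    have : (fun x : V → ℝ => B G x x) = fun x => ∑ i, ∑ j, (if G.Adj i j then x i * x j else 0) := by
      funext x; exact B_sum G x x
    rw [this]
    refine continuous_finset_sum _ (fun i _ => continuous_finset_sum _ (fun j _ => ?_))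
    split_ifs <;> fun_prop
  have hcl : IsClosed K := by
    rw [hK, Set.setOf_and]
    refine IsClosed.inter ?_ (isClosed_eq hdc continuous_const)
    simp only [Set.setOf_forall]
    exact isClosed_iInter (fun i => isClosed_iInter (fun _ => isClosed_eq (continuous_apply i) continuous_const))
  have hbd : K ⊆ Metric.closedBall (0 : V → ℝ) 1 := by
    intro x hx
    rw [mem_closedBall_zero_iff, pi_norm_le_iff_of_nonneg zero_le_one]
    intro i
    have h1 : x i * x i ≤ x ⬝ᵥ x :=
      Finset.single_le_sum (f := fun i => x i * x i) (fun j _ => mul_self_nonneg _) (Finset.mem_univ i)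
    rw [hx.2] at h1
    rw [Real.norm_eq_abs]
    exact abs_le_one_iff_mul_self_le_one.mpr h1
  have hcomp : IsCompact K := (isCompact_closedBall (0 : V → ℝ) 1).of_isClosed_subset hcl hbd
  obtain ⟨u, hu⟩ := hS
  have hne : K.Nonempty := by
    refine ⟨Pi.single u 1, ?_, ?_⟩
    · intro i hi
      have : i ≠ u := by rintro rfl; exact hi hu
      simp [Pi.single_apply, this]
    · simp
  obtain ⟨x, hxK, hmax⟩ := hcomp.exists_isMaxOn hne hBc.continuousOn
  refine ⟨x, hxK.1, hxK.2, ?_⟩
  intro y hy
  rcases (dot_self_nonneg y).eq_or_lt with h0 | h0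
  · have hy0 : y = 0 := by
      funext i
      have h1 : y i * y i ≤ y ⬝ᵥ y :=
        Finset.single_le_sum (f := fun i => y i * y i) (fun j _ => mul_self_nonneg _) (Finset.mem_univ i)
      rw [← h0] at h1
      have : y i * y i = 0 := le_antisymm h1 (mul_self_nonneg _)
      simpa using this
    subst hy0
    simp [B]
  · set c := (Real.sqrt (y ⬝ᵥ y))⁻¹ with hc
    have hcc : c ^ 2 * (y ⬝ᵥ y) = 1 := by
      rw [hc, inv_pow, Real.sq_sqrt h0.le, inv_mul_cancel₀ h0.ne']
    have hmem : c • y ∈ K := by
      refine ⟨fun i hi => by simp [hy i hi], ?_⟩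
      simp only [smul_dotProduct, dotProduct_smul, smul_eq_mul]
      linarith [hcc]
    have h2 : B G (c • y) (c • y) ≤ B G x x := hmax hmem
    rw [B_smul] at h2
    have h3 : B G y y = (c ^ 2 * B G y y) * (y ⬝ᵥ y) := by
      calc B G y y = (c ^ 2 * (y ⬝ᵥ y)) * B G y y := by rw [hcc, one_mul]
        _ = _ := by ring
    rw [h3]
    exact mul_le_mul_of_nonneg_right h2 h0.le

lemma stationary {S : Finset V} {x : V → ℝ} (hx : ∀ i, i ∉ S → x i = 0) (hx1 : x ⬝ᵥ x = 1)
    (hmax : ∀ y : V → ℝ, (∀ i, i ∉ S → y i = 0) → B G y y ≤ B G x x * (y ⬝ᵥ y))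
    {g : V → ℝ} (hg : ∀ i, i ∉ S → g i = 0) : B G x g = B G x x * (x ⬝ᵥ g) := by
  set c := 2 * (B G x g - B G x x * (x ⬝ᵥ g)) with hc
  set d := B G g g - B G x x * (g ⬝ᵥ g) with hd
  have hd0 : d ≤ 0 := by have := hmax g hg; linarith
  have key : ∀ t : ℝ, t * c + t ^ 2 * d ≤ 0 := by
    intro t
    have h1 := hmax (x + t • g) (fun i hi => by simp [hx i hi, hg i hi])
    rw [B_add_smul, dot_add_smul, hx1] at h1
    rw [hc, hd]
    linarith
  have h2 := key (c / (1 - d))
  have h1d : 0 < 1 - d := by linarith
  have h3 : c / (1 - d) * c + (c / (1 - d)) ^ 2 * d = (c / (1 - d)) ^ 2 := by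
    field_simp
    ring
  rw [h3] at h2
  have h4 : c / (1 - d) = 0 := by
    have := sq_nonneg (c / (1 - d))
    exact pow_eq_zero_iff (two_ne_zero) |>.mp (le_antisymm h2 this)
  have h5 : c = 0 := by
    rcases div_eq_zero_iff.mp h4 with h | h
    · exact h
    · linarith
  linarith

lemma lower {S : Finset V} {x : V → ℝ} (hx : ∀ i, i ∉ S → x i = 0) (hx1 : x ⬝ᵥ x = 1)
    (hmax : ∀ y : V → ℝ, (∀ i, i ∉ S → y i = 0) → B G y y ≤ B G x x * (y ⬝ᵥ y))
    {τ : ℝ} (hpsd : ∀ y : V → ℝ, 0 ≤ B G y y + τ * (y ⬝ᵥ y))
    {f : V → ℝ} (hf : ∀ i, i ∉ S → f i = 0) :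
    (B G x x + τ) * (x ⬝ᵥ f) ^ 2 ≤ B G f f + τ * (f ⬝ᵥ f) := by
  set a := x ⬝ᵥ f with ha
  have h1 := stationary G hx hx1 hmax hf
  have h2 := hpsd (f + (-a) • x)
  rw [B_add_smul, dot_add_smul, hx1, B_symm G f x, h1, dotProduct_comm f x, ← ha] at h2
  linarith

theorem step_main {τ : ℝ} (hτ : 0 < τ) (hpsd : ∀ y : V → ℝ, 0 ≤ B G y y + τ * (y ⬝ᵥ y)) :
    ∀ (k : ℕ) (S : Finset V), (∀ T : Finset V, T ⊆ S → G.IsClique (T : Set V) → T.card ≤ k + 1) →
    ∀ (x : V → ℝ) (s : ℝ), (∀ i, i ∉ S → x i = 0) → 0 < x ⬝ᵥ x → 0 < s →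
      s * (x ⬝ᵥ x) ≤ B G x x + τ * (x ⬝ᵥ x) → s ≤ τ * P (k + 1) ((S.card : ℝ) / s) := by
  intro k
  induction k with
  | zero =>
    intro S hcl x s hx hxx hs h
    have hB : B G x x = 0 := by
      rw [B_sum]
      refine Finset.sum_eq_zero (fun i _ => Finset.sum_eq_zero (fun j _ => ?_))
      split_ifs with hij
      · by_cases hi : i ∈ S
        · by_cases hj : j ∈ S
          · exfalso
            have h1 := hcl {i, j} (by intro v hv; simp only [Finset.mem_insert, Finset.mem_singleton] at hv; rcases hv with rfl | rfl <;> assumption)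
              (by
                intro u hu v hv huv
                simp only [Finset.coe_insert, Finset.coe_singleton, Set.mem_insert_iff, Set.mem_singleton_iff] at hu hv
                rcases hu with rfl | rfl <;> rcases hv with rfl | rfl
                · exact absurd rfl huv
                · exact hij
                · exact hij.symm
                · exact absurd rfl huv)
            rw [Finset.card_pair hij.ne] at h1
            omega
          · rw [hx j hj, mul_zero]
        · rw [hx i hi, zero_mul]
      · rfl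
    rw [hB] at h
    have : s ≤ τ := by
      by_contra hcon
      push Not at hcon
      nlinarith
    simpa [P] using this
  | succ k ih =>
    intro S hcl x0 s0 hx0 hxx0 hs0 h0
    have hSne : S.Nonempty := by
      by_contra hcon
      rw [Finset.not_nonempty_iff_eq_empty] at hcon
      have : x0 = 0 := by
        funext i
        exact hx0 i (by simp [hcon])
      rw [this] at hxx0
      simp at hxx0
    obtain ⟨x, hx, hx1, hmax⟩ := exists_max G S hSne
    set lam := B G x x with hlam
    set s := lam + τ with hs_def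
    have hss : s0 ≤ s := by
      have h1 := hmax x0 hx0
      have h2 : s0 * (x0 ⬝ᵥ x0) ≤ s * (x0 ⬝ᵥ x0) := by
        rw [hs_def, add_mul]; linarith
      exact le_of_mul_le_mul_right h2 hxx0
    have hs : 0 < s := lt_of_lt_of_le hs0 hss
    set n : ℝ := (S.card : ℝ) with hn
    have hn0 : 0 ≤ n := by positivity
    set z := n / s with hz
    have hz0 : 0 ≤ z := by positivity
    have hzs : z * s = n := by rw [hz]; field_simp
    set Pz := P (k + 1) z with hPz
    set D := dP (k + 1) z with hD
    have hPz0 : 0 < Pz := P_pos k hz0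
    have hD0 : 0 ≤ D := dP_nonneg (k + 1) hz0
    -- local quantities
    set p : V → ℝ := fun w => ∑ j, (if G.Adj w j then x j ^ 2 else 0) with hp
    set d : V → ℝ := fun w => ((S.filter (fun j => G.Adj w j)).card : ℝ) with hd
    have hloc : ∀ w ∈ S, s * p w * (Pz + z * D) - d w * D ≤ τ * Pz ^ 2 := by
      intro w hw
      have hp0 : 0 ≤ p w := Finset.sum_nonneg (fun j _ => by split_ifs <;> positivity)
      have hd0 : 0 ≤ d w := by simp [hd]
      rcases hp0.eq_or_lt with hpw | hpw
      · rw [← hpw]
        have a1 : 0 ≤ d w * D := mul_nonneg hd0 hD0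
        have a2 : 0 ≤ τ * Pz ^ 2 := by positivity
        linarith
      · set N := S.filter (fun j => G.Adj w j) with hN
        set f : V → ℝ := fun j => if G.Adj w j then x j else 0 with hf
        have hfN : ∀ i, i ∉ N → f i = 0 := by
          intro i hi
          simp only [hf]
          split_ifs with hwi
          · apply hx
            intro hiS
            exact hi (Finset.mem_filter.mpr ⟨hiS, hwi⟩)
          · rfl
        have hfS : ∀ i, i ∉ S → f i = 0 := by
          intro i hi
          simp only [hf]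
          split_ifs
          · exact hx i hi
          · rfl
        have hff : f ⬝ᵥ f = p w := by
          simp only [dotProduct, hf, hp]
          refine Finset.sum_congr rfl (fun j _ => ?_)
          split_ifs <;> ring
        have hxf : x ⬝ᵥ f = p w := by
          simp only [dotProduct, hf, hp]
          refine Finset.sum_congr rfl (fun j _ => ?_)
          split_ifs <;> ring
        have hclN : ∀ T : Finset V, T ⊆ N → G.IsClique (T : Set V) → T.card ≤ k + 1 := by
          intro T hT hTc
          have hwT : w ∉ T := by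
            intro hwT
            have := (Finset.mem_filter.mp (hT hwT)).2
            exact G.loopless.irrefl w this
          have h1 := hcl (insert w T) (by
            intro v hv
            rcases Finset.mem_insert.mp hv with rfl | hv
            · exact hw
            · exact (Finset.mem_filter.mp (hT hv)).1) (by
            rw [Finset.coe_insert]
            refine hTc.insert (fun b hb _ => ?_)
            exact (Finset.mem_filter.mp (hT hb)).2)
          rw [Finset.card_insert_of_notMem hwT] at h1
          omega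
        have hlow := lower G hx hx1 hmax hpsd hfS
        rw [hxf, hff] at hlow
        have h1 := ih N hclN f (s * p w) hfN (by rw [hff]; exact hpw) (mul_pos hs hpw) (by
          rw [hff]
          have : s * p w * p w = (lam + τ) * p w ^ 2 := by rw [hs_def]; ring
          rw [this]; exact hlow)
        set t := (N.card : ℝ) / (s * p w) with ht
        have hsp : 0 < s * p w := mul_pos hs hpw
        have ht0 : 0 ≤ t := div_nonneg (Nat.cast_nonneg _) hsp.le
        have htd : s * p w * t = d w := by
          rw [ht, mul_div_cancel₀ _ hsp.ne']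
        have htan := tangent (k + 1) hz0 ht0
        rw [← hPz, ← hD] at htan
        set Y := Pz + D * (z - t) with hY
        have e1 : s * p w * (Pz + z * D) - d w * D = s * p w * Y := by
          rw [← htd, hY]; ring
        rw [e1]
        rcases le_or_gt Y 0 with hY0 | hY0
        · have h3 : s * p w * Y ≤ 0 := mul_nonpos_of_nonneg_of_nonpos hsp.le hY0
          have h4 : 0 ≤ τ * Pz ^ 2 := by positivity
          linarith
        · calc s * p w * Y ≤ (τ * P (k + 1) t) * Y := mul_le_mul_of_nonneg_right h1 hY0.le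
            _ = τ * (P (k + 1) t * Y) := by ring
            _ ≤ τ * Pz ^ 2 := mul_le_mul_of_nonneg_left htan hτ.le
    have hsum : s * (∑ w ∈ S, p w) * (Pz + z * D) - (∑ w ∈ S, d w) * D ≤ n * (τ * Pz ^ 2) := by
      have h1 := Finset.sum_le_sum hloc
      rw [Finset.sum_sub_distrib, Finset.sum_const, nsmul_eq_mul, ← Finset.sum_mul, ← Finset.sum_mul,
        ← Finset.mul_sum] at h1
      exact h1
    have hpl : lam ≤ ∑ w ∈ S, p w := by
      have e1 : ∑ w ∈ S, p w = ∑ w, ∑ j, (if G.Adj w j then (if w ∈ S then (1:ℝ) else 0) * x j ^ 2 else 0) := by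
        rw [← Finset.sum_filter_add_sum_filter_not Finset.univ (fun w => w ∈ S)]
        rw [Finset.sum_eq_zero (s := Finset.univ.filter (fun w => ¬ w ∈ S))]
        · rw [add_zero]
          have : Finset.univ.filter (fun w => w ∈ S) = S := by ext; simp
          rw [this]
          refine Finset.sum_congr rfl (fun w hw => ?_)
          show ∑ j, (if G.Adj w j then x j ^ 2 else 0) = _
          refine Finset.sum_congr rfl (fun j _ => ?_)
          rw [if_pos hw, one_mul]
        · intro w hw
          have hw' : w ∉ S := (Finset.mem_filter.mp hw).2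
          refine Finset.sum_eq_zero (fun j _ => ?_)
          simp [hw']
      have e2 : ∑ w, ∑ j, (if G.Adj w j then (if w ∈ S then (1:ℝ) else 0) * x j ^ 2 else 0)
          = ∑ w, ∑ j, (if G.Adj w j then (if j ∈ S then (1:ℝ) else 0) * x w ^ 2 else 0) := by
        rw [Finset.sum_comm]
        refine Finset.sum_congr rfl (fun w _ => Finset.sum_congr rfl (fun j _ => ?_))
        by_cases hwj : G.Adj w j
        · rw [if_pos hwj, if_pos hwj.symm]
        · rw [if_neg hwj, if_neg (fun h => hwj h.symm)]
      have e3 : 2 * lam ≤ ∑ w, ∑ j, (if G.Adj w j then (if w ∈ S then (1:ℝ) else 0) * x j ^ 2 else 0)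
          + ∑ w, ∑ j, (if G.Adj w j then (if j ∈ S then (1:ℝ) else 0) * x w ^ 2 else 0) := by
        rw [hlam, B_sum, Finset.mul_sum, ← Finset.sum_add_distrib]
        refine Finset.sum_le_sum (fun w _ => ?_)
        rw [Finset.mul_sum, ← Finset.sum_add_distrib]
        refine Finset.sum_le_sum (fun j _ => ?_)
        by_cases hwj : G.Adj w j
        · simp only [if_pos hwj]
          by_cases hw : w ∈ S
          · by_cases hj : j ∈ S
            · simp only [if_pos hw, if_pos hj]
              nlinarith [sq_nonneg (x w - x j)]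
            · simp [hx j hj, hw, hj]
          · rw [hx w hw]
            by_cases hj : j ∈ S <;> simp [hw, hj]
        · simp [hwj]
      rw [← e2, ← e1] at e3
      linarith
    have hdl : ∑ w ∈ S, d w ≤ lam * n := by
      have h1 := hmax (fun i => if i ∈ S then (1:ℝ) else 0) (fun i hi => by simp [hi])
      have e1 : (fun i => if i ∈ S then (1:ℝ) else 0) ⬝ᵥ (fun i => if i ∈ S then (1:ℝ) else 0) = n := by
        simp [dotProduct, hn]
      have e2 : B G (fun i => if i ∈ S then (1:ℝ) else 0) (fun i => if i ∈ S then (1:ℝ) else 0) = ∑ w ∈ S, d w := by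
        rw [B_sum]
        rw [← Finset.sum_filter_add_sum_filter_not Finset.univ (fun w => w ∈ S)]
        rw [Finset.sum_eq_zero (s := Finset.univ.filter (fun w => ¬ w ∈ S))]
        · rw [add_zero]
          have : Finset.univ.filter (fun w => w ∈ S) = S := by ext; simp
          rw [this]
          refine Finset.sum_congr rfl (fun w hw => ?_)
          show _ = ((S.filter (fun j => G.Adj w j)).card : ℝ)
          rw [if_pos hw, Finset.card_filter, Nat.cast_sum]
          rw [← Finset.sum_filter_add_sum_filter_not Finset.univ (fun w => w ∈ S)]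
          rw [Finset.sum_eq_zero (s := Finset.univ.filter (fun w => ¬ w ∈ S))]
          · rw [add_zero, this]
            refine Finset.sum_congr rfl (fun j hj => ?_)
            simp [hj]
          · intro j hj
            have hj' : j ∉ S := (Finset.mem_filter.mp hj).2
            simp [hj']
        · intro w hw
          have hw' : w ∉ S := (Finset.mem_filter.mp hw).2
          refine Finset.sum_eq_zero (fun j _ => ?_)
          simp [hw']
      rw [e1, e2] at h1
      exact h1
    -- combine
    have h1 : lam * s * (Pz + z * D) ≤ s * (∑ w ∈ S, p w) * (Pz + z * D) := by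
      have : lam * s ≤ s * (∑ w ∈ S, p w) := by nlinarith
      exact mul_le_mul_of_nonneg_right this (by positivity)
    have h2 : (∑ w ∈ S, d w) * D ≤ lam * n * D := mul_le_mul_of_nonneg_right hdl hD0
    have h3 : lam * s * Pz ≤ n * (τ * Pz ^ 2) := by
      have e1 : lam * s * (Pz + z * D) = lam * s * Pz + lam * n * D := by
        rw [← hzs]; ring
      linarith
    have h4 : lam ≤ τ * (z * Pz) := by
      have h5 : lam * (s * Pz) ≤ τ * (z * Pz) * (s * Pz) := by
        have : τ * (z * Pz) * (s * Pz) = n * (τ * Pz ^ 2) := by rw [← hzs]; ring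
        rw [this]; linarith
      exact le_of_mul_le_mul_right h5 (by positivity)
    have h6 : s ≤ τ * P (k + 1 + 1) z := by
      have : P (k + 1 + 1) z = 1 + z * Pz := rfl
      rw [this, hs_def]; linarith
    have h7 : P (k + 1 + 1) z ≤ P (k + 1 + 1) (n / s0) := by
      apply P_mono _ hz0
      rw [hz]
      exact div_le_div_of_nonneg_left hn0 hs0 hss
    calc s0 ≤ s := hss
      _ ≤ τ * P (k + 1 + 1) z := h6
      _ ≤ _ := mul_le_mul_of_nonneg_left h7 hτ.le

end Pool.Agent.Helper198.Brandt
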