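import Mathlib
import Pool.Agent.Helper198.BrandtA

namespace Pool.Agent.Helper198.Brandt

open Finset

lemma P_succ' (m : ℕ) (z : ℝ) : P (m + 1) z = P m z + z ^ m := by
  rw [P_eq, P_eq, Finset.sum_range_succ]

lemma P_inv (r : ℕ) {ρ : ℝ} (hρ : 0 < ρ) : P r (1 / ρ) * ρ ^ r = ρ * P r ρ := by
  induction r with
  | zero => simp [P]
  | succ r ih =>
    have e1 : P (r + 1) (1 / ρ) = 1 + 1 / ρ * P r (1 / ρ) := rfl
    rw [e1, P_succ' r ρ]
    have : (1 + 1 / ρ * P r (1 / ρ)) * ρ ^ (r + 1) = ρ ^ (r + 1) + P r (1 / ρ) * ρ ^ r := by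
      field_simp
      ring
    rw [this, ih]; ring

lemma one_sub_mul_P (r : ℕ) (ρ : ℝ) : (1 - ρ) * P r ρ = 1 - ρ ^ r := by
  rw [P_eq]; exact mul_neg_geom_sum ρ r

/-- from the y-form to the rho-form -/
lemma rho_form {r : ℕ} {n s τ : ℝ} (hn : 0 < n) (hs : 0 < s) (h : s ≤ τ * P r (n / s)) :
    (s / n) ^ r ≤ (τ / n) * P r (s / n) := by
  have hρ : 0 < s / n := by positivity
  have h1 := P_inv r hρ
  have e : 1 / (s / n) = n / s := by field_simp
  rw [e] at h1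
  have h2 : s * (s / n) ^ r ≤ τ * P r (n / s) * (s / n) ^ r :=
    mul_le_mul_of_nonneg_right h (by positivity)
  have h3 : s * (s / n) ^ r ≤ s * (τ / n * P r (s / n)) := by
    calc s * (s / n) ^ r ≤ τ * (P r (n / s) * (s / n) ^ r) := by linarith
      _ = τ * (s / n * P r (s / n)) := by rw [h1]
      _ = s * (τ / n * P r (s / n)) := by ring
  exact le_of_mul_le_mul_left h3 hs

lemma main_form {r : ℕ} {n lam τ : ℝ} (hn : 0 < n)
    (h : ((lam + τ) / n) ^ r ≤ (τ / n) * P r ((lam + τ) / n)) :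
    n ≤ (n - lam) * P r ((lam + τ) / n) := by
  have h1 := one_sub_mul_P r ((lam + τ) / n)
  have h2 : (n - lam) * P r ((lam + τ) / n)
      = n * ((1 - (lam + τ) / n) * P r ((lam + τ) / n)) + n * ((τ / n) * P r ((lam + τ) / n)) := by
    field_simp; ring
  rw [h2, h1]
  nlinarith

lemma P_one (m : ℕ) : P m 1 = m := by
  rw [P_eq]; simp

lemma dP_one (m : ℕ) : 2 * dP m 1 = m * (m - 1) := by
  induction m with
  | zero => simp [dP]
  | succ m ih =>
    have : dP (m + 1) 1 = P m 1 + 1 * dP m 1 := rfl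
    rw [this, P_one]
    push_cast
    linarith

lemma quad_form {r : ℕ} (hr : 2 ≤ r) {n s τ : ℝ} (hn : 0 < n) (hs : 0 < s) (hτ : 0 ≤ τ)
    (h : s ≤ τ * P r (n / s)) : s * (r * s - (r - 2) * n) ≤ r * τ * (s + n) := by
  obtain ⟨m, rfl⟩ : ∃ m, r = m + 1 := ⟨r - 1, by omega⟩
  have hm : (1 : ℝ) ≤ m := by exact_mod_cast (show 1 ≤ m by omega)
  set y := n / s with hy
  have hy0 : 0 < y := by positivity
  have hys : s * y = n := by rw [hy]; field_simp
  have htan := tangent m (z := 1) (t := y) zero_le_one hy0.le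
  rw [P_one] at htan
  have hd := dP_one m
  have hP : P (m + 1) y = 1 + y * P m y := rfl
  rw [hP] at h
  have hPn := P_nonneg m hy0.le
  push_cast
  have h1 : P m y * ((m + 1) - (m - 1) * y) ≤ 2 * m := by
    have h2 : (m : ℝ) * (P m y * ((m + 1) - (m - 1) * y)) ≤ m * (2 * m) := by
      have e : dP m 1 = m * (m - 1) / 2 := by linarith
      rw [e] at htan
      nlinarith
    exact le_of_mul_le_mul_left h2 (by linarith)
  rcases le_or_gt (((m : ℝ) + 1) - (m - 1) * y) 0 with hK | hK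
  · have h3 : s * (((m : ℝ) + 1) - (m - 1) * y) ≤ 0 := mul_nonpos_of_nonneg_of_nonpos hs.le hK
    have h4 : ((m : ℝ) + 1) * s - (m + 1 - 2) * n ≤ 0 := by
      have : s * (((m : ℝ) + 1) - (m - 1) * y) = ((m : ℝ) + 1) * s - (m + 1 - 2) * n := by
        rw [← hys]; ring
      linarith
    have h5 : s * (((m : ℝ) + 1) * s - (m + 1 - 2) * n) ≤ 0 := mul_nonpos_of_nonneg_of_nonpos hs.le h4
    have h6 : 0 ≤ ((m : ℝ) + 1) * τ * (s + n) := by positivity
    linarith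
  · have h3 : s * (((m : ℝ) + 1) - (m - 1) * y) ≤ τ * (1 + y * P m y) * (((m : ℝ) + 1) - (m - 1) * y) :=
      mul_le_mul_of_nonneg_right h hK.le
    have h4 : τ * (1 + y * P m y) * (((m : ℝ) + 1) - (m - 1) * y) ≤ τ * ((m + 1) * (1 + y)) := by
      have h5 : (τ * y) * (P m y * (((m : ℝ) + 1) - (m - 1) * y)) ≤ (τ * y) * (2 * m) :=
        mul_le_mul_of_nonneg_left h1 (by positivity)
      nlinarith
    have h6 : s * (s * (((m : ℝ) + 1) - (m - 1) * y)) ≤ s * (τ * ((m + 1) * (1 + y))) :=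
      mul_le_mul_of_nonneg_left (h3.trans h4) hs.le
    have e1 : s * (s * (((m : ℝ) + 1) - (m - 1) * y)) = s * (((m : ℝ) + 1) * s - (m + 1 - 2) * n) := by
      rw [← hys]; ring
    have e2 : s * (τ * (((m : ℝ) + 1) * (1 + y))) = (m + 1) * τ * (s + n) := by
      rw [← hys]; ring
    linarith

lemma sqrt_bound {r : ℕ} (hr : 2 ≤ r) {n lam τ : ℝ} (hn : 0 < n) (hs : 0 ≤ lam + τ) (hτ : 0 ≤ τ)
    (h : (lam + τ) * (r * (lam + τ) - (r - 2) * n) ≤ r * τ * ((lam + τ) + n)) :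
    lam - τ ≤ (5 - 4 / r - 4 * Real.sqrt (1 - 1 / r)) * n := by
  have hr0 : (2 : ℝ) ≤ r := by exact_mod_cast hr
  have hrp : (0 : ℝ) < r := by linarith
  set q := Real.sqrt (1 - 1 / (r : ℝ)) with hq
  have h1r : 1 / (r : ℝ) ≤ 1 := by rw [div_le_one hrp]; linarith
  have hq2 : q ^ 2 = 1 - 1 / (r : ℝ) := by rw [hq, Real.sq_sqrt (by linarith)]
  have hrq : (r : ℝ) * q ^ 2 = r - 1 := by rw [hq2]; field_simp
  set W := n + (lam + τ) with hW
  have hWp : 0 < W := by linarith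
  have h1 : (lam - τ) * (r * W) ≤ -r * W ^ 2 + (5 * r - 4) * n * W - (4 * r - 4) * n ^ 2 := by
    have e1 : lam + τ = W - n := by rw [hW]; ring
    have e2 : lam - τ = (W - n) - 2 * τ := by rw [hW]; ring
    rw [e1] at h
    rw [e2]
    nlinarith
  have h2 : (5 - 4 / (r : ℝ) - 4 * q) * n * (r * W) = (5 * r - 4 - 4 * q * r) * n * W := by
    field_simp
  have h3 : (lam - τ) * (r * W) ≤ (5 - 4 / (r : ℝ) - 4 * q) * n * (r * W) := by
    rw [h2]
    have h4 : 0 ≤ (r : ℝ) * (W - 2 * q * n) ^ 2 := by positivity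
    have e3 : (r : ℝ) * (W - 2 * q * n) ^ 2 = r * W ^ 2 - 4 * q * r * n * W + 4 * (r * q ^ 2) * n ^ 2 := by ring
    rw [e3, hrq] at h4
    linarith
  exact le_of_mul_le_mul_right h3 (by positivity)

lemma one_sub_pow_eq (j : ℕ) (ρ : ℝ) : 1 - ρ ^ j = (1 - ρ) * P j ρ := (one_sub_mul_P j ρ).symm

lemma pair_identity (r : ℕ) (ρ : ℝ) :
    (r : ℝ) * (1 + ρ ^ r) - 2 * P r ρ + (1 - ρ ^ r) =
      ∑ j ∈ range r, (1 - ρ ^ j) * (1 - ρ ^ (r - j)) := by
  have e1 : ∀ j ∈ range r, (1 - ρ ^ j) * (1 - ρ ^ (r - j)) = (1 + ρ ^ r) - ρ ^ j - ρ ^ (r - j) := by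
    intro j hj
    have hj' : j ≤ r := (Finset.mem_range.mp hj).le
    have : ρ ^ r = ρ ^ j * ρ ^ (r - j) := by rw [← pow_add]; congr 1; omega
    rw [this]; ring
  rw [Finset.sum_congr rfl e1, Finset.sum_sub_distrib, Finset.sum_sub_distrib, ← P_eq]
  have e2 : ∑ j ∈ range r, ρ ^ (r - j) = P r ρ - 1 + ρ ^ r := by
    have h1 := Finset.sum_range_reflect (fun j => ρ ^ (j + 1)) r
    have h2 : ∑ j ∈ range r, ρ ^ (r - j) = ∑ j ∈ range r, ρ ^ (r - 1 - j + 1) := by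
      refine Finset.sum_congr rfl (fun j hj => ?_)
      congr 1
      have := Finset.mem_range.mp hj
      omega
    rw [h2, h1]
    have h3 := P_succ' r ρ
    have h4 : P (r + 1) ρ = ∑ j ∈ range (r + 1), ρ ^ j := P_eq _ _
    rw [Finset.sum_range_succ'] at h4
    simp only [pow_zero] at h4
    linarith
  rw [e2]
  simp
  ring

lemma ratio_ge (r j : ℕ) (hj : j ≤ r) {ρ : ℝ} (h0 : 0 ≤ ρ) (h1 : ρ ≤ 1) :
    (j : ℝ) * P r ρ ≤ r * P j ρ := by
  have e1 : P r ρ = P j ρ + ρ ^ j * P (r - j) ρ := by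
    rw [P_eq, P_eq, P_eq, Finset.mul_sum]
    have : r = j + (r - j) := by omega
    conv_lhs => rw [this]
    rw [Finset.sum_range_add]
    congr 1
    refine Finset.sum_congr rfl (fun i _ => ?_)
    rw [pow_add]
  have e2 : P (r - j) ρ ≤ ((r - j : ℕ) : ℝ) := by
    have := P_mono (r - j) h0 h1
    rwa [P_one] at this
  have e3 : (j : ℝ) * ρ ^ j ≤ P j ρ := by
    rw [P_eq]
    have : (j : ℝ) * ρ ^ j = ∑ i ∈ range j, ρ ^ j := by simp
    rw [this]
    refine Finset.sum_le_sum (fun i hi => ?_)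
    exact pow_le_pow_of_le_one h0 h1 (Finset.mem_range.mp hi).le
  have e4 : ((r - j : ℕ) : ℝ) = r - j := by push_cast [hj]; ring
  rw [e4] at e2
  have hrj : (0 : ℝ) ≤ r - j := by rw [← e4]; positivity
  have e5 : (j : ℝ) * ρ ^ j * P (r - j) ρ ≤ P j ρ * (r - j) :=
    mul_le_mul e3 e2 (P_nonneg _ h0) (P_nonneg _ h0)
  rw [e1]
  nlinarith

lemma sum_j (r : ℕ) : ∑ j ∈ range r, (j : ℝ) * (r - j) = r * (r ^ 2 - 1) / 6 := by
  have h1 : ∀ m : ℕ, ∑ j ∈ range m, (j : ℝ) = m * (m - 1) / 2 := by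
    intro m
    induction m with
    | zero => simp
    | succ m ih => rw [Finset.sum_range_succ, ih]; push_cast; ring
  have h2 : ∀ m : ℕ, ∑ j ∈ range m, (j : ℝ) ^ 2 = m * (m - 1) * (2 * m - 1) / 6 := by
    intro m
    induction m with
    | zero => simp
    | succ m ih => rw [Finset.sum_range_succ, ih]; push_cast; ring
  have h3 : ∑ j ∈ range r, (j : ℝ) * (r - j) = r * ∑ j ∈ range r, (j : ℝ) - ∑ j ∈ range r, (j : ℝ) ^ 2 := by
    rw [Finset.mul_sum, ← Finset.sum_sub_distrib]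
    exact Finset.sum_congr rfl (fun j _ => by ring)
  rw [h3, h1, h2]; ring

lemma cubic_ratio {r : ℕ} (hr : 2 ≤ r) {ρ : ℝ} (h0 : 0 ≤ ρ) :
    (2 - 4 / (r : ℝ) ^ 2) * P r ρ ≤ r * (1 + ρ ^ r) := by
  have hr0 : (2 : ℝ) ≤ r := by exact_mod_cast hr
  have hrp : (0 : ℝ) < r := by linarith
  have hP := P_nonneg r h0
  have hid := pair_identity r ρ
  have hpw : 0 ≤ ρ ^ r := pow_nonneg h0 r
  rcases le_or_gt 1 ρ with h1 | h1
  · have hs : 0 ≤ ∑ j ∈ range r, (1 - ρ ^ j) * (1 - ρ ^ (r - j)) := by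
      refine Finset.sum_nonneg (fun j _ => ?_)
      have a1 : 1 ≤ ρ ^ j := one_le_pow₀ h1
      have a2 : 1 ≤ ρ ^ (r - j) := one_le_pow₀ h1
      nlinarith
    have a3 : 1 ≤ ρ ^ r := one_le_pow₀ h1
    have a4 : 0 ≤ 4 / (r : ℝ) ^ 2 * P r ρ := by positivity
    linarith
  · rcases le_or_gt (2 * P r ρ) r with hG | hG
    · have a4 : 0 ≤ 4 / (r : ℝ) ^ 2 * P r ρ := by positivity
      have a5 : 0 ≤ (r : ℝ) * ρ ^ r := by positivity
      linarith
    · set δ := 1 - ρ with hδ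
      have hδ0 : 0 < δ := by linarith
      set Q := P r ρ with hQ
      have hQp : 0 < Q := by linarith
      have hterm : ∀ j ∈ range r, (j : ℝ) * (r - j) * (δ ^ 2 * Q ^ 2 / r ^ 2) ≤
          (1 - ρ ^ j) * (1 - ρ ^ (r - j)) := by
        intro j hj
        have hj' : j ≤ r := (Finset.mem_range.mp hj).le
        have b1 := ratio_ge r j hj' h0 h1.le
        have b2 := ratio_ge r (r - j) (by omega) h0 h1.le
        have e4 : ((r - j : ℕ) : ℝ) = r - j := by push_cast [hj']; ring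
        rw [e4] at b2
        have hrj : (0 : ℝ) ≤ r - j := by rw [← e4]; positivity
        rw [← hQ] at b1 b2
        rw [one_sub_pow_eq j, one_sub_pow_eq (r - j), ← hδ]
        have b3 : (j : ℝ) * Q * ((r - j) * Q) ≤ (r * P j ρ) * (r * P (r - j) ρ) :=
          mul_le_mul b1 b2 (by positivity) (mul_nonneg hrp.le (P_nonneg _ h0))
        have b4 : (j : ℝ) * (r - j) * (δ ^ 2 * Q ^ 2 / r ^ 2) = (j * Q * ((r - j) * Q)) * (δ ^ 2 / r ^ 2) := by
          ring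
        have b5 : δ * P j ρ * (δ * P (r - j) ρ) = ((r * P j ρ) * (r * P (r - j) ρ)) * (δ ^ 2 / r ^ 2) := by
          field_simp
        rw [b4, b5]
        exact mul_le_mul_of_nonneg_right b3 (by positivity)
      have hsum := Finset.sum_le_sum hterm
      rw [← hid, ← Finset.sum_mul, sum_j] at hsum
      have hδQ : 1 - ρ ^ r = δ * Q := by rw [one_sub_pow_eq, ← hδ, ← hQ]
      rw [hδQ] at hsum
      -- reduce
      have c1 : (r : ℝ) * (r ^ 2 - 1) / 6 * (δ ^ 2 * Q ^ 2 / r ^ 2) =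
          Q * ((r ^ 2 - 1) / (6 * r) * δ ^ 2 * Q) := by
        field_simp
      have c2 : (r ^ 2 - 1) / 12 * δ ^ 2 ≤ (r ^ 2 - 1) / (6 * r) * δ ^ 2 * Q := by
        have c3 : (r ^ 2 - 1) / 12 * δ ^ 2 = (r ^ 2 - 1) / (6 * r) * δ ^ 2 * (r / 2) := by
          field_simp; ring
        rw [c3]
        have : (0 : ℝ) ≤ (r ^ 2 - 1) / (6 * r) * δ ^ 2 := by
          have : (0 : ℝ) ≤ (r : ℝ) ^ 2 - 1 := by nlinarith
          positivity
        exact mul_le_mul_of_nonneg_left (by linarith) this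
      have c4 : 0 ≤ (r ^ 2 - 1) / 12 * δ ^ 2 - δ + 4 / (r : ℝ) ^ 2 := by
        have d1 : (0 : ℝ) < (r : ℝ) ^ 2 := by positivity
        have d2 : (r ^ 2 - 1) / 12 * δ ^ 2 - δ + 4 / (r : ℝ) ^ 2 =
            ((r : ℝ) ^ 2 * (r ^ 2 - 1) * δ ^ 2 - 12 * r ^ 2 * δ + 48) / (12 * r ^ 2) := by
          field_simp
          ring
        rw [d2]
        apply div_nonneg _ (by positivity)
        have d3 : (4 : ℝ) ≤ (r : ℝ) ^ 2 := by nlinarith
        nlinarith [sq_nonneg ((r : ℝ) ^ 2 * δ - 8), sq_nonneg ((r : ℝ) * δ), mul_nonneg (by linarith : (0:ℝ) ≤ (r:ℝ)^2 - 4) (sq_nonneg ((r : ℝ) * δ))]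
      have c5 : Q * δ ≤ Q * ((r ^ 2 - 1) / (6 * r) * δ ^ 2 * Q + 4 / (r : ℝ) ^ 2) :=
        mul_le_mul_of_nonneg_left (by linarith) hQp.le
      rw [c1] at hsum
      nlinarith

lemma cubic_bound {r : ℕ} (hr : 2 ≤ r) {n lam τ : ℝ} (hn : 0 < n) (hs : 0 ≤ lam + τ)
    (h : ((lam + τ) / n) ^ r ≤ (τ / n) * P r ((lam + τ) / n)) :
    lam - τ ≤ (1 - 2 / r + 4 / r ^ 3) * n := by
  have hr0 : (2 : ℝ) ≤ r := by exact_mod_cast hr
  have hrp : (0 : ℝ) < r := by linarith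
  set ρ := (lam + τ) / n with hρ
  have hρ0 : 0 ≤ ρ := by positivity
  have hPp : 0 < P r ρ := by
    obtain ⟨m, rfl⟩ : ∃ m, r = m + 1 := ⟨r - 1, by omega⟩
    exact P_pos m hρ0
  have h1 := cubic_ratio hr hρ0
  have h2 := one_sub_mul_P r ρ
  set Q := P r ρ with hQ
  -- (lam - τ)/n = ρ - 2 σ
  have e1 : lam - τ = n * (ρ - 2 * (τ / n)) := by
    rw [hρ]; field_simp; ring
  have h3 : (ρ - 2 * (τ / n)) * (r * Q) ≤ (1 - 2 / r + 4 / (r : ℝ) ^ 3) * (r * Q) := by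
    have e2 : (1 - 2 / r + 4 / (r : ℝ) ^ 3) * (r * Q) = r * Q - (2 - 4 / (r : ℝ) ^ 2) * Q := by
      field_simp
      ring
    rw [e2]
    have e3 : (ρ - 2 * (τ / n)) * (r * Q) = r * (ρ * Q) - 2 * r * ((τ / n) * Q) := by ring
    rw [e3]
    have e4 : ρ * Q = Q - 1 + ρ ^ r := by linarith
    rw [e4]
    nlinarith
  have h4 : ρ - 2 * (τ / n) ≤ 1 - 2 / r + 4 / (r : ℝ) ^ 3 := le_of_mul_le_mul_right h3 (by positivity)
  rw [e1, mul_comm]
  exact mul_le_mul_of_nonneg_right h4 hn.le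

lemma K4_bound {n lam τ : ℝ} (hn : 0 < n) (hs : 0 ≤ lam + τ)
    (h : ((lam + τ) / n) ^ 3 ≤ (τ / n) * P 3 ((lam + τ) / n)) :
    lam - τ ≤ (387 / 1000) * n := by
  set ρ := (lam + τ) / n with hρ
  have hρ0 : 0 ≤ ρ := by positivity
  have hPe : P 3 ρ = 1 + ρ + ρ ^ 2 := by simp [P]; ring
  rw [hPe] at h
  have hQ : 0 < 1 + ρ + ρ ^ 2 := by positivity
  have e1 : lam - τ = n * (ρ - 2 * (τ / n)) := by
    rw [hρ]; field_simp; ring
  have h3 : (ρ - 2 * (τ / n)) * (1 + ρ + ρ ^ 2) ≤ (387 / 1000) * (1 + ρ + ρ ^ 2) := by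
    have h4 : 0 ≤ (ρ - 7 / 10) ^ 2 * (ρ + 787 / 1000) := by positivity
    nlinarith
  have h4 : ρ - 2 * (τ / n) ≤ 387 / 1000 := le_of_mul_le_mul_right h3 hQ
  rw [e1, mul_comm]
  exact mul_le_mul_of_nonneg_right h4 hn.le

end Pool.Agent.Helper198.Brandt
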