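import Mathlib
import Pool.Agent.Helper198.BrandtA
import Pool.Agent.Helper198.BrandtB
import Pool.Agent.Helper198.BrandtC

namespace Pool.Agent.Helper198.Brandt

open Finset Matrix

variable {V : Type*} [Fintype V] [DecidableEq V] (G : SimpleGraph V) [DecidableRel G.Adj]

/-- the eigenvalues (with multiplicity) of the adjacency matrix of `G` -/
noncomputable def ev : V → ℝ := (G.isHermitian_adjMatrix ℝ).eigenvalues

/-- the largest adjacency eigenvalue of `G` -/
noncomputable def lamMax : ℝ := ⨆ i, ev G i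

/-- the smallest adjacency eigenvalue of `G` -/
noncomputable def lamMin : ℝ := ⨅ i, ev G i

lemma exists_eigenvector (i : V) : ∃ x : V → ℝ, x ⬝ᵥ x = 1 ∧ B G x x = ev G i := by
  set hA := G.isHermitian_adjMatrix ℝ with hhA
  have h1 : (hA.eigenvectorBasis i).ofLp ⬝ᵥ (hA.eigenvectorBasis i).ofLp = 1 := by
    have h := hA.eigenvectorBasis.orthonormal.1 i
    have h2 : inner ℝ (hA.eigenvectorBasis i) (hA.eigenvectorBasis i) = (1 : ℝ) := by
      rw [real_inner_self_eq_norm_sq, h]; norm_num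
    rw [EuclideanSpace.inner_eq_star_dotProduct] at h2
    simpa using h2
  refine ⟨(hA.eigenvectorBasis i).ofLp, h1, ?_⟩
  unfold B
  have h2 := hA.mulVec_eigenvectorBasis i
  rw [h2, dotProduct_smul, h1]
  simp [ev]

lemma rayleigh (y : V → ℝ) :
    ∃ c : V → ℝ, y ⬝ᵥ y = ∑ i, c i ^ 2 ∧ B G y y = ∑ i, ev G i * c i ^ 2 := by
  set hA := G.isHermitian_adjMatrix ℝ with hhA
  set v : V → (V → ℝ) := fun i => (hA.eigenvectorBasis i).ofLp with hv
  have key : ∀ z : V → ℝ, y ⬝ᵥ z = ∑ i, (v i ⬝ᵥ y) * (v i ⬝ᵥ z) := by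
    intro z
    have h := hA.eigenvectorBasis.sum_inner_mul_inner (WithLp.toLp 2 y) (WithLp.toLp 2 z)
    simp only [EuclideanSpace.inner_eq_star_dotProduct, star_trivial] at h
    rw [dotProduct_comm y z, ← h]
    refine Finset.sum_congr rfl (fun i _ => ?_)
    rw [hv, dotProduct_comm z]
  have hsym : ∀ i, v i ⬝ᵥ (G.adjMatrix ℝ *ᵥ y) = ev G i * (v i ⬝ᵥ y) := by
    intro i
    have h1 : B G (v i) y = B G y (v i) := B_symm G _ _
    have h2 : G.adjMatrix ℝ *ᵥ (v i) = ev G i • v i := hA.mulVec_eigenvectorBasis i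
    unfold B at h1
    rw [h1, h2, dotProduct_smul, smul_eq_mul, dotProduct_comm]
  refine ⟨fun i => v i ⬝ᵥ y, ?_, ?_⟩
  · rw [key y]
    exact Finset.sum_congr rfl (fun i _ => by ring)
  · unfold B
    rw [key]
    refine Finset.sum_congr rfl (fun i _ => ?_)
    rw [hsym]; ring

lemma ev_le_lamMax (i : V) : ev G i ≤ lamMax G :=
  le_ciSup (Set.finite_range (ev G)).bddAbove i

lemma lamMin_le_ev (i : V) : lamMin G ≤ ev G i :=
  ciInf_le (Set.finite_range (ev G)).bddBelow i

lemma B_le (y : V → ℝ) : B G y y ≤ lamMax G * (y ⬝ᵥ y) := by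
  obtain ⟨c, h1, h2⟩ := rayleigh G y
  rw [h1, h2, Finset.mul_sum]
  exact Finset.sum_le_sum (fun i _ => mul_le_mul_of_nonneg_right (ev_le_lamMax G i) (sq_nonneg _))

lemma le_B (y : V → ℝ) : lamMin G * (y ⬝ᵥ y) ≤ B G y y := by
  obtain ⟨c, h1, h2⟩ := rayleigh G y
  rw [h1, h2, Finset.mul_sum]
  exact Finset.sum_le_sum (fun i _ => mul_le_mul_of_nonneg_right (lamMin_le_ev G i) (sq_nonneg _))

lemma exists_max_vec [Nonempty V] : ∃ x : V → ℝ, x ⬝ᵥ x = 1 ∧ B G x x = lamMax G := by
  obtain ⟨i, hi⟩ := exists_eq_ciSup_of_finite (f := ev G)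
  obtain ⟨x, h1, h2⟩ := exists_eigenvector G i
  exact ⟨x, h1, by rw [h2, hi]; rfl⟩

lemma exists_min_vec [Nonempty V] : ∃ x : V → ℝ, x ⬝ᵥ x = 1 ∧ B G x x = lamMin G := by
  obtain ⟨i, hi⟩ := exists_eq_ciInf_of_finite (f := ev G)
  obtain ⟨x, h1, h2⟩ := exists_eigenvector G i
  exact ⟨x, h1, by rw [h2, hi]; rfl⟩

lemma lamMin_nonpos [Nonempty V] : lamMin G ≤ 0 := by
  obtain ⟨u⟩ := (inferInstance : Nonempty V)
  have h := le_B G (Pi.single u 1)
  have e1 : B G (Pi.single u 1) (Pi.single u 1) = 0 := by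
    unfold B
    simp [SimpleGraph.adjMatrix_apply]
  rw [e1] at h
  simpa using h

lemma lamMax_nonneg [Nonempty V] : 0 ≤ lamMax G := by
  obtain ⟨u⟩ := (inferInstance : Nonempty V)
  have h := B_le G (Pi.single u 1)
  have e1 : B G (Pi.single u 1) (Pi.single u 1) = 0 := by
    unfold B
    simp [SimpleGraph.adjMatrix_apply]
  rw [e1] at h
  simpa using h

/-- if the smallest eigenvalue is zero then the graph is empty and the largest one vanishes -/
lemma lamMax_of_lamMin_zero [Nonempty V] (h0 : lamMin G = 0) : lamMax G = 0 := by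
  have hadj : ∀ u w, ¬ G.Adj u w := by
    intro u w huw
    have hne := huw.ne
    have h := le_B G (Pi.single u 1 + (-1 : ℝ) • Pi.single w 1)
    rw [h0, zero_mul, B_add_smul] at h
    have e1 : B G (Pi.single u 1) (Pi.single u 1) = 0 := by
      unfold B
      simp [SimpleGraph.adjMatrix_apply]
    have e2 : B G (Pi.single w 1) (Pi.single w 1) = 0 := by
      unfold B
      simp [SimpleGraph.adjMatrix_apply]
    have e3 : B G (Pi.single u 1) (Pi.single w 1) = 1 := by
      unfold B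
      simp [SimpleGraph.adjMatrix_apply, huw]
    rw [e1, e2, e3] at h
    norm_num at h
  obtain ⟨x, h1, h2⟩ := exists_max_vec G
  rw [← h2, B_sum]
  refine Finset.sum_eq_zero (fun i _ => Finset.sum_eq_zero (fun j _ => ?_))
  rw [if_neg (hadj i j)]

/-- main inequality in both forms -/
theorem core [Nonempty V] {r : ℕ} (hr : 1 ≤ r) (hG : G.CliqueFree (r + 1)) :
    (0 < lamMax G - lamMin G ∧
      lamMax G - lamMin G ≤ (-lamMin G) * P r ((Fintype.card V : ℝ) / (lamMax G - lamMin G))) ∨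
    (lamMax G = 0 ∧ lamMin G = 0) := by
  rcases (lamMin_nonpos G).eq_or_lt with h0 | h0
  · right; exact ⟨lamMax_of_lamMin_zero G h0, h0⟩
  · left
    have hmax := lamMax_nonneg G
    have hs : 0 < lamMax G - lamMin G := by linarith
    refine ⟨hs, ?_⟩
    obtain ⟨x, h1, h2⟩ := exists_max_vec G
    obtain ⟨k, rfl⟩ : ∃ k, r = k + 1 := ⟨r - 1, by omega⟩
    have h3 := step_main G (τ := - lamMin G) (by linarith) (fun y => by have := le_B G y; linarith) k
      Finset.univ (by
        intro T _ hT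
        by_contra hcon
        push Not at hcon
        obtain ⟨T', hT', hcard⟩ := Finset.exists_subset_card_eq (show k + 1 + 1 ≤ T.card by omega)
        exact hG T' ⟨hT.subset (by exact_mod_cast hT'), hcard⟩)
      x (lamMax G - lamMin G) (fun i hi => absurd (Finset.mem_univ i) hi) (by rw [h1]; norm_num) hs
      (by rw [h1, h2]; linarith)
    rwa [Finset.card_univ] at h3

theorem upper [Nonempty V] {r : ℕ} (hr : 2 ≤ r) (hG : G.CliqueFree (r + 1)) :
    (Fintype.card V : ℝ) ≤ ((Fintype.card V : ℝ) - lamMax G) *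
        ∑ j ∈ range r, ((lamMax G - lamMin G) / (Fintype.card V : ℝ)) ^ j ∧
      lamMax G + lamMin G ≤ (1 - 2 / r + 4 / r ^ 3) * (Fintype.card V : ℝ) ∧
      lamMax G + lamMin G ≤ (5 - 4 / r - 4 * Real.sqrt (1 - 1 / r)) * (Fintype.card V : ℝ) ∧
      (r = 3 → lamMax G + lamMin G ≤ (387 / 1000) * (Fintype.card V : ℝ)) := by
  have hn : (0 : ℝ) < (Fintype.card V : ℝ) := by exact_mod_cast Fintype.card_pos
  set n : ℝ := (Fintype.card V : ℝ) with hnn
  have hr0 : (2 : ℝ) ≤ r := by exact_mod_cast hr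
  rcases core G (by omega : 1 ≤ r) hG with ⟨hs, h⟩ | ⟨h1, h2⟩
  · have hτ := lamMin_nonpos G
    have e : lamMax G - lamMin G = lamMax G + (- lamMin G) := by ring
    rw [e] at hs h
    rw [e]
    have hrho := rho_form hn hs h
    have hq := quad_form hr hn hs (by linarith : 0 ≤ - lamMin G) h
    refine ⟨?_, ?_, ?_, ?_⟩
    · have := main_form hn hrho
      rwa [P_eq] at this
    · have := cubic_bound hr hn hs.le hrho
      simpa using this
    · have := sqrt_bound hr hn hs.le (by linarith) hq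
      simpa using this
    · rintro rfl
      have := K4_bound hn hs.le hrho
      simpa using this
  · rw [h1, h2]
    refine ⟨?_, ?_, ?_, ?_⟩
    · obtain ⟨m, rfl⟩ : ∃ m, r = m + 1 := ⟨r - 1, by omega⟩
      rw [Finset.sum_range_succ']
      simp
    · have a1 : (2 : ℝ) / r ≤ 1 := by rw [div_le_one (by linarith)]; exact hr0
      have a2 : (0 : ℝ) ≤ 4 / r ^ 3 := by positivity
      rw [add_zero]
      exact mul_nonneg (by linarith) hn.le
    · rw [add_zero]
      refine mul_nonneg ?_ hn.le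
      have hrp : (0 : ℝ) < r := by linarith
      have a1 : (2 : ℝ) / r ≤ 1 := by rw [div_le_one hrp]; exact hr0
      have a3 : (1 : ℝ) / r = (2 / r) / 2 := by ring
      have a4 : (4 : ℝ) / r = (2 / r) * 2 := by ring
      have a5 : Real.sqrt (1 - 1 / (r : ℝ)) ≤ 1 - (1 / r) / 2 := by
        rw [show (1 : ℝ) - (1 / r) / 2 = Real.sqrt ((1 - (1 / r) / 2) ^ 2) by
          rw [Real.sqrt_sq]; rw [a3]; linarith]
        apply Real.sqrt_le_sqrt
        nlinarith [sq_nonneg ((1 : ℝ) / r)]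
      rw [a4]
      rw [a3] at a5
      have : (1 : ℝ) / r = (2 / r) / 2 := a3
      rw [this]
      linarith
    · intro _
      rw [add_zero]; positivity

end Pool.Agent.Helper198.Brandt
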