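import Mathlib
import Pool.Agent.Helper198.BrandtD

namespace Pool.Agent.Helper198.Brandt

open Finset Matrix

lemma count_eq (n r i : ℕ) :
    ∑ j : Fin n, (if i % r = (j : ℕ) % r then (1:ℝ) else 0) = (Nat.count (fun k => k ≡ i [MOD r]) n : ℝ) := by
  rw [Fin.sum_univ_eq_sum_range (fun k => if i % r = k % r then (1:ℝ) else 0) n,
    Nat.count_eq_card_filter_range, Finset.card_filter, Nat.cast_sum]
  refine Finset.sum_congr rfl (fun k _ => ?_)
  by_cases h : i % r = k % r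
  · have h' : k ≡ i [MOD r] := h.symm
    rw [if_pos h, if_pos h']; simp
  · have h' : ¬ k ≡ i [MOD r] := fun h'' => h (Eq.symm h'')
    rw [if_neg h, if_neg h']; simp

lemma count_le {n r : ℕ} (hr : 0 < r) (i : ℕ) :
    ∑ j : Fin n, (if i % r = (j : ℕ) % r then (1:ℝ) else 0) ≤ ((n : ℝ) + r - 1) / r := by
  have hrp : (0 : ℝ) < r := by exact_mod_cast hr
  rw [count_eq, Nat.count_modEq_card _ hr, le_div_iff₀ hrp]
  have h1 := Nat.div_add_mod n r
  have h2 : r * (n / r) ≤ n := Nat.mul_div_le n r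
  split_ifs with h
  · have h3 : (n / r + 1) * r + 1 ≤ n + r := by
      have : 1 ≤ n % r := by omega
      nlinarith
    have h4 : (((n / r + 1 : ℕ) : ℝ)) * r + 1 ≤ n + r := by exact_mod_cast h3
    linarith
  · have h3 : (n / r + 0) * r + 1 ≤ n + r := by nlinarith
    have h4 : (((n / r + 0 : ℕ) : ℝ)) * r + 1 ≤ n + r := by exact_mod_cast h3
    linarith

lemma count_dvd {n r : ℕ} (hr : 0 < r) (hd : r ∣ n) (i : ℕ) :
    ∑ j : Fin n, (if i % r = (j : ℕ) % r then (1:ℝ) else 0) = (n : ℝ) / r := by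
  have hrp : (0 : ℝ) < r := by exact_mod_cast hr
  rw [count_eq, Nat.count_modEq_card _ hr, Nat.mod_eq_zero_of_dvd hd]
  simp only [not_lt_zero, if_false, add_zero]
  obtain ⟨m, rfl⟩ := hd
  rw [Nat.mul_div_cancel_left _ hr]
  push_cast
  field_simp

lemma turan_B (n r : ℕ) [DecidableRel (SimpleGraph.turanGraph n r).Adj] (x : Fin n → ℝ) :
    B (SimpleGraph.turanGraph n r) x x = (∑ i, x i) ^ 2 -
      ∑ i : Fin n, ∑ j : Fin n, (if (i : ℕ) % r = (j : ℕ) % r then x i * x j else 0) := by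
  rw [B_sum, sq, Finset.sum_mul_sum, ← Finset.sum_sub_distrib]
  refine Finset.sum_congr rfl (fun i _ => ?_)
  rw [← Finset.sum_sub_distrib]
  refine Finset.sum_congr rfl (fun j _ => ?_)
  by_cases h : (i : ℕ) % r = (j : ℕ) % r
  · rw [if_pos h, if_neg (by rw [SimpleGraph.turanGraph_adj]; exact fun h' => h' h)]; ring
  · rw [if_neg h, if_pos (by rw [SimpleGraph.turanGraph_adj]; exact h)]; ring

lemma same_le {n r : ℕ} {M : ℝ}
    (hM : ∀ i : Fin n, ∑ j : Fin n, (if (i : ℕ) % r = (j : ℕ) % r then (1:ℝ) else 0) ≤ M)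
    (x : Fin n → ℝ) :
    ∑ i : Fin n, ∑ j : Fin n, (if (i : ℕ) % r = (j : ℕ) % r then x i * x j else 0) ≤ M * (x ⬝ᵥ x) := by
  have h1 : ∑ i : Fin n, ∑ j : Fin n, (if (i : ℕ) % r = (j : ℕ) % r then x i ^ 2 else 0) ≤ M * (x ⬝ᵥ x) := by
    unfold dotProduct
    rw [Finset.mul_sum]
    refine Finset.sum_le_sum (fun i _ => ?_)
    have : ∑ j : Fin n, (if (i : ℕ) % r = (j : ℕ) % r then x i ^ 2 else 0)
        = (∑ j : Fin n, (if (i : ℕ) % r = (j : ℕ) % r then (1:ℝ) else 0)) * (x i * x i) := by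
      rw [Finset.sum_mul]
      refine Finset.sum_congr rfl (fun j _ => ?_)
      split_ifs <;> ring
    rw [this]
    exact mul_le_mul_of_nonneg_right (hM i) (mul_self_nonneg _)
  have h2 : ∑ i : Fin n, ∑ j : Fin n, (if (i : ℕ) % r = (j : ℕ) % r then x j ^ 2 else 0)
      = ∑ i : Fin n, ∑ j : Fin n, (if (i : ℕ) % r = (j : ℕ) % r then x i ^ 2 else 0) := by
    rw [Finset.sum_comm]
    refine Finset.sum_congr rfl (fun i _ => Finset.sum_congr rfl (fun j _ => ?_))
    by_cases h : (i : ℕ) % r = (j : ℕ) % r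
    · rw [if_pos h, if_pos h.symm]
    · rw [if_neg h, if_neg (fun h' => h h'.symm)]
  have h3 : 2 * ∑ i : Fin n, ∑ j : Fin n, (if (i : ℕ) % r = (j : ℕ) % r then x i * x j else 0) ≤
      ∑ i : Fin n, ∑ j : Fin n, (if (i : ℕ) % r = (j : ℕ) % r then x i ^ 2 else 0) +
      ∑ i : Fin n, ∑ j : Fin n, (if (i : ℕ) % r = (j : ℕ) % r then x j ^ 2 else 0) := by
    rw [Finset.mul_sum, ← Finset.sum_add_distrib]
    refine Finset.sum_le_sum (fun i _ => ?_)
    rw [Finset.mul_sum, ← Finset.sum_add_distrib]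
    refine Finset.sum_le_sum (fun j _ => ?_)
    split_ifs
    · nlinarith [sq_nonneg (x i - x j)]
    · simp
  linarith

lemma turan_gen {n r : ℕ} (hn : 0 < n) [DecidableRel (SimpleGraph.turanGraph n r).Adj] {M : ℝ}
    (hM : ∀ i : Fin n, ∑ j : Fin n, (if (i : ℕ) % r = (j : ℕ) % r then (1:ℝ) else 0) ≤ M) :
    (n : ℝ) - M ≤ lamMax (SimpleGraph.turanGraph n r) ∧ -M ≤ lamMin (SimpleGraph.turanGraph n r) := by
  have : Nonempty (Fin n) := ⟨⟨0, hn⟩⟩
  have hnp : (0 : ℝ) < n := by exact_mod_cast hn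
  constructor
  · have h1 := B_le (SimpleGraph.turanGraph n r) (fun _ => (1 : ℝ))
    rw [turan_B] at h1
    have h2 := same_le hM (fun _ => (1 : ℝ))
    have e1 : (fun _ : Fin n => (1 : ℝ)) ⬝ᵥ (fun _ => (1 : ℝ)) = n := by simp [dotProduct]
    rw [e1] at h1 h2
    have e2 : (∑ _i : Fin n, (1 : ℝ)) = n := by simp
    rw [e2] at h1
    have h3 : ((n : ℝ) - M) * n ≤ lamMax (SimpleGraph.turanGraph n r) * n := by nlinarith
    exact le_of_mul_le_mul_right h3 hnp
  · obtain ⟨x, hx1, hx2⟩ := exists_min_vec (SimpleGraph.turanGraph n r)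
    rw [← hx2, turan_B]
    have h2 := same_le hM x
    rw [hx1] at h2
    have := sq_nonneg (∑ i, x i)
    linarith

lemma turan_upper {n r : ℕ} (hn : 0 < n) (hr : 0 < r) (hd : r ∣ n)
    [DecidableRel (SimpleGraph.turanGraph n r).Adj] :
    lamMax (SimpleGraph.turanGraph n r) ≤ (n : ℝ) - n / r := by
  have : Nonempty (Fin n) := ⟨⟨0, hn⟩⟩
  obtain ⟨x, hx1, hx2⟩ := exists_max_vec (SimpleGraph.turanGraph n r)
  rw [← hx2, B_sum]
  have hdeg : ∀ i : Fin n, ∑ j : Fin n, (if (SimpleGraph.turanGraph n r).Adj i j then (1:ℝ) else 0) = (n : ℝ) - n / r := by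
    intro i
    rw [← count_dvd hr hd i]
    have : (n : ℝ) = ∑ _j : Fin n, (1 : ℝ) := by simp
    rw [eq_sub_iff_add_eq]
    conv_rhs => rw [this]
    rw [← Finset.sum_add_distrib]
    refine Finset.sum_congr rfl (fun j _ => ?_)
    by_cases h : (i : ℕ) % r = (j : ℕ) % r
    · rw [if_pos h, if_neg (by rw [SimpleGraph.turanGraph_adj]; exact fun h' => h' h)]; ring
    · rw [if_neg h, if_pos (by rw [SimpleGraph.turanGraph_adj]; exact h)]; ring
  have h1 : ∑ i : Fin n, ∑ j : Fin n, (if (SimpleGraph.turanGraph n r).Adj i j then x i ^ 2 else 0) = ((n : ℝ) - n / r) := by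
    have : ∀ i : Fin n, ∑ j : Fin n, (if (SimpleGraph.turanGraph n r).Adj i j then x i ^ 2 else 0) = ((n : ℝ) - n / r) * (x i * x i) := by
      intro i
      rw [← hdeg i, Finset.sum_mul]
      refine Finset.sum_congr rfl (fun j _ => ?_)
      split_ifs <;> ring
    rw [Finset.sum_congr rfl (fun i _ => this i), ← Finset.mul_sum]
    have : ∑ i, x i * x i = 1 := hx1
    rw [this, mul_one]
  have h2 : ∑ i : Fin n, ∑ j : Fin n, (if (SimpleGraph.turanGraph n r).Adj i j then x j ^ 2 else 0) = ((n : ℝ) - n / r) := by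
    rw [← h1, Finset.sum_comm]
    refine Finset.sum_congr rfl (fun i _ => Finset.sum_congr rfl (fun j _ => ?_))
    by_cases h : (SimpleGraph.turanGraph n r).Adj i j
    · rw [if_pos h, if_pos h.symm]
    · rw [if_neg h, if_neg (fun h' => h h'.symm)]
  have h3 : 2 * ∑ i : Fin n, ∑ j : Fin n, (if (SimpleGraph.turanGraph n r).Adj i j then x i * x j else 0) ≤
      ∑ i : Fin n, ∑ j : Fin n, (if (SimpleGraph.turanGraph n r).Adj i j then x i ^ 2 else 0) +
      ∑ i : Fin n, ∑ j : Fin n, (if (SimpleGraph.turanGraph n r).Adj i j then x j ^ 2 else 0) := by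
    rw [Finset.mul_sum, ← Finset.sum_add_distrib]
    refine Finset.sum_le_sum (fun i _ => ?_)
    rw [Finset.mul_sum, ← Finset.sum_add_distrib]
    refine Finset.sum_le_sum (fun j _ => ?_)
    split_ifs
    · nlinarith [sq_nonneg (x i - x j)]
    · simp
  linarith

lemma P_strict {r : ℕ} (hr : 2 ≤ r) {z : ℝ} (hz0 : 0 ≤ z) (h : (r : ℝ) ≤ P r z) : 1 ≤ z := by
  by_contra hcon
  push Not at hcon
  obtain ⟨m, rfl⟩ : ∃ m, r = m + 2 := ⟨r - 2, by omega⟩
  have h1 : P (m + 2) z = 1 + z * P (m + 1) z := rfl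
  have h2 := P_mono (m + 1) hz0 hcon.le
  rw [P_one] at h2
  have h3 := P_pos m hz0
  rw [h1] at h
  push_cast at h h2
  nlinarith

open Classical in
/-- `f_r(n)`: the largest value of `λ₁ + λₙ` over the `K_{r+1}`-free graphs on `n` vertices -/
noncomputable def f (r n : ℕ) : ℝ :=
  ⨆ G : {G : SimpleGraph (Fin n) // G.CliqueFree (r + 1)}, (lamMax G.1 + lamMin G.1)

lemma f_le {r n : ℕ} {c : ℝ} (hr : 1 ≤ r)
    (h : ∀ (G : SimpleGraph (Fin n)) [DecidableRel G.Adj], G.CliqueFree (r + 1) → lamMax G + lamMin G ≤ c) :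
    f r n ≤ c := by
  classical
  have : Nonempty {G : SimpleGraph (Fin n) // G.CliqueFree (r + 1)} :=
    ⟨⟨⊥, SimpleGraph.cliqueFree_bot (by omega)⟩⟩
  unfold f
  exact ciSup_le (fun G => h G.1 G.2)

lemma le_f {r n : ℕ} (G : SimpleGraph (Fin n)) (hG : G.CliqueFree (r + 1)) {c : ℝ}
    (h : ∀ [DecidableRel G.Adj], c ≤ lamMax G + lamMin G) : c ≤ f r n := by
  classical
  unfold f
  have := le_ciSup (f := fun G : {G : SimpleGraph (Fin n) // G.CliqueFree (r + 1)} =>
    (lamMax G.1 + lamMin G.1)) (Set.finite_range _).bddAbove ⟨G, hG⟩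
  refine le_trans h ?_
  convert this

/-- the largest and smallest eigenvalue of the balanced Turan graph -/
lemma turan_exact {n r : ℕ} (hn : 0 < n) (hr : 2 ≤ r) (hd : r ∣ n)
    [DecidableRel (SimpleGraph.turanGraph n r).Adj] :
    lamMax (SimpleGraph.turanGraph n r) = (n : ℝ) - n / r ∧
      lamMin (SimpleGraph.turanGraph n r) = -((n : ℝ) / r) := by
  have : Nonempty (Fin n) := ⟨⟨0, hn⟩⟩
  have hnp : (0 : ℝ) < n := by exact_mod_cast hn
  have hr0 : 0 < r := by omega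
  have hrp : (0 : ℝ) < r := by exact_mod_cast hr0
  obtain ⟨h1, h2⟩ := turan_gen hn (M := (n : ℝ) / r) (fun i => (count_dvd hr0 hd i).le)
  have h3 := turan_upper hn hr0 hd
  have h4 : lamMax (SimpleGraph.turanGraph n r) = (n : ℝ) - n / r := le_antisymm h3 h1
  refine ⟨h4, le_antisymm ?_ h2⟩
  have h5 := (upper (SimpleGraph.turanGraph n r) hr (SimpleGraph.turanGraph_cliqueFree hr0)).1
  rw [← P_eq, h4, Fintype.card_fin] at h5
  have hmin := lamMin_nonpos (SimpleGraph.turanGraph n r)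
  have h6 : (r : ℝ) ≤ P r (((n : ℝ) - n / r - lamMin (SimpleGraph.turanGraph n r)) / n) := by
    have e1 : (n : ℝ) - (n - n / r) = n / r := by ring
    rw [e1] at h5
    have e2 : (n : ℝ) = n / r * r := by field_simp
    have h7 : (n : ℝ) / r * r ≤ n / r * P r (((n : ℝ) - n / r - lamMin (SimpleGraph.turanGraph n r)) / n) := by
      rw [← e2]; exact h5
    exact le_of_mul_le_mul_left h7 (by positivity)
  have h8 : 0 ≤ ((n : ℝ) - n / r - lamMin (SimpleGraph.turanGraph n r)) / n := by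
    apply div_nonneg _ hnp.le
    have : (n : ℝ) / r ≤ n := div_le_self hnp.le (by exact_mod_cast hr0)
    linarith
  have h9 := P_strict hr h8 h6
  rw [le_div_iff₀ hnp] at h9
  linarith

lemma f_lower {r n : ℕ} (hr : 1 ≤ r) (hn : 0 < n) : (1 - 2 / (r : ℝ)) * n - 2 ≤ f r n := by
  refine le_f (SimpleGraph.turanGraph n r) (SimpleGraph.turanGraph_cliqueFree (by omega)) ?_
  intro inst
  have hrp : (0 : ℝ) < r := by exact_mod_cast (show 0 < r by omega)
  obtain ⟨h1, h2⟩ := turan_gen hn (M := ((n : ℝ) + r - 1) / r) (fun i => count_le (by omega) i)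
  have h3 : (1 - 2 / (r : ℝ)) * n - 2 ≤ n - 2 * (((n : ℝ) + r - 1) / r) := by
    have : n - 2 * (((n : ℝ) + r - 1) / r) - ((1 - 2 / (r : ℝ)) * n - 2) = 2 / r := by
      field_simp; ring
    have h4 : (0 : ℝ) ≤ 2 / r := by positivity
    linarith
  linarith

lemma f_lower_dvd {r n : ℕ} (hr : 2 ≤ r) (hn : 0 < n) (hd : r ∣ n) : (1 - 2 / (r : ℝ)) * n ≤ f r n := by
  refine le_f (SimpleGraph.turanGraph n r) (SimpleGraph.turanGraph_cliqueFree (by omega)) ?_
  intro inst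
  obtain ⟨h1, h2⟩ := turan_exact hn hr hd
  rw [h1, h2]
  apply le_of_eq; ring

end Pool.Agent.Helper198.Brandt
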