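import Mathlib
set_option autoImplicit false
open Finset

namespace Pool.Agent.Helper198.Brandt


open Classical in
/-- partial transversals -/
noncomputable def TT {V ι : Type*} [Fintype V] [Fintype ι] (G : SimpleGraph V)
    (C : ι → Finset V) (v0 : V) (S : Finset ι) : Finset (ι → V) :=
  univ.filter (fun t => (∀ i ∈ S, t i ∈ C i) ∧ (∀ i, i ∉ S → t i = v0) ∧
    ∀ i ∈ S, ∀ j ∈ S, i ≠ j → G.Adj (t i) (t j))

theorem mem_TT {V ι : Type*} [Fintype V] [Fintype ι] (G : SimpleGraph V)
    (C : ι → Finset V) (v0 : V) (S : Finset ι) (t : ι → V) :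
    t ∈ TT G C v0 S ↔ (∀ i ∈ S, t i ∈ C i) ∧ (∀ i, i ∉ S → t i = v0) ∧
      ∀ i ∈ S, ∀ j ∈ S, i ≠ j → G.Adj (t i) (t j) := by
  classical
  unfold TT
  rw [Finset.mem_filter]
  simp only [Finset.mem_univ, true_and]

theorem TT_remove {V ι : Type*} [Fintype V] [DecidableEq V] [Fintype ι] [DecidableEq ι]
    (G : SimpleGraph V) (C : ι → Finset V) (v0 : V) (S : Finset ι) (j : ι) (w' : V) :
    ((TT G C v0 S).filter (fun t => t j = w')).card ≤ (TT G C v0 (S.erase j)).card := by
  refine Finset.card_le_card_of_injOn (fun t => Function.update t j v0) ?_ ?_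
  · intro t ht
    have ht1 := Finset.mem_coe.mp ht
    rw [Finset.mem_filter, mem_TT] at ht1
    obtain ⟨⟨h1, h2, h3⟩, _⟩ := ht1
    rw [Finset.mem_coe, mem_TT]
    beta_reduce
    refine ⟨?_, ?_, ?_⟩
    · intro i hi
      rw [Finset.mem_erase] at hi
      rw [Function.update_of_ne hi.1]
      exact h1 i hi.2
    · intro i hi
      by_cases hij : i = j
      · rw [hij, Function.update_self]
      · rw [Function.update_of_ne hij]
        apply h2
        intro hiS
        exact hi (Finset.mem_erase.mpr ⟨hij, hiS⟩)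
    · intro i hi i' hi' hii
      rw [Finset.mem_erase] at hi hi'
      rw [Function.update_of_ne hi.1, Function.update_of_ne hi'.1]
      exact h3 i hi.2 i' hi'.2 hii
  · intro t ht t' ht' htt
    have ht1 := (Finset.mem_filter.mp (Finset.mem_coe.mp ht)).2
    have ht2 := (Finset.mem_filter.mp (Finset.mem_coe.mp ht')).2
    funext i
    by_cases hij : i = j
    · rw [hij, ht1, ht2]
    · have := congrFun htt i
      simp only [Function.update_of_ne hij] at this
      exact this

theorem TT_add {V ι : Type*} [Fintype V] [DecidableEq V] [Fintype ι] [DecidableEq ι]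
    (G : SimpleGraph V) [DecidableRel G.Adj] (C : ι → Finset V) (v0 : V) (S : Finset ι) (k : ι)
    (hkS : k ∈ S) (w : V) (hw : w ∈ C k) :
    ((TT G C v0 (S.erase k)).filter (fun t => ∀ j ∈ S.erase k, G.Adj w (t j))).card ≤
      ((TT G C v0 S).filter (fun t => t k = w)).card := by
  refine Finset.card_le_card_of_injOn (fun t => Function.update t k w) ?_ ?_
  · intro t ht
    have ht1 := Finset.mem_coe.mp ht
    rw [Finset.mem_filter, mem_TT] at ht1
    obtain ⟨⟨h1, h2, h3⟩, h4⟩ := ht1
    rw [Finset.mem_coe, Finset.mem_filter, mem_TT]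
    beta_reduce
    refine ⟨⟨?_, ?_, ?_⟩, Function.update_self k w t⟩
    · intro i hi
      by_cases hik : i = k
      · rw [hik, Function.update_self]
        exact hw
      · rw [Function.update_of_ne hik]
        exact h1 i (Finset.mem_erase.mpr ⟨hik, hi⟩)
    · intro i hi
      have hik : i ≠ k := fun h => hi (h ▸ hkS)
      rw [Function.update_of_ne hik]
      exact h2 i (fun h => hi (Finset.mem_erase.mp h).2)
    · intro i hi i' hi' hii
      by_cases hik : i = k
      · by_cases hik' : i' = k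
        · exact absurd (hik.trans hik'.symm) hii
        · rw [hik, Function.update_self, Function.update_of_ne hik']
          exact h4 i' (Finset.mem_erase.mpr ⟨hik', hi'⟩)
      · by_cases hik' : i' = k
        · rw [hik', Function.update_self, Function.update_of_ne hik]
          exact (h4 i (Finset.mem_erase.mpr ⟨hik, hi⟩)).symm
        · rw [Function.update_of_ne hik, Function.update_of_ne hik']
          exact h3 i (Finset.mem_erase.mpr ⟨hik, hi⟩) i' (Finset.mem_erase.mpr ⟨hik', hi'⟩) hii
  · intro t ht t' ht' htt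
    have ht1 := (Finset.mem_filter.mp (Finset.mem_coe.mp ht)).1
    have ht2 := (Finset.mem_filter.mp (Finset.mem_coe.mp ht')).1
    rw [mem_TT] at ht1 ht2
    funext i
    by_cases hik : i = k
    · rw [hik, ht1.2.1 k (Finset.notMem_erase k S), ht2.2.1 k (Finset.notMem_erase k S)]
    · have := congrFun htt i
      simp only [Function.update_of_ne hik] at this
      exact this

theorem TT_step {V ι : Type*} [Fintype V] [DecidableEq V] [Fintype ι] [DecidableEq ι]
    (G : SimpleGraph V) [DecidableRel G.Adj] (C : ι → Finset V) (v0 : V) (N Δ : ℕ) (hN : 0 < N)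
    (h4 : 4 * Δ ≤ N) (hsize : ∀ i, (C i).card = N)
    (hdeg : ∀ i, ∀ v ∈ C i,
      ∑ j ∈ univ.erase i, ((C j).filter (fun w => ¬ G.Adj v w)).card ≤ Δ) (n : ℕ) :
    ∀ S : Finset ι, S.card = n → ∀ k ∈ S,
      N * (TT G C v0 (S.erase k)).card ≤ 2 * (TT G C v0 S).card := by
  induction n using Nat.strong_induction_on with
  | _ n ih =>
  intro S hS k hk
  obtain ⟨S', hS'⟩ : ∃ S', S' = S.erase k := ⟨_, rfl⟩
  rw [← hS']
  have hcard : S'.card < n := by
    rw [hS', ← hS]
    exact Finset.card_erase_lt_of_mem hk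
  have h1 : ∀ w ∈ C k, (TT G C v0 S').card ≤
      ((TT G C v0 S').filter (fun t => ∀ j ∈ S', G.Adj w (t j))).card +
        ∑ j ∈ S', ((TT G C v0 S').filter (fun t => ¬ G.Adj w (t j))).card := by
    intro w _
    have hsub : TT G C v0 S' ⊆ (TT G C v0 S').filter (fun t => ∀ j ∈ S', G.Adj w (t j)) ∪
        S'.biUnion (fun j => (TT G C v0 S').filter (fun t => ¬ G.Adj w (t j))) := by
      intro t ht
      by_cases hg : ∀ j ∈ S', G.Adj w (t j)
      · exact Finset.mem_union_left _ (Finset.mem_filter.mpr ⟨ht, hg⟩)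
      · push Not at hg
        obtain ⟨j, hj, hj2⟩ := hg
        exact Finset.mem_union_right _ (Finset.mem_biUnion.mpr
          ⟨j, hj, Finset.mem_filter.mpr ⟨ht, hj2⟩⟩)
    refine (Finset.card_le_card hsub).trans ((Finset.card_union_le _ _).trans ?_)
    exact Nat.add_le_add_left Finset.card_biUnion_le _
  have h2 : ∑ w ∈ C k, ((TT G C v0 S').filter (fun t => ∀ j ∈ S', G.Adj w (t j))).card ≤
      (TT G C v0 S).card := by
    rw [Finset.card_eq_sum_card_fiberwise (s := TT G C v0 S) (t := C k) (f := fun t => t k) (by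
      intro t ht
      exact ((mem_TT G C v0 S t).mp (Finset.mem_coe.mp ht)).1 k hk)]
    refine Finset.sum_le_sum fun w hw => ?_
    rw [hS']
    exact TT_add G C v0 S k hk w hw
  have h3 : ∀ w ∈ C k, N * ∑ j ∈ S', ((TT G C v0 S').filter (fun t => ¬ G.Adj w (t j))).card ≤
      Δ * (2 * (TT G C v0 S').card) := by
    intro w hw
    rw [Finset.mul_sum]
    have h5 : ∀ j ∈ S', N * ((TT G C v0 S').filter (fun t => ¬ G.Adj w (t j))).card ≤
        ((C j).filter (fun w' => ¬ G.Adj w w')).card * (2 * (TT G C v0 S').card) := by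
      intro j hj
      have h6 : ((TT G C v0 S').filter (fun t => ¬ G.Adj w (t j))).card ≤
          ((C j).filter (fun w' => ¬ G.Adj w w')).card * (TT G C v0 (S'.erase j)).card := by
        rw [Finset.card_eq_sum_card_fiberwise
          (s := (TT G C v0 S').filter (fun t => ¬ G.Adj w (t j)))
          (t := (C j).filter (fun w' => ¬ G.Adj w w')) (f := fun t => t j) (by
          intro t ht
          have ht1 := Finset.mem_filter.mp (Finset.mem_coe.mp ht)
          exact Finset.mem_coe.mpr (Finset.mem_filter.mpr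
            ⟨((mem_TT G C v0 S' t).mp ht1.1).1 j hj, ht1.2⟩)), ← smul_eq_mul]
        refine Finset.sum_le_card_nsmul _ _ _ fun w' _ => ?_
        refine le_trans (Finset.card_le_card ?_) (TT_remove G C v0 S' j w')
        intro t ht
        have ht1 := Finset.mem_filter.mp ht
        have ht2 := Finset.mem_filter.mp ht1.1
        exact Finset.mem_filter.mpr ⟨ht2.1, ht1.2⟩
      have h7 := ih S'.card hcard S' rfl j hj
      calc N * ((TT G C v0 S').filter (fun t => ¬ G.Adj w (t j))).card ≤
          N * (((C j).filter (fun w' => ¬ G.Adj w w')).card * (TT G C v0 (S'.erase j)).card) :=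
            Nat.mul_le_mul_left _ h6
        _ = ((C j).filter (fun w' => ¬ G.Adj w w')).card * (N * (TT G C v0 (S'.erase j)).card) := by
            ring
        _ ≤ _ := Nat.mul_le_mul_left _ h7
    refine (Finset.sum_le_sum h5).trans ?_
    rw [← Finset.sum_mul]
    apply Nat.mul_le_mul_right
    refine le_trans (Finset.sum_le_sum_of_subset ?_) (hdeg k w hw)
    rw [hS']
    exact Finset.erase_subset_erase k (Finset.subset_univ S)
  have h5 : N * (N * (TT G C v0 S').card) ≤ N * ((TT G C v0 S).card +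
      Δ * (2 * (TT G C v0 S').card)) := by
    calc N * (N * (TT G C v0 S').card) = N * ∑ _w ∈ C k, (TT G C v0 S').card := by
          rw [Finset.sum_const, hsize k, smul_eq_mul]
      _ ≤ N * ∑ w ∈ C k, (((TT G C v0 S').filter (fun t => ∀ j ∈ S', G.Adj w (t j))).card +
        ∑ j ∈ S', ((TT G C v0 S').filter (fun t => ¬ G.Adj w (t j))).card) :=
          Nat.mul_le_mul_left _ (Finset.sum_le_sum h1)
      _ = N * ∑ w ∈ C k, ((TT G C v0 S').filter (fun t => ∀ j ∈ S', G.Adj w (t j))).card +
        ∑ w ∈ C k, N * ∑ j ∈ S', ((TT G C v0 S').filter (fun t => ¬ G.Adj w (t j))).card := by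
          rw [Finset.sum_add_distrib, Nat.mul_add, Finset.mul_sum (s := C k) (a := N)
            (f := fun w => ∑ j ∈ S', ((TT G C v0 S').filter (fun t => ¬ G.Adj w (t j))).card)]
      _ ≤ N * (TT G C v0 S).card + ∑ _w ∈ C k, Δ * (2 * (TT G C v0 S').card) :=
          Nat.add_le_add (Nat.mul_le_mul_left _ h2) (Finset.sum_le_sum h3)
      _ = N * ((TT G C v0 S).card + Δ * (2 * (TT G C v0 S').card)) := by
          rw [Finset.sum_const, hsize k, smul_eq_mul]
          ring
  have h6 := Nat.le_of_mul_le_mul_left h5 hN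
  have h7 : 4 * Δ * (TT G C v0 S').card ≤ N * (TT G C v0 S').card := Nat.mul_le_mul_right _ h4
  nlinarith

theorem TT_pos {V ι : Type*} [Fintype V] [DecidableEq V] [Fintype ι] [DecidableEq ι]
    (G : SimpleGraph V) [DecidableRel G.Adj] (C : ι → Finset V) (v0 : V) (N Δ : ℕ) (hN : 0 < N)
    (h4 : 4 * Δ ≤ N) (hsize : ∀ i, (C i).card = N)
    (hdeg : ∀ i, ∀ v ∈ C i,
      ∑ j ∈ univ.erase i, ((C j).filter (fun w => ¬ G.Adj v w)).card ≤ Δ) (S : Finset ι) :
    0 < (TT G C v0 S).card := by
  induction S using Finset.induction_on with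
  | empty =>
    refine Finset.card_pos.mpr ⟨fun _ => v0, ?_⟩
    rw [mem_TT]
    exact ⟨fun i hi => absurd hi (Finset.notMem_empty i), fun _ _ => rfl,
      fun i hi => absurd hi (Finset.notMem_empty i)⟩
  | insert a S ha ih =>
    have h := TT_step G C v0 N Δ hN h4 hsize hdeg _ (insert a S) rfl a (Finset.mem_insert_self a S)
    rw [Finset.erase_insert ha] at h
    have h1 : 0 < N * (TT G C v0 S).card := Nat.mul_pos hN ih
    omega

/-- independent transversal by counting -/
theorem transversal {V ι : Type*} [Fintype V] [DecidableEq V] [DecidableEq ι] [Nonempty V] (G : SimpleGraph V)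
    [DecidableRel G.Adj] (I : Finset ι) (C : ι → Finset V) (N Δ : ℕ) (hN : 0 < N) (h4 : 4 * Δ ≤ N)
    (hsize : ∀ i ∈ I, N ≤ (C i).card)
    (hdeg : ∀ i ∈ I, ∀ v ∈ C i,
      ∑ j ∈ I.erase i, ((C j).filter (fun w => ¬ G.Adj v w)).card ≤ Δ) :
    ∃ t : ι → V, (∀ i ∈ I, t i ∈ C i) ∧ ∀ i ∈ I, ∀ j ∈ I, i ≠ j → G.Adj (t i) (t j) := by
  obtain ⟨v0⟩ := (inferInstance : Nonempty V)
  have hex : ∀ i : I, ∃ D : Finset V, D ⊆ C i ∧ D.card = N := fun i =>
    Finset.exists_subset_card_eq (hsize i.1 i.2)
  choose D hDsub hDcard using hex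
  have hD : ∀ i : I, ∀ v ∈ D i,
      ∑ j ∈ univ.erase i, ((D j).filter (fun w => ¬ G.Adj v w)).card ≤ Δ := by
    intro i v hv
    refine le_trans ?_ (hdeg i.1 i.2 v (hDsub i hv))
    calc ∑ j ∈ univ.erase i, ((D j).filter (fun w => ¬ G.Adj v w)).card ≤
        ∑ j ∈ univ.erase i, ((C ((Function.Embedding.subtype (· ∈ I)) j)).filter
          (fun w => ¬ G.Adj v w)).card := by
          refine Finset.sum_le_sum fun j _ => ?_
          exact Finset.card_le_card (Finset.filter_subset_filter _ (hDsub j))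
      _ = ∑ j ∈ (univ.erase i).map (Function.Embedding.subtype (· ∈ I)),
          ((C j).filter (fun w => ¬ G.Adj v w)).card := by
          rw [Finset.sum_map]
      _ ≤ ∑ j ∈ I.erase i.1, ((C j).filter (fun w => ¬ G.Adj v w)).card := by
          apply Finset.sum_le_sum_of_subset
          intro j hj
          rw [Finset.mem_map] at hj
          obtain ⟨j', hj', rfl⟩ := hj
          rw [Finset.mem_erase] at hj' ⊢
          exact ⟨fun h => hj'.1 (Subtype.ext h), j'.2⟩
  have hpos := TT_pos G D v0 N Δ hN h4 hDcard hD univ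
  obtain ⟨t, ht⟩ := Finset.card_pos.mp hpos
  rw [mem_TT] at ht
  refine ⟨fun i => if h : i ∈ I then t ⟨i, h⟩ else v0, ?_, ?_⟩
  · intro i hi
    beta_reduce
    rw [dif_pos hi]
    exact hDsub ⟨i, hi⟩ (ht.1 ⟨i, hi⟩ (Finset.mem_univ _))
  · intro i hi j hj hij
    beta_reduce
    rw [dif_pos hi, dif_pos hj]
    exact ht.2.2 ⟨i, hi⟩ (Finset.mem_univ _) ⟨j, hj⟩ (Finset.mem_univ _)
      (fun h => hij (congrArg Subtype.val h))


end Pool.Agent.Helper198.Brandt
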