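import Mathlib
set_option autoImplicit false
open Finset

namespace Pool.Agent.Helper198.Brandt


/-- the non-neighbourhood of `v` (contains `v`) -/
def NN {V : Type*} [Fintype V] (G : SimpleGraph V) [DecidableRel G.Adj] (v : V) : Finset V :=
  Finset.univ.filter (fun u => ¬ G.Adj v u)

theorem mem_NN {V : Type*} [Fintype V] (G : SimpleGraph V) [DecidableRel G.Adj] (v w : V) :
    w ∈ NN G v ↔ ¬ G.Adj v w := by
  simp [NN]

theorem mem_NN_comm {V : Type*} [Fintype V] (G : SimpleGraph V) [DecidableRel G.Adj] (v w : V) :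
    w ∈ NN G v ↔ v ∈ NN G w := by
  rw [mem_NN, mem_NN, G.adj_comm]

/-- triangle type inequality for overlaps -/
theorem overlap_tri {V : Type*} [Fintype V] [DecidableEq V] (G : SimpleGraph V)
    [DecidableRel G.Adj] (D : ℕ) (hreg : ∀ v, (NN G v).card = D) (u v w : V) :
    (NN G u ∩ NN G w).card + (NN G v ∩ NN G w).card ≤ (NN G u ∩ NN G v).card + D := by
  have h1 : ((NN G u ∩ NN G w) ∪ (NN G v ∩ NN G w)).card ≤ D := by
    rw [← hreg w]
    apply Finset.card_le_card
    intro x hx
    simp only [Finset.mem_union, Finset.mem_inter] at hx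
    rcases hx with h | h <;> exact h.2
  have h2 : ((NN G u ∩ NN G w) ∩ (NN G v ∩ NN G w)).card ≤ (NN G u ∩ NN G v).card := by
    apply Finset.card_le_card
    intro x hx
    simp only [Finset.mem_inter] at hx ⊢
    exact ⟨hx.1.1, hx.2.1⟩
  have h3 := Finset.card_union_add_card_inter (NN G u ∩ NN G w) (NN G v ∩ NN G w)
  omega

theorem overlap_sdiff {V : Type*} [Fintype V] [DecidableEq V] (G : SimpleGraph V)
    [DecidableRel G.Adj] (D : ℕ) (hreg : ∀ v, (NN G v).card = D) (v w : V) :
    (((NN G v) \ (NN G w)).card : ℝ) = D - ((NN G v ∩ NN G w).card : ℝ) := by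
  have h := Finset.card_sdiff_add_card_inter (NN G v) (NN G w)
  rw [hreg v] at h
  have h' : ((((NN G v) \ (NN G w)).card + (NN G v ∩ NN G w).card : ℕ) : ℝ) = D := by
    exact_mod_cast h
  push_cast at h'
  linarith

theorem overlap_gap {V : Type*} [Fintype V] [DecidableEq V] (G : SimpleGraph V)
    [DecidableRel G.Adj]
    (D : ℕ) (hD : 0 < D) (hreg : ∀ v, (NN G v).card = D) (ε : ℝ) (hε : 0 < ε)
    (hin : ∀ v, ∑ w ∈ NN G v, (((NN G v) \ (NN G w)).card : ℝ) ≤ ε * (D : ℝ) ^ 2)
    (u v : V) (h : D < 2 * (NN G u ∩ NN G v).card) :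
    (1 - 4 * ε) * D ≤ ((NN G u ∩ NN G v).card : ℝ) := by
  have hDR : (0 : ℝ) < D := by exact_mod_cast hD
  have hhR : (D : ℝ) < 2 * ((NN G u ∩ NN G v).card : ℝ) := by exact_mod_cast h
  by_contra hcon
  push Not at hcon
  -- every w in the overlap has a large sum
  have key : ∀ w ∈ NN G u ∩ NN G v, 4 * ε * D ≤
      (((NN G u) \ (NN G w)).card : ℝ) + (((NN G v) \ (NN G w)).card : ℝ) := by
    intro w _
    rw [overlap_sdiff G D hreg u w, overlap_sdiff G D hreg v w]
    have h1 := overlap_tri G D hreg u v w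
    have h2 : ((NN G u ∩ NN G w).card : ℝ) + ((NN G v ∩ NN G w).card : ℝ) ≤
        ((NN G u ∩ NN G v).card : ℝ) + D := by exact_mod_cast h1
    linarith
  have h1 : ((NN G u ∩ NN G v).card : ℝ) * (4 * ε * D) ≤
      ∑ w ∈ NN G u ∩ NN G v,
        ((((NN G u) \ (NN G w)).card : ℝ) + (((NN G v) \ (NN G w)).card : ℝ)) := by
    rw [← nsmul_eq_mul]
    exact Finset.card_nsmul_le_sum _ _ _ key
  rw [Finset.sum_add_distrib] at h1
  have h2 : ∑ w ∈ NN G u ∩ NN G v, (((NN G u) \ (NN G w)).card : ℝ) ≤ ε * (D : ℝ) ^ 2 := by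
    refine le_trans ?_ (hin u)
    apply Finset.sum_le_sum_of_subset_of_nonneg Finset.inter_subset_left
    intro i _ _
    exact Nat.cast_nonneg _
  have h3 : ∑ w ∈ NN G u ∩ NN G v, (((NN G v) \ (NN G w)).card : ℝ) ≤ ε * (D : ℝ) ^ 2 := by
    refine le_trans ?_ (hin v)
    apply Finset.sum_le_sum_of_subset_of_nonneg Finset.inter_subset_right
    intro i _ _
    exact Nat.cast_nonneg _
  have h4 : 0 < ε * D := by positivity
  nlinarith

theorem classes {V : Type*} [Fintype V] [DecidableEq V] (G : SimpleGraph V) [DecidableRel G.Adj]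
    (D : ℕ) (hD : 0 < D) (hreg : ∀ v, (NN G v).card = D) (ε : ℝ) (hε : 0 < ε) (hε2 : ε ≤ 1 / 100)
    (hin : ∀ v, ∑ w ∈ NN G v, (((NN G v) \ (NN G w)).card : ℝ) ≤ ε * (D : ℝ) ^ 2) :
    ∃ c : V → V,
      (∀ v, (((NN G v).filter (fun w => c w ≠ c v)).card : ℝ) ≤ 2 * ε * D) ∧
      (∀ v, (1 - 2 * ε) * D ≤ ((Finset.univ.filter (fun w => c w = c v)).card : ℝ)) ∧
      (∀ v, ((Finset.univ.filter (fun w => c w = c v)).card : ℝ) ≤ (1 + 9 * ε) * D) := by
  have hDR : (0 : ℝ) < D := by exact_mod_cast hD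
  have hgap := overlap_gap G D hD hreg ε hε hin
  have hrefl : ∀ v, D < 2 * (NN G v ∩ NN G v).card := by
    intro v
    rw [Finset.inter_self, hreg v]
    omega
  have hsymm : ∀ u v, D < 2 * (NN G u ∩ NN G v).card → D < 2 * (NN G v ∩ NN G u).card := by
    intro u v h
    rw [Finset.inter_comm]
    exact h
  have htrans : ∀ u v w, D < 2 * (NN G u ∩ NN G v).card → D < 2 * (NN G v ∩ NN G w).card →
      D < 2 * (NN G u ∩ NN G w).card := by
    intro u v w h1 h2
    have h3 := hgap u v h1
    have h4 := hgap v w h2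
    have h5 := overlap_tri G D hreg u w v
    have h6 : ((NN G u ∩ NN G v).card : ℝ) + ((NN G w ∩ NN G v).card : ℝ) ≤
        ((NN G u ∩ NN G w).card : ℝ) + D := by exact_mod_cast h5
    rw [Finset.inter_comm (NN G w) (NN G v)] at h6
    have h7 : (D : ℝ) < 2 * ((NN G u ∩ NN G w).card : ℝ) := by nlinarith
    exact_mod_cast h7
  let S : Setoid V := ⟨fun u v => D < 2 * (NN G u ∩ NN G v).card,
    ⟨hrefl, fun {u v} h => hsymm u v h, fun {u v w} h1 h2 => htrans u v w h1 h2⟩⟩
  let c : V → V := fun v => (Quotient.mk S v).out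
  have hc : ∀ u v, c u = c v ↔ D < 2 * (NN G u ∩ NN G v).card := by
    intro u v
    constructor
    · intro h
      have h1 : Quotient.mk S (c u) = Quotient.mk S (c v) := by rw [h]
      have h2 : Quotient.mk S u = Quotient.mk S v := by
        have e1 : Quotient.mk S (c u) = Quotient.mk S u := Quotient.out_eq _
        have e2 : Quotient.mk S (c v) = Quotient.mk S v := Quotient.out_eq _
        rw [← e1, ← e2, h1]
      exact Quotient.exact h2
    · intro h
      have h2 : Quotient.mk S u = Quotient.mk S v := Quotient.sound h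
      show (Quotient.mk S u).out = (Quotient.mk S v).out
      rw [h2]
  have hfour : ∀ v, (((NN G v).filter (fun w => c w ≠ c v)).card : ℝ) ≤ 2 * ε * D := by
    intro v
    have h1 : (((NN G v).filter (fun w => c w ≠ c v)).card : ℝ) * ((D : ℝ) / 2) ≤
        ∑ w ∈ (NN G v).filter (fun w => c w ≠ c v), (((NN G v) \ (NN G w)).card : ℝ) := by
      rw [← nsmul_eq_mul]
      apply Finset.card_nsmul_le_sum
      intro w hw
      rw [Finset.mem_filter] at hw
      have h2 : ¬ D < 2 * (NN G w ∩ NN G v).card := fun h => hw.2 ((hc w v).2 h)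
      push Not at h2
      have h3 : 2 * ((NN G w ∩ NN G v).card : ℝ) ≤ D := by exact_mod_cast h2
      rw [overlap_sdiff G D hreg v w, Finset.inter_comm]
      linarith
    have h2 : ∑ w ∈ (NN G v).filter (fun w => c w ≠ c v), (((NN G v) \ (NN G w)).card : ℝ) ≤
        ε * (D : ℝ) ^ 2 := by
      refine le_trans ?_ (hin v)
      apply Finset.sum_le_sum_of_subset_of_nonneg (Finset.filter_subset _ _)
      intro i _ _
      exact Nat.cast_nonneg _
    have h3 : (((NN G v).filter (fun w => c w ≠ c v)).card : ℝ) * (D : ℝ) ≤ (2 * ε * D) * D := by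
      nlinarith
    exact le_of_mul_le_mul_right h3 hDR
  refine ⟨c, hfour, ?_, ?_⟩
  · intro v
    have h1 := hfour v
    have h2 : ((NN G v).filter (fun w => c w = c v)).card ≤
        (Finset.univ.filter (fun w => c w = c v)).card :=
      Finset.card_le_card (Finset.filter_subset_filter _ (Finset.subset_univ _))
    have h3 := Finset.card_filter_add_card_filter_not (s := NN G v) (fun w => c w = c v)
    rw [hreg v] at h3
    have h4 : (((NN G v).filter (fun w => c w = c v)).card : ℝ) +
        (((NN G v).filter (fun w => ¬ c w = c v)).card : ℝ) = D := by exact_mod_cast h3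
    have h5 : (((NN G v).filter (fun w => c w = c v)).card : ℝ) ≤
        ((Finset.univ.filter (fun w => c w = c v)).card : ℝ) := by exact_mod_cast h2
    have h6 : (((NN G v).filter (fun w => ¬ c w = c v)).card : ℝ) ≤ 2 * ε * D := h1
    linarith
  · intro v
    set T := Finset.univ.filter (fun w => c w = c v) with hT
    have h1 : (T.card : ℝ) * ((1 - 4 * ε) * D) ≤ ∑ w ∈ T, ((NN G w ∩ NN G v).card : ℝ) := by
      rw [← nsmul_eq_mul]
      apply Finset.card_nsmul_le_sum
      intro w hw
      rw [hT, Finset.mem_filter] at hw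
      exact hgap w v ((hc w v).1 hw.2)
    have h2 : ∑ w ∈ T, ((NN G w ∩ NN G v).card : ℝ) ≤
        ∑ w : V, ((NN G w ∩ NN G v).card : ℝ) := by
      apply Finset.sum_le_sum_of_subset_of_nonneg (Finset.subset_univ _)
      intro i _ _
      exact Nat.cast_nonneg _
    have h3 : ∑ w : V, (NN G w ∩ NN G v).card = D * D := by
      have e1 : ∀ w : V, (NN G w ∩ NN G v).card = ∑ z ∈ NN G v, if z ∈ NN G w then 1 else 0 := by
        intro w
        rw [Finset.inter_comm, ← Finset.filter_mem_eq_inter, Finset.card_filter]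
      rw [Finset.sum_congr rfl (fun w _ => e1 w), Finset.sum_comm]
      have e2 : ∀ z ∈ NN G v, (∑ w : V, if z ∈ NN G w then 1 else 0) = D := by
        intro z _
        rw [← Finset.card_filter]
        rw [← hreg z]
        congr 1
        ext w
        simp only [Finset.mem_filter, Finset.mem_univ, true_and]
        exact mem_NN_comm G w z
      rw [Finset.sum_congr rfl e2, Finset.sum_const, hreg v, smul_eq_mul]
    have h4 : ∑ w : V, ((NN G w ∩ NN G v).card : ℝ) = (D : ℝ) * D := by exact_mod_cast h3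
    have h5 : (T.card : ℝ) * (1 - 4 * ε) * D ≤ D * D := by nlinarith
    have h6 : (T.card : ℝ) * (1 - 4 * ε) ≤ D := le_of_mul_le_mul_right h5 hDR
    have h7 : 0 < 1 - 4 * ε := by linarith
    have h8 : (D : ℝ) ≤ ((1 + 9 * ε) * D) * (1 - 4 * ε) := by
      nlinarith [mul_pos hε hDR, mul_nonneg (mul_pos hε hDR).le (by linarith : (0:ℝ) ≤ 1/100 - ε)]
    exact le_of_mul_le_mul_right (h6.trans h8) h7


end Pool.Agent.Helper198.Brandt
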