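import Mathlib
import Pool.Agent.Helper198.BrandtF1
import Pool.Agent.Helper198.BrandtF2
set_option autoImplicit false
open Finset

namespace Pool.Agent.Helper198.Brandt

section comb
variable {V : Type*} [Fintype V] [DecidableEq V] [Nonempty V] (G : SimpleGraph V) [DecidableRel G.Adj]

/-- class of index `i` -/
def cls (c : V → V) (i : V) : Finset V := univ.filter (fun w => c w = i)

lemma extend (c : V → V) (D : ℕ) (hD : 0 < D) (ε : ℝ) (hε : 0 < ε) (hε2 : ε ≤ 1 / 100)
    (h1 : ∀ v, (((NN G v).filter (fun w => c w ≠ c v)).card : ℝ) ≤ 2 * ε * D)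
    (h2 : ∀ v, (1 - 2 * ε) * D ≤ ((cls c (c v)).card : ℝ))
    (K : Finset V) (hK : G.IsClique (K : Set V)) (J : Finset V) (hJ : J ⊆ univ.image c)
    (hKJ : ∀ v ∈ K, c v ∈ J) (hnum : ε * (4 + 4 * (K.card : ℝ)) ≤ 1) :
    ∃ K' : Finset V, G.IsClique (K' : Set V) ∧ K'.card = K.card + ((univ.image c).card - J.card) := by
  classical
  have hDr : (0 : ℝ) < D := by exact_mod_cast hD
  set I' := (univ.image c) \ J with hI'
  set C : V → Finset V := fun i => (cls c i).filter (fun w => ∀ v ∈ K, G.Adj v w) with hC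
  have hCc : ∀ i, ∀ w ∈ C i, c w = i := by
    intro i w hw
    have := (Finset.mem_filter.mp hw).1
    exact (Finset.mem_filter.mp this).2
  obtain ⟨t, ht1, ht2⟩ := transversal G I' C ((D + 1) / 2) ⌊2 * ε * D⌋₊ (by omega) (by
      have h3 : ((⌊2 * ε * D⌋₊ : ℕ) : ℝ) ≤ 2 * ε * D := Nat.floor_le (by positivity)
      have h4 : (8 : ℝ) * (⌊2 * ε * D⌋₊ : ℕ) ≤ D := by nlinarith
      have h5 : 8 * ⌊2 * ε * D⌋₊ ≤ D := by exact_mod_cast h4
      omega) (by
      intro i hi
      obtain ⟨hi1, hi2⟩ := Finset.mem_sdiff.mp hi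
      obtain ⟨u, -, rfl⟩ := Finset.mem_image.mp hi1
      have h3 : (cls c (c u)) ⊆ C (c u) ∪ K.biUnion (fun v => (cls c (c u)).filter (fun w => ¬ G.Adj v w)) := by
        intro w hw
        by_cases h : ∀ v ∈ K, G.Adj v w
        · exact Finset.mem_union_left _ (Finset.mem_filter.mpr ⟨hw, h⟩)
        · push Not at h
          obtain ⟨v, hv, hvw⟩ := h
          exact Finset.mem_union_right _ (Finset.mem_biUnion.mpr ⟨v, hv, Finset.mem_filter.mpr ⟨hw, hvw⟩⟩)
      have h4 := (Finset.card_le_card h3).trans ((Finset.card_union_le _ _).trans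
        (Nat.add_le_add_left Finset.card_biUnion_le _))
      have h5 : ∀ v ∈ K, (((cls c (c u)).filter (fun w => ¬ G.Adj v w)).card : ℝ) ≤ 2 * ε * D := by
        intro v hv
        refine le_trans ?_ (h1 v)
        have : (cls c (c u)).filter (fun w => ¬ G.Adj v w) ⊆ (NN G v).filter (fun w => c w ≠ c v) := by
          intro w hw
          obtain ⟨a1, a2⟩ := Finset.mem_filter.mp hw
          have a3 : c w = c u := (Finset.mem_filter.mp a1).2
          refine Finset.mem_filter.mpr ⟨Finset.mem_filter.mpr ⟨Finset.mem_univ _, a2⟩, ?_⟩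
          rw [a3]
          intro h
          exact hi2 (h ▸ hKJ v hv)
        exact_mod_cast Finset.card_le_card this
      have h6 : ((∑ v ∈ K, ((cls c (c u)).filter (fun w => ¬ G.Adj v w)).card : ℕ) : ℝ) ≤ K.card * (2 * ε * D) := by
        rw [Nat.cast_sum]
        calc _ ≤ ∑ v ∈ K, (2 * ε * D) := Finset.sum_le_sum h5
          _ = _ := by rw [Finset.sum_const, nsmul_eq_mul]
      have h7 : ((cls c (c u)).card : ℝ) ≤ (C (c u)).card + (∑ v ∈ K, ((cls c (c u)).filter (fun w => ¬ G.Adj v w)).card : ℕ) := by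
        exact_mod_cast h4
      have h8 := h2 u
      have h9 : (D : ℝ) ≤ 2 * (C (c u)).card := by nlinarith
      have h10 : D ≤ 2 * (C (c u)).card := by exact_mod_cast h9
      omega) (by
      intro i hi v hv
      have hcv : c v = i := hCc i v hv
      apply Nat.le_floor
      refine le_trans ?_ (h1 v)
      have h3 : ∑ j ∈ I'.erase i, ((C j).filter (fun w => ¬ G.Adj v w)).card ≤
          ∑ j ∈ (univ : Finset V), (((NN G v).filter (fun w => c w ≠ c v)).filter (fun w => c w = j)).card := by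
        refine le_trans (Finset.sum_le_sum ?_) (Finset.sum_le_sum_of_subset (Finset.subset_univ _))
        intro j hj
        apply Finset.card_le_card
        intro w hw
        obtain ⟨a1, a2⟩ := Finset.mem_filter.mp hw
        have a3 := hCc j w a1
        refine Finset.mem_filter.mpr ⟨Finset.mem_filter.mpr ⟨Finset.mem_filter.mpr ⟨Finset.mem_univ _, a2⟩, ?_⟩, a3⟩
        rw [a3, hcv]
        exact (Finset.mem_erase.mp hj).1
      have h4 : ∑ j ∈ (univ : Finset V), (((NN G v).filter (fun w => c w ≠ c v)).filter (fun w => c w = j)).card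
          = ((NN G v).filter (fun w => c w ≠ c v)).card :=
        (Finset.card_eq_sum_card_fiberwise (fun _ _ => Finset.mem_univ _)).symm
      rw [h4] at h3
      exact_mod_cast h3)
  have htc : ∀ i ∈ I', c (t i) = i := fun i hi => hCc i _ (ht1 i hi)
  refine ⟨K ∪ I'.image t, ?_, ?_⟩
  · intro a ha b hb hab
    simp only [Finset.coe_union, Finset.coe_image, Set.mem_union, Set.mem_image, Finset.mem_coe] at ha hb
    rcases ha with ha | ⟨i, hi, rfl⟩ <;> rcases hb with hb | ⟨j, hj, rfl⟩
    · exact hK ha hb hab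
    · exact (Finset.mem_filter.mp (ht1 j hj)).2 a ha
    · exact ((Finset.mem_filter.mp (ht1 i hi)).2 b hb).symm
    · exact ht2 i hi j hj (by rintro rfl; exact hab rfl)
  · rw [Finset.card_union_of_disjoint, Finset.card_image_of_injOn, hI', Finset.card_sdiff_of_subset hJ]
    · intro i hi j hj hij
      have h3 := htc i hi
      have h4 := htc j hj
      rw [← h3, ← h4, hij]
    · rw [Finset.disjoint_left]
      intro v hv hv2
      obtain ⟨i, hi, rfl⟩ := Finset.mem_image.mp hv2
      have h3 := hKJ _ hv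
      rw [htc i hi] at h3
      exact (Finset.mem_sdiff.mp hi).2 h3

/-- ordered pairs of adjacent vertices in the class `i` -/
def EC (c : V → V) (i : V) : Finset (V × V) :=
  ((cls c i) ×ˢ (cls c i)).filter (fun e => G.Adj e.1 e.2)

lemma greedy (c : V → V) (D : ℕ) (ε : ℝ) (hε : 0 < ε)
    (h1 : ∀ v, (((NN G v).filter (fun w => c w ≠ c v)).card : ℝ) ≤ 2 * ε * D)
    (h3 : ∀ v, (((cls c (c v)).filter (fun w => G.Adj v w)).card : ℝ) ≤ 11 * ε * D)
    (k : ℕ) (Hv : Finset V) (hH : ∀ i ∈ Hv, 88 * k * ε ^ 2 * (D : ℝ) ^ 2 < ((EC G c i).card : ℝ)) (hk : k + 1 ≤ Hv.card) :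
    ∀ j : ℕ, j ≤ k + 1 → ∃ J K : Finset V, J ⊆ Hv ∧ J.card = j ∧ G.IsClique (K : Set V) ∧
      K.card = 2 * j ∧ ∀ v ∈ K, c v ∈ J := by
  intro j
  induction j with
  | zero => intro _; exact ⟨∅, ∅, by simp, by simp, by simp, by simp, by simp⟩
  | succ j ih =>
    intro hj
    obtain ⟨J, K, hJ, hJc, hK, hKc, hKJ⟩ := ih (by omega)
    obtain ⟨i, hi, hiJ⟩ : ∃ i ∈ Hv, i ∉ J := by
      by_contra hcon
      push Not at hcon
      have := Finset.card_le_card (show Hv ⊆ J from hcon)
      omega
    -- bad edges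
    set bad : Finset (V × V) := (EC G c i).filter (fun e => ∃ v ∈ K, ¬ G.Adj v e.1 ∨ ¬ G.Adj v e.2) with hbad
    have hbadc : ((bad.card : ℕ) : ℝ) ≤ 88 * k * ε ^ 2 * (D : ℝ) ^ 2 := by
      have hsub : bad ⊆ K.biUnion (fun v =>
          ((cls c i).filter (fun w => ¬ G.Adj v w)).biUnion (fun w =>
            ((cls c i).filter (fun u => G.Adj w u)).image (fun u => (w, u)) ∪
            ((cls c i).filter (fun u => G.Adj w u)).image (fun u => (u, w)))) := by
        intro e he
        obtain ⟨he1, v, hv, he2⟩ := Finset.mem_filter.mp he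
        obtain ⟨he3, he4⟩ := Finset.mem_filter.mp he1
        obtain ⟨he5, he6⟩ := Finset.mem_product.mp he3
        refine Finset.mem_biUnion.mpr ⟨v, hv, ?_⟩
        rcases he2 with h | h
        · refine Finset.mem_biUnion.mpr ⟨e.1, Finset.mem_filter.mpr ⟨he5, h⟩, ?_⟩
          refine Finset.mem_union_left _ (Finset.mem_image.mpr ⟨e.2, Finset.mem_filter.mpr ⟨he6, he4⟩, rfl⟩)
        · refine Finset.mem_biUnion.mpr ⟨e.2, Finset.mem_filter.mpr ⟨he6, h⟩, ?_⟩
          refine Finset.mem_union_right _ (Finset.mem_image.mpr ⟨e.1, Finset.mem_filter.mpr ⟨he5, he4.symm⟩, rfl⟩)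
      have hc1 : ∀ v ∈ K, ((((cls c i).filter (fun w => ¬ G.Adj v w)).card : ℕ) : ℝ) ≤ 2 * ε * D := by
        intro v hv
        refine le_trans ?_ (h1 v)
        have : (cls c i).filter (fun w => ¬ G.Adj v w) ⊆ (NN G v).filter (fun w => c w ≠ c v) := by
          intro w hw
          obtain ⟨a1, a2⟩ := Finset.mem_filter.mp hw
          have a3 : c w = i := (Finset.mem_filter.mp a1).2
          refine Finset.mem_filter.mpr ⟨Finset.mem_filter.mpr ⟨Finset.mem_univ _, a2⟩, ?_⟩
          rw [a3]
          intro h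
          exact hiJ (h ▸ hKJ v hv)
        exact_mod_cast Finset.card_le_card this
      have hc2 : ∀ w ∈ cls c i, ((((cls c i).filter (fun u => G.Adj w u)).card : ℕ) : ℝ) ≤ 11 * ε * D := by
        intro w hw
        have : c w = i := (Finset.mem_filter.mp hw).2
        rw [← this]; exact h3 w
      have hc3 : ∀ v ∈ K, (((((cls c i).filter (fun w => ¬ G.Adj v w)).biUnion (fun w =>
            ((cls c i).filter (fun u => G.Adj w u)).image (fun u => (w, u)) ∪
            ((cls c i).filter (fun u => G.Adj w u)).image (fun u => (u, w)))).card : ℕ) : ℝ)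
            ≤ 2 * ε * D * (2 * (11 * ε * D)) := by
        intro v hv
        have b1 := Finset.card_biUnion_le (s := (cls c i).filter (fun w => ¬ G.Adj v w)) (t := fun w =>
            ((cls c i).filter (fun u => G.Adj w u)).image (fun u => (w, u)) ∪
            ((cls c i).filter (fun u => G.Adj w u)).image (fun u => (u, w)))
        have b2 : ((∑ w ∈ (cls c i).filter (fun w => ¬ G.Adj v w), (((cls c i).filter (fun u => G.Adj w u)).image (fun u => (w, u)) ∪
            ((cls c i).filter (fun u => G.Adj w u)).image (fun u => (u, w))).card : ℕ) : ℝ)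
            ≤ ∑ w ∈ (cls c i).filter (fun w => ¬ G.Adj v w), (2 * (11 * ε * D)) := by
          rw [Nat.cast_sum]
          refine Finset.sum_le_sum (fun w hw => ?_)
          have hw' := hc2 w (Finset.mem_filter.mp hw).1
          have b3 := (Finset.card_union_le (((cls c i).filter (fun u => G.Adj w u)).image (fun u => (w, u)))
            (((cls c i).filter (fun u => G.Adj w u)).image (fun u => (u, w)))).trans
            (Nat.add_le_add Finset.card_image_le Finset.card_image_le)
          have b4 : (((((cls c i).filter (fun u => G.Adj w u)).image (fun u => (w, u)) ∪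
            ((cls c i).filter (fun u => G.Adj w u)).image (fun u => (u, w))).card : ℕ) : ℝ) ≤
            (((cls c i).filter (fun u => G.Adj w u)).card : ℝ) + (((cls c i).filter (fun u => G.Adj w u)).card : ℝ) := by
            exact_mod_cast b3
          linarith
        rw [Finset.sum_const, nsmul_eq_mul] at b2
        have b5 : ((((cls c i).filter (fun w => ¬ G.Adj v w)).card : ℕ) : ℝ) * (2 * (11 * ε * D)) ≤ 2 * ε * D * (2 * (11 * ε * D)) :=
          mul_le_mul_of_nonneg_right (hc1 v hv) (by positivity)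
        refine le_trans ?_ (b2.trans b5)
        exact_mod_cast b1
      have d1 := (Finset.card_le_card hsub).trans Finset.card_biUnion_le
      have d2 : ((bad.card : ℕ) : ℝ) ≤ ∑ v ∈ K, 2 * ε * D * (2 * (11 * ε * D)) := by
        refine le_trans ?_ (Finset.sum_le_sum hc3)
        rw [← Nat.cast_sum]
        exact_mod_cast d1
      rw [Finset.sum_const, nsmul_eq_mul, hKc] at d2
      have hjk : (j : ℝ) ≤ k := by exact_mod_cast (by omega : j ≤ k)
      have d3 : ((2 * j : ℕ) : ℝ) * (2 * ε * D * (2 * (11 * ε * D))) = 88 * j * ε ^ 2 * (D : ℝ) ^ 2 := by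
        push_cast; ring
      rw [d3] at d2
      refine d2.trans ?_
      have : (0 : ℝ) ≤ 88 * ε ^ 2 * (D : ℝ) ^ 2 := by positivity
      nlinarith
    have hlt : ((bad.card : ℕ) : ℝ) < ((EC G c i).card : ℝ) := lt_of_le_of_lt hbadc (hH i hi)
    have hlt' : bad.card < (EC G c i).card := by exact_mod_cast hlt
    obtain ⟨e, he, heb⟩ := Finset.exists_mem_notMem_of_card_lt_card hlt'
    have hgood : ∀ v ∈ K, G.Adj v e.1 ∧ G.Adj v e.2 := by
      intro v hv
      by_contra hcon
      apply heb
      refine Finset.mem_filter.mpr ⟨he, v, hv, ?_⟩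
      by_cases h : G.Adj v e.1
      · right; intro h'; exact hcon ⟨h, h'⟩
      · left; exact h
    obtain ⟨he3, he4⟩ := Finset.mem_filter.mp he
    obtain ⟨he5, he6⟩ := Finset.mem_product.mp he3
    have hc5 : c e.1 = i := (Finset.mem_filter.mp he5).2
    have hc6 : c e.2 = i := (Finset.mem_filter.mp he6).2
    have hn1 : e.1 ∉ K := fun h => hiJ (hc5 ▸ hKJ _ h)
    have hn2 : e.2 ∉ K := fun h => hiJ (hc6 ▸ hKJ _ h)
    refine ⟨insert i J, insert e.1 (insert e.2 K), ?_, ?_, ?_, ?_, ?_⟩
    · exact Finset.insert_subset hi hJ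
    · rw [Finset.card_insert_of_notMem hiJ, hJc]
    · rw [Finset.coe_insert, Finset.coe_insert]
      refine (hK.insert ?_).insert ?_
      · intro b hb _
        exact ((hgood b hb).2).symm
      · intro b hb hne
        rcases Set.mem_insert_iff.mp hb with rfl | hb
        · exact he4
        · exact ((hgood b hb).1).symm
    · rw [Finset.card_insert_of_notMem, Finset.card_insert_of_notMem hn2, hKc]
      · ring
      · intro h
        rcases Finset.mem_insert.mp h with h | h
        · exact he4.ne h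
        · exact hn1 h
    · intro v hv
      rcases Finset.mem_insert.mp hv with rfl | hv
      · rw [hc5]; exact Finset.mem_insert_self _ _
      · rcases Finset.mem_insert.mp hv with rfl | hv
        · rw [hc6]; exact Finset.mem_insert_self _ _
        · exact Finset.mem_insert_of_mem (hKJ v hv)

end comb

section comb2
variable {V : Type*} [Fintype V] [DecidableEq V] [Nonempty V] (G : SimpleGraph V) [DecidableRel G.Adj]

lemma clique_card_le {r : ℕ} (hcf : G.CliqueFree (r + 1)) (K : Finset V) (hK : G.IsClique (K : Set V)) :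
    K.card ≤ r := by
  by_contra hcon
  push Not at hcon
  obtain ⟨T', hT', hcard⟩ := Finset.exists_subset_card_eq (show r + 1 ≤ K.card by omega)
  exact hcf T' ⟨hK.subset (by exact_mod_cast hT'), hcard⟩

theorem comb_main (c : V → V) (D : ℕ) (hD : 0 < D) (ε : ℝ) (hε : 0 < ε) (hε2 : ε ≤ 1 / 100)
    (hreg : ∀ v, (NN G v).card = D)
    (h1 : ∀ v, (((NN G v).filter (fun w => c w ≠ c v)).card : ℝ) ≤ 2 * ε * D)
    (h2 : ∀ v, (1 - 2 * ε) * D ≤ ((cls c (c v)).card : ℝ))
    (h2' : ∀ v, ((cls c (c v)).card : ℝ) ≤ (1 + 9 * ε) * D)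
    {r : ℕ} (hcf : G.CliqueFree (r + 1)) :
    (univ.image c).card ≤ r ∧
    ∀ k : ℕ, r = (univ.image c).card + k → ε * (12 + 8 * k) ≤ 1 →
      ((∑ i ∈ univ.image c, (EC G c i).card : ℕ) : ℝ) ≤
        k * ε * (D : ℝ) ^ 2 * (12 + 88 * ((univ.image c).card : ℝ) * ε) := by
  have hDr : (0 : ℝ) < D := by exact_mod_cast hD
  have h3 : ∀ v, (((cls c (c v)).filter (fun w => G.Adj v w)).card : ℝ) ≤ 11 * ε * D := by
    intro v
    have e1 : ((cls c (c v)).filter (fun w => G.Adj v w)).card +
        ((cls c (c v)).filter (fun w => ¬ G.Adj v w)).card = (cls c (c v)).card :=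
      Finset.card_filter_add_card_filter_not _
    have e2 : ((NN G v).filter (fun w => c w ≠ c v)).card +
        ((NN G v).filter (fun w => ¬ (c w ≠ c v))).card = (NN G v).card :=
      Finset.card_filter_add_card_filter_not _
    have e3 : (NN G v).filter (fun w => ¬ (c w ≠ c v)) = (cls c (c v)).filter (fun w => ¬ G.Adj v w) := by
      ext w
      simp only [NN, cls, Finset.mem_filter, Finset.mem_univ, true_and, ne_eq, not_not]
      exact ⟨fun h => ⟨h.2, h.1⟩, fun h => ⟨h.2, h.1⟩⟩
    rw [e3, hreg v] at e2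
    have e1' : (((cls c (c v)).filter (fun w => G.Adj v w)).card : ℝ) +
        (((cls c (c v)).filter (fun w => ¬ G.Adj v w)).card : ℝ) = ((cls c (c v)).card : ℝ) := by exact_mod_cast e1
    have e2' : (((NN G v).filter (fun w => c w ≠ c v)).card : ℝ) +
        (((cls c (c v)).filter (fun w => ¬ G.Adj v w)).card : ℝ) = (D : ℝ) := by exact_mod_cast e2
    have := h1 v
    have := h2' v
    linarith
  constructor
  · obtain ⟨K', hK', hc⟩ := extend G c D hD ε hε hε2 h1 h2 ∅ (by simp) ∅ (by simp) (by simp) (by simp; linarith)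
    have := clique_card_le G hcf K' hK'
    simp at hc
    omega
  · intro k hk hnum
    set I := univ.image c with hI
    set Hv := I.filter (fun i => 88 * k * ε ^ 2 * (D : ℝ) ^ 2 < ((EC G c i).card : ℝ)) with hHv
    have hHvk : Hv.card ≤ k := by
      by_contra hcon
      push Not at hcon
      obtain ⟨J, K, hJ, hJc, hK, hKc, hKJ⟩ := greedy G c D ε hε h1 h3 k Hv
        (fun i hi => (Finset.mem_filter.mp hi).2) (by omega) (k + 1) le_rfl
      have hJI : J ⊆ I := hJ.trans (Finset.filter_subset _ _)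
      obtain ⟨K', hK', hc⟩ := extend G c D hD ε hε hε2 h1 h2 K hK J hJI hKJ (by
        rw [hKc]; push_cast; linarith)
      change K'.card = K.card + (I.card - J.card) at hc
      have h4 := clique_card_le G hcf K' hK'
      have h5 := Finset.card_le_card hJI
      rw [hc, hKc, hJc] at h4
      rw [hJc] at h5
      omega
    have hEC : ∀ i ∈ I, ((EC G c i).card : ℝ) ≤ 12 * ε * (D : ℝ) ^ 2 := by
      intro i hi
      obtain ⟨u, -, rfl⟩ := Finset.mem_image.mp hi
      have e1 : EC G c (c u) ⊆ (cls c (c u)).biUnion (fun w => ((cls c (c u)).filter (fun z => G.Adj w z)).image (fun z => (w, z))) := by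
        intro e he
        obtain ⟨he3, he4⟩ := Finset.mem_filter.mp he
        obtain ⟨he5, he6⟩ := Finset.mem_product.mp he3
        exact Finset.mem_biUnion.mpr ⟨e.1, he5, Finset.mem_image.mpr ⟨e.2, Finset.mem_filter.mpr ⟨he6, he4⟩, rfl⟩⟩
      have e2 := (Finset.card_le_card e1).trans Finset.card_biUnion_le
      have e3 : ((∑ w ∈ cls c (c u), (((cls c (c u)).filter (fun z => G.Adj w z)).image (fun z => (w, z))).card : ℕ) : ℝ)
          ≤ ∑ w ∈ cls c (c u), (11 * ε * D) := by
        rw [Nat.cast_sum]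
        refine Finset.sum_le_sum (fun w hw => ?_)
        have hcw : c w = c u := (Finset.mem_filter.mp hw).2
        have h4 := h3 w
        rw [hcw] at h4
        refine le_trans ?_ h4
        exact_mod_cast Finset.card_image_le
      rw [Finset.sum_const, nsmul_eq_mul] at e3
      have e4 : ((cls c (c u)).card : ℝ) * (11 * ε * D) ≤ (1 + 9 * ε) * D * (11 * ε * D) :=
        mul_le_mul_of_nonneg_right (h2' u) (by positivity)
      have e5 : (1 + 9 * ε) * D * (11 * ε * D) ≤ 12 * ε * (D : ℝ) ^ 2 := by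
        have : (1 + 9 * ε) * D * (11 * ε * D) = ((1 + 9 * ε) * 11) * (ε * (D : ℝ) ^ 2) := by ring
        rw [this]
        have h6 : (1 + 9 * ε) * 11 ≤ 12 := by linarith
        have h7 : 0 ≤ ε * (D : ℝ) ^ 2 := by positivity
        nlinarith
      have e6 : ((EC G c (c u)).card : ℝ) ≤ ((∑ w ∈ cls c (c u), (((cls c (c u)).filter (fun z => G.Adj w z)).image (fun z => (w, z))).card : ℕ) : ℝ) := by
        exact_mod_cast e2
      linarith
    rw [Nat.cast_sum, ← Finset.sum_filter_add_sum_filter_not I (fun i => 88 * k * ε ^ 2 * (D : ℝ) ^ 2 < ((EC G c i).card : ℝ))]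
    have f1 : ∑ i ∈ I.filter (fun i => 88 * k * ε ^ 2 * (D : ℝ) ^ 2 < ((EC G c i).card : ℝ)), ((EC G c i).card : ℝ)
        ≤ k * (12 * ε * (D : ℝ) ^ 2) := by
      calc _ ≤ ∑ i ∈ Hv, (12 * ε * (D : ℝ) ^ 2) := Finset.sum_le_sum (fun i hi => hEC i (Finset.mem_filter.mp hi).1)
        _ = Hv.card * (12 * ε * (D : ℝ) ^ 2) := by rw [Finset.sum_const, nsmul_eq_mul]
        _ ≤ _ := mul_le_mul_of_nonneg_right (by exact_mod_cast hHvk) (by positivity)
    have f2 : ∑ i ∈ I.filter (fun i => ¬ (88 * k * ε ^ 2 * (D : ℝ) ^ 2 < ((EC G c i).card : ℝ))), ((EC G c i).card : ℝ)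
        ≤ I.card * (88 * k * ε ^ 2 * (D : ℝ) ^ 2) := by
      calc _ ≤ ∑ i ∈ I.filter (fun i => ¬ (88 * k * ε ^ 2 * (D : ℝ) ^ 2 < ((EC G c i).card : ℝ))), (88 * k * ε ^ 2 * (D : ℝ) ^ 2) :=
            Finset.sum_le_sum (fun i hi => not_lt.mp (Finset.mem_filter.mp hi).2)
        _ = (I.filter (fun i => ¬ (88 * k * ε ^ 2 * (D : ℝ) ^ 2 < ((EC G c i).card : ℝ)))).card * (88 * k * ε ^ 2 * (D : ℝ) ^ 2) := by
            rw [Finset.sum_const, nsmul_eq_mul]
        _ ≤ _ := mul_le_mul_of_nonneg_right (by exact_mod_cast Finset.card_filter_le _ _) (by positivity)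
    nlinarith

end comb2

end Pool.Agent.Helper198.Brandt
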