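import Mathlib
import Pool.Agent.Helper198.BrandtD
import Pool.Agent.Helper198.BrandtF

namespace Pool.Agent.Helper198.Brandt

open Finset Matrix

lemma clique_card_le' {V : Type*} (G : SimpleGraph V) {r : ℕ} (hcf : G.CliqueFree (r + 1)) (K : Finset V)
    (hK : G.IsClique (K : Set V)) : K.card ≤ r := by
  by_contra hcon
  push Not at hcon
  obtain ⟨T', hT', hcard⟩ := Finset.exists_subset_card_eq (show r + 1 ≤ K.card by omega)
  exact hcf T' ⟨hK.subset (by exact_mod_cast hT'), hcard⟩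

lemma lin_form {m : ℕ} (hm : 1 ≤ m) {n s τ : ℝ} (hn : 0 ≤ n) (hs : 0 < s) (hτ : 0 ≤ τ)
    (h : s ≤ τ * P m (n / s)) : ((m : ℝ) + 1) * s - (m - 1) * n ≤ 2 * m * τ := by
  have hm' : (1 : ℝ) ≤ m := by exact_mod_cast hm
  set y := n / s with hy
  have hy0 : 0 ≤ y := by positivity
  have hys : s * y = n := by rw [hy]; field_simp
  have htan := tangent m (z := 1) (t := y) zero_le_one hy0
  rw [P_one] at htan
  have hd := dP_one m
  have hPn := P_nonneg m hy0
  have h1 : P m y * ((m + 1) - (m - 1) * y) ≤ 2 * m := by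
    have h2 : (m : ℝ) * (P m y * ((m + 1) - (m - 1) * y)) ≤ m * (2 * m) := by
      have e : dP m 1 = m * (m - 1) / 2 := by linarith
      rw [e] at htan
      nlinarith
    exact le_of_mul_le_mul_left h2 (by linarith)
  have e0 : ((m : ℝ) + 1) * s - (m - 1) * n = s * (((m : ℝ) + 1) - (m - 1) * y) := by
    rw [← hys]; ring
  rw [e0]
  rcases le_or_gt (((m : ℝ) + 1) - (m - 1) * y) 0 with hK | hK
  · have h3 : s * (((m : ℝ) + 1) - (m - 1) * y) ≤ 0 := mul_nonpos_of_nonneg_of_nonpos hs.le hK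
    have h4 : 0 ≤ 2 * m * τ := by positivity
    linarith
  · calc s * (((m : ℝ) + 1) - (m - 1) * y) ≤ τ * P m y * (((m : ℝ) + 1) - (m - 1) * y) :=
        mul_le_mul_of_nonneg_right h hK.le
      _ = τ * (P m y * (((m : ℝ) + 1) - (m - 1) * y)) := by ring
      _ ≤ τ * (2 * m) := mul_le_mul_of_nonneg_left h1 hτ
      _ = 2 * m * τ := by ring

lemma window {r : ℕ} (hr : 2 ≤ r) {n lam τ : ℝ} (hn : 0 < n) (hs : 0 ≤ lam + τ)
    (h : ((lam + τ) / n) ^ r ≤ (τ / n) * P r ((lam + τ) / n))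
    (hv : (1 - 2 / (r : ℝ)) * n < lam - τ) :
    0 < n - (lam + τ) ∧ (n - (lam + τ)) * ((r : ℝ) ^ 2 - 1) < 12 * n := by
  have hr0 : (2 : ℝ) ≤ r := by exact_mod_cast hr
  have hrp : (0 : ℝ) < r := by linarith
  set ρ := (lam + τ) / n with hρ
  have hρ0 : 0 ≤ ρ := by positivity
  have hρn : ρ * n = lam + τ := by rw [hρ]; field_simp
  have hQp : 0 < P r ρ := by
    obtain ⟨m, rfl⟩ : ∃ m, r = m + 1 := ⟨r - 1, by omega⟩
    exact P_pos m hρ0
  have h2 := one_sub_mul_P r ρ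
  have hid := pair_identity r ρ
  set Q := P r ρ with hQ
  have hpw : 0 ≤ ρ ^ r := pow_nonneg hρ0 r
  have e1 : lam - τ = n * (ρ - 2 * (τ / n)) := by
    rw [hρ]; field_simp; ring
  have h3 : (1 - 2 / (r : ℝ)) < ρ - 2 * (τ / n) := by
    rw [e1, mul_comm] at hv
    exact lt_of_mul_lt_mul_left hv hn.le
  have h4 : (r : ℝ) * (1 + ρ ^ r) < 2 * Q := by
    have h5 : (1 - 2 / (r : ℝ)) * Q < (ρ - 2 * (τ / n)) * Q := mul_lt_mul_of_pos_right h3 hQp
    have h6 : 1 + ρ ^ r < 2 / (r : ℝ) * Q := by nlinarith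
    have h7 : (r : ℝ) * (1 + ρ ^ r) < r * (2 / (r : ℝ) * Q) := mul_lt_mul_of_pos_left h6 hrp
    have h8 : (r : ℝ) * (2 / (r : ℝ) * Q) = 2 * Q := by field_simp
    linarith
  have h1 : ρ < 1 := by
    by_contra hcon
    push Not at hcon
    have hs : 0 ≤ ∑ j ∈ range r, (1 - ρ ^ j) * (1 - ρ ^ (r - j)) := by
      refine Finset.sum_nonneg (fun j _ => ?_)
      have a1 : 1 ≤ ρ ^ j := one_le_pow₀ hcon
      have a2 : 1 ≤ ρ ^ (r - j) := one_le_pow₀ hcon
      nlinarith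
    have a3 : 1 ≤ ρ ^ r := one_le_pow₀ hcon
    linarith
  have hG : (r : ℝ) < 2 * Q := by
    have a5 : 0 ≤ (r : ℝ) * ρ ^ r := by positivity
    linarith
  set δ := 1 - ρ with hδ
  have hδ0 : 0 < δ := by linarith
  have hterm : ∀ j ∈ range r, (j : ℝ) * (r - j) * (δ ^ 2 * Q ^ 2 / r ^ 2) ≤
      (1 - ρ ^ j) * (1 - ρ ^ (r - j)) := by
    intro j hj
    have hj' : j ≤ r := (Finset.mem_range.mp hj).le
    have b1 := ratio_ge r j hj' hρ0 h1.le
    have b2 := ratio_ge r (r - j) (by omega) hρ0 h1.le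
    have e4 : ((r - j : ℕ) : ℝ) = r - j := by push_cast [hj']; ring
    rw [e4] at b2
    have hrj : (0 : ℝ) ≤ r - j := by rw [← e4]; positivity
    rw [← hQ] at b1 b2
    rw [one_sub_pow_eq j, one_sub_pow_eq (r - j), ← hδ]
    have b3 : (j : ℝ) * Q * ((r - j) * Q) ≤ (r * P j ρ) * (r * P (r - j) ρ) :=
      mul_le_mul b1 b2 (by positivity) (mul_nonneg hrp.le (P_nonneg _ hρ0))
    have b4 : (j : ℝ) * (r - j) * (δ ^ 2 * Q ^ 2 / r ^ 2) = (j * Q * ((r - j) * Q)) * (δ ^ 2 / r ^ 2) := by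
      ring
    have b5 : δ * P j ρ * (δ * P (r - j) ρ) = ((r * P j ρ) * (r * P (r - j) ρ)) * (δ ^ 2 / r ^ 2) := by
      field_simp
    rw [b4, b5]
    exact mul_le_mul_of_nonneg_right b3 (by positivity)
  have hsum := Finset.sum_le_sum hterm
  rw [← hid, ← Finset.sum_mul, sum_j] at hsum
  have hδQ : 1 - ρ ^ r = δ * Q := by rw [one_sub_pow_eq, ← hδ, ← hQ]
  have c1 : (r : ℝ) * (r ^ 2 - 1) / 6 * (δ ^ 2 * Q ^ 2 / r ^ 2) =
      (δ * Q) * ((r ^ 2 - 1) / (6 * r) * δ * Q) := by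
    field_simp
  rw [c1, hδQ] at hsum
  have c2 : (δ * Q) * ((r ^ 2 - 1) / (6 * r) * δ * Q) < (δ * Q) * 1 := by linarith
  have hδQp : 0 < δ * Q := by positivity
  have c3 : ((r : ℝ) ^ 2 - 1) / (6 * r) * δ * Q < 1 := lt_of_mul_lt_mul_left c2 hδQp.le
  have c4 : (((r : ℝ) ^ 2 - 1) / (6 * r) * δ) * (r / 2) ≤ ((r : ℝ) ^ 2 - 1) / (6 * r) * δ * Q := by
    have : (0 : ℝ) ≤ ((r : ℝ) ^ 2 - 1) / (6 * r) * δ := by
      have : (0 : ℝ) ≤ (r : ℝ) ^ 2 - 1 := by nlinarith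
      positivity
    exact mul_le_mul_of_nonneg_left (by linarith) this
  have c5 : (((r : ℝ) ^ 2 - 1) / (6 * r) * δ) * (r / 2) = δ * (r ^ 2 - 1) / 12 := by
    field_simp; ring
  have e5 : n - (lam + τ) = δ * n := by rw [hδ, ← hρn]; ring
  rw [e5]
  refine ⟨by positivity, ?_⟩
  have c6 : δ * ((r : ℝ) ^ 2 - 1) < 12 := by linarith
  nlinarith

section spec2
variable {V : Type*} [Fintype V] [DecidableEq V] (G : SimpleGraph V) [DecidableRel G.Adj]

/-- indicator vector -/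
def ind (S : Finset V) : V → ℝ := fun i => if i ∈ S then 1 else 0

lemma ind_dot (S : Finset V) : ind S ⬝ᵥ ind S = (S.card : ℝ) := by
  simp [dotProduct, ind]

lemma ind_sum (S : Finset V) : ∑ i, ind S i = (S.card : ℝ) := by
  simp [ind]

lemma B_ind (S : Finset V) :
    B G (ind S) (ind S) = (((S ×ˢ S).filter (fun e => G.Adj e.1 e.2)).card : ℝ) := by
  rw [B_sum, Finset.card_filter, Nat.cast_sum, Finset.sum_product]
  have : ∀ i, ∑ j, (if G.Adj i j then ind S i * ind S j else 0) =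
      if i ∈ S then ∑ j ∈ S, (if G.Adj i j then (1:ℝ) else 0) else 0 := by
    intro i
    by_cases hi : i ∈ S
    · rw [if_pos hi, ← Finset.sum_filter_add_sum_filter_not Finset.univ (fun j => j ∈ S)]
      rw [Finset.sum_eq_zero (s := Finset.univ.filter (fun w => ¬ w ∈ S)), add_zero]
      · have e : Finset.univ.filter (fun w => w ∈ S) = S := by ext; simp
        rw [e]
        refine Finset.sum_congr rfl (fun j hj => ?_)
        simp [ind, hi, hj]
      · intro j hj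
        have hj' : j ∉ S := (Finset.mem_filter.mp hj).2
        simp [ind, hj']
    · rw [if_neg hi]
      refine Finset.sum_eq_zero (fun j _ => ?_)
      simp [ind, hi]
  rw [Finset.sum_congr rfl (fun i _ => this i)]
  rw [Finset.sum_ite_mem]
  simp

lemma B_one {d : ℕ} (hreg : G.IsRegularOfDegree d) (f : V → ℝ) :
    B G f (fun _ => 1) = d * ∑ i, f i := by
  unfold B
  have : G.adjMatrix ℝ *ᵥ (fun _ => (1:ℝ)) = fun _ => (d : ℝ) := by
    funext v
    have h := SimpleGraph.adjMatrix_mulVec_const_apply (α := ℝ) (G := G) (a := (1:ℝ)) (v := v)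
    have e : (Function.const V (1:ℝ)) = (fun _ => (1:ℝ)) := rfl
    rw [e] at h
    rw [h, hreg.degree_eq v, mul_one]
  rw [this, dotProduct, Finset.mul_sum]
  exact Finset.sum_congr rfl (fun i _ => by ring)

lemma psd_lower {d : ℕ} (hreg : G.IsRegularOfDegree d) {τ : ℝ}
    (hpsd : ∀ y : V → ℝ, 0 ≤ B G y y + τ * (y ⬝ᵥ y)) (hn : (0 : ℝ) < (Fintype.card V : ℝ)) (f : V → ℝ) :
    ((d : ℝ) + τ) * (∑ i, f i) ^ 2 / (Fintype.card V : ℝ) - τ * (f ⬝ᵥ f) ≤ B G f f := by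
  set n : ℝ := (Fintype.card V : ℝ) with hnn
  set F := ∑ i, f i with hF
  have h := hpsd (f + (-(F / n)) • (fun _ => (1:ℝ)))
  rw [B_add_smul, dot_add_smul, B_one G hreg, B_one G hreg] at h
  have e1 : (∑ _i : V, (1 : ℝ)) = n := by simp [hnn]
  have e2 : (fun _ : V => (1 : ℝ)) ⬝ᵥ (fun _ => (1 : ℝ)) = n := by simp [dotProduct, hnn]
  have e3 : f ⬝ᵥ (fun _ => (1 : ℝ)) = F := by simp [dotProduct, hF]
  rw [e1, e2, e3, ← hF] at h
  have e4 : B G f f + 2 * -(F / n) * (d * F) + (-(F / n)) ^ 2 * (d * n) + τ * (f ⬝ᵥ f + 2 * -(F / n) * F + (-(F / n)) ^ 2 * n)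
      = B G f f - (((d : ℝ) + τ) * F ^ 2 / n - τ * (f ⬝ᵥ f)) := by
    field_simp
    ring
  rw [e4] at h
  linarith

lemma nbhd_bound {r d : ℕ} (hr : 2 ≤ r) (hG : G.CliqueFree (r + 1)) (hreg : G.IsRegularOfDegree d) (hd : 0 < d)
    {τ : ℝ} (hτ : 0 < τ) (hpsd : ∀ y : V → ℝ, 0 ≤ B G y y + τ * (y ⬝ᵥ y)) (v : V) :
    (r : ℝ) * B G (ind (Finset.univ.filter (fun u => G.Adj v u))) (ind (Finset.univ.filter (fun u => G.Adj v u)))
      ≤ (r - 2) * ((d : ℝ) + τ) * d := by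
  obtain ⟨k, rfl⟩ : ∃ k, r = k + 2 := ⟨r - 2, by omega⟩
  set N := Finset.univ.filter (fun u => G.Adj v u) with hN
  have hNc : N.card = d := by
    rw [← hreg.degree_eq v, ← SimpleGraph.card_neighborFinset_eq_degree]
    congr 1
    ext u; simp [hN]
  set Bf := B G (ind N) (ind N) with hBf
  have hBf0 : 0 ≤ Bf := by rw [hBf, B_ind]; positivity
  have hdr : (0 : ℝ) < d := by exact_mod_cast hd
  have hs' : 0 < Bf / d + τ := by positivity
  have h := step_main G hτ hpsd k N (by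
    intro T hT hTc
    have hvT : v ∉ T := by
      intro hvT
      have := (Finset.mem_filter.mp (hT hvT)).2
      exact G.loopless.irrefl v this
    have h1 := clique_card_le' G hG (insert v T) (by
      rw [Finset.coe_insert]
      refine hTc.insert (fun b hb _ => ?_)
      exact (Finset.mem_filter.mp (hT hb)).2)
    rw [Finset.card_insert_of_notMem hvT] at h1
    omega) (ind N) (Bf / d + τ) (fun i hi => by simp [ind, hi])
    (by rw [ind_dot, hNc]; exact hdr) hs' (by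
      rw [ind_dot, hNc, add_mul]
      have : Bf / d * d = Bf := by field_simp
      rw [this])
  rw [hNc] at h
  have h2 := lin_form (m := k + 1) (by omega) hdr.le hs' hτ.le h
  push_cast at h2 ⊢
  have h3 : ((k : ℝ) + 1 + 1) * (Bf / d + τ) * d - (k + 1 - 1) * d * d ≤ 2 * (k + 1) * τ * d := by
    have := mul_le_mul_of_nonneg_right h2 hdr.le
    linarith
  have h4 : Bf / d * d = Bf := by field_simp
  have h5 : ((k : ℝ) + 1 + 1) * (Bf / d + τ) * d = (k + 2) * (Bf / d * d) + (k + 2) * τ * d := by ring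
  rw [h5, h4] at h3
  nlinarith

end spec2

end Pool.Agent.Helper198.Brandt
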