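import Mathlib
import Pool.Agent.Helper198.BrandtH

namespace Pool.Agent.Helper198.Brandt

open Finset Matrix

lemma aux_win {r n D Δ : ℝ} (hr : 100000 ≤ r) (hn : 0 < n) (hΔ : 0 < Δ)
    (hw : Δ * (r ^ 2 - 1) < 12 * n) (hv : 2 * r * D - r * Δ < 2 * n) :
    r ^ 2 * D < (r + 601 / 100) * n := by
  have hr2 : (1000000000 : ℝ) ≤ r ^ 2 - 1 := by nlinarith
  have h0 : Δ * 1000000000 ≤ Δ * (r ^ 2 - 1) := mul_le_mul_of_nonneg_left hr2 hΔ.le
  have h1 : r ^ 2 * Δ ≤ (1202 / 100) * n := by nlinarith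
  have h2 : r * (2 * r * D - r * Δ) < r * (2 * n) := mul_lt_mul_of_pos_left hv (by linarith)
  nlinarith

lemma k_small {r m n D Δ : ℝ} (hr : 100000 ≤ r) (hm : 0 ≤ m) (hn : 0 < n) (hΔ : 0 < Δ)
    (hw : Δ * (r ^ 2 - 1) < 12 * n) (hv : 2 * r * D - r * Δ < 2 * n)
    (hsz : n ≤ m * ((1 + 9 * (26 / r)) * D)) : r - 242 < m := by
  by_contra hcon
  push Not at hcon
  have hrp : 0 < r := by linarith
  have h2 := aux_win hr hn hΔ hw hv
  have e1 : m * ((1 + 9 * (26 / r)) * D) = m * (r + 234) * D / r := by field_simp; ring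
  rw [e1, le_div_iff₀ hrp] at hsz
  -- r n ≤ m (r+234) D
  have h3 : n * r * r ^ 2 ≤ m * (r + 234) * (r ^ 2 * D) := by
    have := mul_le_mul_of_nonneg_right hsz (by positivity : (0:ℝ) ≤ r ^ 2)
    linarith
  have h4 : m * (r + 234) * (r ^ 2 * D) ≤ m * (r + 234) * ((r + 601 / 100) * n) :=
    mul_le_mul_of_nonneg_left h2.le (by positivity)
  have h5 : m * (r + 234) * ((r + 601 / 100) * n) ≤ (r - 242) * (r + 234) * ((r + 601 / 100) * n) := by
    have : m * (r + 234) ≤ (r - 242) * (r + 234) := mul_le_mul_of_nonneg_right hcon (by linarith)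
    exact mul_le_mul_of_nonneg_right this (by positivity)
  have h6 : (r - 242) * (r + 234) * (r + 601 / 100) < r * r ^ 2 := by nlinarith
  have h7 : (r - 242) * (r + 234) * ((r + 601 / 100) * n) < r * r ^ 2 * n := by
    have := mul_lt_mul_of_pos_right h6 hn
    linarith
  linarith

lemma final_num {r m k n D τ Δ E : ℝ} (hr : 100000 ≤ r) (hm : m = r - k) (hk0 : 0 ≤ k)
    (hk : k ≤ 242) (hn : 0 < n) (hD : 0 < D) (hΔ : 0 < Δ)
    (hw : Δ * (r ^ 2 - 1) < 12 * n) (hv : 2 * r * D - r * Δ < 2 * n) (hDτ : D = τ + Δ)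
    (hE1 : E ≤ k * (26 / r) * D ^ 2 * (12 + 88 * m * (26 / r)))
    (hE2 : (n - Δ) * n / m - τ * n ≤ E) : False := by
  have hrp : 0 < r := by linarith
  have h2 := aux_win hr hn hΔ hw hv
  have hm2 : 2 ≤ m := by linarith
  have hmp : 0 < m := by linarith
  have hmr : m ≤ r := by linarith
  have h3 : m * (26 / r) ≤ 26 := by
    rw [mul_div_assoc', div_le_iff₀ hrp]; linarith
  have h4 : E ≤ k * (26 / r) * D ^ 2 * 2300 := by
    refine hE1.trans (mul_le_mul_of_nonneg_left (by linarith) (by positivity))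
  have h5 : r ^ 2 * D ^ 2 ≤ (1001 / 1000) * n ^ 2 := by
    have a1 : (r ^ 2 * D) ^ 2 ≤ ((r + 601 / 100) * n) ^ 2 := pow_le_pow_left₀ (by positivity) h2.le 2
    have a2 : (r + 601 / 100) ^ 2 ≤ (1001 / 1000) * r ^ 2 := by nlinarith
    have a3 : r ^ 2 * (r ^ 2 * D ^ 2) ≤ r ^ 2 * ((1001 / 1000) * n ^ 2) := by
      have a4 : (r + 601 / 100) ^ 2 * n ^ 2 ≤ (1001 / 1000) * r ^ 2 * n ^ 2 := mul_le_mul_of_nonneg_right a2 (by positivity)
      nlinarith
    exact le_of_mul_le_mul_left a3 (by positivity)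
  have h6 : r ^ 3 * E ≤ 59860 * (k * n ^ 2) := by
    have a1 : r ^ 3 * E ≤ r ^ 3 * (k * (26 / r) * D ^ 2 * 2300) := mul_le_mul_of_nonneg_left h4 (by positivity)
    have a2 : r ^ 3 * (k * (26 / r) * D ^ 2 * 2300) = 59800 * (k * (r ^ 2 * D ^ 2)) := by
      field_simp; ring
    rw [a2] at a1
    have a3 : k * (r ^ 2 * D ^ 2) ≤ k * ((1001 / 1000) * n ^ 2) := mul_le_mul_of_nonneg_left h5 hk0
    have a4 : 0 ≤ k * n ^ 2 := by positivity
    nlinarith
  have h7 : k * n ^ 2 < r ^ 2 * E := by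
    have hτ : r * τ < n - r * Δ / 2 := by
      have : D = τ + Δ := hDτ
      rw [this] at hv
      linarith
    set u := 1 / m with hu
    have hu2 : u ≤ 1 / 2 := by rw [hu]; exact one_div_le_one_div_of_le (by norm_num) hm2
    have hu0 : 0 < u := by positivity
    have hum : u * m = 1 := by rw [hu]; field_simp
    have e1 : (n - Δ) * n / m = (n - Δ) * n * u := by rw [hu]; ring
    rw [e1] at hE2
    have b1 : k ≤ r ^ 2 * u - r := by
      have : r ^ 2 * u - r = r * u * (r - m) := by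
        have : r * u * (r - m) = r ^ 2 * u - r * (u * m) := by ring
        rw [this, hum]; ring
      rw [this]
      have c1 : 1 ≤ r * u := by
        have : m * u ≤ r * u := mul_le_mul_of_nonneg_right hmr hu0.le
        linarith
      have c2 : r - m = k := by linarith
      rw [c2]
      nlinarith
    have b2 : r ^ 2 * ((n - Δ) * n * u - τ * n) ≤ r ^ 2 * E := mul_le_mul_of_nonneg_left hE2 (by positivity)
    have b3 : r * n * (r * τ) < r * n * (n - r * Δ / 2) := mul_lt_mul_of_pos_left hτ (by positivity)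
    have b4 : k * n ^ 2 ≤ (r ^ 2 * u - r) * n ^ 2 := mul_le_mul_of_nonneg_right b1 (by positivity)
    have b5 : 0 ≤ r ^ 2 * (n * Δ) * (1 / 2 - u) := mul_nonneg (by positivity) (by linarith)
    nlinarith
  have h8 : r * (k * n ^ 2) < r ^ 3 * E := by
    have := mul_lt_mul_of_pos_left h7 hrp
    linarith
  have h9 : 0 ≤ k * n ^ 2 := by positivity
  nlinarith

section spec3
variable {V : Type*} [Fintype V] [DecidableEq V] (G : SimpleGraph V) [DecidableRel G.Adj]

lemma reg_lamMax [Nonempty V] {d : ℕ} (hreg : G.IsRegularOfDegree d) : lamMax G = d := by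
  have hn : (0 : ℝ) < (Fintype.card V : ℝ) := by exact_mod_cast Fintype.card_pos
  apply le_antisymm
  · obtain ⟨x, hx1, hx2⟩ := exists_max_vec G
    rw [← hx2, B_sum]
    have hdeg : ∀ i : V, ∑ j : V, (if G.Adj i j then (1:ℝ) else 0) = d := by
      intro i
      rw [← hreg.degree_eq i, ← SimpleGraph.card_neighborFinset_eq_degree, Finset.sum_boole]
      congr 2
      ext u; simp
    have h1 : ∑ i : V, ∑ j : V, (if G.Adj i j then x i ^ 2 else 0) = d := by
      have : ∀ i : V, ∑ j : V, (if G.Adj i j then x i ^ 2 else 0) = d * (x i * x i) := by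
        intro i
        rw [← hdeg i, Finset.sum_mul]
        refine Finset.sum_congr rfl (fun j _ => ?_)
        split_ifs <;> ring
      rw [Finset.sum_congr rfl (fun i _ => this i), ← Finset.mul_sum]
      have : ∑ i, x i * x i = 1 := hx1
      rw [this, mul_one]
    have h2 : ∑ i : V, ∑ j : V, (if G.Adj i j then x j ^ 2 else 0) = d := by
      rw [← h1, Finset.sum_comm]
      refine Finset.sum_congr rfl (fun i _ => Finset.sum_congr rfl (fun j _ => ?_))
      by_cases h : G.Adj i j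
      · rw [if_pos h, if_pos h.symm]
      · rw [if_neg h, if_neg (fun h' => h h'.symm)]
    have h3 : 2 * ∑ i : V, ∑ j : V, (if G.Adj i j then x i * x j else 0) ≤
        ∑ i : V, ∑ j : V, (if G.Adj i j then x i ^ 2 else 0) +
        ∑ i : V, ∑ j : V, (if G.Adj i j then x j ^ 2 else 0) := by
      rw [Finset.mul_sum, ← Finset.sum_add_distrib]
      refine Finset.sum_le_sum (fun i _ => ?_)
      rw [Finset.mul_sum, ← Finset.sum_add_distrib]
      refine Finset.sum_le_sum (fun j _ => ?_)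
      split_ifs
      · nlinarith [sq_nonneg (x i - x j)]
      · simp
    linarith
  · have h1 := B_le G (fun _ => (1 : ℝ))
    rw [B_one G hreg] at h1
    have e1 : (∑ _i : V, (1 : ℝ)) = (Fintype.card V : ℝ) := by simp
    have e2 : (fun _ : V => (1 : ℝ)) ⬝ᵥ (fun _ => (1 : ℝ)) = (Fintype.card V : ℝ) := by simp [dotProduct]
    rw [e1, e2] at h1
    exact le_of_mul_le_mul_right h1 hn

lemma NN_card {d : ℕ} (hreg : G.IsRegularOfDegree d) (v : V) :
    ((NN G v).card : ℝ) = (Fintype.card V : ℝ) - d := by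
  have h : (Finset.univ.filter (fun u => G.Adj v u)).card + (NN G v).card = (Finset.univ : Finset V).card :=
    Finset.card_filter_add_card_filter_not _
  have h2 : (Finset.univ.filter (fun u => G.Adj v u)).card = d := by
    rw [← hreg.degree_eq v, ← SimpleGraph.card_neighborFinset_eq_degree]
    congr 1
    ext u; simp
  rw [h2, Finset.card_univ] at h
  have h' : (d : ℝ) + ((NN G v).card : ℝ) = (Fintype.card V : ℝ) := by exact_mod_cast h
  linarith

lemma B_NN {d : ℕ} (hreg : G.IsRegularOfDegree d) (v : V) :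
    B G (ind (NN G v)) (ind (NN G v)) = (Fintype.card V : ℝ) * d - 2 * (d : ℝ) ^ 2 +
      B G (ind (Finset.univ.filter (fun u => G.Adj v u))) (ind (Finset.univ.filter (fun u => G.Adj v u))) := by
  have e1 : ind (NN G v) = (fun _ => (1:ℝ)) + (-1 : ℝ) • ind (Finset.univ.filter (fun u => G.Adj v u)) := by
    funext u
    by_cases h : G.Adj v u <;> simp [ind, NN, h]
  have h2 : (Finset.univ.filter (fun u => G.Adj v u)).card = d := by
    rw [← hreg.degree_eq v, ← SimpleGraph.card_neighborFinset_eq_degree]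
    congr 1
    ext u; simp
  rw [e1, B_add_smul, B_one G hreg, B_symm G (fun _ => (1:ℝ)), B_one G hreg, ind_sum, h2]
  have e3 : (∑ _i : V, (1 : ℝ)) = (Fintype.card V : ℝ) := by simp
  rw [e3]; ring

lemma sum_NN (v : V) : ∑ w ∈ NN G v, (((NN G v) \ (NN G w)).card : ℝ) =
    B G (ind (NN G v)) (ind (NN G v)) := by
  rw [B_ind, Finset.card_filter, Nat.cast_sum, Finset.sum_product]
  refine Finset.sum_congr rfl (fun w _ => ?_)
  have : NN G v \ NN G w = (NN G v).filter (fun u => G.Adj w u) := by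
    ext u
    simp [NN]
  rw [this, Finset.card_filter, Nat.cast_sum]

theorem reg_main [Nonempty V] {r d : ℕ} (hr : 100000 ≤ r) (hG : G.CliqueFree (r + 1))
    (hreg : G.IsRegularOfDegree d) :
    lamMax G + lamMin G ≤ (1 - 2 / (r : ℝ)) * (Fintype.card V : ℝ) := by
  by_contra hcon
  push Not at hcon
  have hrr : (100000 : ℝ) ≤ r := by exact_mod_cast hr
  have hrp : (0 : ℝ) < r := by linarith
  have hn : (0 : ℝ) < (Fintype.card V : ℝ) := by exact_mod_cast Fintype.card_pos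
  have h2r : (2 : ℝ) / r ≤ 1 := by rw [div_le_one hrp]; linarith
  have hlm := reg_lamMax G hreg
  rcases core G (by omega : 1 ≤ r) hG with ⟨hs, h⟩ | ⟨h1, h2⟩
  swap
  · rw [h1, h2] at hcon
    have : 0 ≤ (1 - 2 / (r : ℝ)) * (Fintype.card V : ℝ) := mul_nonneg (by linarith) hn.le
    linarith
  obtain ⟨τ, hτdef⟩ : ∃ τ, τ = - lamMin G := ⟨_, rfl⟩
  have hmin : lamMin G = -τ := by rw [hτdef]; ring
  rw [hlm, hmin] at hs h hcon
  have hτ0 : 0 ≤ τ := by have := lamMin_nonpos G; linarith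
  have hτ : 0 < τ := by
    rcases hτ0.eq_or_lt with h0 | h0
    · exfalso
      rw [← h0] at h hs
      simp at h hs
      linarith
    · exact h0
  have e0 : (d : ℝ) - -τ = d + τ := by ring
  have e0' : (- -τ : ℝ) = τ := by ring
  rw [e0] at hs h
  rw [e0'] at h
  have hpsd : ∀ y : V → ℝ, 0 ≤ B G y y + τ * (y ⬝ᵥ y) := by
    intro y; have := le_B G y; rw [hmin] at this; linarith
  set n : ℝ := (Fintype.card V : ℝ) with hnn
  have hd : 0 < d := by
    rcases Nat.eq_zero_or_pos d with h0 | h0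
    · exfalso
      rw [h0] at hcon
      have : 0 ≤ (1 - 2 / (r : ℝ)) * n := mul_nonneg (by linarith) hn.le
      push_cast at hcon
      linarith
    · exact h0
  have hdr : (0 : ℝ) < d := by exact_mod_cast hd
  have hrho := rho_form hn hs h
  obtain ⟨hΔ, hw⟩ := window (by omega : 2 ≤ r) hn hs.le hrho (by linarith)
  set Δ := n - (d + τ) with hΔd
  obtain ⟨v0⟩ := (inferInstance : Nonempty V)
  set D : ℕ := (NN G v0).card with hD
  have hDr : (D : ℝ) = n - d := NN_card G hreg v0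
  have hregD : ∀ v, (NN G v).card = D := by
    intro v
    have h1 := NN_card G hreg v
    rw [← hnn, ← hDr] at h1
    exact_mod_cast h1
  have hDτ : (D : ℝ) = τ + Δ := by rw [hDr, hΔd]; ring
  have hDp : (0 : ℝ) < D := by rw [hDτ]; linarith
  have hDp' : 0 < D := by exact_mod_cast hDp
  have hv : 2 * (r : ℝ) * D - r * Δ < 2 * n := by
    have h1 := mul_lt_mul_of_pos_left hcon hrp
    have h2 : (r : ℝ) * ((1 - 2 / (r : ℝ)) * n) = r * n - 2 * n := by field_simp
    rw [h2] at h1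
    have h3 : (d : ℝ) + -τ = n - 2 * D + Δ := by rw [hDτ, hΔd]; ring
    rw [h3] at h1
    linarith
  -- bound inside the non-neighbourhoods
  have hBN : ∀ v, (r : ℝ) * B G (ind (NN G v)) (ind (NN G v)) ≤ d * (2 * Δ) ∧
      0 ≤ d * (2 * r * D - 2 * n - (r - 2) * Δ) := by
    intro v
    have h1 := nbhd_bound G (by omega : 2 ≤ r) hG hreg hd hτ hpsd v
    have h2 := B_NN G hreg v
    rw [← hnn] at h2
    have h3 : (r : ℝ) * B G (ind (NN G v)) (ind (NN G v)) ≤ d * (2 * r * D - 2 * n - (r - 2) * Δ) := by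
      rw [h2, hDr, hΔd]
      nlinarith
    have h4 : 0 ≤ B G (ind (NN G v)) (ind (NN G v)) := by rw [B_ind]; exact Nat.cast_nonneg _
    have h5 : 0 ≤ (r : ℝ) * B G (ind (NN G v)) (ind (NN G v)) := mul_nonneg hrp.le h4
    refine ⟨h3.trans (mul_le_mul_of_nonneg_left (by linarith) hdr.le), h5.trans h3⟩
  have hnD : n ≤ r * D := by
    have h1 := nonneg_of_mul_nonneg_right (hBN v0).2 hdr
    have h2 : 0 ≤ ((r : ℝ) - 2) * Δ := mul_nonneg (by linarith) hΔ.le
    linarith
  set ε : ℝ := 26 / r with hε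
  have hε0 : 0 < ε := by positivity
  have hε2 : ε ≤ 1 / 100 := by rw [hε, div_le_iff₀ hrp]; linarith
  have hin : ∀ v, ∑ w ∈ NN G v, (((NN G v) \ (NN G w)).card : ℝ) ≤ ε * (D : ℝ) ^ 2 := by
    intro v
    rw [sum_NN]
    have h1 := (hBN v).1
    set b := B G (ind (NN G v)) (ind (NN G v)) with hb
    have hr2 : (0 : ℝ) < (r : ℝ) ^ 2 - 1 := by nlinarith
    have hdn : (d : ℝ) ≤ n := by linarith
    have a1 : (r : ℝ) * b * ((r : ℝ) ^ 2 - 1) ≤ 24 * n ^ 2 := by
      have a2 : (r : ℝ) * b * ((r : ℝ) ^ 2 - 1) ≤ d * (2 * Δ) * ((r : ℝ) ^ 2 - 1) :=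
        mul_le_mul_of_nonneg_right h1 hr2.le
      have a3 : d * (2 * Δ) * ((r : ℝ) ^ 2 - 1) = 2 * d * (Δ * ((r : ℝ) ^ 2 - 1)) := by ring
      have a4 : 2 * d * (Δ * ((r : ℝ) ^ 2 - 1)) ≤ 2 * d * (12 * n) := mul_le_mul_of_nonneg_left hw.le (by positivity)
      nlinarith
    have a5 : n ^ 2 ≤ (r * D) ^ 2 := pow_le_pow_left₀ hn.le hnD 2
    have a6 : (r : ℝ) * b * ((r : ℝ) ^ 2 - 1) ≤ 26 * (D : ℝ) ^ 2 * ((r : ℝ) ^ 2 - 1) := by
      have : 24 * ((r : ℝ) * D) ^ 2 ≤ 26 * (D : ℝ) ^ 2 * ((r : ℝ) ^ 2 - 1) := by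
        have h7 : 24 * (r : ℝ) ^ 2 ≤ 26 * ((r : ℝ) ^ 2 - 1) := by nlinarith
        have h8 := mul_le_mul_of_nonneg_right h7 (sq_nonneg (D : ℝ))
        nlinarith
      linarith
    have a7 : (r : ℝ) * b ≤ 26 * (D : ℝ) ^ 2 := le_of_mul_le_mul_right a6 hr2
    have a8 : ε * (D : ℝ) ^ 2 = 26 * (D : ℝ) ^ 2 / r := by rw [hε]; ring
    rw [a8, le_div_iff₀ hrp]
    linarith
  obtain ⟨c, hc1, hc2, hc3⟩ := classes G D hDp' hregD ε hε0 hε2 hin
  obtain ⟨hmr, hmain⟩ := comb_main G c D hDp' ε hε0 hε2 hregD hc1 hc2 hc3 hG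
  set I := univ.image c with hI
  obtain ⟨k, hk⟩ : ∃ k, r = I.card + k := ⟨r - I.card, by omega⟩
  have hkr : (r : ℝ) = I.card + k := by exact_mod_cast hk
  -- sizes
  have hsum : ∑ i ∈ I, ((cls c i).card : ℝ) = n := by
    have := Finset.card_eq_sum_card_image c (univ : Finset V)
    rw [Finset.card_univ] at this
    rw [hnn, this, Nat.cast_sum]
    rfl
  have hsz : n ≤ I.card * ((1 + 9 * (26 / r)) * D) := by
    rw [← hsum]
    calc _ ≤ ∑ i ∈ I, ((1 + 9 * (26 / (r : ℝ))) * D) := by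
          refine Finset.sum_le_sum (fun i hi => ?_)
          obtain ⟨u, -, rfl⟩ := Finset.mem_image.mp hi
          exact hc3 u
      _ = _ := by rw [Finset.sum_const, nsmul_eq_mul]
  have hk242 := k_small hrr (Nat.cast_nonneg _) hn hΔ hw hv hsz
  have hkle : (k : ℝ) ≤ 242 := by linarith
  have hE1 := hmain k hk (by
    rw [hε, div_mul_eq_mul_div, div_le_one hrp]; linarith)
  have hIp : (0 : ℝ) < I.card := by linarith
  have hE2 : (n - Δ) * n / I.card - τ * n ≤ ((∑ i ∈ I, (EC G c i).card : ℕ) : ℝ) := by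
    rw [Nat.cast_sum]
    have h1 : ∀ i ∈ I, ((d : ℝ) + τ) / n * ((cls c i).card : ℝ) ^ 2 - τ * ((cls c i).card : ℝ) ≤ ((EC G c i).card : ℝ) := by
      intro i _
      have h2 := psd_lower G hreg hpsd hn (ind (cls c i))
      rw [ind_sum, ind_dot, B_ind, ← hnn] at h2
      have e : ((d : ℝ) + τ) * ((cls c i).card : ℝ) ^ 2 / n = ((d : ℝ) + τ) / n * ((cls c i).card : ℝ) ^ 2 := by ring
      rw [e] at h2
      exact h2
    have h2 := Finset.sum_le_sum h1
    rw [Finset.sum_sub_distrib, ← Finset.mul_sum, ← Finset.mul_sum, hsum] at h2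
    have h3 : n ^ 2 ≤ I.card * ∑ i ∈ I, ((cls c i).card : ℝ) ^ 2 := by
      have := sq_sum_le_card_mul_sum_sq (s := I) (f := fun i => ((cls c i).card : ℝ))
      rwa [hsum] at this
    have h4 : (n - Δ) * n / I.card ≤ ((d : ℝ) + τ) / n * ∑ i ∈ I, ((cls c i).card : ℝ) ^ 2 := by
      have e1 : n - Δ = (d : ℝ) + τ := by rw [hΔd]; ring
      rw [e1, div_le_iff₀ hIp]
      have e2 : ((d : ℝ) + τ) * n = ((d : ℝ) + τ) / n * n ^ 2 := by field_simp
      rw [e2]
      have h5 : 0 ≤ ((d : ℝ) + τ) / n := by positivity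
      have h6 := mul_le_mul_of_nonneg_left h3 h5
      linarith
    linarith
  exact final_num hrr (by linarith : (I.card : ℝ) = r - k) (Nat.cast_nonneg _) hkle hn hDp hΔ hw hv hDτ hE1 hE2

end spec3

end Pool.Agent.Helper198.Brandt
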