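import Mathlib

/-!
Families of pointed curves on smooth projective surfaces over a field, their multiplicity and
their self-intersection number.
-/

open AlgebraicGeometry CategoryTheory Limits

namespace Pool.Agent.Helper198.CurveFamily

attribute [local instance] MvPolynomial.gradedAlgebra

section points

/-- The set of points of the scheme `X`. -/
def Pt (X : Scheme.{0}) : Type := X

/-- The Zariski topology on the set of points. -/
instance (X : Scheme.{0}) : TopologicalSpace (Pt X) := inferInstanceAs (TopologicalSpace X)

/-- The map on points given by a morphism of schemes. -/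
def onPt {X Y : Scheme.{0}} (f : X ⟶ Y) (x : Pt X) : Pt Y := f x

/-- The local ring of the scheme `X` at the point `x`. -/
noncomputable def localRing (X : Scheme.{0}) (x : Pt X) : CommRingCat.{0} := X.presheaf.stalk x

instance (X : Scheme.{0}) (x : Pt X) : IsLocalRing (localRing X x) :=
  (fun y : X => (inferInstance : IsLocalRing (X.presheaf.stalk y))) x

/-- The map of local rings given by the morphism `ι : C ⟶ X` at the point `z` of `C`. -/
noncomputable def localMap {C X : Scheme.{0}} (ι : C ⟶ X) (z : Pt C) :
    localRing X (onPt ι z) ⟶ localRing C z :=
  ι.stalkMap z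

/-- The ring of global functions on the scheme `Y`. -/
noncomputable def globalFunctions (Y : Scheme.{0}) : CommRingCat.{0} := Γ(Y, ⊤)

variable {k : Type} [Field k]

/-- For a `k`-scheme `Y`, the elements of `k` as global functions on `Y`. -/
noncomputable def scalars {Y : Scheme.{0}} (sY : Y ⟶ Spec (.of k)) :
    CommRingCat.of k ⟶ globalFunctions Y :=
  (Scheme.ΓSpecIso (.of k)).inv ≫ sY.appTop

end points

section projective

/-- Projective `n`-space over `k`: the scheme `Proj k[x_0, ..., x_n]` with the grading by degree. -/
noncomputable def PSpace (n : ℕ) (k : Type) [Field k] : Scheme.{0} :=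
  Proj (MvPolynomial.homogeneousSubmodule (Fin (n + 1)) k)

/-- The structure morphism of projective `n`-space. -/
noncomputable def PSpace.str (n : ℕ) (k : Type) [Field k] : PSpace n k ⟶ Spec (.of k) :=
  Proj.toSpecZero (MvPolynomial.homogeneousSubmodule (Fin (n + 1)) k) ≫
    Spec.map (CommRingCat.ofHom
      (algebraMap k (MvPolynomial.homogeneousSubmodule (Fin (n + 1)) k 0)))

variable {k : Type} [Field k]

/-- `X` is projective over `k`: it is isomorphic to a closed subscheme of some projective space. -/
def IsProjective {X : Scheme.{0}} (sX : X ⟶ Spec (.of k)) : Prop :=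
  ∃ (n : ℕ) (i : X ⟶ PSpace n k), IsClosedImmersion i ∧ i ≫ PSpace.str n k = sX

/-- `X` is a smooth projective surface over `k`: integral, smooth of relative dimension two over
`k`, and projective over `k`. -/
structure IsSmoothProjectiveSurface {X : Scheme.{0}} (sX : X ⟶ Spec (.of k)) : Prop where
  integral : IsIntegral X
  smooth : SmoothOfRelativeDimension 2 sX
  projective : IsProjective sX

/-- `T` is a variety over `k`: integral, separated and of finite type over `k`. -/
structure IsVariety {T : Scheme.{0}} (sT : T ⟶ Spec (.of k)) : Prop where
  integral : IsIntegral T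
  separated : IsSeparated sT
  locallyOfFiniteType : LocallyOfFiniteType sT
  quasiCompact : QuasiCompact sT

end projective

/-- `C` is an irreducible curve: an integral scheme of dimension one. -/
structure IsIrreducibleCurve (C : Scheme.{0}) : Prop where
  integral : IsIntegral C
  dim : topologicalKrullDim (Pt C) = 1

/-- An algebraic family of irreducible pointed curves on the `k`-scheme `X`: a variety `T`, a
closed subscheme `C` of `X ×_k T` which is flat over `T`, a section `pt` of `C → T`, such that
for every `k`-rational point `t` of `T` the fibre `C_t` of `C → T` at `t` is an integral scheme of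
dimension one. -/
structure PointedCurveFamily {k : Type} [Field k] {X : Scheme.{0}} (sX : X ⟶ Spec (.of k)) where
  /-- the parameter space -/
  T : Scheme.{0}
  /-- the structure morphism of the parameter space -/
  sT : T ⟶ Spec (.of k)
  isVariety : IsVariety sT
  /-- the total space of the family -/
  C : Scheme.{0}
  /-- first projection -/
  toX : C ⟶ X
  /-- second projection -/
  toT : C ⟶ T
  comm : toX ≫ sX = toT ≫ sT
  /-- the total space is a closed subscheme of the product `X ×_k T` -/
  closed : IsClosedImmersion (pullback.lift toX toT comm)
  /-- the total space is flat over the parameter space -/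
  flat : Flat toT
  /-- the section of marked points -/
  pt : T ⟶ C
  pt_toT : pt ≫ toT = 𝟙 T
  /-- the curves of the family are irreducible curves -/
  fibre : ∀ t : Spec (.of k) ⟶ T, t ≫ sT = 𝟙 _ → IsIrreducibleCurve (pullback toT t)

/-- The power `𝔪 ^ m` of the maximal ideal of the local ring of `X` at `x`. -/
noncomputable def maxPow (X : Scheme.{0}) (x : Pt X) (m : ℕ) : Ideal (localRing X x) :=
  IsLocalRing.maximalIdeal (localRing X x) ^ m

/-- The ideal of `C` in the local ring of `X` at the point `ι z`: the kernel of the map of local
rings given by `ι : C ⟶ X` at the point `z` of `C`. -/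
noncomputable def curveIdeal {C X : Scheme.{0}} (ι : C ⟶ X) (z : Pt C) :
    Ideal (localRing X (onPt ι z)) :=
  RingHom.ker (localMap ι z).hom

/-- The morphism `ι : C ⟶ X` of schemes (a closed immersion in our applications) has multiplicity
`m` at the point `z` of `C`: the ideal of `C` in the local ring of `X` at the point `x = ι z`
is contained in the power `𝔪 ^ m` of the maximal
ideal, and is not contained in `𝔪 ^ (m + 1)`. If `X` is a smooth surface and `C` is a curve in `X`
with local equation `f` at `x`, then this says that the order of vanishing of `f` at `x` is `m`. -/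
def HasMultiplicityAt {C X : Scheme.{0}} (ι : C ⟶ X) (z : Pt C) (m : ℕ) : Prop :=
  curveIdeal ι z ≤ maxPow X (onPt ι z) m ∧ ¬ curveIdeal ι z ≤ maxPow X (onPt ι z) (m + 1)

/-- The `k`-dimension of the space of global functions of the `k`-scheme `Y` is `d`
(in particular finite). -/
def HasGlobalDimension {k : Type} [Field k] {Y : Scheme.{0}} (sY : Y ⟶ Spec (.of k)) (d : ℕ) :
    Prop :=
  letI := (scalars sY).hom.toAlgebra
  Module.Finite k (globalFunctions Y) ∧ Module.finrank k (globalFunctions Y) = d

/-- The intersection number of the two curves `i : C ⟶ X` and `j : D ⟶ X` (distinct integral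
curves) on the surface `X` is `d`: this is the dimension over `k` of the ring of
functions of the scheme-theoretic intersection `C ×_X D`. -/
def HasIntersectionNumber {k : Type} [Field k] {X C D : Scheme.{0}} (sX : X ⟶ Spec (.of k))
    (i : C ⟶ X) (j : D ⟶ X) (d : ℕ) : Prop :=
  HasGlobalDimension (pullback.fst i j ≫ i ≫ sX) d

namespace PointedCurveFamily

variable {k : Type} [Field k] {X : Scheme.{0}} {sX : X ⟶ Spec (.of k)}
  (F : PointedCurveFamily sX)

/-- The `k`-rational points `t` of the parameter space. -/
def Points : Type := {t : Spec (.of k) ⟶ F.T // t ≫ F.sT = 𝟙 _}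

/-- The curve `C_t`. -/
noncomputable def curve (t : F.Points) : Scheme.{0} := pullback F.toT t.1

/-- The inclusion of the curve `C_t` in `X`. -/
noncomputable def incl (t : F.Points) : F.curve t ⟶ X := pullback.fst F.toT t.1 ≫ F.toX

/-- The curve `C_t` as a set of points of `X`. -/
def curveSet (t : F.Points) : Set (Pt X) := Set.range (onPt (F.incl t))

/-- The marked point of the curve `C_t`, as a `k`-rational point of `C_t`. -/
noncomputable def mark (t : F.Points) : Spec (.of k) ⟶ F.curve t :=
  pullback.lift (t.1 ≫ F.pt) (𝟙 _)
    (by rw [Category.assoc, F.pt_toT, Category.comp_id, Category.id_comp])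

/-- The marked point of the curve `C_t`, as a point of the scheme `C_t`. -/
noncomputable def markedPoint (t : F.Points) : Pt (F.curve t) :=
  onPt (F.mark t) (IsLocalRing.closedPoint k)

/-- The marked point `x_t`, as a point of `X`. -/
noncomputable def x (t : F.Points) : Pt X := onPt (F.incl t) (F.markedPoint t)

/-- The family is covering: there is a dense open subset `U` of `X` whose closed points are exactly
the marked points `x_t`. -/
def IsCovering : Prop :=
  ∃ U : Set (Pt X), IsOpen U ∧ Dense U ∧
    ∀ y : Pt X, (∃ t : F.Points, F.x t = y) ↔ (y ∈ U ∧ IsClosed {y})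

/-- All curves of the family have multiplicity `m` at the marked point. -/
def HasMultiplicity (m : ℕ) : Prop :=
  ∀ t : F.Points, HasMultiplicityAt (F.incl t) (F.markedPoint t) m

/-- The self-intersection number `(C_t^2)` is `d`. The curves `C_t` are
algebraically equivalent to each other, so that `(C_t^2) = (C_s . C_t)` for all `s` and `t`, and
this is the intersection number of two distinct integral curves when `C_s ≠ C_t`. We ask that
there are two different curves in the family and that any two different curves in the family have
intersection number `d`. -/
def HasSelfIntersection (d : ℕ) : Prop :=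
  (∃ s t : F.Points, F.curveSet s ≠ F.curveSet t) ∧
    ∀ s t : F.Points, F.curveSet s ≠ F.curveSet t →
      HasIntersectionNumber sX (F.incl s) (F.incl t) d

end PointedCurveFamily

end Pool.Agent.Helper198.CurveFamily
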