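import Mathlib

set_option autoImplicit false
set_option linter.unusedSectionVars false
set_option linter.unusedSimpArgs false
set_option linter.unusedVariables false

open scoped Matrix

namespace Pool.Agent.Helper198

section Blocks

variable {D M : Type} [Fintype D] [DecidableEq D] [Fintype M] [DecidableEq M]
variable {S : Type} [CommRing S]

/-- The block idempotent of rank `card D`. -/
def EE (D M : Type) [DecidableEq D] (S : Type) [CommRing S] : Matrix (D ⊕ M) (D ⊕ M) S :=
  Matrix.fromBlocks 1 0 0 0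

/-- The unipotent-type matrix with off-diagonal blocks `b`, `a`. -/
def gg (a : Matrix M D S) (b : Matrix D M S) : Matrix (D ⊕ M) (D ⊕ M) S :=
  Matrix.fromBlocks (1 + b * a) b a 1

/-- Its inverse. -/
def gi (a : Matrix M D S) (b : Matrix D M S) : Matrix (D ⊕ M) (D ⊕ M) S :=
  Matrix.fromBlocks 1 (-b) (-a) (1 + a * b)

lemma gg_mul_gi (a : Matrix M D S) (b : Matrix D M S) : gg a b * gi a b = 1 := by
  unfold gg gi
  rw [Matrix.fromBlocks_multiply, ← Matrix.fromBlocks_one]
  congr 1 <;> simp only [Matrix.mul_add, Matrix.add_mul, Matrix.mul_one, Matrix.one_mul,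
    Matrix.mul_neg, Matrix.neg_mul, Matrix.mul_assoc] <;> abel

lemma gi_mul_gg (a : Matrix M D S) (b : Matrix D M S) : gi a b * gg a b = 1 := by
  unfold gg gi
  rw [Matrix.fromBlocks_multiply, ← Matrix.fromBlocks_one]
  congr 1 <;> simp only [Matrix.mul_add, Matrix.add_mul, Matrix.mul_one, Matrix.one_mul,
    Matrix.mul_neg, Matrix.neg_mul, Matrix.mul_assoc] <;> abel

/-- A matrix commuting with `EE` is block diagonal. -/
lemma blockDiag_of_commute {Z : Matrix (D ⊕ M) (D ⊕ M) S} (h : EE D M S * Z = Z * EE D M S) :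
    Z = Matrix.fromBlocks Z.toBlocks₁₁ 0 0 Z.toBlocks₂₂ := by
  obtain ⟨A, B, C, E, rfl⟩ : ∃ A B C E, Z = Matrix.fromBlocks A B C E :=
    ⟨_, _, _, _, (Matrix.fromBlocks_toBlocks Z).symm⟩
  unfold EE at h
  rw [Matrix.fromBlocks_multiply, Matrix.fromBlocks_multiply] at h
  simp only [Matrix.one_mul, Matrix.zero_mul, Matrix.mul_one, Matrix.mul_zero, add_zero,
    zero_add] at h
  obtain ⟨-, h12, h21, -⟩ := Matrix.fromBlocks_inj.mp h
  simp [h12, ← h21]

lemma commute_of_blockDiag (A : Matrix D D S) (B : Matrix M M S) :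
    EE D M S * Matrix.fromBlocks A 0 0 B = Matrix.fromBlocks A 0 0 B * EE D M S := by
  unfold EE
  rw [Matrix.fromBlocks_multiply, Matrix.fromBlocks_multiply]
  simp

/-- A vector fixed by `EE` has zero second component. -/
lemma vec_of_EE_fixed {w : D ⊕ M → S} (h : EE D M S *ᵥ w = w) :
    w = Sum.elim (fun i => w (Sum.inl i)) (fun _ => 0) := by
  funext s
  rcases s with i | j
  · rfl
  · have := congrFun h (Sum.inr j)
    rw [← this]
    simp [EE, Matrix.mulVec, dotProduct, Fintype.sum_sum_type, Matrix.fromBlocks]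

lemma EE_fixed (u : D → S) : EE D M S *ᵥ (Sum.elim u (fun _ => 0)) = Sum.elim u (fun _ => 0) := by
  funext s
  rcases s with i | j
  · simp [EE, Matrix.mulVec, dotProduct, Fintype.sum_sum_type, Matrix.fromBlocks, Matrix.one_apply]
  · simp [EE, Matrix.mulVec, dotProduct, Fintype.sum_sum_type, Matrix.fromBlocks]

lemma EE_mul_EE : EE D M S * EE D M S = EE D M S := by
  unfold EE
  rw [Matrix.fromBlocks_multiply]
  simp

end Blocks


section NormalForm

variable {D M Ω : Type} [Fintype D] [DecidableEq D] [Fintype M] [DecidableEq M]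
  [Fintype Ω] [DecidableEq Ω]
variable {k : Type} [Field k]

/-- entrywise base change of a matrix. -/
def bc {m n : Type} (S : Type) [CommRing S] [Algebra k S] (A : Matrix m n k) : Matrix m n S :=
  A.map (algebraMap k S)

lemma bc_mul {l m n : Type} [Fintype m] (S : Type) [CommRing S] [Algebra k S]
    (A : Matrix l m k) (B : Matrix m n k) : bc S (A * B) = bc S A * bc S B := by
  unfold bc; exact Matrix.map_mul

lemma bc_one {m : Type} [DecidableEq m] (S : Type) [CommRing S] [Algebra k S] :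
    bc S (1 : Matrix m m k) = 1 := by
  unfold bc; ext i j; by_cases h : i = j <;> simp [Matrix.one_apply, h]

lemma bc_map {m n : Type} {S S' : Type} [CommRing S] [Algebra k S] [CommRing S'] [Algebra k S']
    (f : S →ₐ[k] S') (A : Matrix m n k) : (bc S A).map f = bc S' A := by
  ext i j; simp [bc]

section defs
variable {S : Type} [CommRing S] [Algebra k S]

/-- normal form for the idempotent -/
def Pn (γ : Matrix Ω (D ⊕ M) k) (γ' : Matrix (D ⊕ M) Ω k) (W : Matrix (D ⊕ M) (D ⊕ M) S) :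
    Matrix Ω Ω S :=
  bc S γ * gg W.toBlocks₂₁ W.toBlocks₁₂ * EE D M S * gi W.toBlocks₂₁ W.toBlocks₁₂ * bc S γ'

/-- normal form for the commuting matrix -/
def Zn (γ : Matrix Ω (D ⊕ M) k) (γ' : Matrix (D ⊕ M) Ω k) (W : Matrix (D ⊕ M) (D ⊕ M) S) :
    Matrix Ω Ω S :=
  bc S γ * gg W.toBlocks₂₁ W.toBlocks₁₂ * Matrix.fromBlocks W.toBlocks₁₁ 0 0 W.toBlocks₂₂ *
    gi W.toBlocks₂₁ W.toBlocks₁₂ * bc S γ'

/-- normal form for the vector -/
def vn (γ : Matrix Ω (D ⊕ M) k) (W : Matrix (D ⊕ M) (D ⊕ M) S) (u : D → S) : Ω → S :=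
  (bc S γ * gg W.toBlocks₂₁ W.toBlocks₁₂) *ᵥ Sum.elim u (fun _ => 0)

end defs

section functoriality
variable {S S' : Type} [CommRing S] [Algebra k S] [CommRing S'] [Algebra k S'] (f : S →ₐ[k] S')

lemma EE_map : (EE D M S).map f = EE D M S' := by
  unfold EE
  rw [Matrix.fromBlocks_map]
  congr 1
  · ext i j; by_cases h : i = j <;> simp [Matrix.one_apply, h]
  all_goals ext i j; simp

lemma gg_map (a : Matrix M D S) (b : Matrix D M S) :
    (gg a b).map f = gg (a.map f) (b.map f) := by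
  unfold gg
  rw [Matrix.fromBlocks_map]
  congr 1
  · rw [Matrix.map_add _ (map_add f), Matrix.map_mul, Matrix.map_one _ (map_zero f) (map_one f)]
  · rw [Matrix.map_one _ (map_zero f) (map_one f)]

lemma gi_map (a : Matrix M D S) (b : Matrix D M S) :
    (gi a b).map f = gi (a.map f) (b.map f) := by
  unfold gi
  rw [Matrix.fromBlocks_map]
  congr 1
  · rw [Matrix.map_one _ (map_zero f) (map_one f)]
  · ext i j; simp
  · ext i j; simp
  · rw [Matrix.map_add _ (map_add f), Matrix.map_mul, Matrix.map_one _ (map_zero f) (map_one f)]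

lemma Pn_map (γ : Matrix Ω (D ⊕ M) k) (γ' : Matrix (D ⊕ M) Ω k) (W : Matrix (D ⊕ M) (D ⊕ M) S) :
    (Pn γ γ' W).map f = Pn γ γ' (W.map f) := by
  unfold Pn
  simp only [Matrix.map_mul, gg_map, gi_map, EE_map, bc_map]
  rfl

lemma Zn_map (γ : Matrix Ω (D ⊕ M) k) (γ' : Matrix (D ⊕ M) Ω k) (W : Matrix (D ⊕ M) (D ⊕ M) S) :
    (Zn γ γ' W).map f = Zn γ γ' (W.map f) := by
  unfold Zn
  have h : (Matrix.fromBlocks W.toBlocks₁₁ 0 0 W.toBlocks₂₂).map f =
      Matrix.fromBlocks (W.map f).toBlocks₁₁ 0 0 (W.map f).toBlocks₂₂ := by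
    rw [Matrix.fromBlocks_map]
    congr 1
    · ext i j; simp
    · ext i j; simp
  simp only [Matrix.map_mul, gg_map, gi_map, bc_map, h]
  rfl

lemma vn_map (γ : Matrix Ω (D ⊕ M) k) (W : Matrix (D ⊕ M) (D ⊕ M) S) (u : D → S) (s : Ω) :
    f (vn γ W u s) = vn γ (W.map f) (fun i => f (u i)) s := by
  unfold vn
  have h := RingHom.map_mulVec (f : S →+* S') (bc S γ * gg W.toBlocks₂₁ W.toBlocks₁₂)
    (Sum.elim u (fun _ => 0)) s
  have h1 : (bc S γ * gg W.toBlocks₂₁ W.toBlocks₁₂).map (f : S →+* S') =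
      bc S' γ * gg (W.map f).toBlocks₂₁ (W.map f).toBlocks₁₂ := by
    have : (bc S γ * gg W.toBlocks₂₁ W.toBlocks₁₂).map f =
      bc S' γ * gg (W.map f).toBlocks₂₁ (W.map f).toBlocks₁₂ := by
      rw [Matrix.map_mul, gg_map, bc_map]; rfl
    exact this
  have h2 : (⇑(f : S →+* S') ∘ (Sum.elim u (fun _ => 0) : D ⊕ M → S)) =
      Sum.elim (fun i => f (u i)) (fun _ => 0) := by
    funext t; rcases t with t | t <;> simp
  rw [h1, h2] at h
  exact h

end functoriality

section existence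
variable {S : Type} [CommRing S] [Algebra k S]

theorem normal_form {γ : Matrix Ω (D ⊕ M) k} {γ' : Matrix (D ⊕ M) Ω k}
    (hγ : γ * γ' = 1) (hγ' : γ' * γ = 1)
    {P Z : Matrix Ω Ω S} {v : Ω → S} {δ : Matrix Ω (D ⊕ M) S} {δ' : Matrix (D ⊕ M) Ω S}
    (h1 : δ * δ' = 1) (h2 : δ' * δ = 1) (hP : P = δ * EE D M S * δ')
    (hZ : P * Z = Z * P) (hv : P *ᵥ v = v) (c : Matrix D D S)
    (hc1 : (δ' * bc S γ).toBlocks₁₁ * c = 1) (hc2 : c * (δ' * bc S γ).toBlocks₁₁ = 1) :
    ∃ (W : Matrix (D ⊕ M) (D ⊕ M) S) (u : D → S), Pn γ γ' W = P ∧ Zn γ γ' W = Z ∧ vn γ W u = v := by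
  have hG : bc S γ * bc S γ' = 1 := by rw [← bc_mul, hγ, bc_one]
  have hG' : bc S γ' * bc S γ = 1 := by rw [← bc_mul, hγ', bc_one]
  set Γ := bc S γ with hΓ
  set Γ' := bc S γ' with hΓ'
  obtain ⟨β1, β2, β3, β4, hβ⟩ : ∃ A B C E, δ' * Γ = Matrix.fromBlocks A B C E :=
    ⟨_, _, _, _, (Matrix.fromBlocks_toBlocks _).symm⟩
  obtain ⟨α1, α3, α2, α4, hα⟩ : ∃ A B C E, Γ' * δ = Matrix.fromBlocks A B C E :=
    ⟨_, _, _, _, (Matrix.fromBlocks_toBlocks _).symm⟩
  have hβα : (δ' * Γ) * (Γ' * δ) = 1 := by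
    rw [Matrix.mul_assoc, ← Matrix.mul_assoc Γ, hG, Matrix.one_mul, h2]
  rw [hβ] at hc1 hc2
  simp only [Matrix.toBlocks_fromBlocks₁₁] at hc1 hc2
  rw [hβ, hα, Matrix.fromBlocks_multiply, ← Matrix.fromBlocks_one] at hβα
  obtain ⟨e11, -, -, -⟩ := Matrix.fromBlocks_inj.mp hβα
  set b : Matrix D M S := -(c * β2) with hb
  set a : Matrix M D S := α2 * β1 with ha
  have e1 : α1 = c + b * α2 := by
    have : c * (β1 * α1 + β2 * α2) = c := by rw [e11, Matrix.mul_one]
    rw [Matrix.mul_add, ← Matrix.mul_assoc, hc2, Matrix.one_mul] at this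
    rw [hb, Matrix.neg_mul, Matrix.mul_assoc, ← sub_eq_add_neg]
    exact eq_sub_of_add_eq this
  have e2 : α1 * β1 = 1 + b * a := by
    rw [e1, Matrix.add_mul, hc2, ha, Matrix.mul_assoc]
  have hPP : Γ' * P * Γ = gg a b * EE D M S * gi a b := by
    have : Γ' * P * Γ = (Γ' * δ) * EE D M S * (δ' * Γ) := by
      rw [hP]; simp only [Matrix.mul_assoc]
    rw [this, hα, hβ]
    unfold gg gi EE
    simp only [Matrix.fromBlocks_multiply]
    simp only [Matrix.mul_one, Matrix.mul_zero, Matrix.zero_mul, add_zero, zero_add]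
    congr 1
    · rw [← e2, hb]
      simp only [Matrix.mul_neg, neg_neg]
      rw [← Matrix.mul_assoc, Matrix.mul_assoc α1, hc1, Matrix.mul_one]
    · rw [hb, ha]
      simp only [Matrix.mul_neg, neg_neg]
      rw [Matrix.mul_assoc α2, ← Matrix.mul_assoc β1, hc1, Matrix.one_mul]
  -- the conjugated Z
  set Z' := gi a b * (Γ' * Z * Γ) * gg a b with hZ'
  have hZ'c : EE D M S * Z' = Z' * EE D M S := by
    have hcomm : (Γ' * P * Γ) * (Γ' * Z * Γ) = (Γ' * Z * Γ) * (Γ' * P * Γ) := by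
      have l : (Γ' * P * Γ) * (Γ' * Z * Γ) = Γ' * (P * Z) * Γ := by
        calc (Γ' * P * Γ) * (Γ' * Z * Γ) = Γ' * P * (Γ * Γ') * Z * Γ := by
              simp only [Matrix.mul_assoc]
          _ = Γ' * (P * Z) * Γ := by rw [hG]; simp only [Matrix.mul_assoc, Matrix.one_mul]
      have r : (Γ' * Z * Γ) * (Γ' * P * Γ) = Γ' * (Z * P) * Γ := by
        calc (Γ' * Z * Γ) * (Γ' * P * Γ) = Γ' * Z * (Γ * Γ') * P * Γ := by
              simp only [Matrix.mul_assoc]
          _ = Γ' * (Z * P) * Γ := by rw [hG]; simp only [Matrix.mul_assoc, Matrix.one_mul]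
      rw [l, r, hZ]
    rw [hPP] at hcomm
    have hE : EE D M S = gi a b * (gg a b * EE D M S * gi a b) * gg a b := by
      have : gi a b * (gg a b * EE D M S * gi a b) * gg a b
          = (gi a b * gg a b) * EE D M S * (gi a b * gg a b) := by
        simp only [Matrix.mul_assoc]
      rw [this, gi_mul_gg]; simp
    have l : gi a b * ((gg a b * EE D M S * gi a b) * (Γ' * Z * Γ)) * gg a b = EE D M S * Z' := by
      calc gi a b * ((gg a b * EE D M S * gi a b) * (Γ' * Z * Γ)) * gg a b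
          = (gi a b * gg a b) * EE D M S * (gi a b * (Γ' * Z * Γ) * gg a b) := by
            simp only [Matrix.mul_assoc]
        _ = EE D M S * Z' := by rw [gi_mul_gg, Matrix.one_mul]
    have r : gi a b * ((Γ' * Z * Γ) * (gg a b * EE D M S * gi a b)) * gg a b = Z' * EE D M S := by
      calc gi a b * ((Γ' * Z * Γ) * (gg a b * EE D M S * gi a b)) * gg a b
          = (gi a b * (Γ' * Z * Γ) * gg a b) * EE D M S * (gi a b * gg a b) := by
            simp only [Matrix.mul_assoc]
        _ = Z' * EE D M S := by rw [gi_mul_gg, Matrix.mul_one]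
    rw [← l, ← r, hcomm]
  have hZblock := blockDiag_of_commute hZ'c
  -- the vector
  set w := gi a b *ᵥ (Γ' *ᵥ v) with hw
  have hwE : EE D M S *ᵥ w = w := by
    have h3 : (Γ' * P * Γ) *ᵥ (Γ' *ᵥ v) = Γ' *ᵥ v := by
      rw [Matrix.mulVec_mulVec, Matrix.mul_assoc, hG, Matrix.mul_one, ← Matrix.mulVec_mulVec, hv]
    rw [hPP] at h3
    calc EE D M S *ᵥ w = (gi a b * gg a b) *ᵥ (EE D M S *ᵥ w) := by
          rw [gi_mul_gg, Matrix.one_mulVec]
      _ = gi a b *ᵥ ((gg a b * EE D M S * gi a b) *ᵥ (Γ' *ᵥ v)) := by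
          rw [hw]; simp only [Matrix.mulVec_mulVec, Matrix.mul_assoc]
      _ = w := by rw [h3]
  have hwblock := vec_of_EE_fixed hwE
  refine ⟨Matrix.fromBlocks Z'.toBlocks₁₁ b a Z'.toBlocks₂₂, fun i => w (Sum.inl i), ?_, ?_, ?_⟩
  · unfold Pn
    simp only [Matrix.toBlocks_fromBlocks₂₁, Matrix.toBlocks_fromBlocks₁₂]
    rw [← hΓ, ← hΓ']
    calc Γ * gg a b * EE D M S * gi a b * Γ' = Γ * (gg a b * EE D M S * gi a b) * Γ' := by
          simp only [Matrix.mul_assoc]
      _ = Γ * (Γ' * P * Γ) * Γ' := by rw [hPP]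
      _ = (Γ * Γ') * P * (Γ * Γ') := by simp only [Matrix.mul_assoc]
      _ = P := by rw [hG]; simp
  · unfold Zn
    simp only [Matrix.toBlocks_fromBlocks₂₁, Matrix.toBlocks_fromBlocks₁₂,
      Matrix.toBlocks_fromBlocks₁₁, Matrix.toBlocks_fromBlocks₂₂]
    rw [← hΓ, ← hΓ', ← hZblock, hZ']
    calc Γ * gg a b * (gi a b * (Γ' * Z * Γ) * gg a b) * gi a b * Γ'
        = Γ * (gg a b * gi a b) * (Γ' * Z * Γ) * (gg a b * gi a b) * Γ' := by
          simp only [Matrix.mul_assoc]
      _ = (Γ * Γ') * Z * (Γ * Γ') := by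
          rw [gg_mul_gi]; simp only [Matrix.mul_assoc, Matrix.mul_one, Matrix.one_mul]
      _ = Z := by rw [hG]; simp
  · unfold vn
    simp only [Matrix.toBlocks_fromBlocks₂₁, Matrix.toBlocks_fromBlocks₁₂]
    rw [← hΓ, ← hwblock, hw]
    rw [Matrix.mulVec_mulVec, Matrix.mulVec_mulVec]
    have : Γ * gg a b * (gi a b * Γ') = 1 := by
      calc Γ * gg a b * (gi a b * Γ') = Γ * (gg a b * gi a b) * Γ' := by
            simp only [Matrix.mul_assoc]
        _ = 1 := by rw [gg_mul_gi, Matrix.mul_one, hG]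
    rw [← Matrix.mul_assoc] at this
    rw [this, Matrix.one_mulVec]

end existence

end NormalForm


section Eqs

variable {G E : Type} [Group G] [Fintype G] [DecidableEq G] [Fintype E] [DecidableEq E]
variable {k : Type} [Field k]

/-- translation of an index by a group element -/
def tr (g : G) (s : G × E) : G × E := (g * s.1, s.2)

lemma tr_tr (g g' : G) (s : G × E) : tr g (tr g' s) = tr (g * g') s := by
  simp [tr, mul_assoc]

lemma tr_one (s : G × E) : tr (1 : G) s = s := by simp [tr]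

/-- the index set of the parameters -/
abbrev Param (G E : Type) [Fintype G] : Type := E × G × E × Fin (Fintype.card G)

section defs
variable {S : Type} [CommRing S] [Algebra k S]

/-- the linear form `ℓ` evaluated at the `g⁻¹`-translate of `v` -/
def yy (ℓ : G × E → k) (v : G × E → S) (g : G) : S := ∑ s, algebraMap k S (ℓ s) * v (tr g s)

/-- the equivariant perturbation -/
def eps (ℓ : G × E → k) (c : Param G E → S) (v : G × E → S) : Matrix (G × E) (G × E) S :=
  Matrix.of fun s t => ∑ q : Fin (Fintype.card G),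
    c (s.2, s.1⁻¹ * t.1, t.2, q) * (yy ℓ v s.1) ^ (q.1 + 2)

/-- entrywise application of the polynomial `h` -/
noncomputable def hm {n : Type} (h : Polynomial k) (P : Matrix n n S) : Matrix n n S :=
  P.map (fun p => Polynomial.aeval p h)

/-- the full equivariant matrix -/
noncomputable def ZZ (h : Polynomial k) (ℓ : G × E → k) (c : Param G E → S) (P : Matrix (G × E) (G × E) S)
    (v : G × E → S) : Matrix (G × E) (G × E) S := hm h P + eps ℓ c v

end defs

section functoriality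
variable {S S' : Type} [CommRing S] [Algebra k S] [CommRing S'] [Algebra k S'] (f : S →ₐ[k] S')

lemma yy_map (ℓ : G × E → k) (v : G × E → S) (g : G) :
    f (yy ℓ v g) = yy ℓ (fun s => f (v s)) g := by
  simp [yy, map_sum, map_mul]

lemma hm_map {n : Type} (h : Polynomial k) (P : Matrix n n S) :
    (hm h P).map f = hm h (P.map f) := by
  ext i j
  simp [hm, Polynomial.aeval_algHom_apply]

lemma eps_map (ℓ : G × E → k) (c : Param G E → S) (v : G × E → S) :
    (eps ℓ c v).map f = eps ℓ (fun p => f (c p)) (fun s => f (v s)) := by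
  ext i j
  simp [eps, map_sum, yy_map]

lemma ZZ_map (h : Polynomial k) (ℓ : G × E → k) (c : Param G E → S)
    (P : Matrix (G × E) (G × E) S) (v : G × E → S) :
    (ZZ h ℓ c P v).map f = ZZ h ℓ (fun p => f (c p)) (P.map f) (fun s => f (v s)) := by
  unfold ZZ
  rw [Matrix.map_add _ (map_add f), hm_map, eps_map]

end functoriality

section equivariance
variable {S : Type} [CommRing S] [Algebra k S]

lemma yy_tr (ℓ : G × E → k) (v : G × E → S) (g g' : G) :
    yy ℓ (fun s => v (tr g s)) g' = yy ℓ v (g * g') := by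
  simp [yy, tr_tr]

lemma ZZ_tr (h : Polynomial k) (ℓ : G × E → k) (c : Param G E → S)
    (P : Matrix (G × E) (G × E) S) (v : G × E → S) (g : G) :
    ZZ h ℓ c (P.submatrix (tr g) (tr g)) (fun s => v (tr g s)) =
      (ZZ h ℓ c P v).submatrix (tr g) (tr g) := by
  ext s t
  simp only [ZZ, hm, eps, Matrix.add_apply, Matrix.map_apply, Matrix.submatrix_apply,
    Matrix.of_apply, yy_tr]
  congr 1
  apply Finset.sum_congr rfl
  intro q _
  simp [tr, mul_assoc]

end equivariance

section solve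
variable {F : Type} [Field F] [Algebra k F]

/-- the Vandermonde type matrix -/
noncomputable def VV (ℓ : G × E → k) (v : G × E → F) :
    Matrix (Fin (Fintype.card G)) (Fin (Fintype.card G)) F :=
  Matrix.of fun p q => (yy ℓ v ((Fintype.equivFin G).symm p)) ^ (q.1 + 2)

/-- the parameters recovered from `P, Z, v` -/
noncomputable def solveC (h : Polynomial k) (ℓ : G × E → k) (P Z : Matrix (G × E) (G × E) F)
    (v : G × E → F) : Param G E → F := fun x =>
  ((VV ℓ v)⁻¹ *ᵥ (fun p => (Z - hm h P) ((Fintype.equivFin G).symm p, x.1)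
    ((Fintype.equivFin G).symm p * x.2.1, x.2.2.1))) x.2.2.2

lemma det_VV_ne_zero (ℓ : G × E → k) (v : G × E → F)
    (hy : Function.Injective (yy ℓ v)) (hy0 : ∀ g, yy ℓ v g ≠ 0) : (VV ℓ v).det ≠ 0 := by
  have h : VV ℓ v = Matrix.diagonal (fun p => (yy ℓ v ((Fintype.equivFin G).symm p)) ^ 2) *
      Matrix.vandermonde (fun p => yy ℓ v ((Fintype.equivFin G).symm p)) := by
    ext p q
    simp [VV, Matrix.vandermonde_apply, pow_add, mul_comm]
  rw [h, Matrix.det_mul, Matrix.det_diagonal]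
  apply mul_ne_zero
  · exact Finset.prod_ne_zero_iff.mpr (fun p _ => pow_ne_zero _ (hy0 _))
  · rw [Matrix.det_vandermonde_ne_zero_iff]
    exact hy.comp (Equiv.injective _)

lemma solveC_unique (h : Polynomial k) (ℓ : G × E → k) (P : Matrix (G × E) (G × E) F)
    (v : G × E → F) (c : Param G E → F)
    (hy : Function.Injective (yy ℓ v)) (hy0 : ∀ g, yy ℓ v g ≠ 0) :
    solveC h ℓ P (ZZ h ℓ c P v) v = c := by
  have hdet := det_VV_ne_zero ℓ v hy hy0
  funext x
  obtain ⟨e1, γ, e2, q⟩ := x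
  have key : (fun p => (ZZ h ℓ c P v - hm h P) ((Fintype.equivFin G).symm p, e1)
    ((Fintype.equivFin G).symm p * γ, e2)) = VV ℓ v *ᵥ (fun q => c (e1, γ, e2, q)) := by
    funext p
    simp only [ZZ, add_sub_cancel_left, eps, Matrix.of_apply, VV, Matrix.mulVec, dotProduct]
    apply Finset.sum_congr rfl
    intro q _
    simp [mul_comm]
  simp only [solveC]
  rw [key, Matrix.mulVec_mulVec, Matrix.nonsing_inv_mul _ (isUnit_iff_ne_zero.mpr hdet),
    Matrix.one_mulVec]

variable {F' : Type} [Field F'] [Algebra k F'] (f : F →ₐ[k] F')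

lemma solveC_map (h : Polynomial k) (ℓ : G × E → k) (P Z : Matrix (G × E) (G × E) F)
    (v : G × E → F) (x : Param G E)
    (hy : Function.Injective (yy ℓ (fun s => f (v s)))) (hy0 : ∀ g, yy ℓ (fun s => f (v s)) g ≠ 0) :
    f (solveC h ℓ P Z v x) = solveC h ℓ (P.map f) (Z.map f) (fun s => f (v s)) x := by
  have hV : (VV ℓ v).map f = VV ℓ (fun s => f (v s)) := by
    ext p q
    simp [VV, yy_map]
  have hdet' := det_VV_ne_zero ℓ _ hy hy0
  have hdet : (VV ℓ v).det ≠ 0 := by
    intro h0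
    apply hdet'
    rw [← hV]
    have := RingHom.map_det (f : F →+* F') (VV ℓ v)
    rw [h0, map_zero] at this
    exact this.symm
  have hinv : ((VV ℓ v)⁻¹).map f = (VV ℓ (fun s => f (v s)))⁻¹ := by
    symm
    apply Matrix.inv_eq_right_inv
    rw [← hV, ← Matrix.map_mul, Matrix.mul_nonsing_inv _ (isUnit_iff_ne_zero.mpr hdet),
      Matrix.map_one _ (map_zero f) (map_one f)]
  simp only [solveC]
  rw [← hinv]
  have := RingHom.map_mulVec (f : F →+* F') ((VV ℓ v)⁻¹)
    (fun p => (Z - hm h P) ((Fintype.equivFin G).symm p, x.1)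
    ((Fintype.equivFin G).symm p * x.2.1, x.2.2.1)) x.2.2.2
  simp only [RingHom.coe_coe] at this
  rw [this]
  congr 2
  funext p
  simp [hm, Polynomial.aeval_algHom_apply]

end solve

end Eqs

end Pool.Agent.Helper198
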