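import Mathlib
import Pool.Agent.Helper198.PartA

set_option autoImplicit false
set_option linter.unusedSectionVars false
set_option linter.unusedSimpArgs false
set_option linter.unusedVariables false

open scoped Matrix

namespace Pool.Agent.Helper198

section Dv

variable {B : Type} [CommRing B]

/-- all entries divisible by `X ^ m` -/
def Dv {p q : Type} (m : ℕ) (A : Matrix p q (PowerSeries B)) : Prop :=
  ∀ i j, (PowerSeries.X : PowerSeries B) ^ m ∣ A i j

variable {p q r : Type} [Fintype p] [Fintype q] [Fintype r]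

lemma Dv.mono {m n : ℕ} {A : Matrix p q (PowerSeries B)} (h : Dv n A) (hmn : m ≤ n) : Dv m A :=
  fun i j => (pow_dvd_pow _ hmn).trans (h i j)

lemma Dv.add {m : ℕ} {A A' : Matrix p q (PowerSeries B)} (h : Dv m A) (h' : Dv m A') :
    Dv m (A + A') := fun i j => dvd_add (h i j) (h' i j)

lemma Dv.neg {m : ℕ} {A : Matrix p q (PowerSeries B)} (h : Dv m A) : Dv m (-A) :=
  fun i j => (dvd_neg.mpr (h i j))

lemma Dv.sub {m : ℕ} {A A' : Matrix p q (PowerSeries B)} (h : Dv m A) (h' : Dv m A') :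
    Dv m (A - A') := fun i j => dvd_sub (h i j) (h' i j)

lemma Dv.zero_mat {m : ℕ} : Dv m (0 : Matrix p q (PowerSeries B)) := fun i j => dvd_zero _

lemma Dv.zero_exp {A : Matrix p q (PowerSeries B)} : Dv 0 A := fun i j => by simp

lemma Dv.mul {m n : ℕ} {A : Matrix p q (PowerSeries B)} {A' : Matrix q r (PowerSeries B)}
    (h : Dv m A) (h' : Dv n A') : Dv (m + n) (A * A') := fun i j => by
  rw [Matrix.mul_apply]
  apply Finset.dvd_sum
  intro x _
  rw [pow_add]
  exact mul_dvd_mul (h i x) (h' x j)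

lemma Dv.mul_right {m : ℕ} {A : Matrix p q (PowerSeries B)} (A' : Matrix q r (PowerSeries B))
    (h : Dv m A) : Dv m (A * A') := by
  simpa using Dv.mul h (Dv.zero_exp (A := A'))

lemma Dv.mul_left {m : ℕ} (A : Matrix p q (PowerSeries B)) {A' : Matrix q r (PowerSeries B)}
    (h : Dv m A') : Dv m (A * A') := by
  simpa using Dv.mul (Dv.zero_exp (A := A)) h

/-- non-expansion of products -/
lemma Dv.mul_sub_mul {m : ℕ} {A A' : Matrix p q (PowerSeries B)} {C C' : Matrix q r (PowerSeries B)}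
    (h : Dv m (A - A')) (h' : Dv m (C - C')) : Dv m (A * C - A' * C') := by
  have : A * C - A' * C' = (A - A') * C + A' * (C - C') := by
    rw [Matrix.sub_mul, Matrix.mul_sub]; abel
  rw [this]
  exact (h.mul_right C).add (h'.mul_left A')

/-- contraction of a triple product whose middle factor is small -/
lemma Dv.triple {s : Type} [Fintype s] {m : ℕ} {A A' : Matrix p q (PowerSeries B)}
    {O O' : Matrix q r (PowerSeries B)}
    {C C' : Matrix r s (PowerSeries B)} (h : Dv m (A - A')) (h' : Dv m (C - C'))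
    (ho : Dv (m + 1) (O - O')) (hO : Dv 1 O) (hO' : Dv 1 O') :
    Dv (m + 1) (A * O * C - A' * O' * C') := by
  have : A * O * C - A' * O' * C' = (A - A') * O * C + (A' * (O - O') * C + A' * O' * (C - C')) := by
    simp only [Matrix.sub_mul, Matrix.mul_sub]; abel
  rw [this]
  refine ((h.mul hO).mul_right C).add (Dv.add ((ho.mul_left A').mul_right C) ?_)
  rw [add_comm m 1]
  exact (hO'.mul_left A').mul h'

/-- Banach fixed point theorem for matrices of power series. -/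
theorem fixed_point (Φ : Matrix p q (PowerSeries B) → Matrix p q (PowerSeries B))
    (h0 : ∀ Y, Dv 1 Y → Dv 1 (Φ Y))
    (hc : ∀ Y Y' m, 1 ≤ m → Dv 1 Y → Dv 1 Y' → Dv m (Y - Y') → Dv (m + 1) (Φ Y - Φ Y')) :
    ∃ Y, Dv 1 Y ∧ Φ Y = Y := by
  let Yn : ℕ → Matrix p q (PowerSeries B) := fun n => Φ^[n] 0
  have hsucc : ∀ n, Yn (n + 1) = Φ (Yn n) := fun n => Function.iterate_succ_apply' Φ n 0
  have h1 : ∀ n, Dv 1 (Yn n) := by
    intro n
    induction n with
    | zero => exact Dv.zero_mat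
    | succ n ih => rw [hsucc]; exact h0 _ ih
  have h2 : ∀ n, Dv (n + 1) (Yn (n + 1) - Yn n) := by
    intro n
    induction n with
    | zero => exact (h1 1).sub (h1 0)
    | succ n ih =>
      rw [hsucc (n + 1), hsucc n]
      have := hc (Yn (n + 1)) (Yn n) (n + 1) (by omega) (h1 _) (h1 _) ih
      rwa [hsucc n] at this
  have h3 : ∀ n d, Dv (n + 1) (Yn (n + d) - Yn n) := by
    intro n d
    induction d with
    | zero => simpa using Dv.zero_mat
    | succ d ih =>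
      have : Yn (n + (d + 1)) - Yn n = (Yn (n + d + 1) - Yn (n + d)) + (Yn (n + d) - Yn n) := by
        rw [← add_assoc]; abel
      rw [this]
      exact ((h2 (n + d)).mono (by omega)).add ih
  let Y : Matrix p q (PowerSeries B) :=
    Matrix.of fun i j => PowerSeries.mk (fun n => PowerSeries.coeff n (Yn n i j))
  have h4 : ∀ n, Dv (n + 1) (Y - Yn n) := by
    intro n i j
    rw [PowerSeries.X_pow_dvd_iff]
    intro m hm
    obtain ⟨d, rfl⟩ : ∃ d, n = m + d := ⟨n - m, by omega⟩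
    have := (PowerSeries.X_pow_dvd_iff.mp (h3 m d i j)) m (by omega)
    rw [Matrix.sub_apply, map_sub, sub_eq_zero] at this
    rw [Matrix.sub_apply, map_sub, this]
    simp [Y]
  have hY1 : Dv 1 Y := by
    have := (h4 0).add (h1 0)
    simpa using this
  refine ⟨Y, hY1, ?_⟩
  have h5 : ∀ n, Dv (n + 1) (Φ Y - Y) := by
    intro n
    have e : Φ Y - Y = (Φ Y - Φ (Yn n)) - (Y - Yn (n + 1)) := by rw [hsucc]; abel
    rw [e]
    exact ((hc Y (Yn n) (n + 1) (by omega) hY1 (h1 n) (h4 n)).mono (by omega)).sub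
      ((h4 (n + 1)).mono (by omega))
  refine sub_eq_zero.mp (Matrix.ext fun i j => PowerSeries.ext fun n => ?_)
  have := (PowerSeries.X_pow_dvd_iff.mp (h5 n i j)) n (by omega)
  rw [this]; simp

end Dv


section Existence

open PowerSeries (X)

variable {G E D M : Type} [Group G] [Fintype G] [DecidableEq G] [Fintype E] [DecidableEq E]
  [Fintype D] [DecidableEq D] [Fintype M] [DecidableEq M]
variable {k : Type} [Field k] {B : Type} [CommRing B] [Algebra k B]

/-- small differences of `h` near its critical fixed points -/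
lemma aeval_sub_dvd {h : Polynomial k} {p0 : k}
    (hd : (Polynomial.derivative h).eval p0 = 0) {m : ℕ} (hm1 : 1 ≤ m) {x y : PowerSeries B}
    (hy : (X : PowerSeries B) ^ 1 ∣ y - algebraMap k (PowerSeries B) p0)
    (hxy : (X : PowerSeries B) ^ m ∣ x - y) :
    (X : PowerSeries B) ^ (m + 1) ∣ Polynomial.aeval x h - Polynomial.aeval y h := by
  have e1 : ∀ z : PowerSeries B, Polynomial.aeval z h =
      (h.map (algebraMap k (PowerSeries B))).eval z := fun z => by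
    rw [Polynomial.eval_map_algebraMap]
  obtain ⟨r, hr⟩ := (h.map (algebraMap k (PowerSeries B))).binomExpansion y (x - y)
  rw [e1, e1]
  have hxy' : y + (x - y) = x := by ring
  rw [hxy'] at hr
  rw [hr]
  have h1 : (X : PowerSeries B) ^ 1 ∣
      (h.map (algebraMap k (PowerSeries B))).derivative.eval y := by
    have h2 : (h.map (algebraMap k (PowerSeries B))).derivative.eval
        (algebraMap k (PowerSeries B) p0) = 0 := by
      rw [Polynomial.derivative_map, Polynomial.eval_map_algebraMap,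
        Polynomial.aeval_algebraMap_apply, Polynomial.aeval_def, Polynomial.eval₂_eq_eval_map]
      simp [hd]
    have h3 := Polynomial.sub_dvd_eval_sub y (algebraMap k (PowerSeries B) p0)
      (h.map (algebraMap k (PowerSeries B))).derivative
    rw [h2, sub_zero] at h3
    exact hy.trans h3
  have h4 : (X : PowerSeries B) ^ (m + 1) ∣
      (h.map (algebraMap k (PowerSeries B))).derivative.eval y * (x - y) := by
    rw [add_comm, pow_add]
    exact mul_dvd_mul h1 hxy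
  have h5 : (X : PowerSeries B) ^ (m + 1) ∣ r * (x - y) ^ 2 := by
    apply Dvd.dvd.mul_left
    have : (X : PowerSeries B) ^ (m * 2) ∣ (x - y) ^ 2 := by
      rw [pow_mul]; exact pow_dvd_pow_of_dvd hxy 2
    exact (pow_dvd_pow _ (by omega)).trans this
  have : Polynomial.eval y (h.map (algebraMap k (PowerSeries B))) +
      Polynomial.eval y (Polynomial.derivative (h.map (algebraMap k (PowerSeries B)))) * (x - y) +
      r * (x - y) ^ 2 - Polynomial.eval y (h.map (algebraMap k (PowerSeries B))) =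
      Polynomial.eval y (Polynomial.derivative (h.map (algebraMap k (PowerSeries B)))) * (x - y) +
      r * (x - y) ^ 2 := by ring
  rw [this]
  exact dvd_add h4 h5


lemma Dv.fromBlocks {p q r s : Type} {m : ℕ} {A : Matrix p q (PowerSeries B)}
    {A' : Matrix p r (PowerSeries B)} {A'' : Matrix s q (PowerSeries B)}
    {A''' : Matrix s r (PowerSeries B)} (h : Dv m A) (h' : Dv m A') (h'' : Dv m A'')
    (h''' : Dv m A''') : Dv m (Matrix.fromBlocks A A' A'' A''') := by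
  rintro (i | i) (j | j)
  · exact h i j
  · exact h' i j
  · exact h'' i j
  · exact h''' i j

lemma fromBlocks_sub' {p q r s R : Type} [AddGroup R] (A A1 : Matrix p q R) (A' A1' : Matrix p r R)
    (A'' A1'' : Matrix s q R) (A''' A1''' : Matrix s r R) :
    Matrix.fromBlocks A A' A'' A''' - Matrix.fromBlocks A1 A1' A1'' A1''' =
    Matrix.fromBlocks (A - A1) (A' - A1') (A'' - A1'') (A''' - A1''') := by
  ext (i | i) (j | j) <;> simp

lemma Dv_gg {m : ℕ} {a a' : Matrix M D (PowerSeries B)} {b b' : Matrix D M (PowerSeries B)}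
    (ha : Dv m (a - a')) (hb : Dv m (b - b')) : Dv m (gg a b - gg a' b') := by
  unfold gg
  rw [fromBlocks_sub']
  refine Dv.fromBlocks ?_ hb ha ?_
  · rw [add_sub_add_left_eq_sub]; exact hb.mul_sub_mul ha
  · rw [sub_self]; exact Dv.zero_mat

lemma Dv_gi {m : ℕ} {a a' : Matrix M D (PowerSeries B)} {b b' : Matrix D M (PowerSeries B)}
    (ha : Dv m (a - a')) (hb : Dv m (b - b')) : Dv m (gi a b - gi a' b') := by
  unfold gi
  rw [fromBlocks_sub']
  refine Dv.fromBlocks ?_ ?_ ?_ ?_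
  · rw [sub_self]; exact Dv.zero_mat
  · rw [neg_sub_neg]; have := hb.neg; rwa [neg_sub] at this
  · rw [neg_sub_neg]; have := ha.neg; rwa [neg_sub] at this
  · rw [add_sub_add_left_eq_sub]; exact ha.mul_sub_mul hb

lemma Dv.sub_self' {p q : Type} {m : ℕ} (A : Matrix p q (PowerSeries B)) : Dv m (A - A) := by
  intro i j; simp

lemma Dv_Pn {m : ℕ} (γ : Matrix (G × E) (D ⊕ M) k) (γ' : Matrix (D ⊕ M) (G × E) k)
    {Y Y' : Matrix (D ⊕ M) (D ⊕ M) (PowerSeries B)} (h : Dv m (Y - Y')) :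
    Dv m (Pn γ γ' Y - Pn γ γ' Y') := by
  unfold Pn
  have ha : Dv m (Y.toBlocks₂₁ - Y'.toBlocks₂₁) := fun i j => h (Sum.inr i) (Sum.inl j)
  have hb : Dv m (Y.toBlocks₁₂ - Y'.toBlocks₁₂) := fun i j => h (Sum.inl i) (Sum.inr j)
  exact ((((Dv.sub_self' _).mul_sub_mul (Dv_gg ha hb)).mul_sub_mul (Dv.sub_self' _)).mul_sub_mul
    (Dv_gi ha hb)).mul_sub_mul (Dv.sub_self' _)

lemma Pn_zero (γ : Matrix (G × E) (D ⊕ M) k) (γ' : Matrix (D ⊕ M) (G × E) k) :
    Pn γ γ' (0 : Matrix (D ⊕ M) (D ⊕ M) (PowerSeries B)) =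
      bc (PowerSeries B) (γ * EE D M k * γ') := by
  have h1 : (0 : Matrix (D ⊕ M) (D ⊕ M) (PowerSeries B)).toBlocks₂₁ = 0 := rfl
  have h2 : (0 : Matrix (D ⊕ M) (D ⊕ M) (PowerSeries B)).toBlocks₁₂ = 0 := rfl
  have h3 : gg (0 : Matrix M D (PowerSeries B)) 0 = 1 := by
    unfold gg; simp
  have h4 : gi (0 : Matrix M D (PowerSeries B)) 0 = 1 := by
    unfold gi; simp
  have h5 : bc (PowerSeries B) (EE D M k) = EE D M (PowerSeries B) := by
    have := EE_map (D := D) (M := M) (Algebra.ofId k (PowerSeries B))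
    exact this
  unfold Pn
  rw [h1, h2, h3, h4, bc_mul, bc_mul, h5]
  simp

lemma Dv_hm {m : ℕ} (hm1 : 1 ≤ m) {h : Polynomial k} {P0 : Matrix (G × E) (G × E) k}
    (hd : ∀ s t, (Polynomial.derivative h).eval (P0 s t) = 0)
    {P P' : Matrix (G × E) (G × E) (PowerSeries B)}
    (hP' : Dv 1 (P' - bc (PowerSeries B) P0)) (hPP : Dv m (P - P')) :
    Dv (m + 1) (hm h P - hm h P') := fun i j =>
  aeval_sub_dvd (hd i j) hm1 (hP' i j) (hPP i j)

lemma Dv_hm_nonexp {m : ℕ} {h : Polynomial k}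
    {P P' : Matrix (G × E) (G × E) (PowerSeries B)} (hPP : Dv m (P - P')) :
    Dv m (hm h P - hm h P') := fun i j => by
  have e1 : ∀ z : PowerSeries B, Polynomial.aeval z h =
      (h.map (algebraMap k (PowerSeries B))).eval z := fun z => by
    rw [Polynomial.eval_map_algebraMap]
  simp only [hm, Matrix.sub_apply, Matrix.map_apply]
  rw [e1, e1]
  exact (hPP i j).trans (Polynomial.sub_dvd_eval_sub _ _ _)

lemma hm_bc {h : Polynomial k} {P0 : Matrix (G × E) (G × E) k}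
    (he : ∀ s t, h.eval (P0 s t) = P0 s t) :
    hm h (bc (PowerSeries B) P0) = bc (PowerSeries B) P0 := by
  ext1 i j
  simp only [hm, bc, Matrix.map_apply]
  rw [Polynomial.aeval_algebraMap_apply]
  congr 1
  rw [← he i j]
  simp [he i j]

lemma vec_dvd {P P' : Matrix (G × E) (G × E) (PowerSeries B)} {m : ℕ} (hPP : Dv m (P - P'))
    {x0 : G × E → PowerSeries B} (hx : ∀ s, (X : PowerSeries B) ∣ x0 s) (s : G × E) :
    (X : PowerSeries B) ^ (m + 1) ∣ (P *ᵥ x0) s - (P' *ᵥ x0) s := by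
  have : (P *ᵥ x0) s - (P' *ᵥ x0) s = ∑ t, (P - P') s t * x0 t := by
    simp [Matrix.mulVec, dotProduct, ← Finset.sum_sub_distrib, sub_mul]
  rw [this]
  apply Finset.dvd_sum
  intro t _
  rw [pow_succ]
  exact mul_dvd_mul (hPP s t) (hx t)

lemma vec_dvd0 {P : Matrix (G × E) (G × E) (PowerSeries B)}
    {x0 : G × E → PowerSeries B} (hx : ∀ s, (X : PowerSeries B) ∣ x0 s) (s : G × E) :
    (X : PowerSeries B) ∣ (P *ᵥ x0) s := by
  simp only [Matrix.mulVec, dotProduct]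
  apply Finset.dvd_sum
  intro t _
  exact (hx t).mul_left _

lemma yy_dvd {ℓ : G × E → k} {v v' : G × E → PowerSeries B} {m : ℕ}
    (hv : ∀ s, (X : PowerSeries B) ^ m ∣ v s - v' s) (g : G) :
    (X : PowerSeries B) ^ m ∣ yy ℓ v g - yy ℓ v' g := by
  simp only [yy, ← Finset.sum_sub_distrib, ← mul_sub]
  apply Finset.dvd_sum
  intro t _
  exact (hv _).mul_left _

lemma yy_dvd0 {ℓ : G × E → k} {v : G × E → PowerSeries B}
    (hv : ∀ s, (X : PowerSeries B) ∣ v s) (g : G) : (X : PowerSeries B) ∣ yy ℓ v g := by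
  simp only [yy]
  apply Finset.dvd_sum
  intro t _
  exact (hv _).mul_left _

lemma eps_dvd {ℓ : G × E → k} {c : Param G E → PowerSeries B} {v v' : G × E → PowerSeries B} {m : ℕ}
    (hv : ∀ s, (X : PowerSeries B) ^ m ∣ v s - v' s) : Dv m (eps ℓ c v - eps ℓ c v') := fun i j => by
  simp only [eps, Matrix.sub_apply, Matrix.of_apply, ← Finset.sum_sub_distrib, ← mul_sub]
  apply Finset.dvd_sum
  intro q _
  apply Dvd.dvd.mul_left
  exact (yy_dvd hv _).trans (sub_dvd_pow_sub_pow _ _ _)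

lemma eps_dvd0 {ℓ : G × E → k} {c : Param G E → PowerSeries B} {v : G × E → PowerSeries B}
    (hv : ∀ s, (X : PowerSeries B) ∣ v s) : Dv 1 (eps ℓ c v) := fun i j => by
  simp only [eps, Matrix.of_apply, pow_one]
  apply Finset.dvd_sum
  intro q _
  apply Dvd.dvd.mul_left
  exact (yy_dvd0 hv _).trans (dvd_pow_self _ (by omega))

/-- the iteration map -/
noncomputable def Phi (h : Polynomial k) (ℓ : G × E → k) (c : Param G E → PowerSeries B)
    (γ : Matrix (G × E) (D ⊕ M) k) (γ' : Matrix (D ⊕ M) (G × E) k) (x0 : G × E → PowerSeries B)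
    (Y : Matrix (D ⊕ M) (D ⊕ M) (PowerSeries B)) : Matrix (D ⊕ M) (D ⊕ M) (PowerSeries B) :=
  let Q := gi Y.toBlocks₂₁ Y.toBlocks₁₂ *
    (bc (PowerSeries B) γ' * ZZ h ℓ c (Pn γ γ' Y) (Pn γ γ' Y *ᵥ x0) * bc (PowerSeries B) γ -
      EE D M (PowerSeries B)) * gg Y.toBlocks₂₁ Y.toBlocks₁₂
  Matrix.fromBlocks 0 (-Q.toBlocks₁₂)
    (-(Y.toBlocks₂₁ * Y.toBlocks₁₂ * Y.toBlocks₂₁) + Q.toBlocks₂₁) 0

theorem exists_formal (h : Polynomial k) (ℓ : G × E → k) (c : Param G E → PowerSeries B)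
    (γ : Matrix (G × E) (D ⊕ M) k) (γ' : Matrix (D ⊕ M) (G × E) k)
    (hγ : γ * γ' = 1) (hγ' : γ' * γ = 1)
    (he : ∀ s t, h.eval ((γ * EE D M k * γ') s t) = (γ * EE D M k * γ') s t)
    (hd : ∀ s t, (Polynomial.derivative h).eval ((γ * EE D M k * γ') s t) = 0)
    (x0 : G × E → PowerSeries B) (hx : ∀ s, (X : PowerSeries B) ∣ x0 s) :
    ∃ Y : Matrix (D ⊕ M) (D ⊕ M) (PowerSeries B), Dv 1 Y ∧
      Pn γ γ' Y * ZZ h ℓ c (Pn γ γ' Y) (Pn γ γ' Y *ᵥ x0) =
        ZZ h ℓ c (Pn γ γ' Y) (Pn γ γ' Y *ᵥ x0) * Pn γ γ' Y := by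
  -- estimates
  have hG : bc (PowerSeries B) γ * bc (PowerSeries B) γ' = 1 := by rw [← bc_mul, hγ, bc_one]
  have hG' : bc (PowerSeries B) γ' * bc (PowerSeries B) γ = 1 := by rw [← bc_mul, hγ', bc_one]
  have hP1 : ∀ Y : Matrix (D ⊕ M) (D ⊕ M) (PowerSeries B), Dv 1 Y →
      Dv 1 (Pn γ γ' Y - bc (PowerSeries B) (γ * EE D M k * γ')) := by
    intro Y hY
    rw [← Pn_zero]
    apply Dv_Pn
    simpa using hY
  let om : Matrix (D ⊕ M) (D ⊕ M) (PowerSeries B) → Matrix (D ⊕ M) (D ⊕ M) (PowerSeries B) :=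
    fun Y => bc (PowerSeries B) γ' * ZZ h ℓ c (Pn γ γ' Y) (Pn γ γ' Y *ᵥ x0) *
      bc (PowerSeries B) γ - EE D M (PowerSeries B)
  have hEE : EE D M (PowerSeries B) =
      bc (PowerSeries B) γ' * bc (PowerSeries B) (γ * EE D M k * γ') * bc (PowerSeries B) γ := by
    rw [← bc_mul, ← bc_mul]
    have : γ' * (γ * EE D M k * γ') * γ = EE D M k := by
      calc γ' * (γ * EE D M k * γ') * γ = (γ' * γ) * EE D M k * (γ' * γ) := by
            simp only [Matrix.mul_assoc]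
        _ = EE D M k := by rw [hγ']; simp
    rw [this]
    have := EE_map (D := D) (M := M) (Algebra.ofId k (PowerSeries B))
    exact this.symm
  have hom1 : ∀ Y, Dv 1 Y → Dv 1 (om Y) := by
    intro Y hY
    have e : om Y = bc (PowerSeries B) γ' * (ZZ h ℓ c (Pn γ γ' Y) (Pn γ γ' Y *ᵥ x0) -
        bc (PowerSeries B) (γ * EE D M k * γ')) * bc (PowerSeries B) γ := by
      simp only [om]
      rw [Matrix.mul_sub, Matrix.sub_mul, ← hEE]
    rw [e]
    apply Dv.mul_right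
    apply Dv.mul_left
    have e2 : ZZ h ℓ c (Pn γ γ' Y) (Pn γ γ' Y *ᵥ x0) - bc (PowerSeries B) (γ * EE D M k * γ') =
        (hm h (Pn γ γ' Y) - hm h (bc (PowerSeries B) (γ * EE D M k * γ'))) +
          eps ℓ c (Pn γ γ' Y *ᵥ x0) := by
      rw [hm_bc he]; unfold ZZ; abel
    rw [e2]
    exact (Dv_hm_nonexp (hP1 Y hY)).add (eps_dvd0 (vec_dvd0 hx))
  have hom2 : ∀ Y Y' m, 1 ≤ m → Dv 1 Y → Dv 1 Y' → Dv m (Y - Y') → Dv (m + 1) (om Y - om Y') := by
    intro Y Y' m hm1 hY hY' hYY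
    have e : om Y - om Y' = bc (PowerSeries B) γ' * (ZZ h ℓ c (Pn γ γ' Y) (Pn γ γ' Y *ᵥ x0) -
        ZZ h ℓ c (Pn γ γ' Y') (Pn γ γ' Y' *ᵥ x0)) * bc (PowerSeries B) γ := by
      simp only [om]
      rw [Matrix.mul_sub, Matrix.sub_mul]; abel
    rw [e]
    apply Dv.mul_right
    apply Dv.mul_left
    have e2 : ZZ h ℓ c (Pn γ γ' Y) (Pn γ γ' Y *ᵥ x0) - ZZ h ℓ c (Pn γ γ' Y') (Pn γ γ' Y' *ᵥ x0) =
        (hm h (Pn γ γ' Y) - hm h (Pn γ γ' Y')) +
          (eps ℓ c (Pn γ γ' Y *ᵥ x0) - eps ℓ c (Pn γ γ' Y' *ᵥ x0)) := by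
      unfold ZZ; abel
    rw [e2]
    exact (Dv_hm hm1 hd (hP1 Y' hY') (Dv_Pn γ γ' hYY)).add
      (eps_dvd (fun s => vec_dvd (Dv_Pn γ γ' hYY) hx s))
  have key : ∃ Y, Dv 1 Y ∧ Phi h ℓ c γ γ' x0 Y = Y := by
    apply fixed_point
    · intro Y hY
      have ha : Dv 1 Y.toBlocks₂₁ := fun i j => hY (Sum.inr i) (Sum.inl j)
      have hb : Dv 1 Y.toBlocks₁₂ := fun i j => hY (Sum.inl i) (Sum.inr j)
      have hQ : Dv 1 (gi Y.toBlocks₂₁ Y.toBlocks₁₂ * om Y * gg Y.toBlocks₂₁ Y.toBlocks₁₂) :=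
        ((hom1 Y hY).mul_left _).mul_right _
      unfold Phi
      refine Dv.fromBlocks Dv.zero_mat ?_ ?_ Dv.zero_mat
      · exact Dv.neg (fun i j => hQ (Sum.inl i) (Sum.inr j))
      · exact Dv.add (Dv.neg (ha.mul_left _)) (fun i j => hQ (Sum.inr i) (Sum.inl j))
    · intro Y Y' m hm1 hY hY' hYY
      have ha : Dv 1 Y.toBlocks₂₁ := fun i j => hY (Sum.inr i) (Sum.inl j)
      have hb : Dv 1 Y.toBlocks₁₂ := fun i j => hY (Sum.inl i) (Sum.inr j)
      have ha' : Dv 1 Y'.toBlocks₂₁ := fun i j => hY' (Sum.inr i) (Sum.inl j)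
      have hb' : Dv 1 Y'.toBlocks₁₂ := fun i j => hY' (Sum.inl i) (Sum.inr j)
      have haa : Dv m (Y.toBlocks₂₁ - Y'.toBlocks₂₁) := fun i j => hYY (Sum.inr i) (Sum.inl j)
      have hbb : Dv m (Y.toBlocks₁₂ - Y'.toBlocks₁₂) := fun i j => hYY (Sum.inl i) (Sum.inr j)
      have hQ : Dv (m + 1) (gi Y.toBlocks₂₁ Y.toBlocks₁₂ * om Y * gg Y.toBlocks₂₁ Y.toBlocks₁₂ -
          gi Y'.toBlocks₂₁ Y'.toBlocks₁₂ * om Y' * gg Y'.toBlocks₂₁ Y'.toBlocks₁₂) :=
        Dv.triple (Dv_gi haa hbb) (Dv_gg haa hbb) (hom2 Y Y' m hm1 hY hY' hYY) (hom1 Y hY)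
          (hom1 Y' hY')
      unfold Phi
      rw [fromBlocks_sub']
      refine Dv.fromBlocks (Dv.sub_self' _) ?_ ?_ (Dv.sub_self' _)
      · rw [neg_sub_neg]
        have : Dv (m + 1) (-((gi Y.toBlocks₂₁ Y.toBlocks₁₂ * om Y * gg Y.toBlocks₂₁ Y.toBlocks₁₂ -
          gi Y'.toBlocks₂₁ Y'.toBlocks₁₂ * om Y' * gg Y'.toBlocks₂₁ Y'.toBlocks₁₂))) := hQ.neg
        rw [neg_sub] at this
        exact fun i j => this (Sum.inl i) (Sum.inr j)
      · have e3 : ∀ (u u' w w' : Matrix M D (PowerSeries B)), (-u + w) - (-u' + w') =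
            -(u - u') + (w - w') := fun u u' w w' => by abel
        rw [e3]
        refine Dv.add (Dv.neg ?_) (fun i j => hQ (Sum.inr i) (Sum.inl j))
        have e4 : Y.toBlocks₂₁ * Y.toBlocks₁₂ * Y.toBlocks₂₁ -
            Y'.toBlocks₂₁ * Y'.toBlocks₁₂ * Y'.toBlocks₂₁ =
            (Y.toBlocks₂₁ - Y'.toBlocks₂₁) * Y.toBlocks₁₂ * Y.toBlocks₂₁ +
            (Y'.toBlocks₂₁ * (Y.toBlocks₁₂ - Y'.toBlocks₁₂) * Y.toBlocks₂₁ +
              Y'.toBlocks₂₁ * Y'.toBlocks₁₂ * (Y.toBlocks₂₁ - Y'.toBlocks₂₁)) := by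
          simp only [Matrix.sub_mul, Matrix.mul_sub]; abel
        rw [e4]
        refine Dv.add ((haa.mul hb).mul_right _) (Dv.add ?_ ?_)
        · exact (hbb.mul_left Y'.toBlocks₂₁).mul ha
        · have := (ha'.mul_right Y'.toBlocks₁₂).mul haa
          rwa [add_comm 1 m] at this
  obtain ⟨Y, hY1, hY⟩ := key
  refine ⟨Y, hY1, ?_⟩
  set a := Y.toBlocks₂₁ with ha
  set b := Y.toBlocks₁₂ with hb
  set Zt := ZZ h ℓ c (Pn γ γ' Y) (Pn γ γ' Y *ᵥ x0) with hZt
  set Γ := bc (PowerSeries B) γ with hΓ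
  set Γ' := bc (PowerSeries B) γ' with hΓ'
  set Q := gi a b * (Γ' * Zt * Γ - EE D M (PowerSeries B)) * gg a b with hQ
  have hPhi : Matrix.fromBlocks 0 (-Q.toBlocks₁₂) (-(a * b * a) + Q.toBlocks₂₁) 0 = Y := hY
  have hb2 : b = -Q.toBlocks₁₂ := by
    rw [hb, ← hPhi]
    simp
  have ha2 : a = -(a * b * a) + Q.toBlocks₂₁ := by
    conv_lhs => rw [ha, ← hPhi]
    simp
  have hgEg : gi a b * EE D M (PowerSeries B) * gg a b =
      Matrix.fromBlocks (1 + b * a) b (-(a * (1 + b * a))) (-(a * b)) := by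
    unfold gi gg EE
    simp only [Matrix.fromBlocks_multiply]
    simp only [Matrix.mul_one, Matrix.mul_zero, Matrix.zero_mul, add_zero, zero_add,
      Matrix.one_mul, Matrix.neg_mul]
  set Z2 := gi a b * (Γ' * Zt * Γ) * gg a b with hZ2
  have hZ2Q : Z2 = Q + gi a b * EE D M (PowerSeries B) * gg a b := by
    rw [hZ2, hQ, Matrix.mul_sub, Matrix.sub_mul]; abel
  have hZ12 : Z2.toBlocks₁₂ = 0 := by
    have : Z2.toBlocks₁₂ = Q.toBlocks₁₂ + b := by
      rw [hZ2Q, hgEg]; rfl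
    rw [this, add_comm]
    exact eq_neg_iff_add_eq_zero.mp hb2
  have hZ21 : Z2.toBlocks₂₁ = 0 := by
    have h6 : Z2.toBlocks₂₁ = Q.toBlocks₂₁ + -(a * (1 + b * a)) := by
      rw [hZ2Q, hgEg]; rfl
    have h7 : Q.toBlocks₂₁ = a + a * b * a := by
      have : a + a * b * a = -(a * b * a) + Q.toBlocks₂₁ + a * b * a := by rw [← ha2]
      rw [this]; abel
    rw [h6, h7]
    simp only [Matrix.mul_add, Matrix.mul_one, ← Matrix.mul_assoc]; abel
  have hZ2b : Z2 = Matrix.fromBlocks Z2.toBlocks₁₁ 0 0 Z2.toBlocks₂₂ := by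
    conv_lhs => rw [← Matrix.fromBlocks_toBlocks Z2, hZ12, hZ21]
  have hcomm : EE D M (PowerSeries B) * Z2 = Z2 * EE D M (PowerSeries B) := by
    rw [hZ2b]; exact commute_of_blockDiag _ _
  have hPdef : Pn γ γ' Y = Γ * gg a b * EE D M (PowerSeries B) * gi a b * Γ' := rfl
  have hZdef : Zt = Γ * gg a b * Z2 * gi a b * Γ' := by
    rw [hZ2]
    calc Zt = (Γ * Γ') * Zt * (Γ * Γ') := by rw [hG]; simp
      _ = Γ * (gg a b * gi a b) * (Γ' * Zt * Γ) * (gg a b * gi a b) * Γ' := by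
          rw [gg_mul_gi]; simp only [Matrix.mul_assoc, Matrix.mul_one, Matrix.one_mul]
      _ = Γ * gg a b * (gi a b * (Γ' * Zt * Γ) * gg a b) * gi a b * Γ' := by
          simp only [Matrix.mul_assoc]
  have hmid : gi a b * Γ' * (Γ * gg a b) = 1 := by
    calc gi a b * Γ' * (Γ * gg a b) = gi a b * (Γ' * Γ) * gg a b := by
          simp only [Matrix.mul_assoc]
      _ = 1 := by rw [hG', Matrix.mul_one, gi_mul_gg]
  have prodform : ∀ U V : Matrix (D ⊕ M) (D ⊕ M) (PowerSeries B),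
      (Γ * gg a b * U * gi a b * Γ') * (Γ * gg a b * V * gi a b * Γ') =
        Γ * gg a b * (U * V) * gi a b * Γ' := by
    intro U V
    calc (Γ * gg a b * U * gi a b * Γ') * (Γ * gg a b * V * gi a b * Γ')
        = Γ * gg a b * U * (gi a b * Γ' * (Γ * gg a b)) * V * gi a b * Γ' := by
          simp only [Matrix.mul_assoc]
      _ = Γ * gg a b * (U * V) * gi a b * Γ' := by
          rw [hmid]; simp only [Matrix.mul_assoc, Matrix.one_mul]
  rw [hPdef, hZdef, prodform, prodform, hcomm]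

end Existence

end Pool.Agent.Helper198
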