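import Mathlib
import Pool.Agent.Helper198.PartA

set_option autoImplicit false
set_option linter.unusedSectionVars false
set_option linter.unusedSimpArgs false
set_option linter.unusedVariables false

open scoped Matrix

namespace Pool.Agent.Helper198

section Trdeg

variable {k K : Type} [Field k] [Field K] [Algebra k K]

lemma alg_adjoin {τ : Type} (x : τ → K) :
    Algebra.IsAlgebraic (Algebra.adjoin k (Set.range (fun i : τ =>
      (⟨x i, IntermediateField.subset_adjoin k _ ⟨i, rfl⟩⟩ :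
        IntermediateField.adjoin k (Set.range x)))))
      (IntermediateField.adjoin k (Set.range x)) := by
  set F := IntermediateField.adjoin k (Set.range x) with hF
  set xF : τ → F := fun i : τ => (⟨x i, IntermediateField.subset_adjoin k _ ⟨i, rfl⟩⟩ : F) with hxF
  constructor
  rintro ⟨y, hy⟩
  obtain ⟨r, s, hrs⟩ := (IntermediateField.mem_adjoin_range_iff k x y).mp hy
  have e : (⟨y, hy⟩ : F) = MvPolynomial.aeval xF r / MvPolynomial.aeval xF s := by
    apply Subtype.ext
    have h1 : ∀ p : MvPolynomial τ k, ((MvPolynomial.aeval xF p : F) : K) = MvPolynomial.aeval x p := by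
      intro p
      have : (F.val (MvPolynomial.aeval xF p)) = MvPolynomial.aeval x p := by
        rw [← AlgHom.comp_apply, MvPolynomial.comp_aeval]
        rfl
      exact this
    push_cast
    rw [h1, h1]
    exact hrs
  rw [e]
  have h2 : ∀ p : MvPolynomial τ k, IsAlgebraic (Algebra.adjoin k (Set.range xF))
      (MvPolynomial.aeval xF p) := by
    intro p
    have hp : MvPolynomial.aeval xF p ∈ Algebra.adjoin k (Set.range xF) := by
      rw [Algebra.adjoin_range_eq_range_aeval]
      exact ⟨p, rfl⟩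
    exact isAlgebraic_algebraMap (⟨_, hp⟩ : Algebra.adjoin k (Set.range xF))
  rw [div_eq_mul_inv]
  exact (h2 r).mul (h2 s).inv

/-- lifting an algebraically independent family into the field generated by `x` -/
lemma trdeg_bound {τ ι : Type} [Fintype τ] [Fintype ι] (x : τ → K) (y : ι → K)
    (hy : ∀ i, y i ∈ IntermediateField.adjoin k (Set.range x))
    (hind : AlgebraicIndependent k y) : Fintype.card ι ≤ Fintype.card τ := by
  set F := IntermediateField.adjoin k (Set.range x) with hF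
  set xF : τ → F := fun i : τ => (⟨x i, IntermediateField.subset_adjoin k _ ⟨i, rfl⟩⟩ : F) with hxF
  let yF : ι → F := fun i => ⟨y i, hy i⟩
  have hyF : AlgebraicIndependent k yF := by
    rw [← AlgHom.algebraicIndependent_iff F.val F.val.injective]
    exact hind
  have := alg_adjoin (k := k) x
  have h1 : Algebra.trdeg k F ≤ Cardinal.mk (Set.range xF) :=
    Algebra.IsAlgebraic.trdeg_le_cardinalMk k (Set.range xF)
  have h2 := hyF.cardinalMk_le_trdeg
  have h3 : Cardinal.mk (Set.range xF) ≤ Cardinal.mk τ := Cardinal.mk_range_le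
  have h4 := (h2.trans h1).trans h3
  rw [Cardinal.mk_fintype, Cardinal.mk_fintype] at h4
  exact_mod_cast h4

/-- if the field generated by `x` contains an algebraically independent family of the same size,
then `x` is algebraically independent. -/
lemma algInd_of_card {τ ι : Type} [Fintype τ] [Fintype ι] (x : τ → K) (y : ι → K)
    (hy : ∀ i, y i ∈ IntermediateField.adjoin k (Set.range x))
    (hind : AlgebraicIndependent k y) (hcard : Fintype.card ι = Fintype.card τ) :
    AlgebraicIndependent k x := by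
  set F := IntermediateField.adjoin k (Set.range x) with hF
  set xF : τ → F := fun i : τ => (⟨x i, IntermediateField.subset_adjoin k _ ⟨i, rfl⟩⟩ : F) with hxF
  let yF : ι → F := fun i => ⟨y i, hy i⟩
  have hyF : AlgebraicIndependent k yF := by
    rw [← AlgHom.algebraicIndependent_iff F.val F.val.injective]
    exact hind
  have := alg_adjoin (k := k) x
  have h2 := hyF.cardinalMk_le_trdeg
  have h5 : IsTranscendenceBasis k xF := by
    apply Algebra.IsAlgebraic.isTranscendenceBasis_of_le_trdeg_of_finite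
    rw [Cardinal.mk_fintype, ← hcard, ← Cardinal.mk_fintype]
    exact h2
  have h6 := h5.1
  rw [← AlgHom.algebraicIndependent_iff F.val F.val.injective] at h6
  exact h6

end Trdeg


section Main

variable {G E D M : Type} [Group G] [Fintype G] [DecidableEq G] [Fintype E] [DecidableEq E]
  [Fintype D] [DecidableEq D] [Fintype M] [DecidableEq M]
variable {k K : Type} [Field k] [Field K] [Algebra k K]

/-- the coordinates of the normal form as one family -/
def xvec {S : Type} (W : Matrix (D ⊕ M) (D ⊕ M) S) (u : D → S) :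
    ((D ⊕ M) × (D ⊕ M)) ⊕ D → S := Sum.elim (fun p => W p.1 p.2) u

theorem mem_adjoin_all (γ : Matrix (G × E) (D ⊕ M) k) (γ' : Matrix (D ⊕ M) (G × E) k)
    (h : Polynomial k) (ℓ : G × E → k) (W : Matrix (D ⊕ M) (D ⊕ M) K) (u : D → K)
    (c : Param G E → K)
    (hZ : Zn γ γ' W = ZZ h ℓ c (Pn γ γ' W) (vn γ W u))
    (hinj : Function.Injective (yy ℓ (vn γ W u))) (hne : ∀ g, yy ℓ (vn γ W u) g ≠ 0) :
    (∀ s t, Pn γ γ' W s t ∈ IntermediateField.adjoin k (Set.range (xvec W u))) ∧
    (∀ s, vn γ W u s ∈ IntermediateField.adjoin k (Set.range (xvec W u))) ∧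
    (∀ p, c p ∈ IntermediateField.adjoin k (Set.range (xvec W u))) := by
  set F := IntermediateField.adjoin k (Set.range (xvec W u)) with hF
  let WF : Matrix (D ⊕ M) (D ⊕ M) F := Matrix.of fun i j =>
    ⟨W i j, IntermediateField.subset_adjoin k _ ⟨Sum.inl (i, j), rfl⟩⟩
  let uF : D → F := fun i => ⟨u i, IntermediateField.subset_adjoin k _ ⟨Sum.inr i, rfl⟩⟩
  have hW : WF.map F.val = W := by ext i j; rfl
  have hu : (fun i => F.val (uF i)) = u := by funext i; rfl
  have hP : (Pn γ γ' WF).map F.val = Pn γ γ' W := by rw [Pn_map, hW]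
  have hZn : (Zn γ γ' WF).map F.val = Zn γ γ' W := by rw [Zn_map, hW]
  have hv : ∀ s, F.val (vn γ WF uF s) = vn γ W u s := by
    intro s; rw [vn_map, hW, hu]
  have hv' : (fun s => F.val (vn γ WF uF s)) = vn γ W u := funext hv
  refine ⟨fun s t => ?_, fun s => ?_, fun p => ?_⟩
  · rw [← hP]; exact (Pn γ γ' WF s t).2
  · rw [← hv]; exact (vn γ WF uF s).2
  · have h1 := solveC_map F.val h ℓ (Pn γ γ' WF) (Zn γ γ' WF) (vn γ WF uF) p
      (by rw [hv']; exact hinj) (by rw [hv']; exact hne)
    rw [hP, hZn, hv', hZ, solveC_unique h ℓ (Pn γ γ' W) (vn γ W u) c hinj hne] at h1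
    rw [← h1]
    exact (solveC h ℓ (Pn γ γ' WF) (Zn γ γ' WF) (vn γ WF uF) p).2

/-- algebraic independence of the coordinates of a good solution -/
theorem xvec_algInd (γ : Matrix (G × E) (D ⊕ M) k) (γ' : Matrix (D ⊕ M) (G × E) k)
    (h : Polynomial k) (ℓ : G × E → k) (W : Matrix (D ⊕ M) (D ⊕ M) K) (u : D → K)
    (c : Param G E → K)
    (hZ : Zn γ γ' W = ZZ h ℓ c (Pn γ γ' W) (vn γ W u))
    (hinj : Function.Injective (yy ℓ (vn γ W u))) (hne : ∀ g, yy ℓ (vn γ W u) g ≠ 0)
    (s : D → G × E) (hind : AlgebraicIndependent k (Sum.elim (fun a => vn γ W u (s a)) c))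
    (hcard : Fintype.card (G × E) = Fintype.card (D ⊕ M)) :
    AlgebraicIndependent k (xvec W u) := by
  obtain ⟨h1, h2, h3⟩ := mem_adjoin_all γ γ' h ℓ W u c hZ hinj hne
  refine algInd_of_card (xvec W u) _ ?_ hind ?_
  · rintro (a | p)
    · exact h2 _
    · exact h3 _
  · have e1 : Fintype.card (Param G E) = Fintype.card (G × E) * Fintype.card (G × E) := by
      simp only [Fintype.card_prod, Fintype.card_fin]; ring
    have e2 : Fintype.card ((D ⊕ M) × (D ⊕ M)) = Fintype.card (D ⊕ M) * Fintype.card (D ⊕ M) :=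
      Fintype.card_prod _ _
    rw [Fintype.card_sum, e1, Fintype.card_sum, e2, hcard]; ring

/-- dependence of any element of the generated field on the small family -/
theorem dependent (γ : Matrix (G × E) (D ⊕ M) k) (γ' : Matrix (D ⊕ M) (G × E) k)
    (h : Polynomial k) (ℓ : G × E → k) (W : Matrix (D ⊕ M) (D ⊕ M) K) (u : D → K)
    (c : Param G E → K)
    (hZ : Zn γ γ' W = ZZ h ℓ c (Pn γ γ' W) (vn γ W u))
    (hinj : Function.Injective (yy ℓ (vn γ W u))) (hne : ∀ g, yy ℓ (vn γ W u) g ≠ 0)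
    (s : D → G × E)
    (hcard : Fintype.card (G × E) = Fintype.card (D ⊕ M)) (r : K)
    (hr : r ∈ IntermediateField.adjoin k (Set.range (xvec W u))) :
    ¬ AlgebraicIndependent k
      (Sum.elim (fun o : Option D => o.elim r (fun a => vn γ W u (s a))) c) := by
  obtain ⟨h1, h2, h3⟩ := mem_adjoin_all γ γ' h ℓ W u c hZ hinj hne
  intro hind
  have := trdeg_bound (xvec W u) _ (by
    rintro (o | p)
    · rcases o with _ | a
      · exact hr
      · exact h2 _
    · exact h3 _) hind
  have e1 : Fintype.card (Param G E) = Fintype.card (G × E) * Fintype.card (G × E) := by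
      simp only [Fintype.card_prod, Fintype.card_fin]; ring
  have e2 : Fintype.card ((D ⊕ M) × (D ⊕ M)) = Fintype.card (D ⊕ M) * Fintype.card (D ⊕ M) :=
    Fintype.card_prod _ _
  rw [Fintype.card_sum, e1, Fintype.card_sum, e2, hcard, Fintype.card_option] at this
  omega


/-- the field of parameters -/
abbrev Kap (G E k : Type) [Fintype G] [Field k] : Type := FractionRing (MvPolynomial (Param G E) k)

/-- the generic parameters -/
noncomputable def c0 (G E k : Type) [Fintype G] [Field k] (p : Param G E) : Kap G E k :=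
  algebraMap (MvPolynomial (Param G E) k) (Kap G E k) (MvPolynomial.X p)

lemma c0_algInd : AlgebraicIndependent k (c0 G E k) := by
  have h := MvPolynomial.algebraicIndependent_X (Param G E) k
  exact h.map' (f := IsScalarTower.toAlgHom k (MvPolynomial (Param G E) k) (Kap G E k))
    (IsFractionRing.injective _ _)

lemma exists_theta {σ : Type} (x : σ → K) (hind : AlgebraicIndependent k x) :
    ∃ θ : FractionRing (MvPolynomial σ k) →ₐ[k] K,
      ∀ i, θ (algebraMap (MvPolynomial σ k) _ (MvPolynomial.X i)) = x i := by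
  have hinj : Function.Injective (MvPolynomial.aeval (R := k) x) := hind
  refine ⟨IsFractionRing.liftAlgHom (g := MvPolynomial.aeval (R := k) x) hinj, fun i => ?_⟩
  rw [IsFractionRing.liftAlgHom_apply, IsFractionRing.lift_algebraMap]
  simp

variable [Algebra (Kap G E k) K] [IsScalarTower k (Kap G E k) K]

theorem kernels_eq (γ : Matrix (G × E) (D ⊕ M) k) (γ' : Matrix (D ⊕ M) (G × E) k)
    (h : Polynomial k) (ℓ : G × E → k)
    (W1 W2 : Matrix (D ⊕ M) (D ⊕ M) K) (u1 u2 : D → K)
    (hZ1 : Zn γ γ' W1 = ZZ h ℓ (fun p => algebraMap (Kap G E k) K (c0 G E k p))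
      (Pn γ γ' W1) (vn γ W1 u1))
    (hZ2 : Zn γ γ' W2 = ZZ h ℓ (fun p => algebraMap (Kap G E k) K (c0 G E k p))
      (Pn γ γ' W2) (vn γ W2 u2))
    (hinj1 : Function.Injective (yy ℓ (vn γ W1 u1))) (hne1 : ∀ g, yy ℓ (vn γ W1 u1) g ≠ 0)
    (hinj2 : Function.Injective (yy ℓ (vn γ W2 u2))) (hne2 : ∀ g, yy ℓ (vn γ W2 u2) g ≠ 0)
    (hx1 : AlgebraicIndependent k (xvec W1 u1)) (hx2 : AlgebraicIndependent k (xvec W2 u2))
    (F : MvPolynomial (((G × E) × (G × E)) ⊕ (G × E)) (Kap G E k))
    (hF : MvPolynomial.aeval (Sum.elim (fun p => Pn γ γ' W1 p.1 p.2) (vn γ W1 u1)) F = 0) :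
    MvPolynomial.aeval (Sum.elim (fun p => Pn γ γ' W2 p.1 p.2) (vn γ W2 u2)) F = 0 := by
  set L := FractionRing (MvPolynomial (((D ⊕ M) × (D ⊕ M)) ⊕ D) k) with hL
  let WL : Matrix (D ⊕ M) (D ⊕ M) L := Matrix.of fun i j =>
    algebraMap (MvPolynomial (((D ⊕ M) × (D ⊕ M)) ⊕ D) k) L (MvPolynomial.X (Sum.inl (i, j)))
  let uL : D → L := fun i =>
    algebraMap (MvPolynomial (((D ⊕ M) × (D ⊕ M)) ⊕ D) k) L (MvPolynomial.X (Sum.inr i))
  let cL : Param G E → L := solveC h ℓ (Pn γ γ' WL) (Zn γ γ' WL) (vn γ WL uL)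
  obtain ⟨θ1, hθ1⟩ := exists_theta (xvec W1 u1) hx1
  obtain ⟨θ2, hθ2⟩ := exists_theta (xvec W2 u2) hx2
  -- general facts for a theta
  have gen : ∀ (W : Matrix (D ⊕ M) (D ⊕ M) K) (u : D → K) (θ : L →ₐ[k] K)
      (hθ : ∀ i, θ (algebraMap (MvPolynomial (((D ⊕ M) × (D ⊕ M)) ⊕ D) k) _ (MvPolynomial.X i)) =
        xvec W u i)
      (hZ : Zn γ γ' W = ZZ h ℓ (fun p => algebraMap (Kap G E k) K (c0 G E k p))
        (Pn γ γ' W) (vn γ W u))
      (hinj : Function.Injective (yy ℓ (vn γ W u))) (hne : ∀ g, yy ℓ (vn γ W u) g ≠ 0),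
      (∀ s t, θ (Pn γ γ' WL s t) = Pn γ γ' W s t) ∧ (∀ s, θ (vn γ WL uL s) = vn γ W u s) ∧
      (∀ p, θ (cL p) = algebraMap (Kap G E k) K (c0 G E k p)) := by
    intro W u θ hθ hZ hinj hne
    have hW : WL.map θ = W := by
      ext i j; exact hθ (Sum.inl (i, j))
    have hu : (fun i => θ (uL i)) = u := by funext i; exact hθ (Sum.inr i)
    have hP : (Pn γ γ' WL).map θ = Pn γ γ' W := by rw [Pn_map, hW]
    have hZn : (Zn γ γ' WL).map θ = Zn γ γ' W := by rw [Zn_map, hW]
    have hv : ∀ s, θ (vn γ WL uL s) = vn γ W u s := by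
      intro s; rw [vn_map, hW, hu]
    have hv' : (fun s => θ (vn γ WL uL s)) = vn γ W u := funext hv
    refine ⟨fun s t => ?_, hv, fun p => ?_⟩
    · rw [← hP]; rfl
    · have h1 := solveC_map θ h ℓ (Pn γ γ' WL) (Zn γ γ' WL) (vn γ WL uL) p
        (by rw [hv']; exact hinj) (by rw [hv']; exact hne)
      rw [hP, hZn, hv', hZ, solveC_unique h ℓ (Pn γ γ' W) (vn γ W u) _ hinj hne] at h1
      exact h1
  obtain ⟨a1, b1, d1⟩ := gen W1 u1 θ1 hθ1 hZ1 hinj1 hne1
  obtain ⟨a2, b2, d2⟩ := gen W2 u2 θ2 hθ2 hZ2 hinj2 hne2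
  have hcL : AlgebraicIndependent k cL := by
    rw [← AlgHom.algebraicIndependent_iff θ1 θ1.injective]
    have : θ1 ∘ cL = (IsScalarTower.toAlgHom k (Kap G E k) K) ∘ (c0 G E k) := by
      funext p; exact d1 p
    rw [this, AlgHom.algebraicIndependent_iff _ (RingHom.injective _)]
    exact c0_algInd
  obtain ⟨ψ, hψ⟩ := exists_theta cL hcL
  have comp : ∀ (θ : L →ₐ[k] K) (hd : ∀ p, θ (cL p) = algebraMap (Kap G E k) K (c0 G E k p)),
      (θ.comp ψ : Kap G E k →+* K) = algebraMap (Kap G E k) K := by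
    intro θ hd
    apply IsLocalization.ringHom_ext (nonZeroDivisors (MvPolynomial (Param G E) k))
    apply MvPolynomial.ringHom_ext
    · intro r
      simp only [RingHom.coe_comp, RingHom.coe_coe, Function.comp_apply, AlgHom.coe_comp]
      have : algebraMap (MvPolynomial (Param G E) k) (Kap G E k) (MvPolynomial.C r) =
          algebraMap k (Kap G E k) r := by
        rw [IsScalarTower.algebraMap_apply k (MvPolynomial (Param G E) k) (Kap G E k)]
        rfl
      rw [this, AlgHom.commutes, AlgHom.commutes, ← IsScalarTower.algebraMap_apply]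
    · intro p
      simp only [RingHom.coe_comp, RingHom.coe_coe, Function.comp_apply, AlgHom.coe_comp]
      rw [hψ, hd]; rfl
  let pt : (((G × E) × (G × E)) ⊕ (G × E)) → L :=
    Sum.elim (fun p => Pn γ γ' WL p.1 p.2) (vn γ WL uL)
  have eval : ∀ (W : Matrix (D ⊕ M) (D ⊕ M) K) (u : D → K) (θ : L →ₐ[k] K)
      (ha : ∀ s t, θ (Pn γ γ' WL s t) = Pn γ γ' W s t)
      (hb : ∀ s, θ (vn γ WL uL s) = vn γ W u s)
      (hd : ∀ p, θ (cL p) = algebraMap (Kap G E k) K (c0 G E k p)),
      θ (MvPolynomial.eval₂Hom (ψ : Kap G E k →+* L) pt F) =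
        MvPolynomial.aeval (Sum.elim (fun p => Pn γ γ' W p.1 p.2) (vn γ W u)) F := by
    intro W u θ ha hb hd
    rw [MvPolynomial.aeval_def, ← comp θ hd]
    have := MvPolynomial.hom_eval₂ F (ψ : Kap G E k →+* L) (θ : L →+* K) pt
    rw [MvPolynomial.coe_eval₂Hom]
    refine Eq.trans this ?_
    congr 1
    funext i
    rcases i with p | s
    · exact ha _ _
    · exact hb _
  have e1 := eval W1 u1 θ1 a1 b1 d1
  have e2 := eval W2 u2 θ2 a2 b2 d2
  rw [hF] at e1
  have e3 : MvPolynomial.eval₂Hom (ψ : Kap G E k →+* L) pt F = 0 := (map_eq_zero θ1).mp e1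
  rw [← e2, e3, map_zero]

end Main

end Pool.Agent.Helper198
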