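import Mathlib
import Pool.Agent.Helper198.PartA
import Pool.Agent.Helper198.PartB
import Pool.Agent.Helper198.PartC

set_option autoImplicit false
set_option linter.unusedSectionVars false
set_option linter.unusedSimpArgs false
set_option linter.unusedVariables false
set_option maxHeartbeats 4000000

open scoped Matrix

namespace Pool.Agent.Helper198

section Lead

variable {κ D : Type} [Field κ] [Fintype D] [DecidableEq D]

lemma algInd_of_lead (w : D → PowerSeries (MvPolynomial D κ))
    (w' : D → PowerSeries (MvPolynomial D κ))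
    (hw : ∀ a, w a = PowerSeries.X * w' a)
    (hw' : ∀ a, PowerSeries.constantCoeff (w' a) = MvPolynomial.X a) :
    AlgebraicIndependent κ w := by
  rw [algebraicIndependent_iff]
  intro F hF
  by_contra hne
  obtain ⟨d0, hd0, hmin⟩ := Finset.exists_min_image F.support (fun d => ∑ i, d i)
    (MvPolynomial.support_nonempty.mpr hne)
  set n := ∑ i, d0 i with hn
  have h1 : PowerSeries.coeff n (MvPolynomial.aeval w F) =
      ∑ d ∈ F.support, (if ∑ i, d i = n then MvPolynomial.monomial d (F.coeff d) else 0) := by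
    rw [MvPolynomial.aeval_def, MvPolynomial.eval₂_eq', map_sum]
    apply Finset.sum_congr rfl
    intro d hd
    have e1 : ∏ i, w i ^ d i = PowerSeries.X ^ (∑ i, d i) * ∏ i, w' i ^ d i := by
      rw [← Finset.prod_pow_eq_pow_sum, ← Finset.prod_mul_distrib]
      apply Finset.prod_congr rfl
      intro i _
      rw [hw i, mul_pow]
    have e2 : algebraMap κ (PowerSeries (MvPolynomial D κ)) (F.coeff d) =
        PowerSeries.C (MvPolynomial.C (F.coeff d)) := by
      rw [PowerSeries.algebraMap_apply]; rfl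
    rw [e1, e2, PowerSeries.coeff_C_mul, PowerSeries.coeff_X_pow_mul']
    by_cases hdn : ∑ i, d i = n
    · rw [if_pos hdn, if_pos (le_of_eq hdn), hdn, Nat.sub_self,
        PowerSeries.coeff_zero_eq_constantCoeff_apply, map_prod]
      simp only [map_pow, hw']
      rw [MvPolynomial.monomial_eq, Finsupp.prod_fintype]
      intro i; simp
    · rw [if_neg hdn, if_neg, mul_zero]
      intro hle
      exact hdn (le_antisymm hle (hmin d hd))
  rw [hF, map_zero] at h1
  have h2 := congrArg (MvPolynomial.coeff d0) h1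
  rw [MvPolynomial.coeff_zero, MvPolynomial.coeff_sum] at h2
  have h3 : ∑ d ∈ F.support, MvPolynomial.coeff d0
      (if ∑ i, d i = n then MvPolynomial.monomial d (F.coeff d) else 0) = F.coeff d0 := by
    rw [Finset.sum_eq_single d0]
    · rw [if_pos rfl, MvPolynomial.coeff_monomial, if_pos rfl]
    · intro b _ hb
      split_ifs with hbn
      · rw [MvPolynomial.coeff_monomial, if_neg hb]
      · simp
    · intro hnot
      exact absurd hd0 hnot
  rw [h3] at h2
  exact (MvPolynomial.mem_support_iff.mp hd0) h2.symm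

end Lead


section Units

lemma isUnit_det_of_const {k R : Type} [Field k] [CommRing R] [Algebra k R]
    {D : Type} [Fintype D] [DecidableEq D] (A : Matrix D D (PowerSeries R)) (A0 : Matrix D D k)
    (h : A.map (PowerSeries.constantCoeff (R := R)) = A0.map (algebraMap k R)) (hdet : A0.det ≠ 0) :
    IsUnit A.det := by
  rw [PowerSeries.isUnit_iff_constantCoeff]
  have h1 : PowerSeries.constantCoeff A.det = algebraMap k R A0.det := by
    rw [RingHom.map_det, RingHom.map_det]
    exact congrArg Matrix.det h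
  rw [h1]
  exact (isUnit_iff_ne_zero.mpr hdet).map (algebraMap k R)

end Units

section Datum

variable {G E D M : Type} [Group G] [Fintype G] [DecidableEq G] [Fintype E] [DecidableEq E]
  [Fintype D] [DecidableEq D] [Fintype M] [DecidableEq M]
variable {k : Type} [Field k]

/-- combinatorial data attached to one base point -/
structure Datum (h : Polynomial k) (ℓ : G × E → k) (γ0 : Matrix (G × E) (D ⊕ M) k)
    (γ : Matrix (G × E) (D ⊕ M) k) (γ' : Matrix (D ⊕ M) (G × E) k) (sD : D → G × E) : Prop where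
  h1 : γ * γ' = 1
  h2 : γ' * γ = 1
  he : ∀ s t, h.eval ((γ * EE D M k * γ') s t) = (γ * EE D M k * γ') s t
  hd : ∀ s t, (Polynomial.derivative h).eval ((γ * EE D M k * γ') s t) = 0
  linj : Function.Injective (fun (g : G) (a : D) => ∑ s, ℓ s * γ (tr g s) (Sum.inl a))
  lne : ∀ g : G, (fun (a : D) => ∑ s, ℓ s * γ (tr g s) (Sum.inl a)) ≠ 0
  hs : ∀ a b, γ (sD a) (Sum.inl b) = if a = b then 1 else 0
  hcell : ∀ g : G, (((γ'.submatrix id (tr g)) * γ0).toBlocks₁₁).det ≠ 0

/-- initial vector -/
noncomputable def x0 (κ : Type) [Field κ] [Algebra k κ] (γ : Matrix (G × E) (D ⊕ M) k)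
    (s : G × E) : PowerSeries (MvPolynomial D κ) :=
  PowerSeries.X * PowerSeries.C (∑ a, algebraMap k (MvPolynomial D κ) (γ s (Sum.inl a)) *
    MvPolynomial.X a)

lemma submatrix_mul_tr {S n : Type} [CommRing S] [Fintype n] (A : Matrix (G × E) n S)
    (B : Matrix n (G × E) S) (g : G) :
    (A * B).submatrix (tr g) (tr g) = A.submatrix (tr g) id * B.submatrix id (tr g) := by
  ext i j; simp [Matrix.mul_apply]

/-- translation by a group element as an equivalence -/
def trE (g : G) : (G × E) ≃ (G × E) where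
  toFun := tr g
  invFun := tr g⁻¹
  left_inv := fun s => by rw [tr_tr]; simp [tr_one]
  right_inv := fun s => by rw [tr_tr]; simp [tr_one]

lemma submatrix_mul_tr' {S : Type} [CommRing S] (A : Matrix (G × E) (G × E) S)
    (B : Matrix (G × E) (G × E) S) (g : G) :
    (A * B).submatrix (tr g) (tr g) = A.submatrix (tr g) (tr g) * B.submatrix (tr g) (tr g) := by
  have := Matrix.submatrix_mul_equiv A B (tr g) (trE g) (tr g)
  exact this.symm

lemma mulVec_tr {S : Type} [CommRing S] (A : Matrix (G × E) (G × E) S) (v : G × E → S) (g : G) :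
    (A.submatrix (tr g) (tr g)) *ᵥ (fun s => v (tr g s)) = fun s => (A *ᵥ v) (tr g s) := by
  funext s
  simp only [Matrix.mulVec, dotProduct, Matrix.submatrix_apply]
  exact Equiv.sum_comp (trE g) (fun t => A (tr g s) t * v t)


lemma gi_map' {S S' : Type} [CommRing S] [CommRing S'] (f : S →+* S')
    (a : Matrix M D S) (b : Matrix D M S) :
    (gi a b).map f = gi (a.map f) (b.map f) := by
  unfold gi
  rw [Matrix.fromBlocks_map]
  congr 1
  · rw [Matrix.map_one _ (map_zero f) (map_one f)]
  · ext i j; simp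
  · ext i j; simp
  · rw [Matrix.map_add _ (map_add f), Matrix.map_mul, Matrix.map_one _ (map_zero f) (map_one f)]

lemma map_const_of_Dv {R p q : Type} [CommRing R] {A B : Matrix p q (PowerSeries R)}
    (h : Dv 1 (A - B)) : A.map (PowerSeries.constantCoeff (R := R)) =
      B.map (PowerSeries.constantCoeff (R := R)) := by
  ext1 i j
  have := h i j
  rw [pow_one, PowerSeries.X_dvd_iff, Matrix.sub_apply, map_sub, sub_eq_zero] at this
  exact this


section generic
variable {R : Type} [CommRing R] [Algebra k R]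

theorem sol1 {h : Polynomial k} {ℓ : G × E → k} {γ0 : Matrix (G × E) (D ⊕ M) k}
    {γ : Matrix (G × E) (D ⊕ M) k} {γ' : Matrix (D ⊕ M) (G × E) k} {sD : D → G × E}
    (dat : Datum h ℓ γ0 γ γ' sD)
    (c : Param G E → PowerSeries R) (x : G × E → PowerSeries R)
    (hx : ∀ s, (PowerSeries.X : PowerSeries R) ∣ x s) :
    ∃ (P : Matrix (G × E) (G × E) (PowerSeries R)) (δ : Matrix (G × E) (D ⊕ M) (PowerSeries R))
      (δ' : Matrix (D ⊕ M) (G × E) (PowerSeries R)),
      δ * δ' = 1 ∧ δ' * δ = 1 ∧ P = δ * EE D M (PowerSeries R) * δ' ∧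
      P * ZZ h ℓ c P (P *ᵥ x) = ZZ h ℓ c P (P *ᵥ x) * P ∧
      (∀ s t, PowerSeries.constantCoeff (P s t) = algebraMap k R ((γ * EE D M k * γ') s t)) ∧
      δ'.map (PowerSeries.constantCoeff (R := R)) = γ'.map (algebraMap k R) := by
  obtain ⟨Y, hY1, hY⟩ := exists_formal h ℓ c γ γ' dat.h1 dat.h2 dat.he dat.hd x hx
  have hG : bc (PowerSeries R) γ * bc (PowerSeries R) γ' = 1 := by rw [← bc_mul, dat.h1, bc_one]
  have hG' : bc (PowerSeries R) γ' * bc (PowerSeries R) γ = 1 := by rw [← bc_mul, dat.h2, bc_one]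
  refine ⟨Pn γ γ' Y, bc (PowerSeries R) γ * gg Y.toBlocks₂₁ Y.toBlocks₁₂,
    gi Y.toBlocks₂₁ Y.toBlocks₁₂ * bc (PowerSeries R) γ', ?_, ?_, ?_, hY, ?_, ?_⟩
  · calc (bc (PowerSeries R) γ * gg Y.toBlocks₂₁ Y.toBlocks₁₂) *
          (gi Y.toBlocks₂₁ Y.toBlocks₁₂ * bc (PowerSeries R) γ')
        = bc (PowerSeries R) γ * (gg Y.toBlocks₂₁ Y.toBlocks₁₂ * gi Y.toBlocks₂₁ Y.toBlocks₁₂) *
          bc (PowerSeries R) γ' := by simp only [Matrix.mul_assoc]
      _ = 1 := by rw [gg_mul_gi, Matrix.mul_one, hG]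
  · calc (gi Y.toBlocks₂₁ Y.toBlocks₁₂ * bc (PowerSeries R) γ') *
          (bc (PowerSeries R) γ * gg Y.toBlocks₂₁ Y.toBlocks₁₂)
        = gi Y.toBlocks₂₁ Y.toBlocks₁₂ * (bc (PowerSeries R) γ' * bc (PowerSeries R) γ) *
          gg Y.toBlocks₂₁ Y.toBlocks₁₂ := by simp only [Matrix.mul_assoc]
      _ = 1 := by rw [hG', Matrix.mul_one, gi_mul_gg]
  · unfold Pn; simp only [Matrix.mul_assoc]
  · have hDvP : Dv 1 (Pn γ γ' Y - bc (PowerSeries R) (γ * EE D M k * γ')) := by
      rw [← Pn_zero]
      apply Dv_Pn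
      simpa using hY1
    intro s t
    have := congrFun (congrFun (map_const_of_Dv hDvP) s) t
    simp only [Matrix.map_apply, bc] at this
    rw [this, PowerSeries.algebraMap_apply]
    simp
  · have e0 : (gi Y.toBlocks₂₁ Y.toBlocks₁₂).map (PowerSeries.constantCoeff (R := R)) = 1 := by
      rw [gi_map']
      have ea : Y.toBlocks₂₁.map (PowerSeries.constantCoeff (R := R)) = 0 := by
        ext1 i j
        have := hY1 (Sum.inr i) (Sum.inl j)
        rw [pow_one, PowerSeries.X_dvd_iff] at this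
        exact this
      have eb : Y.toBlocks₁₂.map (PowerSeries.constantCoeff (R := R)) = 0 := by
        ext1 i j
        have := hY1 (Sum.inl i) (Sum.inr j)
        rw [pow_one, PowerSeries.X_dvd_iff] at this
        exact this
      rw [ea, eb]
      unfold gi; simp
    rw [Matrix.map_mul, e0, Matrix.one_mul]
    ext1 i j
    simp only [bc, Matrix.map_apply]
    rw [PowerSeries.algebraMap_apply, PowerSeries.constantCoeff_C]

theorem sol2 {h : Polynomial k} {ℓ : G × E → k} {γ0 : Matrix (G × E) (D ⊕ M) k}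
    {γ0' : Matrix (D ⊕ M) (G × E) k} (h01 : γ0 * γ0' = 1) (h02 : γ0' * γ0 = 1)
    {γ' : Matrix (D ⊕ M) (G × E) k}
    (g : G) (hcell : (((γ'.submatrix id (tr g)) * γ0).toBlocks₁₁).det ≠ 0)
    (c : Param G E → PowerSeries R) (P : Matrix (G × E) (G × E) (PowerSeries R))
    (v : G × E → PowerSeries R)
    (δ : Matrix (G × E) (D ⊕ M) (PowerSeries R)) (δ' : Matrix (D ⊕ M) (G × E) (PowerSeries R))
    (k1 : δ * δ' = 1) (k2 : δ' * δ = 1) (k3 : P = δ * EE D M (PowerSeries R) * δ')
    (k4 : P * ZZ h ℓ c P v = ZZ h ℓ c P v * P) (k5 : P *ᵥ v = v)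
    (k6 : δ'.map (PowerSeries.constantCoeff (R := R)) = γ'.map (algebraMap k R)) :
    ∃ (W : Matrix (D ⊕ M) (D ⊕ M) (PowerSeries R)) (u : D → PowerSeries R),
        Pn γ0 γ0' W = P.submatrix (tr g) (tr g) ∧
        Zn γ0 γ0' W = ZZ h ℓ c (P.submatrix (tr g) (tr g)) (fun s => v (tr g s)) ∧
        vn γ0 W u = fun s => v (tr g s) := by
  have j1 : δ.submatrix (tr g) id * δ'.submatrix id (tr g) = 1 := by
    rw [← submatrix_mul_tr, k1]
    refine Matrix.ext fun i j => ?_
    have hinj : Function.Injective (tr g : G × E → G × E) := (trE g).injective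
    by_cases hij : i = j
    · subst hij; simp
    · simp [Matrix.one_apply, hij, hinj.eq_iff]
  have j2 : δ'.submatrix id (tr g) * δ.submatrix (tr g) id = 1 := by
    rw [← k2]
    exact Matrix.submatrix_mul_equiv δ' δ id (trE g) id
  have j3 : P.submatrix (tr g) (tr g) =
      δ.submatrix (tr g) id * EE D M (PowerSeries R) * δ'.submatrix id (tr g) := by
    rw [k3, submatrix_mul_tr]
    congr 1
  have j4 : P.submatrix (tr g) (tr g) *
      ZZ h ℓ c (P.submatrix (tr g) (tr g)) (fun s => v (tr g s)) =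
      ZZ h ℓ c (P.submatrix (tr g) (tr g)) (fun s => v (tr g s)) *
        P.submatrix (tr g) (tr g) := by
    rw [ZZ_tr, ← submatrix_mul_tr', ← submatrix_mul_tr', k4]
  have j5 : (P.submatrix (tr g) (tr g)) *ᵥ (fun s => v (tr g s)) = fun s => v (tr g s) := by
    rw [mulVec_tr, k5]
  have j6 : IsUnit ((δ'.submatrix id (tr g) * bc (PowerSeries R) γ0).toBlocks₁₁).det := by
    apply isUnit_det_of_const _ (((γ'.submatrix id (tr g)) * γ0).toBlocks₁₁) ?_ hcell
    have ebc : (bc (PowerSeries R) γ0).map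
        (PowerSeries.constantCoeff (R := R)) = γ0.map (algebraMap k R) := by
      ext1 i j
      simp only [bc, Matrix.map_apply]
      rw [PowerSeries.algebraMap_apply, PowerSeries.constantCoeff_C]
    have e1 : (δ'.submatrix id (tr g)).map (PowerSeries.constantCoeff (R := R)) =
        (γ'.submatrix id (tr g)).map (algebraMap k R) := by
      ext1 i j
      exact congrFun (congrFun k6 i) (tr g j)
    have e2 : (δ'.submatrix id (tr g) * bc (PowerSeries R) γ0).map
        (PowerSeries.constantCoeff (R := R)) =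
        ((γ'.submatrix id (tr g)) * γ0).map (algebraMap k R) := by
      rw [Matrix.map_mul, e1, ebc, Matrix.map_mul]
    ext1 i j
    exact congrFun (congrFun e2 (Sum.inl i)) (Sum.inl j)
  obtain ⟨W, u, w1, w2, w3⟩ := normal_form h01 h02 j1 j2 j3 j4 j5
    ((δ'.submatrix id (tr g) * bc (PowerSeries R) γ0).toBlocks₁₁)⁻¹
    (Matrix.mul_nonsing_inv _ j6) (Matrix.nonsing_inv_mul _ j6)
  exact ⟨W, u, w1, w2, w3⟩

end generic


/-- leading-term analysis of the vector part of a solution -/
theorem sol3 {h : Polynomial k} {ℓ : G × E → k} {γ0 : Matrix (G × E) (D ⊕ M) k}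
    {γ : Matrix (G × E) (D ⊕ M) k} {γ' : Matrix (D ⊕ M) (G × E) k} {sD : D → G × E}
    (dat : Datum h ℓ γ0 γ γ' sD) (κ : Type) [Field κ] [Algebra k κ]
    (P : Matrix (G × E) (G × E) (PowerSeries (MvPolynomial D κ)))
    (hP : ∀ s t, PowerSeries.constantCoeff (P s t) =
      algebraMap k (MvPolynomial D κ) ((γ * EE D M k * γ') s t)) :
    ∃ w : G × E → PowerSeries (MvPolynomial D κ),
      (∀ s, (P *ᵥ x0 κ γ) s = PowerSeries.X * w s) ∧
      (∀ s, PowerSeries.constantCoeff (w s) =
        ∑ a, algebraMap k (MvPolynomial D κ) (γ s (Sum.inl a)) * MvPolynomial.X a) := by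
  refine ⟨fun s => ∑ t, P s t * PowerSeries.C (∑ a, algebraMap k (MvPolynomial D κ)
    (γ t (Sum.inl a)) * MvPolynomial.X a), ?_, ?_⟩
  · intro s
    rw [Finset.mul_sum]
    simp only [Matrix.mulVec, dotProduct, x0]
    apply Finset.sum_congr rfl
    intro t _
    ring
  · intro s
    rw [map_sum]
    simp only [map_mul, hP, PowerSeries.constantCoeff_C]
    have hcol : ∀ a : D, ∑ t, (γ * EE D M k * γ') s t * γ t (Sum.inl a) = γ s (Sum.inl a) := by
      intro a
      have e1 : (γ * EE D M k * γ' * γ) s (Sum.inl a) = γ s (Sum.inl a) := by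
        rw [Matrix.mul_assoc, dat.h2, Matrix.mul_one, Matrix.mul_apply]
        simp [EE, Matrix.fromBlocks, Fintype.sum_sum_type, Matrix.one_apply]
      rw [← e1, Matrix.mul_apply]
    simp only [Finset.mul_sum]
    rw [Finset.sum_comm]
    apply Finset.sum_congr rfl
    intro a _
    rw [← hcol a, map_sum, Finset.sum_mul]
    apply Finset.sum_congr rfl
    intro t _
    rw [map_mul]; ring

end Datum

end Pool.Agent.Helper198
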