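import Mathlib
import Pool.Agent.Helper198.PartD

set_option autoImplicit false
set_option linter.unusedSectionVars false
set_option linter.unusedSimpArgs false
set_option linter.unusedVariables false

open scoped Matrix

namespace Pool.Agent.Helper198

section Good

variable {G E D M : Type} [Group G] [Fintype G] [DecidableEq G] [Fintype E] [DecidableEq E]
  [Fintype D] [DecidableEq D] [Fintype M] [DecidableEq M]
variable {k : Type} [Field k]

/-- power series over polynomials over the parameter field -/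
abbrev OO (D κ : Type) [Field κ] : Type := PowerSeries (MvPolynomial D κ)

/-- the generic parameters as constants -/
noncomputable def cS (G E D k : Type) [Fintype G] [Field k] (p : Param G E) :
    OO D (Kap G E k) := algebraMap (Kap G E k) (OO D (Kap G E k)) (c0 G E k p)

/-- a solution in good position -/
structure Good (h : Polynomial k) (ℓ : G × E → k) (γ0 : Matrix (G × E) (D ⊕ M) k)
    (γ0' : Matrix (D ⊕ M) (G × E) k) (P : Matrix (G × E) (G × E) (OO D (Kap G E k)))
    (v : G × E → OO D (Kap G E k)) (s : D → G × E) : Prop where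
  nf : ∃ (W : Matrix (D ⊕ M) (D ⊕ M) (OO D (Kap G E k))) (u : D → OO D (Kap G E k)),
    Pn γ0 γ0' W = P ∧ Zn γ0 γ0' W = ZZ h ℓ (cS G E D k) P v ∧ vn γ0 W u = v
  inj : Function.Injective (yy ℓ v)
  ne : ∀ g, yy ℓ v g ≠ 0
  ind : AlgebraicIndependent (Kap G E k) (fun a => v (s a))

variable {h : Polynomial k} {ℓ : G × E → k} {γ0 : Matrix (G × E) (D ⊕ M) k}
    {γ0' : Matrix (D ⊕ M) (G × E) k} 

/-- a good solution over the fraction field -/
theorem Good.frac {P : Matrix (G × E) (G × E) (OO D (Kap G E k))}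
    {v : G × E → OO D (Kap G E k)} {s : D → G × E} (hg : Good h ℓ γ0 γ0' P v s) :
    ∃ (W : Matrix (D ⊕ M) (D ⊕ M) (FractionRing (OO D (Kap G E k))))
      (u : D → FractionRing (OO D (Kap G E k))),
      (Pn γ0 γ0' W = P.map (algebraMap (OO D (Kap G E k)) (FractionRing (OO D (Kap G E k))))) ∧
      (vn γ0 W u = fun s => algebraMap (OO D (Kap G E k)) (FractionRing (OO D (Kap G E k))) (v s)) ∧
      (Zn γ0 γ0' W = ZZ h ℓ (fun p => algebraMap (Kap G E k) (FractionRing (OO D (Kap G E k)))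
        (c0 G E k p)) (Pn γ0 γ0' W) (vn γ0 W u)) ∧
      Function.Injective (yy ℓ (vn γ0 W u)) ∧ (∀ g, yy ℓ (vn γ0 W u) g ≠ 0) ∧
      AlgebraicIndependent k (Sum.elim (fun a => vn γ0 W u (s a))
        (fun p => algebraMap (Kap G E k) (FractionRing (OO D (Kap G E k))) (c0 G E k p))) ∧
      AlgebraicIndependent (Kap G E k) (fun a => vn γ0 W u (s a)) := by
  obtain ⟨W, u, hP, hZ, hv⟩ := hg.nf
  let f : OO D (Kap G E k) →ₐ[k] FractionRing (OO D (Kap G E k)) :=
    IsScalarTower.toAlgHom k (OO D (Kap G E k)) (FractionRing (OO D (Kap G E k)))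
  have hf : Function.Injective f := IsFractionRing.injective _ _
  have e1 : Pn γ0 γ0' (W.map f) = P.map f := by rw [← Pn_map, hP]
  have e2 : vn γ0 (W.map f) (fun i => f (u i)) = fun s => f (v s) := by
    funext t; rw [← vn_map, hv]
  have e3 : Zn γ0 γ0' (W.map f) = ZZ h ℓ (fun p => algebraMap (Kap G E k)
      (FractionRing (OO D (Kap G E k))) (c0 G E k p)) (Pn γ0 γ0' (W.map f))
      (vn γ0 (W.map f) (fun i => f (u i))) := by
    rw [← Zn_map, hZ, ZZ_map, e1, e2]
    congr 1
  have hy : ∀ g, yy ℓ (vn γ0 (W.map f) (fun i => f (u i))) g = f (yy ℓ v g) := by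
    intro g; rw [e2, yy_map]
  have hind : AlgebraicIndependent (Kap G E k)
      (fun a => vn γ0 (W.map f) (fun i => f (u i)) (s a)) := by
    rw [e2]
    exact hg.ind.map' (f := IsScalarTower.toAlgHom (Kap G E k) (OO D (Kap G E k))
      (FractionRing (OO D (Kap G E k)))) (IsFractionRing.injective _ _)
  refine ⟨W.map f, fun i => f (u i), e1, e2, e3, ?_, ?_, ?_, hind⟩
  · intro g g' hgg
    rw [hy, hy] at hgg
    exact hg.inj (hf hgg)
  · intro g h0
    rw [hy] at h0
    exact hg.ne g (hf (by rw [h0, map_zero]))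
  · exact AlgebraicIndependent.sumElim_comp c0_algInd hind

theorem good_ker (hcard : Fintype.card (G × E) = Fintype.card (D ⊕ M))
    {P1 P2 : Matrix (G × E) (G × E) (OO D (Kap G E k))}
    {v1 v2 : G × E → OO D (Kap G E k)} {s1 s2 : D → G × E} (hg1 : Good h ℓ γ0 γ0' P1 v1 s1)
    (hg2 : Good h ℓ γ0 γ0' P2 v2 s2)
    (F : MvPolynomial (((G × E) × (G × E)) ⊕ (G × E)) (Kap G E k))
    (hF : MvPolynomial.aeval (Sum.elim (fun p => P1 p.1 p.2) v1) F = 0) :
    MvPolynomial.aeval (Sum.elim (fun p => P2 p.1 p.2) v2) F = 0 := by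
  obtain ⟨W1, u1, a1, b1, d1, i1, n1, m1, -⟩ := hg1.frac
  obtain ⟨W2, u2, a2, b2, d2, i2, n2, m2, -⟩ := hg2.frac
  have x1 := xvec_algInd γ0 γ0' h ℓ W1 u1 _ d1 i1 n1 s1 m1 hcard
  have x2 := xvec_algInd γ0 γ0' h ℓ W2 u2 _ d2 i2 n2 s2 m2 hcard
  have key := kernels_eq γ0 γ0' h ℓ W1 W2 u1 u2 d1 d2 i1 n1 i2 n2 x1 x2 F
  have tr : ∀ (P : Matrix (G × E) (G × E) (OO D (Kap G E k))) (v : G × E → OO D (Kap G E k))
      (W : Matrix (D ⊕ M) (D ⊕ M) (FractionRing (OO D (Kap G E k))))
      (u : D → FractionRing (OO D (Kap G E k)))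
      (ha : Pn γ0 γ0' W = P.map (algebraMap (OO D (Kap G E k)) (FractionRing (OO D (Kap G E k)))))
      (hb : vn γ0 W u = fun s => algebraMap (OO D (Kap G E k))
        (FractionRing (OO D (Kap G E k))) (v s)),
      MvPolynomial.aeval (Sum.elim (fun p => Pn γ0 γ0' W p.1 p.2) (vn γ0 W u)) F =
      algebraMap (OO D (Kap G E k)) (FractionRing (OO D (Kap G E k)))
        (MvPolynomial.aeval (Sum.elim (fun p => P p.1 p.2) v) F) := by
    intro P v W u ha hb
    rw [← MvPolynomial.aeval_algebraMap_apply]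
    congr 1
    apply congrArg
    funext i
    rcases i with p | t
    · simp only [Sum.elim_inl, Function.comp_apply]; rw [ha]; rfl
    · simp only [Sum.elim_inr, Function.comp_apply]; rw [hb]
  rw [tr P1 v1 W1 u1 a1 b1, tr P2 v2 W2 u2 a2 b2, hF, map_zero] at key
  have := key rfl
  exact (IsFractionRing.injective (OO D (Kap G E k)) (FractionRing (OO D (Kap G E k))))
    (by rw [this, map_zero])

theorem good_dep (hcard : Fintype.card (G × E) = Fintype.card (D ⊕ M))
    {P : Matrix (G × E) (G × E) (OO D (Kap G E k))}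
    {v : G × E → OO D (Kap G E k)} {s : D → G × E} (hg : Good h ℓ γ0 γ0' P v s)
    (i : ((G × E) × (G × E)) ⊕ (G × E)) :
    ¬ AlgebraicIndependent (Kap G E k) (fun o : Option D =>
      o.elim (Sum.elim (fun p => P p.1 p.2) v i) (fun a => v (s a))) := by
  obtain ⟨W, u, ha, hb, d1, i1, n1, m1, m2⟩ := hg.frac
  obtain ⟨q1, q2, q3⟩ := mem_adjoin_all γ0 γ0' h ℓ W u _ d1 i1 n1
  intro hind
  have hr : algebraMap (OO D (Kap G E k)) (FractionRing (OO D (Kap G E k)))
      (Sum.elim (fun p => P p.1 p.2) v i) ∈ IntermediateField.adjoin k (Set.range (xvec W u)) := by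
    rcases i with p | t
    · have := q1 p.1 p.2
      rw [ha] at this
      exact this
    · have := q2 t
      rw [hb] at this
      exact this
  have hdep := dependent γ0 γ0' h ℓ W u _ d1 i1 n1 s hcard _ hr
  apply hdep
  apply AlgebraicIndependent.sumElim_comp c0_algInd
  have h2 := hind.map' (f := IsScalarTower.toAlgHom (Kap G E k) (OO D (Kap G E k))
      (FractionRing (OO D (Kap G E k)))) (IsFractionRing.injective _ _)
  convert h2 using 1
  funext o
  rcases o with _ | a
  · rfl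
  · simp only [Function.comp_apply, Option.elim_some]
    rw [hb]; rfl


lemma lin_inj {R κ : Type} [CommRing R] [Field κ] [Algebra k κ] {α β : D → k}
    (hab : ∑ a, algebraMap k (MvPolynomial D κ) (α a) * MvPolynomial.X a =
      ∑ a, algebraMap k (MvPolynomial D κ) (β a) * MvPolynomial.X a) : α = β := by
  funext a
  have h1 := congrArg (MvPolynomial.coeff (Finsupp.single a 1)) hab
  have key : ∀ α : D → k, MvPolynomial.coeff (Finsupp.single a 1)
      (∑ a, algebraMap k (MvPolynomial D κ) (α a) * MvPolynomial.X a) = algebraMap k κ (α a) := by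
    intro α
    rw [MvPolynomial.coeff_sum, Finset.sum_eq_single a]
    · rw [MvPolynomial.algebraMap_apply, MvPolynomial.coeff_C_mul, MvPolynomial.coeff_X]; simp
    · intro b _ hb
      rw [MvPolynomial.algebraMap_apply, MvPolynomial.coeff_C_mul, MvPolynomial.coeff_X,
        if_neg, mul_zero]
      intro h2
      exact hb (Finsupp.single_left_injective one_ne_zero h2)
    · intro h; exact absurd (Finset.mem_univ a) h
  rw [key, key] at h1
  exact (algebraMap k κ).injective h1

lemma idem_conj {S : Type} [CommRing S] {δ : Matrix (G × E) (D ⊕ M) S}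
    {δ' : Matrix (D ⊕ M) (G × E) S} (h2 : δ' * δ = 1) :
    δ * EE D M S * δ' * (δ * EE D M S * δ') = δ * EE D M S * δ' := by
  calc δ * EE D M S * δ' * (δ * EE D M S * δ')
      = δ * EE D M S * (δ' * δ) * EE D M S * δ' := by simp only [Matrix.mul_assoc]
    _ = δ * (EE D M S * EE D M S) * δ' := by
        rw [h2]; simp only [Matrix.mul_assoc, Matrix.one_mul]
    _ = _ := by rw [EE_mul_EE]

theorem datum_solution (h01 : γ0 * γ0' = 1) (h02 : γ0' * γ0 = 1)
    {γ : Matrix (G × E) (D ⊕ M) k} {γ' : Matrix (D ⊕ M) (G × E) k} {sD : D → G × E}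
    (dat : Datum h ℓ γ0 γ γ' sD) :
    ∃ (P : Matrix (G × E) (G × E) (OO D (Kap G E k))) (v w : G × E → OO D (Kap G E k)),
      P * P = P ∧ P *ᵥ v = v ∧ P * ZZ h ℓ (cS G E D k) P v = ZZ h ℓ (cS G E D k) P v * P ∧
      (∀ s t, PowerSeries.constantCoeff (P s t) =
        algebraMap k (MvPolynomial D (Kap G E k)) ((γ * EE D M k * γ') s t)) ∧
      (∀ s, v s = PowerSeries.X * w s) ∧
      (∀ s, PowerSeries.constantCoeff (w s) = ∑ a, algebraMap k (MvPolynomial D (Kap G E k))
        (γ s (Sum.inl a)) * MvPolynomial.X a) ∧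
      (∀ g, Good h ℓ γ0 γ0' (P.submatrix (tr g) (tr g)) (fun s => v (tr g s))
        (fun a => tr g⁻¹ (sD a))) := by
  have hx : ∀ s, (PowerSeries.X : OO D (Kap G E k)) ∣ x0 (Kap G E k) γ s :=
    fun s => dvd_mul_right _ _
  obtain ⟨P, δ, δ', k1, k2, k3, k4, k5, k6⟩ := sol1 dat (cS G E D k) (x0 (Kap G E k) γ) hx
  have hPP : P * P = P := by
    rw [k3]; exact idem_conj k2
  have hPv : P *ᵥ (P *ᵥ x0 (Kap G E k) γ) = P *ᵥ x0 (Kap G E k) γ := by
    rw [Matrix.mulVec_mulVec, hPP]
  obtain ⟨w, hw1, hw2⟩ := sol3 dat (Kap G E k) P k5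
  refine ⟨P, P *ᵥ x0 (Kap G E k) γ, w, hPP, hPv, k4, k5, hw1, hw2, ?_⟩
  have hyy : ∀ g, yy ℓ (P *ᵥ x0 (Kap G E k) γ) g = PowerSeries.X *
      ∑ s, algebraMap k (OO D (Kap G E k)) (ℓ s) * w (tr g s) := by
    intro g
    simp only [yy, hw1, Finset.mul_sum]
    apply Finset.sum_congr rfl
    intro t _; ring
  have hyc : ∀ g, PowerSeries.constantCoeff
      (∑ s, algebraMap k (OO D (Kap G E k)) (ℓ s) * w (tr g s)) =
      ∑ a, algebraMap k (MvPolynomial D (Kap G E k)) (∑ s, ℓ s * γ (tr g s) (Sum.inl a)) *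
        MvPolynomial.X a := by
    intro g
    rw [map_sum]
    have e1 : ∀ s, PowerSeries.constantCoeff
        (algebraMap k (OO D (Kap G E k)) (ℓ s) * w (tr g s)) =
        ∑ a, algebraMap k (MvPolynomial D (Kap G E k)) (ℓ s * γ (tr g s) (Sum.inl a)) *
          MvPolynomial.X a := by
      intro s
      rw [map_mul, hw2, PowerSeries.algebraMap_apply, PowerSeries.constantCoeff_C, Finset.mul_sum]
      apply Finset.sum_congr rfl
      intro a _
      rw [map_mul]; ring
    simp only [e1]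
    rw [Finset.sum_comm]
    apply Finset.sum_congr rfl
    intro a _
    rw [map_sum, Finset.sum_mul]
  have hyinj : Function.Injective (yy ℓ (P *ᵥ x0 (Kap G E k) γ)) := by
    intro g g' hgg
    rw [hyy, hyy] at hgg
    have h1 := mul_left_cancel₀ PowerSeries.X_ne_zero hgg
    have h2 := congrArg PowerSeries.constantCoeff h1
    rw [hyc, hyc] at h2
    exact dat.linj (lin_inj (R := k) h2)
  have hyne : ∀ g, yy ℓ (P *ᵥ x0 (Kap G E k) γ) g ≠ 0 := by
    intro g h0
    rw [hyy] at h0
    have h1 := (mul_eq_zero.mp h0).resolve_left PowerSeries.X_ne_zero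
    have h2 := congrArg PowerSeries.constantCoeff h1
    rw [hyc, map_zero] at h2
    have h3 : ∑ a, algebraMap k (MvPolynomial D (Kap G E k)) (∑ s, ℓ s * γ (tr g s) (Sum.inl a)) *
        MvPolynomial.X a = ∑ a, algebraMap k (MvPolynomial D (Kap G E k)) ((0 : D → k) a) *
        MvPolynomial.X a := by
      rw [h2]; simp
    exact dat.lne g (lin_inj (R := k) h3)
  intro g
  obtain ⟨W, u, w1, w2, w3⟩ := sol2 h01 h02 g (dat.hcell g) (cS G E D k) P _ δ δ' k1 k2 k3 k4 hPv k6
  refine ⟨⟨W, u, w1, w2, w3⟩, ?_, ?_, ?_⟩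
  · intro a b hab
    rw [yy_tr, yy_tr] at hab
    exact mul_left_cancel (hyinj hab)
  · intro a
    rw [yy_tr]; exact hyne _
  · have e2 : (fun a => (fun s => (P *ᵥ x0 (Kap G E k) γ) (tr g s)) (tr g⁻¹ (sD a))) =
        fun a => (P *ᵥ x0 (Kap G E k) γ) (sD a) := by
      funext a
      simp [tr_tr, tr_one]
    rw [e2]
    apply algInd_of_lead (κ := Kap G E k) _ (fun a => w (sD a)) (fun a => hw1 _)
    intro a
    rw [hw2]
    simp only [dat.hs]
    rw [Finset.sum_eq_single a]
    · simp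
    · intro b _ hb; simp [Ne.symm hb]
    · intro hnot; exact absurd (Finset.mem_univ a) hnot

end Good

end Pool.Agent.Helper198
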