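import Mathlib
import Pool.Agent.Helper198.PartE

set_option autoImplicit false
set_option linter.unusedSectionVars false
set_option linter.unusedSimpArgs false
set_option linter.unusedVariables false

open scoped Matrix

namespace Pool.Agent.Helper198

section Descent

variable {κ K D σ : Type} [Field κ] [Field K] [Algebra κ K]

/-- coefficient extension -/
noncomputable def up (D κ K : Type) [Field κ] [Field K] [Algebra κ K] :
    PowerSeries (MvPolynomial D κ) →+* PowerSeries (MvPolynomial D K) :=
  PowerSeries.map (MvPolynomial.map (algebraMap κ K))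

lemma up_injective : Function.Injective (up D κ K) := by
  intro x y hxy
  ext n
  have h1 := congrArg (PowerSeries.coeff n) hxy
  simp only [up, PowerSeries.coeff_map] at h1
  exact congrArg _ (MvPolynomial.map_injective _ (algebraMap κ K).injective h1)

lemma up_algebraMap (r : κ) : up D κ K (algebraMap κ (PowerSeries (MvPolynomial D κ)) r) =
    algebraMap K (PowerSeries (MvPolynomial D K)) (algebraMap κ K r) := by
  simp [up, PowerSeries.algebraMap_apply, MvPolynomial.algebraMap_apply]

lemma aeval_up (p : σ → PowerSeries (MvPolynomial D κ)) (F : MvPolynomial σ κ) :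
    MvPolynomial.aeval (fun i => up D κ K (p i)) (MvPolynomial.map (algebraMap κ K) F) =
      up D κ K (MvPolynomial.aeval p F) := by
  rw [MvPolynomial.aeval_def, MvPolynomial.eval₂_map, MvPolynomial.aeval_def,
    MvPolynomial.hom_eval₂]
  congr 1
  refine RingHom.ext fun r => ?_
  exact (up_algebraMap r).symm

lemma indep {ι : Type} (b : ι → K) (hb : LinearIndependent κ b) (T : Finset ι)
    (y : ι → PowerSeries (MvPolynomial D κ))
    (h : ∑ β ∈ T, algebraMap K (PowerSeries (MvPolynomial D K)) (b β) * up D κ K (y β) = 0) :
    ∀ β ∈ T, y β = 0 := by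
  intro β hβ
  ext n m
  have h1 := congrArg (fun z => MvPolynomial.coeff m (PowerSeries.coeff n z)) h
  simp only [map_sum, map_zero, MvPolynomial.coeff_zero, MvPolynomial.coeff_sum] at h1
  have h2 : ∑ β ∈ T, (MvPolynomial.coeff m (PowerSeries.coeff n (y β))) • b β = 0 := by
    rw [← h1]
    apply Finset.sum_congr rfl
    intro γ _
    rw [PowerSeries.algebraMap_apply, PowerSeries.coeff_C_mul, MvPolynomial.algebraMap_apply,
      MvPolynomial.coeff_C_mul]
    simp only [up, PowerSeries.coeff_map, MvPolynomial.coeff_map, Algebra.smul_def,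
      Algebra.algebraMap_self, RingHom.id_apply]
    ring
  have h3 := linearIndependent_iff'.mp hb T _ h2 β hβ
  rw [h3]; simp

theorem descent (p q : σ → PowerSeries (MvPolynomial D κ))
    (hpq : ∀ F : MvPolynomial σ κ, MvPolynomial.aeval p F = 0 → MvPolynomial.aeval q F = 0)
    (F : MvPolynomial σ K) (hF : MvPolynomial.aeval (fun i => up D κ K (p i)) F = 0) :
    MvPolynomial.aeval (fun i => up D κ K (q i)) F = 0 := by
  classical
  let b := Module.Basis.ofVectorSpace κ K
  let Fb : Module.Basis.ofVectorSpaceIndex κ K → MvPolynomial σ κ := fun β =>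
    ∑ m ∈ F.support, MvPolynomial.monomial m (b.repr (F.coeff m) β)
  let T := F.support.biUnion fun m => (b.repr (F.coeff m)).support
  have hdec : F = ∑ β ∈ T, MvPolynomial.C (b β) * MvPolynomial.map (algebraMap κ K) (Fb β) := by
    ext m
    rw [MvPolynomial.coeff_sum]
    simp only [MvPolynomial.coeff_C_mul, MvPolynomial.coeff_map]
    have hc : ∀ β, MvPolynomial.coeff m (Fb β) = b.repr (F.coeff m) β := by
      intro β
      simp only [Fb, MvPolynomial.coeff_sum, MvPolynomial.coeff_monomial]
      by_cases hm : m ∈ F.support
      · rw [Finset.sum_eq_single m]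
        · simp
        · intro m' _ hne; rw [if_neg hne]
        · intro hnot; exact absurd hm hnot
      · rw [Finset.sum_eq_zero]
        · rw [MvPolynomial.notMem_support_iff.mp hm]; simp
        · intro m' hm'
          rw [if_neg]
          rintro rfl
          exact hm hm'
    simp only [hc]
    have h1 := b.linearCombination_repr (F.coeff m)
    rw [Finsupp.linearCombination_apply, Finsupp.sum] at h1
    by_cases hm : m ∈ F.support
    · conv_lhs => rw [← h1]
      have hsub : (b.repr (F.coeff m)).support ⊆ T := by
        intro β hβ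
        exact Finset.mem_biUnion.mpr ⟨m, hm, hβ⟩
      rw [Finset.sum_subset hsub]
      · apply Finset.sum_congr rfl
        intro β _
        rw [Algebra.smul_def, mul_comm]
      · intro β _ hβ
        rw [Finsupp.notMem_support_iff.mp hβ, zero_smul]
    · rw [MvPolynomial.notMem_support_iff.mp hm]
      symm
      apply Finset.sum_eq_zero
      intro β _
      simp
  have hev : ∀ r : σ → PowerSeries (MvPolynomial D κ),
      MvPolynomial.aeval (fun i => up D κ K (r i)) F =
      ∑ β ∈ T, algebraMap K (PowerSeries (MvPolynomial D K)) (b β) *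
        up D κ K (MvPolynomial.aeval r (Fb β)) := by
    intro r
    conv_lhs => rw [hdec]
    rw [map_sum]
    apply Finset.sum_congr rfl
    intro β _
    rw [map_mul, aeval_up]
    congr 1
    exact MvPolynomial.algHom_C _ _
  rw [hev] at hF
  have hz := indep b b.linearIndependent T _ hF
  rw [hev]
  apply Finset.sum_eq_zero
  intro β hβ
  rw [hpq _ (hz β hβ), map_zero, mul_zero]

lemma not_algInd_up {ι : Type} (y : ι → PowerSeries (MvPolynomial D κ))
    (h : ¬ AlgebraicIndependent κ y) : ¬ AlgebraicIndependent K (fun i => up D κ K (y i)) := by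
  intro hK
  apply h
  rw [algebraicIndependent_iff] at hK ⊢
  intro F hF
  have h1 := hK (MvPolynomial.map (algebraMap κ K) F) (by rw [aeval_up, hF, map_zero])
  exact MvPolynomial.map_injective _ (algebraMap κ K).injective (by rw [h1, map_zero])

end Descent

end Pool.Agent.Helper198
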