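import Mathlib
import Pool.Agent.Helper198.PartF

set_option autoImplicit false
set_option linter.unusedSectionVars false
set_option linter.unusedSimpArgs false
set_option linter.unusedVariables false

open scoped Matrix

namespace Pool.Agent.Helper198

section PointDer

variable {k K R : Type} [Field k] [Field K] [CommRing R] [Algebra K R] [Algebra k K] [Algebra k R]
  [IsScalarTower k K R]

/-- point derivations -/
def tangentSpace (x : R →ₐ[K] K) : Submodule K (R →ₗ[K] K) where
  carrier := {d | ∀ f g, d (f * g) = x f * d g + x g * d f}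
  add_mem' := by
    intro a b ha hb f g
    simp only [LinearMap.add_apply, ha f g, hb f g]; ring
  zero_mem' := by intro f g; simp
  smul_mem' := by
    intro c a ha f g
    simp only [LinearMap.smul_apply, ha f g, smul_eq_mul]; ring

variable {x : R →ₐ[K] K} {d : R →ₗ[K] K} (hd : d ∈ tangentSpace x)

include hd in
lemma der_mul (f g : R) : d (f * g) = x f * d g + x g * d f := hd f g

include hd in
lemma der_one : d 1 = 0 := by
  have h1 := der_mul hd 1 1
  have hx : x 1 = 1 := map_one x
  rw [mul_one, hx] at h1
  linear_combination -h1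

include hd in
lemma der_algebraMap (r : K) : d (algebraMap K R r) = 0 := by
  rw [Algebra.algebraMap_eq_smul_one, map_smul, der_one hd, smul_zero]

include hd in
lemma der_mul_zero {f g : R} (hf : x f = 0) (hg : x g = 0) : d (f * g) = 0 := by
  rw [der_mul hd, hf, hg]; simp

include hd in
lemma der_aeval {h : Polynomial k} {a : R} {a0 : k} (ha : x a = algebraMap k K a0)
    (hh : (Polynomial.derivative h).eval a0 = 0) : d (Polynomial.aeval a h) = 0 := by
  have e1 : ∀ z : R, Polynomial.aeval z h = (h.map (algebraMap k R)).eval z := fun z => by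
    rw [Polynomial.eval_map_algebraMap]
  obtain ⟨r, hr⟩ := (h.map (algebraMap k R)).binomExpansion (algebraMap k R a0)
    (a - algebraMap k R a0)
  rw [add_sub_cancel] at hr
  have h2 : (h.map (algebraMap k R)).derivative.eval (algebraMap k R a0) = 0 := by
    rw [Polynomial.derivative_map, Polynomial.eval_map_algebraMap,
      Polynomial.aeval_algebraMap_apply, Polynomial.aeval_def, Polynomial.eval₂_eq_eval_map]
    simp [hh]
  rw [h2, zero_mul, add_zero] at hr
  rw [e1, hr, map_add]
  have h3 : (h.map (algebraMap k R)).eval (algebraMap k R a0) =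
      algebraMap K R (algebraMap k K (h.eval a0)) := by
    rw [← IsScalarTower.algebraMap_apply, Polynomial.eval_map_algebraMap,
      Polynomial.aeval_algebraMap_apply, Polynomial.aeval_def, Polynomial.eval₂_eq_eval_map]
    simp
  rw [h3, der_algebraMap hd, zero_add]
  have hx : x (a - algebraMap k R a0) = 0 := by
    rw [map_sub, ha, IsScalarTower.algebraMap_apply k K R, AlgHom.commutes]
    simp
  rw [pow_two, ← mul_assoc]
  exact der_mul_zero hd (by rw [map_mul, hx, mul_zero]) hx

end PointDer

section PointMat

variable {G E D M : Type} [Group G] [Fintype G] [DecidableEq G] [Fintype E] [DecidableEq E]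
  [Fintype D] [DecidableEq D] [Fintype M] [DecidableEq M]
variable {k K R : Type} [Field k] [Field K] [CommRing R] [Algebra K R] [Algebra k K] [Algebra k R]
  [IsScalarTower k K R]
variable {x : R →ₐ[K] K} {d : R →ₗ[K] K} (hd : d ∈ tangentSpace x)

include hd in
lemma der_matmul {l m n : Type} [Fintype m] (A : Matrix l m R) (B : Matrix m n R) :
    (A * B).map d = A.map x * B.map d + A.map d * B.map x := by
  ext i j
  simp only [Matrix.map_apply, Matrix.mul_apply, map_sum, Matrix.add_apply, der_mul hd]
  rw [← Finset.sum_add_distrib]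
  apply Finset.sum_congr rfl
  intro t _
  ring

include hd in
lemma der_mulVec {l m : Type} [Fintype m] (A : Matrix l m R) (v : m → R) (i : l) :
    d ((A *ᵥ v) i) = ∑ t, (x (A i t) * d (v t) + x (v t) * d (A i t)) := by
  simp only [Matrix.mulVec, dotProduct, map_sum, der_mul hd]

variable [CharZero K]

/-- point derivations kill the matrix entries at a base point -/
theorem der_P_zero {h : Polynomial k} {ℓ : G × E → k} {c : Param G E → R}
    {P : Matrix (G × E) (G × E) R} {v : G × E → R} {P0 : Matrix (G × E) (G × E) k}
    (he : ∀ s t, h.eval (P0 s t) = P0 s t)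
    (hh : ∀ s t, (Polynomial.derivative h).eval (P0 s t) = 0)
    (hPP : P * P = P) (hZ : P * ZZ h ℓ c P v = ZZ h ℓ c P v * P)
    (hxP : ∀ s t, x (P s t) = algebraMap k K (P0 s t)) (hxv : ∀ s, x (v s) = 0)
    (hd : d ∈ tangentSpace x) : P.map d = 0 := by
  have hyy : ∀ g, x (yy ℓ v g) = 0 := by
    intro g
    simp only [yy, map_sum, map_mul, hxv, mul_zero, Finset.sum_const_zero]
  have heps : (eps ℓ c v).map d = 0 := by
    ext s t
    simp only [eps, Matrix.map_apply, Matrix.of_apply, map_sum, Matrix.zero_apply]
    apply Finset.sum_eq_zero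
    intro q _
    rw [pow_succ, ← mul_assoc]
    apply der_mul_zero hd
    · rw [map_mul, map_pow, hyy]; simp
    · exact hyy _
  have heps0 : (eps ℓ c v).map x = 0 := by
    ext s t
    simp only [eps, Matrix.map_apply, Matrix.of_apply, map_sum, Matrix.zero_apply]
    apply Finset.sum_eq_zero
    intro q _
    rw [map_mul, map_pow, hyy]; simp
  have hhm : (hm h P).map d = 0 := by
    ext s t
    simp only [hm, Matrix.map_apply, Matrix.zero_apply]
    exact der_aeval hd (hxP s t) (hh s t)
  have hPx : P.map x = P0.map (algebraMap k K) := by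
    ext s t; exact hxP s t
  have hhm0 : (hm h P).map x = P.map x := by
    ext s t
    simp only [hm, Matrix.map_apply]
    have h1 : x (Polynomial.aeval (P s t) h) = Polynomial.aeval (x (P s t)) h := by
      have := Polynomial.aeval_algHom_apply (x.restrictScalars k) (P s t) h
      exact this.symm
    rw [h1, hxP, Polynomial.aeval_algebraMap_apply, Polynomial.aeval_def,
      Polynomial.eval₂_eq_eval_map]
    simp [he s t]
  have hZd : (ZZ h ℓ c P v).map d = 0 := by
    unfold ZZ
    rw [Matrix.map_add _ (map_add d), hhm, heps, add_zero]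
  have hZx : (ZZ h ℓ c P v).map x = P.map x := by
    unfold ZZ
    rw [Matrix.map_add _ (map_add x), hhm0, heps0, add_zero]
  have e1 : P.map d = P.map x * P.map d + P.map d * P.map x := by
    conv_lhs => rw [← hPP]
    exact der_matmul hd P P
  have e2 : P.map d * P.map x = P.map x * P.map d := by
    have l := der_matmul hd P (ZZ h ℓ c P v)
    have r := der_matmul hd (ZZ h ℓ c P v) P
    rw [hZd, hZx] at l r
    rw [Matrix.mul_zero, zero_add] at l
    rw [Matrix.zero_mul, add_zero] at r
    rw [← l, ← r, hZ]
  have e3 : P.map x * P.map x = P.map x := by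
    rw [← Matrix.map_mul, hPP]
  have e4 : P.map x * P.map d = 0 := by
    have h5 : P.map x * P.map d = P.map x * P.map d + P.map x * P.map d := by
      conv_lhs => rw [e1]
      rw [Matrix.mul_add, ← Matrix.mul_assoc, e3, e2, ← Matrix.mul_assoc, e3]
    have := add_eq_left.mp h5.symm
    exact this
  rw [e1, e2, e4, add_zero]

/-- point derivations send the vector to the image of the base idempotent -/
theorem der_v_fixed {P : Matrix (G × E) (G × E) R} {v : G × E → R}
    {P0 : Matrix (G × E) (G × E) k} (hPv : P *ᵥ v = v)
    (hxP : ∀ s t, x (P s t) = algebraMap k K (P0 s t)) (hxv : ∀ s, x (v s) = 0)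
    (hd : d ∈ tangentSpace x) (s : G × E) :
    d (v s) = ∑ t, algebraMap k K (P0 s t) * d (v t) := by
  conv_lhs => rw [← hPv]
  rw [der_mulVec hd]
  apply Finset.sum_congr rfl
  intro t _
  rw [hxP, hxv]; ring

end PointMat

end Pool.Agent.Helper198
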