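import Mathlib
import Pool.Agent.Helper198.PartG

set_option autoImplicit false
set_option linter.unusedSectionVars false
set_option linter.unusedSimpArgs false
set_option linter.unusedVariables false

open scoped Matrix

namespace Pool.Agent.Helper198

section Dim

theorem ringKrullDim_eq_of_integral {A B : Type} [CommRing A] [CommRing B] [Algebra A B]
    [Algebra.IsIntegral A B] (hinj : Function.Injective (algebraMap A B)) :
    ringKrullDim B = ringKrullDim A := by
  apply le_antisymm
  · apply Order.krullDim_le_of_strictMono (PrimeSpectrum.comap (algebraMap A B))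
    intro I J hIJ
    have h1 : I.asIdeal < J.asIdeal := hIJ
    have h2 := Ideal.IsIntegral.comap_lt_comap (R := A) (I_lt_J := h1)
    exact h2
  · unfold ringKrullDim Order.krullDim
    apply iSup_le
    intro l
    have hker : RingHom.ker (algebraMap A B) ≤ l.head.asIdeal := by
      rw [(RingHom.injective_iff_ker_eq_bot _).mp hinj]; exact bot_le
    obtain ⟨Q, hQ1, hQ2⟩ := Ideal.exists_ideal_over_prime_of_isIntegral l.head.asIdeal
      (⊥ : Ideal B) (by
        rw [Ideal.comap_bot_of_injective _ hinj]; exact bot_le)
    obtain ⟨hQp, hQ3⟩ := hQ2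
    have : Q.LiesOver l.head.asIdeal := ⟨hQ3.symm⟩
    obtain ⟨L, hL1, -, -⟩ := Ideal.exists_ltSeries_of_hasGoingUp l Q
    rw [← hL1]
    exact le_iSup (fun p : LTSeries (PrimeSpectrum B) => (p.length : WithBot ℕ∞)) L

theorem ringKrullDim_of_basis {K R D : Type} [Field K] [CommRing R] [IsDomain R] [Algebra K R]
    [Algebra.FiniteType K R] [Fintype D] (b : D → R) (hb : IsTranscendenceBasis K b) :
    ringKrullDim R = (Fintype.card D : WithBot ℕ∞) := by
  obtain ⟨s, g, hg1, hg2⟩ := exists_integral_inj_algHom_of_fg K R
  let : Algebra (MvPolynomial (Fin s) K) R := g.toRingHom.toAlgebra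
  have : Algebra.IsIntegral (MvPolynomial (Fin s) K) R := ⟨hg2⟩
  have : IsScalarTower K (MvPolynomial (Fin s) K) R := IsScalarTower.of_algebraMap_eq' (by
    refine RingHom.ext fun r => ?_
    exact (g.commutes r).symm)
  have h1 : ringKrullDim R = ringKrullDim (MvPolynomial (Fin s) K) :=
    ringKrullDim_eq_of_integral hg1
  have h2 : IsTranscendenceBasis K (fun i : Fin s => g (MvPolynomial.X i)) := by
    have h3 : AlgebraicIndependent K (fun i : Fin s => g (MvPolynomial.X i)) := by
      have := MvPolynomial.algebraicIndependent_X (Fin s) K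
      exact this.map' hg1
    rw [h3.isTranscendenceBasis_iff_isAlgebraic]
    have h4 : Algebra.adjoin K (Set.range fun i : Fin s => g (MvPolynomial.X i)) = g.range := by
      rw [Algebra.adjoin_range_eq_range_aeval]
      congr 1
      apply MvPolynomial.algHom_ext
      intro i; simp
    constructor
    intro r
    obtain ⟨p, hp1, hp2⟩ := hg2 r
    rw [h4]
    have : IsIntegral g.range r := by
      refine ⟨p.map g.rangeRestrict.toRingHom, hp1.map _, ?_⟩
      rw [Polynomial.eval₂_map]
      exact hp2
    exact this.isAlgebraic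
  have h5 := hb.cardinalMk_eq_trdeg
  have h6 := h2.cardinalMk_eq_trdeg
  have h7 : (s : Cardinal) = Fintype.card D := by
    rw [← Cardinal.mk_fintype, h5, ← h6, Cardinal.mk_fin]
  have h8 : s = Fintype.card D := by exact_mod_cast h7
  rw [h1, MvPolynomial.ringKrullDim_of_isNoetherianRing, ringKrullDim_eq_zero_of_field, zero_add,
    Nat.card_fin, h8]

end Dim

end Pool.Agent.Helper198
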