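import Mathlib
import Pool.Agent.Helper198.PartG

set_option autoImplicit false
set_option linter.unusedSectionVars false
set_option linter.unusedSimpArgs false
set_option linter.unusedVariables false

open scoped Matrix

namespace Pool.Agent.Helper198

section AbstractRing

variable {K O σ G I : Type} [Field K] [CommRing O] [IsDomain O] [Algebra K O] [Group G]

theorem abstract_ring (τ : G → σ → σ) (hτ1 : τ 1 = id) (hτ : ∀ g h, τ (g * h) = τ g ∘ τ h)
    (q : I → σ → O)
    (HK : ∀ i j g (F : MvPolynomial σ K), MvPolynomial.aeval (fun s => q i (τ g s)) F = 0 ↔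
      MvPolynomial.aeval (q j) F = 0) (i0 : I) [Finite σ] :
    ∃ (R : Type) (_ : CommRing R) (_ : IsDomain R) (_ : Algebra K R) (_ : Algebra.FiniteType K R)
      (X : σ → R) (α : G →* (R ≃ₐ[K] R)) (φ : I → (R →ₐ[K] O)),
      Algebra.adjoin K (Set.range X) = ⊤ ∧ (∀ g s, α g (X s) = X (τ g s)) ∧
      (∀ i s, φ i (X s) = q i s) ∧ (∀ i, Function.Injective (φ i)) := by
  let J : Ideal (MvPolynomial σ K) := RingHom.ker (MvPolynomial.aeval (R := K) (q i0))
  have HK1 : ∀ i j (F : MvPolynomial σ K), MvPolynomial.aeval (q i) F = 0 ↔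
      MvPolynomial.aeval (q j) F = 0 := by
    intro i j F
    have := HK i j 1 F
    rw [hτ1] at this
    exact this
  have hJ : ∀ F : MvPolynomial σ K, F ∈ J ↔ MvPolynomial.aeval (q i0) F = 0 := fun F =>
    RingHom.mem_ker
  have hJp : J.IsPrime := RingHom.ker_isPrime _
  let φ : I → ((MvPolynomial σ K ⧸ J) →ₐ[K] O) := fun i =>
    Ideal.Quotient.liftₐ J (MvPolynomial.aeval (q i)) (fun F hF => (HK1 i0 i F).1 ((hJ F).1 hF))
  have hφ : ∀ i F, φ i (Ideal.Quotient.mk J F) = MvPolynomial.aeval (q i) F := by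
    intro i F
    exact Ideal.Quotient.liftₐ_apply J _ _ _
  have hβ0 : ∀ g, ∀ F ∈ J, ((Ideal.Quotient.mkₐ K J).comp (MvPolynomial.rename (τ g))) F = 0 := by
    intro g F hF
    rw [AlgHom.comp_apply, Ideal.Quotient.mkₐ_eq_mk, Ideal.Quotient.eq_zero_iff_mem, hJ,
      MvPolynomial.aeval_rename]
    exact (HK i0 i0 g F).2 ((hJ F).1 hF)
  let β : G → ((MvPolynomial σ K ⧸ J) →ₐ[K] (MvPolynomial σ K ⧸ J)) := fun g =>
    Ideal.Quotient.liftₐ J ((Ideal.Quotient.mkₐ K J).comp (MvPolynomial.rename (τ g))) (hβ0 g)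
  have hβ : ∀ g F, β g (Ideal.Quotient.mk J F) =
      Ideal.Quotient.mk J (MvPolynomial.rename (τ g) F) := by
    intro g F
    exact Ideal.Quotient.liftₐ_apply J _ _ _
  let α0 : G →* ((MvPolynomial σ K ⧸ J) →ₐ[K] (MvPolynomial σ K ⧸ J)) :=
    { toFun := β
      map_one' := by
        apply Ideal.Quotient.algHom_ext
        apply MvPolynomial.algHom_ext
        intro s
        simp only [AlgHom.comp_apply, Ideal.Quotient.mkₐ_eq_mk, hβ, MvPolynomial.rename_X, hτ1,
          AlgHom.one_apply, id]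
      map_mul' := by
        intro g g'
        apply Ideal.Quotient.algHom_ext
        apply MvPolynomial.algHom_ext
        intro s
        simp only [AlgHom.comp_apply, Ideal.Quotient.mkₐ_eq_mk, AlgHom.mul_apply, hβ,
          MvPolynomial.rename_X, hτ, Function.comp_apply] }
  have hα0 : ∀ g F, α0 g (Ideal.Quotient.mk J F) =
      Ideal.Quotient.mk J (MvPolynomial.rename (τ g) F) := hβ
  let α : G →* ((MvPolynomial σ K ⧸ J) ≃ₐ[K] (MvPolynomial σ K ⧸ J)) :=
    (AlgEquiv.algHomUnitsEquiv K (MvPolynomial σ K ⧸ J)).toMonoidHom.comp (MonoidHom.toHomUnits α0)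
  have hα : ∀ g f, α g f = α0 g f := by
    intro g f
    rfl
  refine ⟨MvPolynomial σ K ⧸ J, inferInstance, inferInstance, inferInstance, ?_,
    fun s => Ideal.Quotient.mk J (MvPolynomial.X s), α, φ, ?_, ?_, ?_, ?_⟩
  · exact Algebra.FiniteType.of_surjective (Ideal.Quotient.mkₐ K J)
      (Ideal.Quotient.mkₐ_surjective K J)
  · have h1 : Set.range (fun s => Ideal.Quotient.mk J (MvPolynomial.X s)) =
        (Ideal.Quotient.mkₐ K J) '' (Set.range MvPolynomial.X) := by
      rw [← Set.range_comp]; rfl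
    rw [h1, ← AlgHom.map_adjoin, MvPolynomial.adjoin_range_X, Algebra.map_top,
      AlgHom.range_eq_top]
    exact Ideal.Quotient.mkₐ_surjective K J
  · intro g s
    rw [hα, hα0, MvPolynomial.rename_X]
  · intro i s
    rw [hφ, MvPolynomial.aeval_X]
  · intro i
    rw [injective_iff_map_eq_zero]
    intro f hf
    obtain ⟨F, rfl⟩ := Ideal.Quotient.mk_surjective f
    rw [hφ] at hf
    rw [Ideal.Quotient.eq_zero_iff_mem, hJ]
    exact (HK1 i i0 F).1 hf

end AbstractRing

section Eval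

/-- evaluation of the constant coefficient -/
noncomputable def ev (D K : Type) [Field K] (ξ : D → K) : OO D K →ₐ[K] K where
  toRingHom := (MvPolynomial.aeval ξ : MvPolynomial D K →ₐ[K] K).toRingHom.comp
    (PowerSeries.constantCoeff)
  commutes' := by
    intro r
    have h1 : algebraMap K (OO D K) r = PowerSeries.C (MvPolynomial.C r) := by
      rw [PowerSeries.algebraMap_apply]; rfl
    simp [h1]

/-- evaluation of the linear coefficient -/
noncomputable def ev1 (D K : Type) [Field K] (ξ : D → K) : OO D K →ₗ[K] K where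
  toFun f := MvPolynomial.aeval ξ (PowerSeries.coeff 1 f)
  map_add' := by intro f g; simp
  map_smul' := by
    intro r f
    have h1 : r • f = PowerSeries.C (MvPolynomial.C r) * f := by
      rw [Algebra.smul_def, PowerSeries.algebraMap_apply]; rfl
    rw [h1, PowerSeries.coeff_C_mul]
    simp

lemma ev_apply {D K : Type} [Field K] (ξ : D → K) (f : OO D K) :
    ev D K ξ f = MvPolynomial.aeval ξ (PowerSeries.constantCoeff f) := rfl

lemma ev1_apply {D K : Type} [Field K] (ξ : D → K) (f : OO D K) :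
    ev1 D K ξ f = MvPolynomial.aeval ξ (PowerSeries.coeff 1 f) := rfl

lemma ev1_mul {D K : Type} [Field K] (ξ : D → K) (f g : OO D K) :
    ev1 D K ξ (f * g) = ev D K ξ f * ev1 D K ξ g + ev D K ξ g * ev1 D K ξ f := by
  rw [ev1_apply, PowerSeries.coeff_one_mul, map_add, map_mul, map_mul]
  simp only [ev_apply, ev1_apply]
  ring

end Eval

section Concrete

variable {G E D M : Type} [Group G] [Fintype G] [DecidableEq G] [Fintype E] [DecidableEq E]
  [Fintype D] [DecidableEq D] [Fintype M] [DecidableEq M]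
variable {k K : Type} [Field k] [Field K] [Algebra k K] [Algebra (Kap G E k) K]
  [IsScalarTower k (Kap G E k) K]

/-- index set of the generators -/
abbrev Sg (G E : Type) : Type := ((G × E) × (G × E)) ⊕ (G × E)

/-- action of the group on the generators -/
def trS (g : G) : Sg G E → Sg G E := Sum.map (Prod.map (tr g) (tr g)) (tr g)

lemma trS_one : (trS (1 : G) : Sg G E → Sg G E) = id := by
  funext s
  rcases s with ⟨a, b⟩ | a <;> simp [trS, tr_one]

lemma trS_mul (g g' : G) : (trS (g * g') : Sg G E → Sg G E) = trS g ∘ trS g' := by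
  funext s
  rcases s with ⟨a, b⟩ | a <;> simp [trS, tr_tr]

/-- the generators of a solution -/
def pq {S : Type} (P : Matrix (G × E) (G × E) S) (v : G × E → S) : Sg G E → S :=
  Sum.elim (fun p => P p.1 p.2) v

lemma pq_tr {S : Type} (P : Matrix (G × E) (G × E) S) (v : G × E → S) (g : G) :
    (fun s => pq P v (trS g s)) = pq (P.submatrix (tr g) (tr g)) (fun s => v (tr g s)) := by
  funext s
  rcases s with ⟨a, b⟩ | a <;> rfl

/-- coefficient extension as an algebra homomorphism -/
noncomputable def upA (G E D k K : Type) [Fintype G] [Field k] [Field K] [Algebra k K]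
    [Algebra (Kap G E k) K] [IsScalarTower k (Kap G E k) K] : OO D (Kap G E k) →ₐ[k] OO D K where
  toRingHom := up D (Kap G E k) K
  commutes' := by
    intro r
    have h1 : algebraMap k (OO D (Kap G E k)) r = algebraMap (Kap G E k) (OO D (Kap G E k))
        (algebraMap k (Kap G E k) r) := IsScalarTower.algebraMap_apply _ _ _ _
    have h2 : algebraMap k (OO D K) r = algebraMap K (OO D K) (algebraMap k K r) :=
      IsScalarTower.algebraMap_apply _ _ _ _
    rw [h1, h2, IsScalarTower.algebraMap_apply k (Kap G E k) K]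
    exact up_algebraMap _

lemma upA_apply (f : OO D (Kap G E k)) : upA G E D k K f = up D (Kap G E k) K f := rfl

/-- a solution of the equations at a base point -/
structure Sol (h : Polynomial k) (ℓ : G × E → k) (γ0 : Matrix (G × E) (D ⊕ M) k)
    (γ0' : Matrix (D ⊕ M) (G × E) k) (γ : Matrix (G × E) (D ⊕ M) k)
    (γ' : Matrix (D ⊕ M) (G × E) k) (sD : D → G × E)
    (P : Matrix (G × E) (G × E) (OO D (Kap G E k))) (v w : G × E → OO D (Kap G E k)) : Prop where
  PP : P * P = P
  Pv : P *ᵥ v = v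
  PZ : P * ZZ h ℓ (cS G E D k) P v = ZZ h ℓ (cS G E D k) P v * P
  P0 : ∀ s t, PowerSeries.constantCoeff (P s t) =
        algebraMap k (MvPolynomial D (Kap G E k)) ((γ * EE D M k * γ') s t)
  vw : ∀ s, v s = PowerSeries.X * w s
  w0 : ∀ s, PowerSeries.constantCoeff (w s) = ∑ a, algebraMap k (MvPolynomial D (Kap G E k))
        (γ s (Sum.inl a)) * MvPolynomial.X a
  good : ∀ g, Good h ℓ γ0 γ0' (P.submatrix (tr g) (tr g)) (fun s => v (tr g s))
        (fun a => tr g⁻¹ (sD a))

variable {h : Polynomial k} {ℓ : G × E → k} {γ0 : Matrix (G × E) (D ⊕ M) k}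
    {γ0' : Matrix (D ⊕ M) (G × E) k}

theorem sol_exists (h01 : γ0 * γ0' = 1) (h02 : γ0' * γ0 = 1)
    {γ : Matrix (G × E) (D ⊕ M) k} {γ' : Matrix (D ⊕ M) (G × E) k} {sD : D → G × E}
    (dat : Datum h ℓ γ0 γ γ' sD) : ∃ P v w, Sol h ℓ γ0 γ0' γ γ' sD P v w := by
  obtain ⟨P, v, w, a1, a2, a3, a4, a5, a6, a7⟩ := datum_solution h01 h02 dat
  exact ⟨P, v, w, ⟨a1, a2, a3, a4, a5, a6, a7⟩⟩

theorem sol_ker (hcard : Fintype.card (G × E) = Fintype.card (D ⊕ M))
    {γ1 γ2 : Matrix (G × E) (D ⊕ M) k} {γ1' γ2' : Matrix (D ⊕ M) (G × E) k} {s1 s2 : D → G × E}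
    {P1 P2 : Matrix (G × E) (G × E) (OO D (Kap G E k))}
    {v1 v2 w1 w2 : G × E → OO D (Kap G E k)}
    (S1 : Sol h ℓ γ0 γ0' γ1 γ1' s1 P1 v1 w1) (S2 : Sol h ℓ γ0 γ0' γ2 γ2' s2 P2 v2 w2)
    (g g' : G) (F : MvPolynomial (Sg G E) K)
    (hF : MvPolynomial.aeval (fun s => upA G E D k K (pq P1 v1 (trS g s))) F = 0) :
    MvPolynomial.aeval (fun s => upA G E D k K (pq P2 v2 (trS g' s))) F = 0 := by
  refine descent (fun s => pq P1 v1 (trS g s)) (fun s => pq P2 v2 (trS g' s)) ?_ F hF
  intro F0 hF0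
  rw [pq_tr] at hF0 ⊢
  exact good_ker hcard (S1.good g) (S2.good g') F0 hF0

lemma const_up {κ K D : Type} [Field κ] [Field K] [Algebra κ K]
    (f : PowerSeries (MvPolynomial D κ)) : PowerSeries.constantCoeff (up D κ K f) =
    MvPolynomial.map (algebraMap κ K) (PowerSeries.constantCoeff f) := by
  rw [← PowerSeries.coeff_zero_eq_constantCoeff_apply, up, PowerSeries.coeff_map,
    PowerSeries.coeff_zero_eq_constantCoeff_apply]

lemma ev_P {γ : Matrix (G × E) (D ⊕ M) k} {γ' : Matrix (D ⊕ M) (G × E) k} {sD : D → G × E}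
    {P : Matrix (G × E) (G × E) (OO D (Kap G E k))} {v w : G × E → OO D (Kap G E k)}
    (S : Sol h ℓ γ0 γ0' γ γ' sD P v w) (ξ : D → K) (s t : G × E) :
    ev D K ξ (upA G E D k K (P s t)) = algebraMap k K ((γ * EE D M k * γ') s t) := by
  rw [ev_apply, upA_apply, const_up, S.P0,
    IsScalarTower.algebraMap_apply k (Kap G E k) (MvPolynomial D (Kap G E k)),
    MvPolynomial.algebraMap_eq, MvPolynomial.map_C, MvPolynomial.aeval_C,
    ← IsScalarTower.algebraMap_apply k (Kap G E k) K]
  rfl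

lemma ev_v {γ : Matrix (G × E) (D ⊕ M) k} {γ' : Matrix (D ⊕ M) (G × E) k} {sD : D → G × E}
    {P : Matrix (G × E) (G × E) (OO D (Kap G E k))} {v w : G × E → OO D (Kap G E k)}
    (S : Sol h ℓ γ0 γ0' γ γ' sD P v w) (ξ : D → K) (s : G × E) :
    ev D K ξ (upA G E D k K (v s)) = 0 := by
  rw [ev_apply, upA_apply, const_up, S.vw, map_mul,
    PowerSeries.constantCoeff_X]
  simp

lemma ev1_v {γ : Matrix (G × E) (D ⊕ M) k} {γ' : Matrix (D ⊕ M) (G × E) k} {sD : D → G × E}
    {P : Matrix (G × E) (G × E) (OO D (Kap G E k))} {v w : G × E → OO D (Kap G E k)}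
    (S : Sol h ℓ γ0 γ0' γ γ' sD P v w) (ξ : D → K) (s : G × E) :
    ev1 D K ξ (upA G E D k K (v s)) = ∑ a, algebraMap k K (γ s (Sum.inl a)) * ξ a := by
  have h1 : PowerSeries.coeff 1 (v s) = PowerSeries.constantCoeff (w s) := by
    rw [S.vw, PowerSeries.coeff_one_mul]; simp
  rw [ev1_apply, upA_apply, up, PowerSeries.coeff_map, h1, S.w0, map_sum, map_sum]
  apply Finset.sum_congr rfl
  intro a _
  rw [map_mul, map_mul, IsScalarTower.algebraMap_apply k (Kap G E k) (MvPolynomial D (Kap G E k)),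
    MvPolynomial.algebraMap_eq, MvPolynomial.map_C, MvPolynomial.aeval_C,
    ← IsScalarTower.algebraMap_apply k (Kap G E k) K, MvPolynomial.map_X, MvPolynomial.aeval_X]
  rfl

end Concrete

end Pool.Agent.Helper198
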