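import Mathlib
import Pool.Agent.Helper198.PartH
import Pool.Agent.Helper198.PartI

set_option autoImplicit false
set_option linter.unusedSectionVars false
set_option linter.unusedSimpArgs false
set_option linter.unusedVariables false

open scoped Matrix

namespace Pool.Agent.Helper198

section Basis

theorem basis_of_dep {K R σ D : Type} [Field K] [CommRing R] [IsDomain R] [Algebra K R]
    (X : σ → R) (hX : Algebra.adjoin K (Set.range X) = ⊤) (b : D → R)
    (hb : AlgebraicIndependent K b)
    (hdep : ∀ s, ¬ AlgebraicIndependent K (fun o : Option D => o.elim (X s) b)) :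
    IsTranscendenceBasis K b := by
  rw [hb.isTranscendenceBasis_iff_isAlgebraic]
  have h1 : ∀ s, IsAlgebraic (Algebra.adjoin K (Set.range b)) (X s) := by
    intro s
    have := hdep s
    rw [hb.option_iff_transcendental] at this
    exact not_not.mp this
  constructor
  intro r
  have hr : r ∈ Algebra.adjoin K (Set.range X) := by rw [hX]; trivial
  induction hr using Algebra.adjoin_induction with
  | mem y hy =>
    obtain ⟨s, rfl⟩ := hy
    exact h1 s
  | algebraMap c =>
    have : algebraMap K R c = algebraMap (Algebra.adjoin K (Set.range b)) R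
        (algebraMap K (Algebra.adjoin K (Set.range b)) c) :=
      IsScalarTower.algebraMap_apply _ _ _ _
    rw [this]
    exact isAlgebraic_algebraMap _
  | add y z _ _ hy hz => exact hy.add hz
  | mul y z _ _ hy hz => exact hy.mul hz

end Basis

section Main

variable {G E D M : Type} [Group G] [Fintype G] [DecidableEq G] [Fintype E] [DecidableEq E]
  [Fintype D] [DecidableEq D] [Fintype M] [DecidableEq M]
variable {k K : Type} [Field k] [Field K] [Algebra k K] [Algebra (Kap G E k) K]
  [IsScalarTower k (Kap G E k) K]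
variable {h : Polynomial k} {ℓ : G × E → k} {γ0 : Matrix (G × E) (D ⊕ M) k}
    {γ0' : Matrix (D ⊕ M) (G × E) k}

/-- the base idempotent as a sum -/
lemma P0_apply (γ : Matrix (G × E) (D ⊕ M) k) (γ' : Matrix (D ⊕ M) (G × E) k) (s t : G × E) :
    (γ * EE D M k * γ') s t = ∑ b : D, γ s (Sum.inl b) * γ' (Sum.inl b) t := by
  have h1 : ∀ x, (γ * EE D M k) s x = Sum.elim (fun b => γ s (Sum.inl b)) (fun _ => 0) x := by
    intro x
    rw [Matrix.mul_apply]
    rcases x with x | x
    · simp [EE, Matrix.fromBlocks, Fintype.sum_sum_type, Matrix.one_apply]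
    · simp [EE, Matrix.fromBlocks, Fintype.sum_sum_type, Matrix.one_apply]
  rw [Matrix.mul_apply]
  simp only [h1, Fintype.sum_sum_type, Sum.elim_inl, Sum.elim_inr, zero_mul,
    Finset.sum_const_zero, add_zero]

theorem ring_main {I : Type} [Nonempty I] [CharZero K]
    (hcard : Fintype.card (G × E) = Fintype.card (D ⊕ M))
    (h01 : γ0 * γ0' = 1) (h02 : γ0' * γ0 = 1)
    (γ : I → Matrix (G × E) (D ⊕ M) k) (γ' : I → Matrix (D ⊕ M) (G × E) k)
    (sD : I → D → G × E) (dat : ∀ i, Datum h ℓ γ0 (γ i) (γ' i) (sD i))
    (H : I → Subgroup G) (ρ : ∀ i, H i → Matrix D D k)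
    (hρ : ∀ i (g : H i) a b, γ i (tr (g : G)⁻¹ (sD i a)) (Sum.inl b) = ρ i g a b)
    (hfix : ∀ i (g : H i) s t, (γ i * EE D M k * γ' i) (tr (g : G) s) (tr (g : G) t) =
      (γ i * EE D M k * γ' i) s t)
    (hdist : ∀ i j, γ i * EE D M k * γ' i = γ j * EE D M k * γ' j → i = j) :
    ∃ (R : Type) (_ : CommRing R) (_ : IsDomain R) (_ : Algebra K R) (_ : Algebra.FiniteType K R)
      (α : G →* (R ≃ₐ[K] R)) (x : I → (R →ₐ[K] K)),
      ringKrullDim R = (Fintype.card D : WithBot ℕ∞) ∧ Function.Injective x ∧
      (∀ i (g : H i) f, x i (α g f) = x i f) ∧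
      ∀ i, ∃ e : tangentSpace (x i) ≃ₗ[K] (D → K), ∀ (g : H i) (d d' : tangentSpace (x i)),
        (∀ f, d'.1 f = d.1 (α (g : G)⁻¹ f)) →
        ∀ a, e d' a = ∑ b, algebraMap k K (ρ i g a b) * e d b := by
  classical
  obtain ⟨i0⟩ := (inferInstance : Nonempty I)
  choose P v w S using fun i => sol_exists h01 h02 (dat i)
  let q : I → Sg G E → OO D K := fun i s => upA G E D k K (pq (P i) (v i) s)
  have HK : ∀ i j g (F : MvPolynomial (Sg G E) K),
      MvPolynomial.aeval (fun s => q i (trS g s)) F = 0 ↔ MvPolynomial.aeval (q j) F = 0 := by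
    intro i j g F
    constructor
    · intro hF
      have := sol_ker hcard (S i) (S j) g 1 F hF
      simpa only [trS_one, id] using this
    · intro hF
      apply sol_ker hcard (S j) (S i) 1 g F
      simpa only [trS_one, id] using hF
  obtain ⟨R, iR1, iR2, iR3, iR4, X, α, φ, hadj, hα, hφ, hinj⟩ :=
    abstract_ring trS trS_one trS_mul q HK i0
  let algk : Algebra k R := ((algebraMap K R).comp (algebraMap k K)).toAlgebra
  have tow : IsScalarTower k K R := IsScalarTower.of_algebraMap_eq' rfl
  let PR : Matrix (G × E) (G × E) R := Matrix.of fun s t => X (Sum.inl (s, t))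
  let vR : G × E → R := fun s => X (Sum.inr s)
  let cR : Param G E → R := fun p => algebraMap K R (algebraMap (Kap G E k) K (c0 G E k p))
  let φk : I → (R →ₐ[k] OO D K) := fun i => (φ i).restrictScalars k
  have hP : ∀ i, PR.map (φk i) = (P i).map (upA G E D k K) := by
    intro i
    ext1 s t
    exact hφ i (Sum.inl (s, t))
  have hv : ∀ i s, φk i (vR s) = upA G E D k K (v i s) := fun i s => hφ i (Sum.inr s)
  have hc : ∀ i p, φk i (cR p) = upA G E D k K (cS G E D k p) := by
    intro i p
    have h1 : φk i (cR p) = algebraMap K (OO D K) (algebraMap (Kap G E k) K (c0 G E k p)) :=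
      (φ i).commutes _
    rw [h1, upA_apply, cS, up_algebraMap]
  have mapinj : ∀ A B : Matrix (G × E) (G × E) R, A.map (φk i0) = B.map (φk i0) → A = B := by
    intro A B hAB
    ext1 s t
    exact hinj i0 (congrFun (congrFun hAB s) t)
  have relPP : PR * PR = PR := by
    apply mapinj
    rw [Matrix.map_mul, hP, ← Matrix.map_mul, (S i0).PP]
  have hvf : (fun s => φk i0 (vR s)) = fun s => upA G E D k K (v i0 s) := funext (hv i0)
  have hcf : (fun s => φk i0 (cR s)) = fun s => upA G E D k K (cS G E D k s) := funext (hc i0)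
  have relZ : PR * ZZ h ℓ cR PR vR = ZZ h ℓ cR PR vR * PR := by
    apply mapinj
    rw [Matrix.map_mul, Matrix.map_mul, ZZ_map, hvf, hcf, hP, ← ZZ_map, ← Matrix.map_mul,
      ← Matrix.map_mul, (S i0).PZ]
  have relPv : PR *ᵥ vR = vR := by
    funext s
    apply hinj i0
    have h1 := RingHom.map_mulVec (φk i0 : R →+* OO D K) PR vR s
    have h2 := RingHom.map_mulVec (upA G E D k K : OO D (Kap G E k) →+* OO D K) (P i0) (v i0) s
    rw [(S i0).Pv] at h2
    have h3 : PR.map (φk i0 : R →+* OO D K) =
      (P i0).map (upA G E D k K : OO D (Kap G E k) →+* OO D K) := hP i0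
    have h4 : (φk i0 : R →+* OO D K) ∘ vR =
      (upA G E D k K : OO D (Kap G E k) →+* OO D K) ∘ (v i0) := funext (hv i0)
    rw [h3, h4, ← h2] at h1
    exact h1.trans (hv i0 s).symm
  let x : I → (R →ₐ[K] K) := fun i => (ev D K 0).comp (φ i)
  have hx : ∀ i (ξ : D → K), (ev D K ξ).comp (φ i) = x i := by
    intro i ξ
    apply AlgHom.ext_of_adjoin_eq_top hadj
    rintro _ ⟨s, rfl⟩
    simp only [x, AlgHom.comp_apply, hφ, q]
    rcases s with ⟨s, t⟩ | s
    · exact (ev_P (S i) ξ s t).trans (ev_P (S i) 0 s t).symm
    · exact (ev_v (S i) ξ s).trans (ev_v (S i) 0 s).symm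
  have hxP : ∀ i s t, x i (PR s t) = algebraMap k K ((γ i * EE D M k * γ' i) s t) := by
    intro i s t
    have h1 : φ i (PR s t) = upA G E D k K (P i s t) := hφ i (Sum.inl (s, t))
    simp only [x, AlgHom.comp_apply, h1]
    exact ev_P (S i) 0 s t
  have hxv : ∀ i s, x i (vR s) = 0 := by
    intro i s
    have h1 : φ i (vR s) = upA G E D k K (v i s) := hφ i (Sum.inr s)
    simp only [x, AlgHom.comp_apply, h1]
    exact ev_v (S i) 0 s
  -- derivations are determined by the values on the coordinates
  have hlin : ∀ i (d : R →ₗ[K] K), d ∈ tangentSpace (x i) → ∀ s, d (vR s) =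
      ∑ b, algebraMap k K (γ i s (Sum.inl b)) * d (vR (sD i b)) := by
    intro i d hd
    have h1 : ∀ s, d (vR s) = ∑ b, algebraMap k K (γ i s (Sum.inl b)) *
        ∑ t, algebraMap k K (γ' i (Sum.inl b) t) * d (vR t) := by
      intro s
      rw [der_v_fixed relPv (hxP i) (hxv i) hd s]
      simp only [P0_apply, map_sum, map_mul, Finset.mul_sum, Finset.sum_mul]
      rw [Finset.sum_comm]
      apply Finset.sum_congr rfl
      intro b _
      apply Finset.sum_congr rfl
      intro t _
      ring
    have h2 : ∀ a, d (vR (sD i a)) = ∑ t, algebraMap k K (γ' i (Sum.inl a) t) * d (vR t) := by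
      intro a
      rw [h1 (sD i a)]
      simp only [(dat i).hs]
      rw [Finset.sum_eq_single a]
      · simp
      · intro b _ hb; simp [Ne.symm hb]
      · intro hnot; exact absurd (Finset.mem_univ a) hnot
    intro s
    rw [h1 s]
    apply Finset.sum_congr rfl
    intro b _
    rw [h2 b]
  have hzero : ∀ i (d : R →ₗ[K] K), d ∈ tangentSpace (x i) → (∀ a, d (vR (sD i a)) = 0) →
      d = 0 := by
    intro i d hd hda
    have hPd : PR.map d = 0 := der_P_zero (dat i).he (dat i).hd relPP relZ (hxP i) (hxv i) hd
    have hvd : ∀ s, d (vR s) = 0 := by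
      intro s
      rw [hlin i d hd s]
      apply Finset.sum_eq_zero
      intro b _
      rw [hda b, mul_zero]
    ext r
    have hr : r ∈ Algebra.adjoin K (Set.range X) := by rw [hadj]; trivial
    simp only [LinearMap.zero_apply]
    induction hr using Algebra.adjoin_induction with
    | mem y hy =>
      obtain ⟨s, rfl⟩ := hy
      rcases s with ⟨s, t⟩ | s
      · exact congrFun (congrFun hPd s) t
      · exact hvd s
    | algebraMap c => exact der_algebraMap hd c
    | add y z _ _ hy hz => rw [map_add, hy, hz, add_zero]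
    | mul y z _ _ hy hz => rw [der_mul hd, hy, hz, mul_zero, mul_zero, add_zero]
  refine ⟨R, iR1, iR2, iR3, iR4, α, x, ?_, ?_, ?_, ?_⟩
  · -- dimension
    have hwX : ∀ a, PowerSeries.constantCoeff (upA G E D k K (w i0 (sD i0 a))) =
        MvPolynomial.X a := by
      intro a
      rw [upA_apply, const_up, (S i0).w0, map_sum]
      simp only [(dat i0).hs]
      rw [Finset.sum_eq_single a]
      · simp
      · intro b _ hb; simp [Ne.symm hb]
      · intro hnot; exact absurd (Finset.mem_univ a) hnot
    have hind : AlgebraicIndependent K (fun a => upA G E D k K (v i0 (sD i0 a))) := by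
      apply algInd_of_lead (κ := K) _ (fun a => upA G E D k K (w i0 (sD i0 a)))
      · intro a
        have h1 : upA G E D k K PowerSeries.X = PowerSeries.X := by
          rw [upA_apply, up, PowerSeries.map_X]
        rw [(S i0).vw, map_mul, h1]
      · exact hwX
    have hb : AlgebraicIndependent K (fun a => vR (sD i0 a)) := by
      rw [← AlgHom.algebraicIndependent_iff (φ i0) (hinj i0)]
      convert hind using 1
      funext a
      exact hv i0 _
    apply ringKrullDim_of_basis (K := K) (fun a => vR (sD i0 a))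
    apply basis_of_dep X hadj _ hb
    intro s hs
    have hg1 := (S i0).good 1
    have hdep := good_dep hcard hg1 s
    have hdepK := not_algInd_up (K := K) _ hdep
    apply hdepK
    rw [← AlgHom.algebraicIndependent_iff (φ i0) (hinj i0)] at hs
    convert hs using 1
    funext o
    rcases o with _ | a
    · simp only [Option.elim_none, Function.comp_apply]
      rw [hφ]
      rcases s with ⟨s, t⟩ | s
      · simp [q, pq, tr_one, upA_apply]
      · simp [q, pq, tr_one, upA_apply]
    · simp only [Option.elim_some, Function.comp_apply]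
      have h1 : φ i0 (vR (sD i0 a)) = upA G E D k K (v i0 (sD i0 a)) := hφ i0 (Sum.inr _)
      rw [h1]
      simp [tr_one, upA_apply]
  · -- distinct points
    intro i j hij
    apply hdist
    ext1 s t
    have h1 := hxP i s t
    rw [hij, hxP j s t] at h1
    exact ((algebraMap k K).injective h1).symm
  · -- fixed points
    intro i g f
    have h1 : (x i).comp (α g).toAlgHom = x i := by
      apply AlgHom.ext_of_adjoin_eq_top hadj
      rintro _ ⟨s, rfl⟩
      rcases s with ⟨s, t⟩ | s
      · have h2 : α g (X (Sum.inl (s, t))) = PR (tr (g : G) s) (tr (g : G) t) := hα _ _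
        have h3 : X (Sum.inl (s, t)) = PR s t := rfl
        change x i (α g (X (Sum.inl (s, t)))) = x i (X (Sum.inl (s, t)))
        rw [h2, h3, hxP, hxP, hfix]
      · have h2 : α g (X (Sum.inr s)) = vR (tr (g : G) s) := hα _ _
        have h3 : X (Sum.inr s) = vR s := rfl
        change x i (α g (X (Sum.inr s))) = x i (X (Sum.inr s))
        rw [h2, h3, hxv, hxv]
    exact congrArg (fun z : R →ₐ[K] K => z f) h1
  · -- tangent space
    intro i
    let Φ : tangentSpace (x i) →ₗ[K] (D → K) :=
      { toFun := fun d a => d.1 (vR (sD i a))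
        map_add' := by intro d d'; rfl
        map_smul' := by intro r d; rfl }
    have hΦi : Function.Injective Φ := by
      rw [injective_iff_map_eq_zero]
      intro d hd
      apply Subtype.ext
      apply hzero i d.1 d.2
      intro a
      exact congrFun hd a
    have hΦs : Function.Surjective Φ := by
      intro ξ
      refine ⟨⟨(ev1 D K ξ).comp (φ i).toLinearMap, ?_⟩, ?_⟩
      · intro f g
        have e1 : ∀ f, ev D K ξ (φ i f) = x i f := by
          intro f
          rw [← hx i ξ]; rfl
        simp only [LinearMap.comp_apply, AlgHom.toLinearMap_apply, map_mul, ev1_mul, e1]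
      · funext a
        have h1 : φ i (vR (sD i a)) = upA G E D k K (v i (sD i a)) := hφ i (Sum.inr _)
        change ev1 D K ξ (φ i (vR (sD i a))) = ξ a
        rw [h1, ev1_v (S i)]
        simp only [(dat i).hs]
        rw [Finset.sum_eq_single a]
        · simp
        · intro b _ hb; simp [Ne.symm hb]
        · intro hnot; exact absurd (Finset.mem_univ a) hnot
    refine ⟨LinearEquiv.ofBijective Φ ⟨hΦi, hΦs⟩, ?_⟩
    intro g d d' hdd a
    change d'.1 (vR (sD i a)) = ∑ b, algebraMap k K (ρ i g a b) * d.1 (vR (sD i b))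
    rw [hdd]
    have h2 : α (g : G)⁻¹ (vR (sD i a)) = vR (tr (g : G)⁻¹ (sD i a)) := hα _ _
    rw [h2, hlin i d.1 d.2]
    apply Finset.sum_congr rfl
    intro b _
    rw [hρ]

end Main

end Pool.Agent.Helper198
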