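import Mathlib
import Pool.Agent.Helper198.PartJ

set_option autoImplicit false
set_option linter.unusedSectionVars false
set_option linter.unusedSimpArgs false
set_option linter.unusedVariables false

open scoped Matrix

namespace Pool.Agent.Helper198

section Generic

variable {k : Type} [Field k] [Infinite k]

/-- simultaneous nonvanishing of finitely many nonzero polynomials -/
theorem exists_nonvanishing {σ J : Type} [Fintype J] (F : J → MvPolynomial σ k)
    (hF : ∀ j, F j ≠ 0) : ∃ a : σ → k, ∀ j, MvPolynomial.eval a (F j) ≠ 0 := by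
  have h1 : ∏ j, F j ≠ 0 := Finset.prod_ne_zero_iff.mpr (fun j _ => hF j)
  have h2 : ∃ a : σ → k, MvPolynomial.eval a (∏ j, F j) ≠ 0 := by
    by_contra hcon
    push Not at hcon
    exact h1 (MvPolynomial.funext (fun a => by rw [hcon a, map_zero]))
  obtain ⟨a, ha⟩ := h2
  refine ⟨a, fun j => ?_⟩
  rw [map_prod] at ha
  exact Finset.prod_ne_zero_iff.mp ha j (Finset.mem_univ j)

/-- Hermite interpolation with vanishing derivative -/
theorem exists_h [DecidableEq k] (A : Finset k) : ∃ h : Polynomial k, ∀ a ∈ A,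
    h.eval a = a ∧ (Polynomial.derivative h).eval a = 0 := by
  set Q := Lagrange.nodal A (id : k → k) with hQ
  have hQd : ∀ a ∈ A, (Polynomial.derivative Q).eval a ≠ 0 := by
    intro a ha
    have h1 := Lagrange.eval_nodal_derivative_eval_node_eq (v := (id : k → k)) ha
    simp only [id] at h1
    rw [hQ, h1, Lagrange.eval_nodal]
    apply Finset.prod_ne_zero_iff.mpr
    intro b hb
    rw [Finset.mem_erase] at hb
    exact sub_ne_zero.mpr (Ne.symm hb.1)
  have hQ0 : ∀ a ∈ A, Q.eval a = 0 := by
    intro a ha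
    exact Lagrange.eval_nodal_at_node (v := (id : k → k)) ha
  set u := Lagrange.interpolate A (id : k → k) (fun a => -((Polynomial.derivative Q).eval a)⁻¹)
    with hu
  have hua : ∀ a ∈ A, u.eval a = -((Polynomial.derivative Q).eval a)⁻¹ := by
    intro a ha
    exact Lagrange.eval_interpolate_at_node (v := (id : k → k)) _ (Set.injOn_id _) ha
  refine ⟨Polynomial.X + Q * u, fun a ha => ⟨?_, ?_⟩⟩
  · simp [hQ0 a ha]
  · simp only [Polynomial.derivative_add, Polynomial.derivative_X, Polynomial.derivative_mul,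
      Polynomial.eval_add, Polynomial.eval_one, Polynomial.eval_mul, hQ0 a ha, hua a ha, zero_mul,
      add_zero]
    rw [mul_neg, mul_inv_cancel₀ (hQd a ha)]
    ring

end Generic

section Extend

variable {k Ω D M : Type} [Field k] [Fintype Ω] [DecidableEq Ω] [Fintype D] [DecidableEq D]
  [Fintype M] [DecidableEq M]

/-- completing a pair of matrices to mutually inverse matrices -/
theorem extend (ι : Matrix Ω D k) (π : Matrix D Ω k) (h : π * ι = 1)
    (hcard : Fintype.card Ω = Fintype.card (D ⊕ M)) :
    ∃ (γ : Matrix Ω (D ⊕ M) k) (γ' : Matrix (D ⊕ M) Ω k), γ * γ' = 1 ∧ γ' * γ = 1 ∧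
      (∀ s a, γ s (Sum.inl a) = ι s a) ∧ (∀ s a, γ' (Sum.inl a) s = π a s) := by
  have hsurj : Function.Surjective (Matrix.toLin' π) := by
    intro y
    refine ⟨ι *ᵥ y, ?_⟩
    rw [Matrix.toLin'_apply, Matrix.mulVec_mulVec, h, Matrix.one_mulVec]
  have hdim : Module.finrank k (LinearMap.ker (Matrix.toLin' π)) = Fintype.card M := by
    have h1 := LinearMap.finrank_range_add_finrank_ker (Matrix.toLin' π)
    rw [LinearMap.range_eq_top.mpr hsurj, finrank_top, Module.finrank_fintype_fun_eq_card,
      Module.finrank_fintype_fun_eq_card, hcard, Fintype.card_sum] at h1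
    omega
  let b : Module.Basis M k (LinearMap.ker (Matrix.toLin' π)) :=
    (Module.finBasisOfFinrankEq k (LinearMap.ker (Matrix.toLin' π)) hdim).reindex
      (Fintype.equivFin M).symm
  let κ : Matrix Ω M k := Matrix.of fun s m => (b m : Ω → k) s
  have hκ : π * κ = 0 := by
    ext a m
    have h1 : Matrix.toLin' π (b m : Ω → k) = 0 := (b m).2
    exact congrFun h1 a
  let γ : Matrix Ω (D ⊕ M) k := Matrix.fromCols ι κ
  have hπγ : ∀ (x : D ⊕ M → k), π *ᵥ (γ *ᵥ x) = fun a => x (Sum.inl a) := by
    intro x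
    have h1 : π * γ = Matrix.fromCols 1 0 := by
      rw [Matrix.mul_fromCols, h, hκ]
    rw [Matrix.mulVec_mulVec, h1, Matrix.fromCols_mulVec]
    simp
    rfl
  have hinj : Function.Injective (Matrix.toLin' γ) := by
    rw [injective_iff_map_eq_zero]
    intro x hx
    rw [Matrix.toLin'_apply] at hx
    have h1 := hπγ x
    rw [hx, Matrix.mulVec_zero] at h1
    have h2 : ∀ a, x (Sum.inl a) = 0 := fun a => (congrFun h1 a).symm
    have h3 : ∑ m, x (Sum.inr m) • b m = 0 := by
      apply Subtype.ext
      funext s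
      have h4 := congrFun hx s
      simp only [γ, Matrix.mulVec, dotProduct, Fintype.sum_sum_type, Matrix.fromCols_apply_inl,
        Matrix.fromCols_apply_inr, h2, mul_zero, Finset.sum_const_zero, zero_add,
        Pi.zero_apply, κ, Matrix.of_apply] at h4
      have h5 : ((∑ m, x (Sum.inr m) • b m : LinearMap.ker (Matrix.toLin' π)) : Ω → k) s =
          ∑ m, (b m : Ω → k) s * x (Sum.inr m) := by
        simp [Finset.sum_apply, mul_comm]
      exact h5.trans h4
    have h5 := Fintype.linearIndependent_iff.mp b.linearIndependent _ h3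
    funext t
    rcases t with a | m
    · exact h2 a
    · exact h5 m
  have hdim2 : Module.finrank k (D ⊕ M → k) = Module.finrank k (Ω → k) := by
    rw [Module.finrank_fintype_fun_eq_card, Module.finrank_fintype_fun_eq_card, hcard]
  let e := LinearMap.linearEquivOfInjective (Matrix.toLin' γ) hinj hdim2
  let γ' : Matrix (D ⊕ M) Ω k := LinearMap.toMatrix' (e.symm : (Ω → k) →ₗ[k] (D ⊕ M → k))
  have he : ∀ x, e x = Matrix.toLin' γ x := fun x => rfl
  have g1 : γ * γ' = 1 := by
    apply Matrix.toLin'.injective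
    rw [Matrix.toLin'_mul, Matrix.toLin'_one]
    ext1 x
    apply LinearMap.ext_ring
    simp only [γ', Matrix.toLin'_toMatrix', LinearMap.comp_apply, LinearEquiv.coe_coe]
    rw [← he, e.apply_symm_apply]
    simp
  have g2 : γ' * γ = 1 := by
    apply Matrix.toLin'.injective
    rw [Matrix.toLin'_mul, Matrix.toLin'_one]
    ext1 x
    apply LinearMap.ext_ring
    simp only [γ', Matrix.toLin'_toMatrix', LinearMap.comp_apply, LinearEquiv.coe_coe]
    rw [← he, e.symm_apply_apply]
    simp
  refine ⟨γ, γ', g1, g2, fun s a => rfl, ?_⟩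
  have h6 : π = Matrix.fromCols (1 : Matrix D D k) (0 : Matrix D M k) * γ' := by
    have h1 : π * γ = Matrix.fromCols 1 0 := by
      rw [Matrix.mul_fromCols, h, hκ]
    rw [← h1, Matrix.mul_assoc, g1, Matrix.mul_one]
  intro s a
  rw [h6, Matrix.mul_apply]
  simp [Fintype.sum_sum_type, Matrix.one_apply]

end Extend

end Pool.Agent.Helper198
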