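import Mathlib
import Pool.Agent.Helper198.PartK

set_option autoImplicit false
set_option linter.unusedSectionVars false
set_option linter.unusedSimpArgs false
set_option linter.unusedVariables false

open scoped Matrix

namespace Pool.Agent.Helper198

section Data

variable {G I D M : Type} [Group G] [Fintype G] [DecidableEq G] [Fintype I] [DecidableEq I]
  [Fintype D] [DecidableEq D] [Fintype M] [DecidableEq M]
variable {k : Type} [Field k] [CharZero k]

/-- matrix representations of the subgroups, extended by zero -/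
structure RD (H : I → Subgroup G) (R : I → G → Matrix D D k) : Prop where
  one : ∀ i, R i 1 = 1
  mul : ∀ i g g', g ∈ H i → g' ∈ H i → R i (g * g') = R i g * R i g'
  out : ∀ i g, g ∉ H i → R i g = 0
  faith : ∀ i g, g ∈ H i → R i g = 1 → g = 1

/-- the induced embedding -/
def iot (R : I → G → Matrix D D k) (i : I) : Matrix (G × (I × D)) D k :=
  Matrix.of fun s a => if s.2.1 = i then R i s.1⁻¹ s.2.2 a else 0

/-- the induced projection -/
noncomputable def pii (H : I → Subgroup G) (R : I → G → Matrix D D k) (i : I) :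
    Matrix D (G × (I × D)) k :=
  Matrix.of fun a s => if s.2.1 = i then (Nat.card (H i) : k)⁻¹ * R i s.1 a s.2.2 else 0

variable {H : I → Subgroup G} {R : I → G → Matrix D D k}

lemma card_ne (i : I) : (Nat.card (H i) : k) ≠ 0 := by
  have : 0 < Nat.card (H i) := Nat.card_pos
  exact_mod_cast this.ne'

theorem pii_mul_iot (rd : RD H R) (i : I) : pii H R i * iot R i = 1 := by
  classical
  ext1 a b
  rw [Matrix.mul_apply, Fintype.sum_prod_type]
  simp only [Fintype.sum_prod_type, pii, iot, Matrix.of_apply]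
  have h1 : ∀ x : G, (∑ j : I, ∑ c : D,
      (if j = i then (Nat.card (H i) : k)⁻¹ * R i x a c else 0) *
      (if j = i then R i x⁻¹ c b else 0)) =
      if x ∈ H i then (Nat.card (H i) : k)⁻¹ * (1 : Matrix D D k) a b else 0 := by
    intro x
    rw [Finset.sum_eq_single i]
    · simp only [if_true, mul_assoc, ← Finset.mul_sum]
      rw [← Matrix.mul_apply]
      split_ifs with hx
      · rw [← rd.mul i x x⁻¹ hx ((H i).inv_mem hx), mul_inv_cancel, rd.one]
      · rw [rd.out i x hx]; simp
    · intro j _ hj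
      simp [hj]
    · intro hnot; exact absurd (Finset.mem_univ i) hnot
  rw [Finset.sum_congr rfl (fun x _ => h1 x)]
  rw [← Finset.sum_filter, Finset.sum_const, nsmul_eq_mul]
  have h2 : ((Finset.univ.filter (fun x => x ∈ H i)).card : k) = (Nat.card (H i) : k) := by
    congr 1
    rw [Nat.card_eq_fintype_card, Fintype.card_subtype]
  rw [h2, ← mul_assoc, mul_inv_cancel₀ (card_ne i), one_mul]

theorem iot_tr (rd : RD H R) (i : I) (g : G) (hg : g ∈ H i) :
    (iot R i).submatrix (tr g) id = iot R i * R i g⁻¹ := by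
  ext1 s a
  rw [Matrix.mul_apply]
  simp only [iot, Matrix.submatrix_apply, Matrix.of_apply, tr, id]
  split_ifs with h
  · rw [← Matrix.mul_apply, mul_inv_rev]
    by_cases hx : s.1⁻¹ ∈ H i
    · rw [rd.mul i _ _ hx ((H i).inv_mem hg)]
    · rw [rd.out i _ hx, rd.out i (s.1⁻¹ * g⁻¹)]
      · simp
      · intro hmem
        apply hx
        have := (H i).mul_mem hmem hg
        simpa using this
  · simp

theorem pii_tr (rd : RD H R) (i : I) (g : G) (hg : g ∈ H i) :
    (pii H R i).submatrix id (tr g) = R i g * pii H R i := by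
  ext1 a s
  rw [Matrix.mul_apply]
  simp only [pii, Matrix.submatrix_apply, Matrix.of_apply, tr, id]
  split_ifs with h
  · have h1 : ∑ j, R i g a j * ((Nat.card (H i) : k)⁻¹ * R i s.1 j s.2.2) =
        (Nat.card (H i) : k)⁻¹ * (R i g * R i s.1) a s.2.2 := by
      rw [Matrix.mul_apply, Finset.mul_sum]
      apply Finset.sum_congr rfl
      intro j _; ring
    rw [h1]
    by_cases hx : s.1 ∈ H i
    · rw [rd.mul i _ _ hg hx]
    · rw [rd.out i _ hx, rd.out i (g * s.1)]
      · simp
      · intro hmem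
        apply hx
        have := (H i).mul_mem ((H i).inv_mem hg) hmem
        simpa using this
  · simp

theorem base_fix (rd : RD H R) (i : I) (g : G) (hg : g ∈ H i) (s t : G × (I × D)) :
    (iot R i * pii H R i) (tr g s) (tr g t) = (iot R i * pii H R i) s t := by
  have h1 : (iot R i * pii H R i).submatrix (tr g) (tr g) = iot R i * pii H R i := by
    rw [submatrix_mul_tr, iot_tr rd i g hg, pii_tr rd i g hg, Matrix.mul_assoc,
      ← Matrix.mul_assoc (R i g⁻¹), ← rd.mul i _ _ ((H i).inv_mem hg) hg, inv_mul_cancel, rd.one,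
      Matrix.one_mul]
  exact congrFun (congrFun h1 s) t

theorem base_dist [Nonempty D] (rd : RD H R) (i j : I)
    (hij : iot R i * pii H R i = iot R j * pii H R j) : i = j := by
  by_contra hne
  obtain ⟨a⟩ := (inferInstance : Nonempty D)
  have h1 := congrFun (congrFun hij ((1 : G), (i, a))) ((1 : G), (i, a))
  rw [Matrix.mul_apply, Matrix.mul_apply] at h1
  simp only [iot, pii, Matrix.of_apply, if_true, inv_one, rd.one, if_neg hne, mul_zero,
    Finset.sum_const_zero] at h1
  rw [Finset.sum_eq_single a] at h1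
  · simp only [Matrix.one_apply_eq, one_mul, mul_one] at h1
    exact card_ne (k := k) (H := H) i (inv_eq_zero.mp h1)
  · intro b _ hb
    simp [Matrix.one_apply, Ne.symm hb, hb]
  · intro hnot; exact absurd (Finset.mem_univ a) hnot

/-- translated embeddings are pairwise distinct -/
theorem iot_sep [Nonempty D] (rd : RD H R) (i : I) (g g' : G)
    (h : ∀ s a, iot R i (tr g s) a = iot R i (tr g' s) a) : g = g' := by
  have h1 : R i 1 = R i (g'  * g⁻¹)⁻¹ := by
    ext1 b a
    have := h (g⁻¹, (i, b)) a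
    simp only [iot, Matrix.of_apply, tr, if_true, mul_inv_cancel, inv_one] at this
    exact this
  rw [rd.one] at h1
  by_cases hm : (g' * g⁻¹)⁻¹ ∈ H i
  · have := rd.faith i _ hm h1.symm
    rw [inv_eq_one, mul_inv_eq_one] at this
    exact this.symm
  · rw [rd.out i _ hm] at h1
    exact absurd h1 one_ne_zero

theorem iot_ne [Nonempty D] (rd : RD H R) (i : I) (g : G)
    (h : ∀ s a, iot R i (tr g s) a = 0) : False := by
  obtain ⟨a⟩ := (inferInstance : Nonempty D)
  have := h (g⁻¹, (i, a)) a
  simp only [iot, Matrix.of_apply, tr, if_true, mul_inv_cancel, inv_one, rd.one,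
    Matrix.one_apply_eq] at this
  exact one_ne_zero this

lemma linpoly_ne {σ : Type} [Fintype σ] [DecidableEq σ] (c : σ → k) (s : σ) (hc : c s ≠ 0) :
    (∑ s, MvPolynomial.C (c s) * MvPolynomial.X s : MvPolynomial σ k) ≠ 0 := by
  intro h
  have h1 := congrArg (MvPolynomial.eval (Pi.single s 1)) h
  rw [map_sum, map_zero, Finset.sum_eq_single s] at h1
  · simp at h1; exact hc h1
  · intro t _ ht
    simp [ht]
  · intro hnot; exact absurd (Finset.mem_univ s) hnot

theorem exists_ell [Nonempty D] (rd : RD H R) : ∃ ℓ : G × (I × D) → k,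
    (∀ i, Function.Injective (fun (g : G) (a : D) => ∑ s, ℓ s * iot R i (tr g s) a)) ∧
    (∀ i (g : G), (fun (a : D) => ∑ s, ℓ s * iot R i (tr g s) a) ≠ 0) := by
  classical
  have h1 : ∀ p : I × {p : G × G // p.1 ≠ p.2}, ∃ (a : D) (s : G × (I × D)),
      iot R p.1 (tr p.2.1.1 s) a - iot R p.1 (tr p.2.1.2 s) a ≠ 0 := by
    intro p
    by_contra hcon
    push Not at hcon
    exact p.2.2 (iot_sep rd p.1 p.2.1.1 p.2.1.2 (fun s a => sub_eq_zero.mp (hcon a s)))
  have h2 : ∀ p : I × G, ∃ (a : D) (s : G × (I × D)), iot R p.1 (tr p.2 s) a ≠ 0 := by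
    intro p
    by_contra hcon
    push Not at hcon
    exact iot_ne rd p.1 p.2 (fun s a => hcon a s)
  choose a1 s1 hs1 using h1
  choose a2 s2 hs2 using h2
  obtain ⟨ℓ, hℓ⟩ := exists_nonvanishing (k := k)
    (F := (Sum.elim
      (fun p : I × {p : G × G // p.1 ≠ p.2} => ∑ s, MvPolynomial.C
        (iot R p.1 (tr p.2.1.1 s) (a1 p) - iot R p.1 (tr p.2.1.2 s) (a1 p)) * MvPolynomial.X s)
      (fun p : I × G => ∑ s, MvPolynomial.C
        (iot R p.1 (tr p.2 s) (a2 p)) * MvPolynomial.X s) :
      (I × {p : G × G // p.1 ≠ p.2}) ⊕ (I × G) → MvPolynomial (G × (I × D)) k))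
    (by
      rintro (p | p)
      · exact linpoly_ne (fun s => iot R p.1 (tr p.2.1.1 s) (a1 p) -
          iot R p.1 (tr p.2.1.2 s) (a1 p)) (s1 p) (hs1 p)
      · exact linpoly_ne (fun s => iot R p.1 (tr p.2 s) (a2 p)) (s2 p) (hs2 p))
  refine ⟨ℓ, ?_, ?_⟩
  · intro i g g' hgg
    by_contra hne
    apply hℓ (Sum.inl (i, ⟨(g, g'), hne⟩))
    have h3 := congrFun hgg (a1 (i, ⟨(g, g'), hne⟩))
    simp only at h3
    simp only [Sum.elim_inl, map_sum, map_mul, MvPolynomial.eval_C, MvPolynomial.eval_X, sub_mul,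
      Finset.sum_sub_distrib]
    rw [sub_eq_zero]
    simp only [mul_comm] at h3 ⊢
    exact h3
  · intro i g h0
    apply hℓ (Sum.inr (i, g))
    have h3 := congrFun h0 (a2 (i, g))
    simp only [Sum.elim_inr, map_sum, map_mul, MvPolynomial.eval_C, MvPolynomial.eval_X]
    simp only [mul_comm] at h3 ⊢
    exact h3

/-- the generic matrix -/
noncomputable def XX (Ω N k : Type) [Field k] : Matrix Ω N (MvPolynomial (Ω × N) k) :=
  Matrix.of fun s x => MvPolynomial.X (s, x)

lemma XX_eval {Ω N : Type} (A : Matrix Ω N k) :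
    (XX Ω N k).map (MvPolynomial.eval (fun p => A p.1 p.2)) = A := by
  ext s x; simp [XX]

theorem exists_gamma0 {Ω : Type} [Fintype Ω] [DecidableEq Ω] {J : Type} [Fintype J]
    (hcard : Fintype.card Ω = Fintype.card (D ⊕ M))
    (δ : J → Matrix Ω (D ⊕ M) k) (δ' : J → Matrix (D ⊕ M) Ω k) (hδ : ∀ j, δ' j * δ j = 1) :
    ∃ (γ0 : Matrix Ω (D ⊕ M) k) (γ0' : Matrix (D ⊕ M) Ω k), γ0 * γ0' = 1 ∧ γ0' * γ0 = 1 ∧
      ∀ j, ((δ' j * γ0).toBlocks₁₁).det ≠ 0 := by
  classical
  let e : Ω ≃ D ⊕ M := Fintype.equivOfCardEq hcard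
  have key : ∀ (A : Matrix Ω (D ⊕ M) k) (j : J),
      MvPolynomial.eval (fun p => A p.1 p.2)
        (((bc (MvPolynomial (Ω × (D ⊕ M)) k) (δ' j) * XX Ω (D ⊕ M) k).toBlocks₁₁).det) =
      ((δ' j * A).toBlocks₁₁).det := by
    intro A j
    rw [RingHom.map_det]
    congr 1
    have h1 : (bc (MvPolynomial (Ω × (D ⊕ M)) k) (δ' j) * XX Ω (D ⊕ M) k).map
        (MvPolynomial.eval (fun p => A p.1 p.2)) = δ' j * A := by
      rw [Matrix.map_mul, XX_eval]
      congr 1
      ext s x
      simp [bc, MvPolynomial.algebraMap_eq]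
    ext s x
    exact congrFun (congrFun h1 (Sum.inl s)) (Sum.inl x)
  have key2 : ∀ (A : Matrix Ω (D ⊕ M) k), MvPolynomial.eval (fun p => A p.1 p.2)
        (((XX Ω (D ⊕ M) k).submatrix id e).det) = (A.submatrix id e).det := by
    intro A
    rw [RingHom.map_det]
    congr 1
    have h1 := XX_eval A
    ext s x
    exact congrFun (congrFun h1 s) (e x)
  obtain ⟨A, hA⟩ := exists_nonvanishing (k := k)
    (F := (Sum.elim
      (fun j : J => ((bc (MvPolynomial (Ω × (D ⊕ M)) k) (δ' j) * XX Ω (D ⊕ M) k).toBlocks₁₁).det)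
      (fun _ : Unit => ((XX Ω (D ⊕ M) k).submatrix id e).det) :
      J ⊕ Unit → MvPolynomial (Ω × (D ⊕ M)) k))
    (by
      rintro (j | u)
      · intro h0
        have h1 := key (δ j) j
        simp only [Sum.elim_inl] at h0
        rw [h0, map_zero, hδ] at h1
        have h2 : (1 : Matrix (D ⊕ M) (D ⊕ M) k).toBlocks₁₁ = 1 := by
          ext a b; simp [Matrix.toBlocks₁₁, Matrix.one_apply]
        rw [h2, Matrix.det_one] at h1
        exact zero_ne_one h1
      · intro h0
        have h1 := key2 (Matrix.of fun s x => if s = e.symm x then 1 else 0)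
        simp only [Sum.elim_inr] at h0
        rw [h0, map_zero] at h1
        have h2 : (Matrix.of fun (s : Ω) (x : D ⊕ M) => if s = e.symm x then (1 : k) else 0).submatrix
            id e = 1 := by
          ext a b; simp [Matrix.one_apply]
        rw [h2, Matrix.det_one] at h1
        exact zero_ne_one h1)
  set B : Matrix Ω (D ⊕ M) k := Matrix.of fun s x => A (s, x) with hB
  have hAB : A = fun p => B p.1 p.2 := by
    funext p; rfl
  have hdet : (B.submatrix id e).det ≠ 0 := by
    have := hA (Sum.inr ())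
    simp only [Sum.elim_inr] at this
    rw [hAB, key2] at this
    exact this
  obtain ⟨C, hC⟩ : ∃ C, C = B.submatrix id e := ⟨_, rfl⟩
  rw [← hC] at hdet
  have hu : IsUnit C.det := isUnit_iff_ne_zero.mpr hdet
  have hBe : B = C.submatrix id e.symm := by
    rw [hC]; ext s x; simp
  refine ⟨B, C⁻¹.submatrix e.symm id, ?_, ?_, ?_⟩
  · rw [hBe, Matrix.submatrix_mul_equiv, Matrix.mul_nonsing_inv _ hu]
    simp
  · have h3 : C⁻¹.submatrix e.symm id * C.submatrix id e.symm =
        (C⁻¹ * C).submatrix e.symm e.symm :=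
      Matrix.submatrix_mul_equiv _ _ _ (Equiv.refl _) _
    rw [hBe, h3, Matrix.nonsing_inv_mul _ hu]
    simp
  · intro j
    have := hA (Sum.inl j)
    simp only [Sum.elim_inl] at this
    rw [hAB, key] at this
    exact this

end Data

end Pool.Agent.Helper198
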