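import Mathlib
import Pool.Agent.Helper198.PartL

set_option autoImplicit false
set_option linter.unusedSectionVars false
set_option linter.unusedSimpArgs false
set_option linter.unusedVariables false

open scoped Matrix

namespace Pool.Agent.Helper198

section Data

variable {G I D M : Type} [Group G] [Fintype G] [DecidableEq G] [Fintype I] [DecidableEq I]
  [Fintype D] [DecidableEq D] [Fintype M] [DecidableEq M]
variable {k : Type} [Field k] [CharZero k]
variable {H : I → Subgroup G} {R : I → G → Matrix D D k}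

theorem data_exists [Nonempty D] (rd : RD H R)
    (hcard : Fintype.card (G × (I × D)) = Fintype.card (D ⊕ M)) :
    ∃ (h : Polynomial k) (ℓ : G × (I × D) → k) (γ0 : Matrix (G × (I × D)) (D ⊕ M) k)
      (γ0' : Matrix (D ⊕ M) (G × (I × D)) k)
      (γ : I → Matrix (G × (I × D)) (D ⊕ M) k) (γ' : I → Matrix (D ⊕ M) (G × (I × D)) k),
      γ0 * γ0' = 1 ∧ γ0' * γ0 = 1 ∧
      (∀ i, Datum h ℓ γ0 (γ i) (γ' i) (fun a => ((1 : G), (i, a)))) ∧
      (∀ i s a, γ i s (Sum.inl a) = iot R i s a) ∧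
      (∀ i, γ i * EE D M k * γ' i = iot R i * pii H R i) := by
  classical
  choose γ γ' g1 g2 g3 g4 using fun i => extend (M := M) (iot R i) (pii H R i)
    (pii_mul_iot rd i) hcard
  have hbase : ∀ i, γ i * EE D M k * γ' i = iot R i * pii H R i := by
    intro i
    ext1 s t
    rw [P0_apply, Matrix.mul_apply]
    simp only [g3, g4]
  obtain ⟨h, hh⟩ := exists_h (Finset.univ.image
    (fun p : I × (G × (I × D)) × (G × (I × D)) => (γ p.1 * EE D M k * γ' p.1) p.2.1 p.2.2))
  have hh' : ∀ i s t, h.eval ((γ i * EE D M k * γ' i) s t) = (γ i * EE D M k * γ' i) s t ∧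
      (Polynomial.derivative h).eval ((γ i * EE D M k * γ' i) s t) = 0 := by
    intro i s t
    apply hh
    exact Finset.mem_image.mpr ⟨(i, s, t), Finset.mem_univ _, rfl⟩
  obtain ⟨ℓ, hℓ1, hℓ2⟩ := exists_ell rd
  obtain ⟨γ0, γ0', c1, c2, c3⟩ := exists_gamma0 (J := I × G) hcard
    (fun p => (γ p.1).submatrix (tr p.2) id) (fun p => (γ' p.1).submatrix id (tr p.2)) (by
      intro p
      have : (γ' p.1).submatrix id (tr p.2) * (γ p.1).submatrix (tr p.2) id =
          (γ' p.1 * γ p.1).submatrix id id :=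
        Matrix.submatrix_mul_equiv (γ' p.1) (γ p.1) id (trE p.2) id
      rw [this, g2]; simp)
  refine ⟨h, ℓ, γ0, γ0', γ, γ', c1, c2, ?_, g3, hbase⟩
  intro i
  refine ⟨g1 i, g2 i, fun s t => (hh' i s t).1, fun s t => (hh' i s t).2, ?_, ?_, ?_, ?_⟩
  · simp only [g3]; exact hℓ1 i
  · simp only [g3]; exact hℓ2 i
  · intro a b
    rw [g3]
    simp only [iot, Matrix.of_apply, if_true, inv_one, rd.one, Matrix.one_apply]
  · intro g
    exact c3 (i, g)

end Data

section Transcendence

theorem exists_params (k : Subfield ℂ) (hk : Cardinal.mk k ≤ Cardinal.aleph0) (T : Type)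
    [Fintype T] : ∃ c : T → ℂ, AlgebraicIndependent k c := by
  obtain ⟨ι, x, hx⟩ := exists_isTranscendenceBasis' k ℂ
  have hC : Cardinal.aleph0 < Cardinal.mk ℂ := by
    rw [Cardinal.mk_complex]; exact Cardinal.aleph0_lt_continuum
  have h1 := IsAlgClosed.cardinal_eq_cardinal_transcendence_basis_of_aleph0_lt' x hx hk hC
  have h2 : Infinite ι := by
    rw [Cardinal.infinite_iff, ← h1]
    exact hC.le
  obtain ⟨e⟩ : Nonempty (T ↪ ι) := by
    have := Cardinal.infinite_iff.mp h2
    have h3 : Cardinal.mk T ≤ Cardinal.mk ι := (Cardinal.lt_aleph0_of_finite T).le.trans this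
    exact (Cardinal.le_def _ _).mp h3
  exact ⟨fun t => x (e t), hx.1.comp e e.injective⟩

end Transcendence

section Assemble

theorem matrix_version (G : Type) [Group G] [Finite G] (I : Type) [Finite I] [Nonempty I]
    (d : ℕ) (hd : 1 ≤ d) (H : I → Subgroup G) (ρ : ∀ i, H i →* Matrix (Fin d) (Fin d) ℂ)
    (hρ : ∀ i, Function.Injective (ρ i)) :
    ∃ (R : Type) (_ : CommRing R) (_ : IsDomain R) (_ : Algebra ℂ R) (_ : Algebra.FiniteType ℂ R)
      (α : G →* (R ≃ₐ[ℂ] R)) (x : I → (R →ₐ[ℂ] ℂ)),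
      ringKrullDim R = (d : WithBot ℕ∞) ∧ Function.Injective x ∧
      (∀ i (g : H i) f, x i (α g f) = x i f) ∧
      ∀ i, ∃ e : tangentSpace (x i) ≃ₗ[ℂ] (Fin d → ℂ), ∀ (g : H i) (D D' : tangentSpace (x i)),
        (∀ f, D'.1 f = D.1 (α (g : G)⁻¹ f)) → ∀ a, e D' a = ∑ b, ρ i g a b * e D b := by
  classical
  have := Fintype.ofFinite G
  have := Fintype.ofFinite I
  have : Nonempty (Fin d) := ⟨⟨0, hd⟩⟩
  let S : Set ℂ := Set.range (fun p : Σ i : I, H i × (Fin d × Fin d) => ρ p.1 p.2.1 p.2.2.1 p.2.2.2)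
  let k : Subfield ℂ := Subfield.closure S
  have hk : Cardinal.mk k ≤ Cardinal.aleph0 := by
    refine (Subfield.cardinalMk_closure_le_max S).trans (max_le ?_ le_rfl)
    exact Cardinal.mk_le_aleph0_iff.mpr (Set.countable_range _)
  have hmem : ∀ i (g : H i) a b, ρ i g a b ∈ k := by
    intro i g a b
    exact Subfield.subset_closure ⟨⟨i, g, a, b⟩, rfl⟩
  let R : I → G → Matrix (Fin d) (Fin d) k := fun i g =>
    if hg : g ∈ H i then Matrix.of fun a b => ⟨ρ i ⟨g, hg⟩ a b, hmem i ⟨g, hg⟩ a b⟩ else 0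
  have hR : ∀ i g (hg : g ∈ H i), (R i g).map (algebraMap k ℂ) = ρ i ⟨g, hg⟩ := by
    intro i g hg
    ext a b
    simp only [R, dif_pos hg, Matrix.map_apply, Matrix.of_apply]
    rfl
  have minj : ∀ A B : Matrix (Fin d) (Fin d) k, A.map (algebraMap k ℂ) = B.map (algebraMap k ℂ) →
      A = B := by
    intro A B hAB
    ext1 a b
    exact (algebraMap k ℂ).injective (congrFun (congrFun hAB a) b)
  have hone : (1 : Matrix (Fin d) (Fin d) k).map (algebraMap k ℂ) = 1 :=
    Matrix.map_one _ (map_zero _) (map_one _)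
  have rd : RD H R := by
    refine ⟨?_, ?_, ?_, ?_⟩
    · intro i
      apply minj
      rw [hR i 1 (H i).one_mem, hone]
      exact map_one (ρ i)
    · intro i g g' hg hg'
      apply minj
      rw [Matrix.map_mul, hR i g hg, hR i g' hg', hR i _ ((H i).mul_mem hg hg'), ← map_mul]
      rfl
    · intro i g hg
      simp only [R, dif_neg hg]
    · intro i g hg h1
      have h2 : ρ i ⟨g, hg⟩ = 1 := by rw [← hR i g hg, h1, hone]
      have h3 := hρ i (h2.trans (map_one (ρ i)).symm)
      exact congrArg Subtype.val h3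
  have hle : d ≤ Fintype.card (G × (I × Fin d)) := by
    rw [Fintype.card_prod, Fintype.card_prod, Fintype.card_fin, ← mul_assoc]
    exact Nat.le_mul_of_pos_left _ (Nat.mul_pos Fintype.card_pos Fintype.card_pos)
  have hcard : Fintype.card (G × (I × Fin d)) =
      Fintype.card (Fin d ⊕ Fin (Fintype.card (G × (I × Fin d)) - d)) := by
    rw [Fintype.card_sum, Fintype.card_fin, Fintype.card_fin]
    omega
  obtain ⟨h, ℓ, γ0, γ0', γ, γ', c1, c2, dat, c3, c4⟩ := data_exists rd hcard
  obtain ⟨c, hc⟩ := exists_params k hk (Param G (I × Fin d))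
  obtain ⟨θ, hθ⟩ := exists_theta c hc
  let algθ : Algebra (Kap G (I × Fin d) k) ℂ := θ.toRingHom.toAlgebra
  have tow : IsScalarTower k (Kap G (I × Fin d) k) ℂ :=
    IsScalarTower.of_algebraMap_eq (fun r => (θ.commutes r).symm)
  obtain ⟨Q, q1, q2, q3, q4, α, x, e1, e2, e3, e4⟩ := ring_main (K := ℂ) hcard c1 c2 γ γ'
    (fun i a => ((1 : G), (i, a))) dat H (fun i g => R i g)
    (by
      intro i g a b
      rw [c3]
      simp only [iot, tr, Matrix.of_apply, if_true, mul_one, inv_inv])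
    (by
      intro i g s t
      rw [c4]
      exact base_fix rd i g g.2 s t)
    (by
      intro i j hij
      rw [c4, c4] at hij
      exact base_dist rd i j hij)
  refine ⟨Q, q1, q2, q3, q4, α, x, ?_, e2, e3, ?_⟩
  · rw [e1, Fintype.card_fin]
  · intro i
    obtain ⟨e, he⟩ := e4 i
    refine ⟨e, ?_⟩
    intro g D D' hDD a
    rw [he g D D' hDD a]
    apply Finset.sum_congr rfl
    intro b _
    congr 1
    have := congrFun (congrFun (hR i g g.2) a) b
    exact this

end Assemble

end Pool.Agent.Helper198
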