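import Mathlib

open MvPolynomial DirectSum

namespace Pool.Agent.Helper198.Sch

attribute [local instance] MvPolynomial.gradedAlgebra

variable {σ : Type} {R : Type} [CommRing R]

/-- The grading of `R[w_s : s ∈ σ] / J` by degree. -/
noncomputable def qgrad (J : Ideal (MvPolynomial σ R)) (n : ℕ) :
    Submodule R (MvPolynomial σ R ⧸ J) :=
  (homogeneousSubmodule σ R n).map (Ideal.Quotient.mkₐ R J).toLinearMap

lemma mem_qgrad {J : Ideal (MvPolynomial σ R)} {n : ℕ} {x : MvPolynomial σ R ⧸ J} :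
    x ∈ qgrad J n ↔ ∃ f : MvPolynomial σ R, f.IsHomogeneous n ∧ Ideal.Quotient.mk J f = x := by
  unfold qgrad
  rw [Submodule.mem_map]
  rfl

lemma mk_mem_qgrad {J : Ideal (MvPolynomial σ R)} {n : ℕ} {f : MvPolynomial σ R}
    (hf : f.IsHomogeneous n) : Ideal.Quotient.mk J f ∈ qgrad J n :=
  mem_qgrad.2 ⟨f, hf, rfl⟩

instance (J : Ideal (MvPolynomial σ R)) : SetLike.GradedMonoid (qgrad J) where
  one_mem := mem_qgrad.2 ⟨1, isHomogeneous_one _ _, rfl⟩
  mul_mem := by
    rintro i j x y hx hy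
    obtain ⟨f, hf, rfl⟩ := mem_qgrad.1 hx
    obtain ⟨g, hg, rfl⟩ := mem_qgrad.1 hy
    exact mem_qgrad.2 ⟨f * g, hf.mul hg, rfl⟩

/-- the map `𝒜 n → ⨁ 𝒬 n`. -/
noncomputable def qcomp (J : Ideal (MvPolynomial σ R)) (n : ℕ) :
    homogeneousSubmodule σ R n →ₗ[R] ⨁ i, qgrad J i :=
  (DirectSum.lof R ℕ (fun i => qgrad J i) n).comp
    ((Ideal.Quotient.mkₐ R J).toLinearMap.restrict (p := homogeneousSubmodule σ R n)
      (q := qgrad J n) (fun _ hx => mk_mem_qgrad hx))

lemma qcomp_apply (J : Ideal (MvPolynomial σ R)) (n : ℕ) (f : homogeneousSubmodule σ R n) :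
    qcomp J n f = DirectSum.of (fun i => qgrad J i) n
      ⟨Ideal.Quotient.mk J f.1, mk_mem_qgrad f.2⟩ := rfl

/-- the algebra map `S → ⨁ 𝒬 n`. -/
noncomputable def qD (J : Ideal (MvPolynomial σ R)) :
    MvPolynomial σ R →ₐ[R] ⨁ i, qgrad J i :=
  (DirectSum.toAlgebra R (fun i => homogeneousSubmodule σ R i) (qcomp J) (by
      rw [qcomp_apply]; rfl) (by
      intro i j ai aj
      rw [qcomp_apply, qcomp_apply, qcomp_apply, DirectSum.of_mul_of]
      rfl)).comp
    (DirectSum.decomposeAlgEquiv (homogeneousSubmodule σ R)).toAlgHom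

lemma qD_apply_of_mem (J : Ideal (MvPolynomial σ R)) {n : ℕ} (f : MvPolynomial σ R)
    (hf : f.IsHomogeneous n) :
    qD J f = DirectSum.of (fun i => qgrad J i) n ⟨Ideal.Quotient.mk J f, mk_mem_qgrad hf⟩ := by
  have hf' : f ∈ homogeneousSubmodule σ R n := hf
  unfold qD
  rw [AlgHom.comp_apply]
  have : (DirectSum.decomposeAlgEquiv (homogeneousSubmodule σ R)).toAlgHom f =
      DirectSum.of (fun i => homogeneousSubmodule σ R i) n ⟨f, hf'⟩ :=
    DirectSum.decompose_of_mem _ hf'
  rw [this]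
  rw [DirectSum.toAlgebra_apply]
  exact DirectSum.toAddMonoid_of _ _ _

lemma qD_eq_zero (J : Ideal (MvPolynomial σ R))
    (hJ : J.IsHomogeneous (homogeneousSubmodule σ R)) (f : MvPolynomial σ R) (hf : f ∈ J) :
    qD J f = 0 := by
  classical
  rw [← DirectSum.sum_support_decompose (homogeneousSubmodule σ R) f, map_sum]
  refine Finset.sum_eq_zero (fun n _ => ?_)
  rw [qD_apply_of_mem J (n := n) _ (DirectSum.decompose (homogeneousSubmodule σ R) f n).2]
  have h1 : ((DirectSum.decompose (homogeneousSubmodule σ R) f n : homogeneousSubmodule σ R n) :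
      MvPolynomial σ R) ∈ J := hJ n hf
  have h2 : (⟨Ideal.Quotient.mk J ((DirectSum.decompose (homogeneousSubmodule σ R) f n :
      homogeneousSubmodule σ R n) : MvPolynomial σ R), mk_mem_qgrad
      (DirectSum.decompose (homogeneousSubmodule σ R) f n).2⟩ : qgrad J n) = 0 := by
    apply Subtype.ext
    exact Ideal.Quotient.eq_zero_iff_mem.2 h1
  rw [h2, map_zero]

/-- The graded algebra structure. -/
@[reducible] noncomputable def qGradedAlgebra (J : Ideal (MvPolynomial σ R))
    (hJ : J.IsHomogeneous (homogeneousSubmodule σ R)) : GradedAlgebra (qgrad J) :=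
  GradedAlgebra.ofAlgHom (qgrad J)
    (Ideal.Quotient.liftₐ J (qD J) (fun f hf => qD_eq_zero J hJ f hf))
    (by
      apply Ideal.Quotient.algHom_ext
      apply MvPolynomial.algHom_ext
      intro s
      have h := qD_apply_of_mem J (n := 1) (X s : MvPolynomial σ R) (isHomogeneous_X R s)
      change (DirectSum.coeAlgHom (qgrad J)) (qD J (X s)) = _
      rw [h, DirectSum.coeAlgHom_of]
      rfl)
    (by
      rintro i ⟨x, hx⟩
      obtain ⟨f, hf, rfl⟩ := mem_qgrad.1 hx
      change qD J f = _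
      rw [qD_apply_of_mem J (n := i) f hf])

end Pool.Agent.Helper198.Sch
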