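import Pool.Agent.Helper198.SchA

open MvPolynomial DirectSum

namespace Pool.Agent.Helper198.Sch

attribute [local instance] MvPolynomial.gradedAlgebra

variable {σ : Type} {R : Type} [CommRing R]

/-- scaling of homogeneous polynomials. -/
lemma aeval_scale {B : Type*} [CommRing B] [Algebra R B] {f : MvPolynomial σ R} {n : ℕ}
    (hf : f.IsHomogeneous n) (u : σ → B) (w : B) :
    aeval (fun a => w * u a) f = w ^ n * aeval u f := by
  rw [f.as_sum, map_sum, map_sum, Finset.mul_sum]
  refine Finset.sum_congr rfl (fun d hd => ?_)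
  rw [aeval_monomial, aeval_monomial]
  have h1 : d.degree = n := hf.degree_eq_sum_deg_support hd ▸ rfl
  simp only [Finsupp.prod, mul_pow, Finset.prod_mul_distrib, Finset.prod_pow_eq_pow_sum]
  have h2 : ∑ i ∈ d.support, d i = n := by rw [← h1]; rfl
  rw [h2]
  ring

/-- Homogeneous ideals of `R[w_s : s ∈ σ]`. -/
abbrev HI (σ R : Type) [CommRing R] := HomogeneousIdeal (homogeneousSubmodule σ R)

noncomputable instance (J : HI σ R) : GradedAlgebra (qgrad J.toIdeal) :=
  qGradedAlgebra J.toIdeal J.isHomogeneous

/-- the degree one generators. -/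
noncomputable def gen (J : HI σ R) (s : σ) : MvPolynomial σ R ⧸ J.toIdeal :=
  Ideal.Quotient.mk J.toIdeal (X s)

lemma gen_mem (J : HI σ R) (s : σ) : gen J s ∈ qgrad J.toIdeal 1 :=
  mk_mem_qgrad (isHomogeneous_X R s)

/-- The coordinate ring of the chart `w_c ≠ 0`. -/
def Ch (J : HI σ R) (c : σ) : Type :=
  HomogeneousLocalization.Away (qgrad J.toIdeal) (gen J c)

noncomputable instance (J : HI σ R) (c : σ) : CommRing (Ch J c) :=
  inferInstanceAs (CommRing (HomogeneousLocalization.Away (qgrad J.toIdeal) (gen J c)))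

/-- structure map of the chart ring. -/
noncomputable def chAlg (J : HI σ R) (c : σ) : R →+* Ch J c :=
  (HomogeneousLocalization.fromZeroRingHom (qgrad J.toIdeal)
    (Submonoid.powers (gen J c))).comp (algebraMap R (qgrad J.toIdeal 0))

noncomputable instance (J : HI σ R) (c : σ) : Algebra R (Ch J c) := (chAlg J c).toAlgebra

/-- The inclusion of the chart ring in the localization. -/
noncomputable def chVal (J : HI σ R) (c : σ) :
    Ch J c →ₐ[R] Localization.Away (gen J c) where
  toRingHom := algebraMap (HomogeneousLocalization.Away (qgrad J.toIdeal) (gen J c))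
    (Localization.Away (gen J c))
  commutes' := by
    intro r
    have h1 : algebraMap R (Localization.Away (gen J c)) r =
      algebraMap (MvPolynomial σ R ⧸ J.toIdeal) (Localization.Away (gen J c))
        (algebraMap R (MvPolynomial σ R ⧸ J.toIdeal) r) := by
      rw [← IsScalarTower.algebraMap_apply]
    rw [h1]
    rw [← Localization.mk_one_eq_algebraMap]
    rfl

lemma chVal_injective (J : HI σ R) (c : σ) : Function.Injective (chVal J c) :=
  HomogeneousLocalization.val_injective _

/-- `w_a / w_c`. -/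
noncomputable def frac (J : HI σ R) (c a : σ) : Ch J c :=
  HomogeneousLocalization.Away.mk (qgrad J.toIdeal) (gen_mem J c) 1 (gen J a)
    (by simpa using gen_mem J a)

lemma chVal_frac (J : HI σ R) (c a : σ) :
    algebraMap (MvPolynomial σ R ⧸ J.toIdeal) (Localization.Away (gen J c)) (gen J c) *
      chVal J c (frac J c a) =
    algebraMap (MvPolynomial σ R ⧸ J.toIdeal) (Localization.Away (gen J c)) (gen J a) := by
  have h : chVal J c (frac J c a) =
    Localization.mk (gen J a) (⟨gen J c ^ 1, ⟨1, rfl⟩⟩ : Submonoid.powers (gen J c)) := by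
    rfl
  rw [h, ← Localization.mk_one_eq_algebraMap, ← Localization.mk_one_eq_algebraMap,
    Localization.mk_mul, Localization.mk_eq_mk_iff, Localization.r_iff_exists]
  exact ⟨1, by simp⟩

lemma frac_self (J : HI σ R) (c : σ) : frac J c c = 1 := by
  apply chVal_injective
  rw [map_one]
  have hu : IsUnit (algebraMap (MvPolynomial σ R ⧸ J.toIdeal) (Localization.Away (gen J c))
    (gen J c)) := IsLocalization.Away.algebraMap_isUnit _
  apply hu.mul_left_cancel
  rw [chVal_frac, mul_one]

lemma chVal_aeval (J : HI σ R) (c : σ) {n : ℕ} {f : MvPolynomial σ R} (hf : f.IsHomogeneous n) :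
    algebraMap (MvPolynomial σ R ⧸ J.toIdeal) (Localization.Away (gen J c)) (gen J c) ^ n *
      chVal J c (aeval (frac J c) f) =
    algebraMap (MvPolynomial σ R ⧸ J.toIdeal) (Localization.Away (gen J c))
      (Ideal.Quotient.mk J.toIdeal f) := by
  have h1 : chVal J c (aeval (frac J c) f) = aeval (fun a => chVal J c (frac J c a)) f := by
    rw [← AlgHom.comp_apply, comp_aeval]
  rw [h1, ← aeval_scale hf]
  have h2 : (fun a => algebraMap (MvPolynomial σ R ⧸ J.toIdeal) (Localization.Away (gen J c))
      (gen J c) * chVal J c (frac J c a)) =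
      fun a => (IsScalarTower.toAlgHom R (MvPolynomial σ R ⧸ J.toIdeal)
        (Localization.Away (gen J c))) (Ideal.Quotient.mkₐ R J.toIdeal (X a)) := by
    funext a
    exact chVal_frac J c a
  rw [h2]
  have h3 : aeval (fun a => (IsScalarTower.toAlgHom R (MvPolynomial σ R ⧸ J.toIdeal)
        (Localization.Away (gen J c))) (Ideal.Quotient.mkₐ R J.toIdeal (X a))) =
      ((IsScalarTower.toAlgHom R (MvPolynomial σ R ⧸ J.toIdeal)
        (Localization.Away (gen J c))).comp (Ideal.Quotient.mkₐ R J.toIdeal)) := by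
    apply MvPolynomial.algHom_ext
    intro a
    rw [aeval_X]
    rfl
  rw [h3]
  rfl

/-- (G0) the relations hold in the chart ring. -/
lemma aeval_frac_eq_zero (J : HI σ R) (c : σ) (f : MvPolynomial σ R) (hf : f ∈ J.toIdeal) :
    aeval (frac J c) f = 0 := by
  classical
  rw [← DirectSum.sum_support_decompose (homogeneousSubmodule σ R) f, map_sum]
  refine Finset.sum_eq_zero (fun n _ => ?_)
  have h1 := J.isHomogeneous n hf
  apply chVal_injective
  have hu : IsUnit (algebraMap (MvPolynomial σ R ⧸ J.toIdeal) (Localization.Away (gen J c))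
    (gen J c) ^ n) := (IsLocalization.Away.algebraMap_isUnit _).pow n
  apply hu.mul_left_cancel
  rw [chVal_aeval J c (DirectSum.decompose (homogeneousSubmodule σ R) f n).2,
    Ideal.Quotient.eq_zero_iff_mem.2 h1]
  simp

/-- (G1) the chart ring is generated by the fractions. -/
lemma aeval_frac_surjective (J : HI σ R) (c : σ) :
    Function.Surjective (aeval (frac J c) : MvPolynomial σ R →ₐ[R] Ch J c) := by
  intro x
  obtain ⟨n, y, hy, rfl⟩ := HomogeneousLocalization.Away.mk_surjective (qgrad J.toIdeal)
    (gen_mem J c) x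
  obtain ⟨f, hf, rfl⟩ := mem_qgrad.1 hy
  have hf' : f.IsHomogeneous n := by simpa using hf
  refine ⟨f, ?_⟩
  apply chVal_injective
  have hu : IsUnit (algebraMap (MvPolynomial σ R ⧸ J.toIdeal) (Localization.Away (gen J c))
    (gen J c) ^ n) := (IsLocalization.Away.algebraMap_isUnit _).pow n
  apply hu.mul_left_cancel
  rw [chVal_aeval J c hf']
  have h : chVal J c (HomogeneousLocalization.Away.mk (qgrad J.toIdeal) (gen_mem J c) n
      (Ideal.Quotient.mk J.toIdeal f) hy) =
    Localization.mk (Ideal.Quotient.mk J.toIdeal f)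
      (⟨gen J c ^ n, ⟨n, rfl⟩⟩ : Submonoid.powers (gen J c)) := by
    rfl
  rw [h, ← map_pow, ← Localization.mk_one_eq_algebraMap, ← Localization.mk_one_eq_algebraMap,
    Localization.mk_mul, Localization.mk_eq_mk_iff, Localization.r_iff_exists]
  exact ⟨1, by simp⟩

lemma ch_algHom_ext {J : HI σ R} {c : σ} {E : Type*} [CommRing E] [Algebra R E]
    (f g : Ch J c →ₐ[R] E) (h : ∀ a, f (frac J c a) = g (frac J c a)) : f = g := by
  apply AlgHom.ext
  intro x
  obtain ⟨q, rfl⟩ := aeval_frac_surjective J c x
  rw [← AlgHom.comp_apply, ← AlgHom.comp_apply, comp_aeval, comp_aeval]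
  congr 2
  funext a
  exact h a

/-- auxiliary map out of the quotient. -/
noncomputable def qLift (J : HI σ R) {E : Type*} [CommRing E] [Algebra R E]
    (u : σ → E) (hu : ∀ f ∈ J.toIdeal, aeval u f = 0) :
    (MvPolynomial σ R ⧸ J.toIdeal) →ₐ[R] E :=
  Ideal.Quotient.liftₐ J.toIdeal (aeval u) hu

lemma qLift_gen (J : HI σ R) {E : Type*} [CommRing E] [Algebra R E]
    (u : σ → E) (hu : ∀ f ∈ J.toIdeal, aeval u f = 0) (a : σ) :
    qLift J u hu (gen J a) = u a := by
  change aeval u (X a) = u a
  rw [aeval_X]

lemma qLift_unit (J : HI σ R) (c : σ) {E : Type*} [CommRing E] [Algebra R E]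
    (u : σ → E) (hc : u c = 1) (hu : ∀ f ∈ J.toIdeal, aeval u f = 0)
    (y : Submonoid.powers (gen J c)) : IsUnit (qLift J u hu (y : _ ⧸ J.toIdeal)) := by
  obtain ⟨_, n, rfl⟩ := y
  simp only
  rw [map_pow, qLift_gen, hc, one_pow]
  exact isUnit_one

/-- (G2) the universal property. -/
noncomputable def chLift (J : HI σ R) (c : σ) {E : Type*} [CommRing E] [Algebra R E]
    (u : σ → E) (hc : u c = 1) (hu : ∀ f ∈ J.toIdeal, aeval u f = 0) : Ch J c →ₐ[R] E :=
  (IsLocalization.liftAlgHom (M := Submonoid.powers (gen J c))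
    (S := Localization.Away (gen J c))
    (f := qLift J u hu) (qLift_unit J c u hc hu)).comp (chVal J c)

lemma chLift_frac (J : HI σ R) (c : σ) {E : Type*} [CommRing E] [Algebra R E]
    (u : σ → E) (hc : u c = 1) (hu : ∀ f ∈ J.toIdeal, aeval u f = 0) (a : σ) :
    chLift J c u hc hu (frac J c a) = u a := by
  have h1 := congrArg (IsLocalization.liftAlgHom (M := Submonoid.powers (gen J c))
    (S := Localization.Away (gen J c))
    (f := qLift J u hu) (qLift_unit J c u hc hu)) (chVal_frac J c a)
  have key : ∀ b, (IsLocalization.liftAlgHom (M := Submonoid.powers (gen J c))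
    (S := Localization.Away (gen J c))
    (f := qLift J u hu) (qLift_unit J c u hc hu)) (algebraMap _ _ (gen J b)) = u b := by
    intro b
    rw [IsLocalization.liftAlgHom_apply, IsLocalization.lift_eq]
    exact qLift_gen J u hu b
  rw [map_mul, key, key, hc, one_mul] at h1
  exact h1

end Pool.Agent.Helper198.Sch
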