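import Pool.Agent.Helper198.SchB

open MvPolynomial DirectSum AlgebraicGeometry CategoryTheory Limits

namespace Pool.Agent.Helper198.Sch

attribute [local instance] MvPolynomial.gradedAlgebra

variable {σ : Type} {R : Type} [CommRing R]

/-- The projective scheme `V_+(J)`. -/
noncomputable def V (J : HI σ R) : Scheme.{0} := Proj (qgrad J.toIdeal)

namespace V

/-- structure map -/
noncomputable def str (J : HI σ R) : V J ⟶ Spec (.of R) :=
  Proj.toSpecZero (qgrad J.toIdeal) ≫
    Spec.map (CommRingCat.ofHom (algebraMap R (qgrad J.toIdeal 0)))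

/-- the chart `w_c ≠ 0`. -/
noncomputable def chart (J : HI σ R) (c : σ) : Spec (.of (Ch J c)) ⟶ V J :=
  Proj.awayι (qgrad J.toIdeal) (gen J c) (gen_mem J c) one_pos

instance (J : HI σ R) (c : σ) : IsOpenImmersion (chart J c) :=
  inferInstanceAs (IsOpenImmersion (Proj.awayι (qgrad J.toIdeal) (gen J c) (gen_mem J c) one_pos))

lemma chart_str (J : HI σ R) (c : σ) :
    chart J c ≫ str J = Spec.map (CommRingCat.ofHom (algebraMap R (Ch J c))) := by
  have h := Proj.awayι_toSpecZero (qgrad J.toIdeal) (gen J c) (gen_mem J c) one_pos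
  have h2 : chart J c ≫ str J = (Proj.awayι (qgrad J.toIdeal) (gen J c) (gen_mem J c) one_pos ≫
      Proj.toSpecZero (qgrad J.toIdeal)) ≫
    Spec.map (CommRingCat.ofHom (algebraMap R (qgrad J.toIdeal 0))) :=
      (Category.assoc _ _ _).symm
  rw [h2, h, ← Spec.map_comp]
  rfl

/-- the open `w_c ≠ 0`. -/
noncomputable def D (J : HI σ R) (c : σ) : (V J).Opens :=
  Proj.basicOpen (qgrad J.toIdeal) (gen J c)

lemma opensRange_chart (J : HI σ R) (c : σ) : (chart J c).opensRange = D J c :=
  Proj.opensRange_awayι _ _ _ _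

lemma irrelevant_le (J : HI σ R) :
    (HomogeneousIdeal.irrelevant (qgrad J.toIdeal)).toIdeal ≤ Ideal.span (Set.range (gen J)) := by
  refine (HomogeneousIdeal.toIdeal_irrelevant_le _).2 ?_
  intro i hi x hx
  obtain ⟨f, hf, rfl⟩ := mem_qgrad.1 hx
  have h1 : f ∈ Ideal.span (Set.range (X : σ → MvPolynomial σ R)) := by
    rw [← Set.image_univ, MvPolynomial.mem_ideal_span_X_image]
    intro m hm
    have h2 := hf.degree_eq_sum_deg_support hm
    by_contra hcon
    push Not at hcon
    have h3 : m = 0 := by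
      ext a
      exact hcon a (Set.mem_univ _)
    rw [h3] at h2
    simp at h2
    omega
  have h2 := Ideal.mem_map_of_mem (Ideal.Quotient.mk J.toIdeal) h1
  rw [Ideal.map_span, ← Set.range_comp] at h2
  exact h2

lemma exists_mem_D (J : HI σ R) (x : V J) : ∃ c, x ∈ D J c := by
  have h := Proj.iSup_basicOpen_eq_top (qgrad J.toIdeal) (gen J) (irrelevant_le J)
  have hx : x ∈ (⨆ i, Proj.basicOpen (qgrad J.toIdeal) (gen J i)) := by
    rw [h]; trivial
  exact TopologicalSpace.Opens.mem_iSup.1 hx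

lemma mem_range_chart (J : HI σ R) (c : σ) (x : V J) :
    x ∈ Set.range (chart J c) ↔ x ∈ D J c := by
  rw [← opensRange_chart]
  rfl

/-- The open cover by charts. -/
noncomputable def coverOf (J : HI σ R) {ι : Type} (e : ι → σ) (h : ∀ x : V J, ∃ i, x ∈ D J (e i)) :
    (V J).AffineOpenCover where
  I₀ := ι
  X i := .of (Ch J (e i))
  f i := chart J (e i)
  idx x := (h x).choose
  covers x := (mem_range_chart J _ x).2 (h x).choose_spec

/-- The open cover by all charts. -/
noncomputable def cover (J : HI σ R) : (V J).AffineOpenCover := coverOf J id (exists_mem_D J)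

section map

variable {R' : Type} [CommRing R']

/-- maps between homogeneous ideals over a ring map. -/
abbrev Rel (φ : R →+* R') (J : HI σ R) (J' : HI σ R') : Prop :=
  J.toIdeal ≤ J'.toIdeal.comap (MvPolynomial.map φ)

/-- the graded ring map. -/
noncomputable def qmap (φ : R →+* R') (J : HI σ R) (J' : HI σ R') (h : Rel φ J J') :
    qgrad J.toIdeal →+*ᵍ qgrad J'.toIdeal where
  toRingHom := Ideal.quotientMap J'.toIdeal (MvPolynomial.map φ) h
  map_mem := by
    intro i x hx
    obtain ⟨f, hf, rfl⟩ := mem_qgrad.1 hx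
    exact mk_mem_qgrad (hf.map φ)

lemma qmap_gen (φ : R →+* R') (J : HI σ R) (J' : HI σ R') (h : Rel φ J J') (s : σ) :
    qmap φ J J' h (gen J s) = gen J' s := by
  change Ideal.quotientMap J'.toIdeal (MvPolynomial.map φ) h (Ideal.Quotient.mk _ (X s)) = _
  rw [Ideal.quotientMap_mk, map_X]
  rfl

lemma qmap_irr (φ : R →+* R') (J : HI σ R) (J' : HI σ R') (h : Rel φ J J') :
    HomogeneousIdeal.irrelevant (qgrad J'.toIdeal) ≤
      HomogeneousIdeal.map (qmap φ J J' h) (HomogeneousIdeal.irrelevant (qgrad J.toIdeal)) := by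
  change (HomogeneousIdeal.irrelevant (qgrad J'.toIdeal)).toIdeal ≤ _
  refine le_trans (irrelevant_le J') ?_
  rw [Ideal.span_le]
  rintro _ ⟨s, rfl⟩
  rw [← qmap_gen φ J J' h s]
  refine Ideal.mem_map_of_mem _ ?_
  exact HomogeneousIdeal.mem_irrelevant_of_mem _ one_pos (gen_mem J s)

/-- The map of schemes `V(J') → V(J)`. -/
noncomputable def map (φ : R →+* R') (J : HI σ R) (J' : HI σ R') (h : Rel φ J J') :
    V J' ⟶ V J :=
  Proj.map (qmap φ J J' h) (qmap_irr φ J J' h)

lemma map_preimage (φ : R →+* R') (J : HI σ R) (J' : HI σ R') (h : Rel φ J J') (c : σ) :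
    map φ J J' h ⁻¹ᵁ D J c = D J' c := by
  have := Proj.map_preimage_basicOpen (qmap φ J J' h) (qmap_irr φ J J' h) (gen J c)
  rw [qmap_gen] at this
  exact this

/-- the map of chart rings. -/
noncomputable def chMap (φ : R →+* R') (J : HI σ R) (J' : HI σ R') (h : Rel φ J J') (c : σ) :
    Ch J c →+* Ch J' c :=
  HomogeneousLocalization.map (qmap φ J J' h) (P := Submonoid.powers (gen J c))
    (Q := Submonoid.powers (gen J' c)) (by
      rw [Submonoid.powers_le]
      exact ⟨1, by simp [qmap_gen]⟩)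

lemma chMap_frac (φ : R →+* R') (J : HI σ R) (J' : HI σ R') (h : Rel φ J J') (c a : σ) :
    chMap φ J J' h c (frac J c a) = frac J' c a := by
  apply HomogeneousLocalization.val_injective
  unfold chMap frac
  change (Localization.mk (qmap φ J J' h (gen J a)) ⟨qmap φ J J' h (gen J c ^ 1), _⟩ :
    Localization.Away (gen J' c)) = Localization.mk (gen J' a) ⟨gen J' c ^ 1, _⟩
  congr 1
  · exact qmap_gen φ J J' h a
  · apply Subtype.ext
    simp [qmap_gen]

lemma chMap_algebraMap (φ : R →+* R') (J : HI σ R) (J' : HI σ R') (h : Rel φ J J') (c : σ)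
    (r : R) : chMap φ J J' h c (algebraMap R (Ch J c) r) = algebraMap R' (Ch J' c) (φ r) := by
  apply HomogeneousLocalization.val_injective
  change (Localization.mk (qmap φ J J' h (Ideal.Quotient.mk J.toIdeal (C r)))
      ⟨qmap φ J J' h 1, _⟩ :
    Localization.Away (gen J' c)) = Localization.mk (Ideal.Quotient.mk J'.toIdeal (C (φ r))) ⟨1, _⟩
  congr 1
  · change Ideal.quotientMap J'.toIdeal (MvPolynomial.map φ) h (Ideal.Quotient.mk _ (C r)) = _
    rw [Ideal.quotientMap_mk, map_C]
  · apply Subtype.ext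
    simp

lemma awayι_comp_map' {A B : Type} [CommRing A] [CommRing B] {τ υ : Type}
    [SetLike τ A] [SetLike υ B] [AddSubgroupClass τ A] [AddSubgroupClass υ B]
    {𝒜 : ℕ → τ} {ℬ : ℕ → υ} [GradedRing 𝒜] [GradedRing ℬ] (f : 𝒜 →+*ᵍ ℬ)
    (hf : HomogeneousIdeal.irrelevant ℬ ≤ HomogeneousIdeal.map f (HomogeneousIdeal.irrelevant 𝒜))
    {i : ℕ} (hi : 0 < i) (s : A) (hs : s ∈ 𝒜 i) (s' : B) (hs' : s' ∈ ℬ i) (h : f s = s')
    (hle : Submonoid.powers s ≤ (Submonoid.powers s').comap f) :
    Proj.awayι ℬ s' hs' hi ≫ Proj.map f hf =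
      Spec.map (CommRingCat.ofHom (HomogeneousLocalization.map f hle)) ≫
        Proj.awayι 𝒜 s hs hi := by
  subst h
  exact Proj.awayι_comp_map f hf hi s hs

lemma chart_map (φ : R →+* R') (J : HI σ R) (J' : HI σ R') (h : Rel φ J J') (c : σ) :
    chart J' c ≫ map φ J J' h = Spec.map (CommRingCat.ofHom (chMap φ J J' h c)) ≫ chart J c :=
  awayι_comp_map' _ _ _ _ _ _ _ (qmap_gen φ J J' h c) _

lemma isPullback_chart (φ : R →+* R') (J : HI σ R) (J' : HI σ R') (h : Rel φ J J') (c : σ) :
    IsPullback (Spec.map (CommRingCat.ofHom (chMap φ J J' h c))) (chart J' c) (chart J c)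
      (map φ J J' h) := by
  apply IsOpenImmersion.isPullback
  · exact chart_map φ J J' h c
  · rw [opensRange_chart, opensRange_chart, map_preimage]

lemma map_str (φ : R →+* R') (J : HI σ R) (J' : HI σ R') (h : Rel φ J J') :
    map φ J J' h ≫ str J = str J' ≫ Spec.map (CommRingCat.ofHom φ) := by
  apply (cover J').openCover.hom_ext
  intro (c : σ)
  change chart J' c ≫ _ = chart J' c ≫ _
  rw [← Category.assoc, chart_map, Category.assoc, chart_str, ← Category.assoc, chart_str,
    ← Spec.map_comp, ← Spec.map_comp, ← CommRingCat.ofHom_comp, ← CommRingCat.ofHom_comp]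
  congr 2
  ext r
  exact chMap_algebraMap φ J J' h c r

end map

end V

end Pool.Agent.Helper198.Sch
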