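import Pool.Agent.Helper198.SchC

open MvPolynomial DirectSum AlgebraicGeometry CategoryTheory Limits

namespace Pool.Agent.Helper198.Sch

attribute [local instance] MvPolynomial.gradedAlgebra

variable {σ : Type} {R : Type} [CommRing R]

/-- extensionality for ring maps out of chart rings. -/
lemma ch_ringHom_ext {J : HI σ R} {c : σ} {E : Type*} [CommRing E]
    (f g : Ch J c →+* E) (h1 : ∀ r, f (algebraMap R (Ch J c) r) = g (algebraMap R (Ch J c) r))
    (h2 : ∀ a, f (frac J c a) = g (frac J c a)) : f = g := by
  algebraize [f.comp (algebraMap R (Ch J c))]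
  let f' : Ch J c →ₐ[R] E := { f with commutes' := fun r => rfl }
  let g' : Ch J c →ₐ[R] E := { g with commutes' := fun r => (h1 r).symm }
  have h : f' = g' := ch_algHom_ext f' g' h2
  ext x
  exact DFunLike.congr_fun h x

namespace V

variable {R' : Type} [CommRing R']

lemma chMap_comp {R'' : Type} [CommRing R''] (φ : R →+* R') (ψ : R' →+* R'')
    (J : HI σ R) (J' : HI σ R') (J'' : HI σ R'') (h : Rel φ J J') (h' : Rel ψ J' J'')
    (h'' : Rel (ψ.comp φ) J J'') (c : σ) :
    (chMap ψ J' J'' h' c).comp (chMap φ J J' h c) = chMap (ψ.comp φ) J J'' h'' c := by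
  apply ch_ringHom_ext
  · intro r
    rw [RingHom.comp_apply, chMap_algebraMap, chMap_algebraMap, chMap_algebraMap]
    rfl
  · intro a
    rw [RingHom.comp_apply, chMap_frac, chMap_frac, chMap_frac]

lemma map_comp {R'' : Type} [CommRing R''] (φ : R →+* R') (ψ : R' →+* R'')
    (J : HI σ R) (J' : HI σ R') (J'' : HI σ R'') (h : Rel φ J J') (h' : Rel ψ J' J'')
    (h'' : Rel (ψ.comp φ) J J'') :
    map ψ J' J'' h' ≫ map φ J J' h = map (ψ.comp φ) J J'' h'' := by
  apply (cover J'').openCover.hom_ext
  intro (c : σ)
  change chart J'' c ≫ _ = chart J'' c ≫ _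
  rw [← Category.assoc, chart_map, Category.assoc, chart_map, chart_map,
    ← chMap_comp φ ψ J J' J'' h h' h'', CommRingCat.ofHom_comp, Spec.map_comp, Category.assoc]

/-- check a target-local property on the charts. -/
lemma of_charts_target (P : MorphismProperty Scheme.{0}) [IsZariskiLocalAtTarget P]
    (J : HI σ R) {W : Scheme.{0}} (f : W ⟶ V J) {U : σ → Scheme.{0}} (i : ∀ c, U c ⟶ W)
    (f' : ∀ c, U c ⟶ Spec (.of (Ch J c))) (h : ∀ c, IsPullback (i c) (f' c) f (chart J c))
    (hP : ∀ c, P (f' c)) : P f := by
  apply IsZariskiLocalAtTarget.of_openCover (cover J).openCover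
  intro (c : σ)
  change P (pullback.snd f (chart J c))
  have h1 : pullback.snd f (chart J c) = (h c).isoPullback.inv ≫ f' c := by simp
  rw [h1]
  exact (MorphismProperty.cancel_left_of_respectsIso P _ _).2 (hP c)

/-- A map all of whose chart maps are surjective is a closed immersion. -/
lemma isClosedImmersion_map (φ : R →+* R') (J : HI σ R) (J' : HI σ R') (h : Rel φ J J')
    (hs : ∀ c, Function.Surjective (chMap φ J J' h c)) : IsClosedImmersion (map φ J J' h) := by
  apply of_charts_target @IsClosedImmersion J (map φ J J' h)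
    (fun c => chart J' c) (fun c => Spec.map (CommRingCat.ofHom (chMap φ J J' h c)))
    (fun c => (isPullback_chart φ J J' h c).flip)
  intro c
  exact IsClosedImmersion.spec_of_surjective _ (hs c)

lemma chMap_id_surjective (J J' : HI σ R) (h : Rel (RingHom.id R) J J') (c : σ) :
    Function.Surjective (chMap (RingHom.id R) J J' h c) := by
  intro x
  obtain ⟨q, rfl⟩ := aeval_frac_surjective J' c x
  refine ⟨aeval (frac J c) q, ?_⟩
  rw [aeval_def, aeval_def, hom_eval₂]
  congr 1
  · ext r
    exact chMap_algebraMap _ _ _ _ _ r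
  · funext a
    exact chMap_frac _ _ _ _ _ a

instance isClosedImmersion_map_id (J J' : HI σ R) (h : Rel (RingHom.id R) J J') :
    IsClosedImmersion (map (RingHom.id R) J J' h) :=
  isClosedImmersion_map _ _ _ _ (chMap_id_surjective J J' h)

/-- the pushout square of chart rings under base change. -/
lemma isPushout_chart (φ : R →+* R') (J : HI σ R) (J' : HI σ R') (h : Rel φ J J')
    (h' : J'.toIdeal ≤ J.toIdeal.map (MvPolynomial.map φ)) (c : σ) :
    IsPushout (CommRingCat.ofHom (algebraMap R (Ch J c))) (CommRingCat.ofHom φ)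
      (CommRingCat.ofHom (chMap φ J J' h c)) (CommRingCat.ofHom (algebraMap R' (Ch J' c))) := by
  refine ⟨⟨?_⟩, ⟨?_⟩⟩
  · ext r
    exact chMap_algebraMap φ J J' h c r
  · have key : ∀ (s : PushoutCocone (CommRingCat.ofHom (algebraMap R (Ch J c)))
        (CommRingCat.ofHom φ)), ∃ m : Ch J' c →+* s.pt,
        (∀ x, m (chMap φ J J' h c x) = s.inl.hom x) ∧
        (∀ r, m (algebraMap R' (Ch J' c) r) = s.inr.hom r) := by
      intro s
      let : Algebra R' s.pt := s.inr.hom.toAlgebra
      have hw : ∀ r, s.inl.hom (algebraMap R (Ch J c) r) = s.inr.hom (φ r) := by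
        intro r
        have := s.condition
        exact congrArg (fun f => f.hom r) this
      have h1 : ∀ f ∈ J'.toIdeal, aeval (fun a => s.inl.hom (frac J c a)) f = 0 := by
        intro f hf
        have h2 : J'.toIdeal ≤
            RingHom.ker (aeval (fun a => s.inl.hom (frac J c a)) :
              MvPolynomial σ R' →ₐ[R'] s.pt).toRingHom := by
          refine h'.trans ?_
          rw [Ideal.map_le_iff_le_comap]
          intro g hg
          rw [Ideal.mem_comap, RingHom.mem_ker]
          change aeval (fun a => s.inl.hom (frac J c a)) (MvPolynomial.map φ g) = 0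
          rw [aeval_def, eval₂_map]
          have h3 : (algebraMap R' s.pt).comp φ = s.inl.hom.comp (algebraMap R (Ch J c)) := by
            ext r
            exact (hw r).symm
          rw [h3, ← hom_eval₂, ← aeval_def, aeval_frac_eq_zero J c g hg,
            map_zero]
        exact h2 hf
      have hc1 : (fun a => s.inl.hom (frac J c a)) c = 1 := by
        change s.inl.hom (frac J c c) = 1
        rw [frac_self, map_one]
      let L : Ch J' c →ₐ[R'] s.pt := chLift J' c (fun a => s.inl.hom (frac J c a)) hc1 h1
      have hL : ∀ a, L (frac J' c a) = s.inl.hom (frac J c a) := fun a => chLift_frac _ _ _ _ _ a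
      have hL2 : ∀ r, L (algebraMap R' (Ch J' c) r) = s.inr.hom r := by
        intro r
        rw [AlgHom.commutes]
        rfl
      refine ⟨L, ?_, hL2⟩
      intro x
      have h4 : (L : Ch J' c →+* s.pt).comp (chMap φ J J' h c) = s.inl.hom := by
        apply ch_ringHom_ext
        · intro r
          rw [RingHom.comp_apply, chMap_algebraMap, hw]
          exact hL2 (φ r)
        · intro a
          rw [RingHom.comp_apply, chMap_frac]
          exact hL a
      exact DFunLike.congr_fun h4 x
    choose m hm1 hm2 using key
    refine PushoutCocone.IsColimit.mk _ (fun s => CommRingCat.ofHom (m s)) ?_ ?_ ?_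
    · intro s
      ext x
      exact hm1 s x
    · intro s
      ext x
      exact hm2 s x
    · intro s m' h1 h2
      ext x
      have : m'.hom = m s := by
        apply ch_ringHom_ext
        · intro r
          rw [hm2]
          exact congrArg (fun f => f.hom r) h2
        · intro a
          rw [← chMap_frac φ J J' h c a, hm1]
          exact congrArg (fun f => f.hom (frac J c a)) h1
      exact DFunLike.congr_fun this x

/-- Base change. -/
lemma isPullback_map (φ : R →+* R') (J : HI σ R) (J' : HI σ R') (h : Rel φ J J')
    (h' : J'.toIdeal ≤ J.toIdeal.map (MvPolynomial.map φ)) :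
    IsPullback (map φ J J' h) (str J') (str J) (Spec.map (CommRingCat.ofHom φ)) := by
  apply Scheme.isPullback_of_openCover _ _ _ _ (cover J).openCover
  intro (c : σ)
  change IsPullback (pullback.snd (map φ J J' h) (chart J c))
    (pullback.fst (map φ J J' h) (chart J c) ≫ str J') (chart J c ≫ str J) _
  have h1 := isPullback_SpecMap_of_isPushout _ _ _ _ (isPushout_chart φ J J' h h' c)
  have h2 := (isPullback_chart φ J J' h c).flip
  refine IsPullback.of_iso h1 h2.isoPullback (Iso.refl _) (Iso.refl _) (Iso.refl _) ?_ ?_ ?_ ?_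
  · simp
  · rw [← Category.assoc, h2.isoPullback_hom_fst, chart_str]
    simp
  · simp [chart_str]
  · simp

end V

end Pool.Agent.Helper198.Sch
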