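import Pool.Agent.Helper198.SchD

open MvPolynomial

namespace Pool.Agent.Helper198.Sch

attribute [local instance] MvPolynomial.gradedAlgebra

variable {σ : Type} {R : Type} [CommRing R]

/-- Homogeneous ideal spanned by a set of homogeneous polynomials. -/
noncomputable def HI.ofSet (S : Set (MvPolynomial σ R)) (h : ∀ f ∈ S, ∃ n, f.IsHomogeneous n) :
    HI σ R where
  toSubmodule := Ideal.span S
  is_homogeneous' := Ideal.homogeneous_span (homogeneousSubmodule σ R) S (fun f hf => h f hf)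

lemma HI.ofSet_toIdeal (S : Set (MvPolynomial σ R)) (h : ∀ f ∈ S, ∃ n, f.IsHomogeneous n) :
    (HI.ofSet S h).toIdeal = Ideal.span S := rfl

lemma aeval_ofSet {S : Set (MvPolynomial σ R)} {h : ∀ f ∈ S, ∃ n, f.IsHomogeneous n}
    {E : Type*} [CommRing E] [Algebra R E] (u : σ → E) (hu : ∀ f ∈ S, aeval u f = 0) :
    ∀ f ∈ (HI.ofSet S h).toIdeal, aeval u f = 0 := by
  intro f hf
  have h2 : (HI.ofSet S h).toIdeal ≤
      RingHom.ker (aeval u : MvPolynomial σ R →ₐ[R] E).toRingHom := by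
    rw [HI.ofSet_toIdeal, Ideal.span_le]
    intro g hg
    exact hu g hg
  exact h2 hf

lemma mem_ofSet {S : Set (MvPolynomial σ R)} {h : ∀ f ∈ S, ∃ n, f.IsHomogeneous n}
    {f : MvPolynomial σ R} (hf : f ∈ S) : f ∈ (HI.ofSet S h).toIdeal :=
  Ideal.subset_span hf

lemma rel_ofSet {R' : Type} [CommRing R'] (φ : R →+* R') {S : Set (MvPolynomial σ R)}
    {h : ∀ f ∈ S, ∃ n, f.IsHomogeneous n} {S' : Set (MvPolynomial σ R')}
    {h' : ∀ f ∈ S', ∃ n, f.IsHomogeneous n} (hS : ∀ f ∈ S, MvPolynomial.map φ f ∈ S') :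
    V.Rel φ (HI.ofSet S h) (HI.ofSet S' h') := by
  rw [V.Rel, HI.ofSet_toIdeal, Ideal.span_le]
  intro f hf
  exact mem_ofSet (h := h') (hS f hf)

lemma le_map_ofSet {R' : Type} [CommRing R'] (φ : R →+* R') {S : Set (MvPolynomial σ R)}
    {h : ∀ f ∈ S, ∃ n, f.IsHomogeneous n} {S' : Set (MvPolynomial σ R')}
    {h' : ∀ f ∈ S', ∃ n, f.IsHomogeneous n} (hS : ∀ f ∈ S', ∃ g ∈ S, MvPolynomial.map φ g = f) :
    (HI.ofSet S' h').toIdeal ≤ (HI.ofSet S h).toIdeal.map (MvPolynomial.map φ) := by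
  rw [HI.ofSet_toIdeal, Ideal.span_le]
  intro f hf
  obtain ⟨g, hg, rfl⟩ := hS f hf
  exact Ideal.mem_map_of_mem _ (mem_ofSet hg)

/-! ### The equations -/

/-- index set of the Segre coordinates `w_{ab} = z_a y_b`. -/
abbrev Idx := Fin 3 × Fin 3

/-- `w_ab w_cd - w_ad w_cb`. -/
noncomputable def minorP (R : Type) [CommRing R] (q : (Fin 3 × Fin 3) × (Fin 3 × Fin 3)) :
    MvPolynomial Idx R :=
  X (q.1.1, q.1.2) * X (q.2.1, q.2.2) - X (q.1.1, q.2.2) * X (q.2.1, q.1.2)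

/-- `sum w_aa`. -/
noncomputable def traceP (R : Type) [CommRing R] : MvPolynomial Idx R := ∑ a : Fin 3, X (a, a)

/-- `sum_a w_ab^(p-1) w_aa`. -/
noncomputable def powP (p : ℕ) (R : Type) [CommRing R] (b : Fin 3) : MvPolynomial Idx R :=
  ∑ a : Fin 3, X (a, b) ^ (p - 1) * X (a, a)

/-- `sum_b α_b^p w_ab`. -/
noncomputable def linP (p : ℕ) {R : Type} [CommRing R] (α : Fin 3 → R) (a : Fin 3) :
    MvPolynomial Idx R :=
  ∑ b : Fin 3, C (α b ^ p) * X (a, b)

/-- equations of `X`. -/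
def setX (p : ℕ) (R : Type) [CommRing R] : Set (MvPolynomial Idx R) :=
  Set.range (minorP R) ∪ {traceP R} ∪ Set.range (powP p R)

/-- equations of `C_α`. -/
def setC (p : ℕ) {R : Type} [CommRing R] (α : Fin 3 → R) : Set (MvPolynomial Idx R) :=
  setX p R ∪ Set.range (linP p α)

lemma setX_hom (p : ℕ) (R : Type) [CommRing R] : ∀ f ∈ setX p R, ∃ n, f.IsHomogeneous n := by
  rintro f ((⟨q, rfl⟩ | rfl) | ⟨b, rfl⟩)
  · exact ⟨2, ((isHomogeneous_X R _).mul (isHomogeneous_X R _)).sub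
      ((isHomogeneous_X R _).mul (isHomogeneous_X R _))⟩
  · exact ⟨1, IsHomogeneous.sum _ _ _ (fun a _ => isHomogeneous_X R _)⟩
  · exact ⟨1 * (p - 1) + 1, IsHomogeneous.sum _ _ _
      (fun a _ => ((isHomogeneous_X R _).pow _).mul (isHomogeneous_X R _))⟩

lemma setC_hom (p : ℕ) {R : Type} [CommRing R] (α : Fin 3 → R) :
    ∀ f ∈ setC p α, ∃ n, f.IsHomogeneous n := by
  rintro f (hf | ⟨a, rfl⟩)
  · exact setX_hom p R f hf
  · exact ⟨1, IsHomogeneous.sum _ _ _ (fun b _ => isHomogeneous_C_mul_X _ _)⟩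

/-- ideal of the surface. -/
noncomputable def JX (p : ℕ) (R : Type) [CommRing R] : HI Idx R := HI.ofSet (setX p R) (setX_hom p R)

/-- ideal of the curve. -/
noncomputable def JC (p : ℕ) {R : Type} [CommRing R] (α : Fin 3 → R) : HI Idx R :=
  HI.ofSet (setC p α) (setC_hom p α)

/-- satisfaction of the equations of `X`. -/
structure SatX (p : ℕ) {E : Type*} [CommRing E] (u : Idx → E) : Prop where
  minor : ∀ a b c d, u (a, b) * u (c, d) = u (a, d) * u (c, b)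
  trace : ∑ a : Fin 3, u (a, a) = 0
  pow : ∀ b, ∑ a : Fin 3, u (a, b) ^ (p - 1) * u (a, a) = 0

/-- satisfaction of the additional equations of `C_α`. -/
def SatL (p : ℕ) {E : Type*} [CommRing E] (α : Fin 3 → E) (u : Idx → E) : Prop :=
  ∀ a, ∑ b : Fin 3, α b ^ p * u (a, b) = 0

lemma aeval_minorP {E : Type*} [CommRing E] [Algebra R E] (u : Idx → E) (q) :
    aeval u (minorP R q) =
      u (q.1.1, q.1.2) * u (q.2.1, q.2.2) - u (q.1.1, q.2.2) * u (q.2.1, q.1.2) := by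
  simp [minorP]

lemma aeval_traceP {E : Type*} [CommRing E] [Algebra R E] (u : Idx → E) :
    aeval u (traceP R) = ∑ a : Fin 3, u (a, a) := by
  simp [traceP]

lemma aeval_powP (p : ℕ) {E : Type*} [CommRing E] [Algebra R E] (u : Idx → E) (b) :
    aeval u (powP p R b) = ∑ a : Fin 3, u (a, b) ^ (p - 1) * u (a, a) := by
  simp [powP]

lemma aeval_linP (p : ℕ) {E : Type*} [CommRing E] [Algebra R E] (α : Fin 3 → R) (u : Idx → E)
    (a) : aeval u (linP p α a) = ∑ b : Fin 3, (algebraMap R E (α b)) ^ p * u (a, b) := by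
  simp [linP]

lemma satX_iff (p : ℕ) {E : Type*} [CommRing E] [Algebra R E] (u : Idx → E) :
    (∀ f ∈ setX p R, aeval u f = 0) ↔ SatX p u := by
  constructor
  · intro h
    refine ⟨?_, ?_, ?_⟩
    · intro a b c d
      have := h (minorP R ((a, b), (c, d))) (Or.inl (Or.inl ⟨_, rfl⟩))
      rw [aeval_minorP] at this
      exact sub_eq_zero.1 this
    · have := h (traceP R) (Or.inl (Or.inr rfl))
      rwa [aeval_traceP] at this
    · intro b
      have := h (powP p R b) (Or.inr ⟨_, rfl⟩)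
      rwa [aeval_powP] at this
  · rintro h f ((⟨q, rfl⟩ | rfl) | ⟨b, rfl⟩)
    · rw [aeval_minorP, h.minor, sub_self]
    · rw [aeval_traceP, h.trace]
    · rw [aeval_powP, h.pow]

lemma satX_frac (p : ℕ) {J : HI Idx R} (hJ : (JX p R).toIdeal ≤ J.toIdeal) (c : Idx) :
    SatX p (frac J c) :=
  (satX_iff (R := R) p _).1 (fun f hf => aeval_frac_eq_zero J c f (hJ (mem_ofSet hf)))

lemma JX_le_JC (p : ℕ) (α : Fin 3 → R) : (JX p R).toIdeal ≤ (JC p α).toIdeal :=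
  Ideal.span_mono (fun _ hf => Or.inl hf)

lemma satL_frac (p : ℕ) {J : HI Idx R} (α : Fin 3 → R) (hJ : (JC p α).toIdeal ≤ J.toIdeal)
    (c : Idx) : SatL p (fun b => algebraMap R (Ch J c) (α b)) (frac J c) := by
  intro a
  rw [← aeval_linP]
  exact aeval_frac_eq_zero J c _ (hJ (mem_ofSet (Or.inr ⟨a, rfl⟩)))

lemma aeval_JX (p : ℕ) {E : Type*} [CommRing E] [Algebra R E] (u : Idx → E) (h : SatX p u) :
    ∀ f ∈ (JX p R).toIdeal, aeval u f = 0 :=
  aeval_ofSet u ((satX_iff p u).2 h)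

lemma aeval_JC (p : ℕ) {E : Type*} [CommRing E] [Algebra R E] (α : Fin 3 → R) (u : Idx → E)
    (h : SatX p u) (h' : SatL p (fun b => algebraMap R E (α b)) u) :
    ∀ f ∈ (JC p α).toIdeal, aeval u f = 0 := by
  apply aeval_ofSet u
  rintro f (hf | ⟨a, rfl⟩)
  · exact (satX_iff p u).2 h f hf
  · rw [aeval_linP]
    exact h' a

section maps

variable {R' : Type} [CommRing R'] (φ : R →+* R')

lemma map_minorP (q) : MvPolynomial.map φ (minorP R q) = minorP R' q := by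
  simp [minorP]

lemma map_traceP : MvPolynomial.map φ (traceP R) = traceP R' := by
  simp [traceP]

lemma map_powP (p : ℕ) (b) : MvPolynomial.map φ (powP p R b) = powP p R' b := by
  simp [powP]

lemma map_linP (p : ℕ) (α : Fin 3 → R) (a) :
    MvPolynomial.map φ (linP p α a) = linP p (fun b => φ (α b)) a := by
  simp [linP]

lemma map_setX (p : ℕ) : ∀ f ∈ setX p R, MvPolynomial.map φ f ∈ setX p R' := by
  rintro f ((⟨q, rfl⟩ | rfl) | ⟨b, rfl⟩)
  · exact Or.inl (Or.inl ⟨q, (map_minorP φ q).symm⟩)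
  · exact Or.inl (Or.inr (map_traceP φ))
  · exact Or.inr ⟨b, (map_powP φ p b).symm⟩

lemma map_setX' (p : ℕ) : ∀ f ∈ setX p R', ∃ g ∈ setX p R, MvPolynomial.map φ g = f := by
  rintro f ((⟨q, rfl⟩ | rfl) | ⟨b, rfl⟩)
  · exact ⟨minorP R q, Or.inl (Or.inl ⟨q, rfl⟩), (map_minorP φ q)⟩
  · exact ⟨traceP R, Or.inl (Or.inr rfl), (map_traceP φ)⟩
  · exact ⟨powP p R b, Or.inr ⟨b, rfl⟩, map_powP φ p b⟩

lemma rel_JX_JX (p : ℕ) : V.Rel φ (JX p R) (JX p R') := rel_ofSet φ (map_setX φ p)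

lemma rel_JX_JC (p : ℕ) (α : Fin 3 → R') : V.Rel φ (JX p R) (JC p α) :=
  rel_ofSet φ (fun f hf => Or.inl (map_setX φ p f hf))

lemma rel_JC_JC (p : ℕ) (α : Fin 3 → R) (β : Fin 3 → R') (hβ : ∀ b, β b = φ (α b)) :
    V.Rel φ (JC p α) (JC p β) := by
  have : β = fun b => φ (α b) := funext hβ
  subst this
  apply rel_ofSet
  rintro f (hf | ⟨a, rfl⟩)
  · exact Or.inl (map_setX φ p f hf)
  · exact Or.inr ⟨a, (map_linP φ p α a).symm⟩

lemma JX_le_map (p : ℕ) :
    (JX p R').toIdeal ≤ (JX p R).toIdeal.map (MvPolynomial.map φ) :=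
  le_map_ofSet φ (map_setX' φ p)

lemma JC_le_map (p : ℕ) (α : Fin 3 → R) (β : Fin 3 → R') (hβ : ∀ b, β b = φ (α b)) :
    (JC p β).toIdeal ≤ (JC p α).toIdeal.map (MvPolynomial.map φ) := by
  have : β = fun b => φ (α b) := funext hβ
  subst this
  apply le_map_ofSet
  rintro f (hf | ⟨a, rfl⟩)
  · obtain ⟨g, hg, h⟩ := map_setX' φ p f hf
    exact ⟨g, Or.inl hg, h⟩
  · exact ⟨linP p α a, Or.inr ⟨a, rfl⟩, map_linP φ p α a⟩

end maps

end Pool.Agent.Helper198.Sch
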