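import Mathlib

namespace Pool.Agent.Helper198.Sch

section moore

variable {E : Type*} [CommRing E] (p : ℕ)

/-- Moore determinant. -/
def Mo (x y w : E) : E :=
  x * y ^ p * w ^ (p ^ 2) + y * w ^ p * x ^ (p ^ 2) + w * x ^ p * y ^ (p ^ 2)
    - x * w ^ p * y ^ (p ^ 2) - y * x ^ p * w ^ (p ^ 2) - w * y ^ p * x ^ (p ^ 2)

lemma map_Mo {E' : Type*} [CommRing E'] (φ : E →+* E') (x y w : E) :
    φ (Mo p x y w) = Mo p (φ x) (φ y) (φ w) := by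
  simp [Mo]

lemma Mo_scale (x y w t : E) :
    Mo p (t * x) (t * y) (t * w) = t ^ (1 + p + p ^ 2) * Mo p x y w := by
  unfold Mo
  ring

lemma dvd_Mo (hp : p ≠ 0) (x y w : E) : x ∣ Mo p x y w := by
  unfold Mo
  obtain ⟨n, hn⟩ : ∃ n, p = n + 1 := Nat.exists_eq_succ_of_ne_zero hp
  obtain ⟨m, hm⟩ : ∃ m, p ^ 2 = m + 1 := Nat.exists_eq_succ_of_ne_zero (by positivity)
  have h1 : x ∣ x ^ p := by rw [hn]; exact dvd_pow_self _ (by omega)
  have h2 : x ∣ x ^ (p ^ 2) := by rw [hm]; exact dvd_pow_self _ (by omega)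
  have t1 : x ∣ x * y ^ p * w ^ (p ^ 2) := (Dvd.intro _ rfl : x ∣ x * (y ^ p * w ^ (p ^ 2))).trans
    (by rw [mul_assoc])
  have t2 : x ∣ y * w ^ p * x ^ (p ^ 2) := h2.mul_left _
  have t3 : x ∣ w * x ^ p * y ^ (p ^ 2) := (h1.mul_left _).mul_right _
  have t4 : x ∣ x * w ^ p * y ^ (p ^ 2) := (Dvd.intro _ rfl : x ∣ x * (w ^ p * y ^ (p ^ 2))).trans
    (by rw [mul_assoc])
  have t5 : x ∣ y * x ^ p * w ^ (p ^ 2) := (h1.mul_left _).mul_right _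
  have t6 : x ∣ w * y ^ p * x ^ (p ^ 2) := h2.mul_left _
  exact dvd_sub (dvd_sub (dvd_sub (dvd_add (dvd_add t1 t2) t3) t4) t5) t6

lemma Mo_one [Fact p.Prime] [CharP E p] (a b : E) :
    Mo p 1 a b = (a ^ p - a) * (b ^ p - b) ^ p - (b ^ p - b) * (a ^ p - a) ^ p := by
  rw [sub_pow_char, sub_pow_char, ← pow_mul, ← pow_mul]
  unfold Mo
  rw [one_pow, one_pow, ← pow_two]
  ring

lemma Mo_one' [Fact p.Prime] [CharP E p] (a b : E) :
    -Mo p 1 a b = (b ^ p - b) *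
      ((a ^ p - a) * ((a ^ p - a) ^ (p - 1) - (b ^ p - b) ^ (p - 1))) := by
  have hp : p - 1 + 1 = p := Nat.sub_add_cancel (Fact.out (p := p.Prime)).one_lt.le
  rw [Mo_one]
  have h1 : (a ^ p - a) ^ p = (a ^ p - a) ^ (p - 1) * (a ^ p - a) := by
    rw [← pow_succ, hp]
  have h2 : (b ^ p - b) ^ p = (b ^ p - b) ^ (p - 1) * (b ^ p - b) := by
    rw [← pow_succ, hp]
  rw [h1, h2]
  ring

lemma isUnit_of_Mo_one [Fact p.Prime] [CharP E p] {a b : E} (h : IsUnit (Mo p 1 a b)) :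
    IsUnit (b ^ p - b) ∧
      IsUnit ((a ^ p - a) * ((a ^ p - a) ^ (p - 1) - (b ^ p - b) ^ (p - 1))) := by
  have h1 := h.neg
  rw [Mo_one'] at h1
  exact ⟨isUnit_of_mul_isUnit_left h1, isUnit_of_mul_isUnit_right h1⟩

/-- The key identity which shows that `η - η^p` is a unit. -/
lemma key_identity [Fact p.Prime] [CharP E p] (a b z η : E)
    (h : z ^ p * (η - η ^ p) +
      ((a ^ p) ^ p - a ^ p + (b ^ p) ^ p * η ^ p - b ^ p * η) = 0) :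
    (η - η ^ p) * ((η - η ^ p) ^ (p - 1) * ((b ^ p) ^ p - z ^ p) ^ p
      - ((b ^ p - b) ^ p) ^ (p - 1) * ((b ^ p) ^ p - z ^ p) + ((b ^ p - b) ^ p) ^ p) =
      ((a ^ p - a) * ((a ^ p - a) ^ (p - 1) - (b ^ p - b) ^ (p - 1))) ^ p := by
  have hp : p - 1 + 1 = p := Nat.sub_add_cancel (Fact.out (p := p.Prime)).one_lt.le
  set A := η - η ^ p with hA
  set κ := (b ^ p) ^ p - z ^ p with hκ
  have hB : (b ^ p - b) ^ p = (b ^ p) ^ p - b ^ p := sub_pow_char _ _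
  have hF : (a ^ p - a) ^ p = (a ^ p) ^ p - a ^ p := sub_pow_char _ _
  set Eb := (b ^ p - b) ^ p with hEb
  set F := (a ^ p - a) ^ p with hFdef
  have h1 : Eb * η + F = κ * A := by
    rw [hB, hF, hκ, hA]
    linear_combination h
  have h2 : Eb ^ p * η ^ p + F ^ p = κ ^ p * A ^ p := by
    rw [← mul_pow, ← mul_pow, ← h1, add_pow_char]
  have h3 : A ^ p = A ^ (p - 1) * A := by rw [← pow_succ, hp]
  have h4 : Eb ^ p = Eb ^ (p - 1) * Eb := by rw [← pow_succ, hp]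
  have h5 : ((a ^ p - a) * ((a ^ p - a) ^ (p - 1) - (b ^ p - b) ^ (p - 1))) ^ p =
      F * (F ^ (p - 1) - Eb ^ (p - 1)) := by
    have e1 : ((a ^ p - a) ^ (p - 1) - (b ^ p - b) ^ (p - 1)) ^ p =
      ((a ^ p - a) ^ (p - 1)) ^ p - ((b ^ p - b) ^ (p - 1)) ^ p := sub_pow_char _ _
    have e2 : ((a ^ p - a) ^ (p - 1)) ^ p = F ^ (p - 1) := by
      rw [hFdef, ← pow_mul (a ^ p - a) (p - 1) p, ← pow_mul (a ^ p - a) p (p - 1), mul_comm]
    have e3 : ((b ^ p - b) ^ (p - 1)) ^ p = Eb ^ (p - 1) := by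
      rw [hEb, ← pow_mul (b ^ p - b) (p - 1) p, ← pow_mul (b ^ p - b) p (p - 1), mul_comm]
    rw [mul_pow, e1, e2, e3]
  have h6 : F ^ p = F ^ (p - 1) * F := by rw [← pow_succ, hp]
  rw [h5]
  have h7 : F = κ * A - Eb * η := by rw [← h1]; ring
  have h8 : F * F ^ (p - 1) = κ ^ p * A ^ p - Eb ^ p * η ^ p := by
    rw [← h2, h6]; ring
  calc A * (A ^ (p - 1) * κ ^ p - Eb ^ (p - 1) * κ + Eb ^ p)
      = κ ^ p * (A ^ (p - 1) * A) - Eb ^ (p - 1) * (κ * A) + Eb ^ p * A := by ring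
    _ = κ ^ p * A ^ p - Eb ^ (p - 1) * (Eb * η + F) + Eb ^ p * (η - η ^ p) := by
        rw [← h3, ← h1]
    _ = (κ ^ p * A ^ p - Eb ^ p * η ^ p) - Eb ^ (p - 1) * F := by rw [h4]; ring
    _ = F * (F ^ (p - 1) - Eb ^ (p - 1)) := by rw [← h8]; ring

lemma isUnit_of_key [Fact p.Prime] [CharP E p] {a b z η : E}
    (h : z ^ p * (η - η ^ p) +
      ((a ^ p) ^ p - a ^ p + (b ^ p) ^ p * η ^ p - b ^ p * η) = 0)
    (hM : IsUnit (Mo p 1 a b)) : IsUnit (η - η ^ p) := by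
  have h1 := ((isUnit_of_Mo_one p hM).2).pow p
  rw [← key_identity p a b z η h] at h1
  exact isUnit_of_mul_isUnit_left h1

end moore

end Pool.Agent.Helper198.Sch
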