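import Pool.Agent.Helper198.SchE
import Pool.Agent.Helper198.SchF

open MvPolynomial

namespace Pool.Agent.Helper198.Sch

attribute [local instance] MvPolynomial.gradedAlgebra

/-- A triple of distinct indices. -/
structure Tri where
  /-- row index -/
  i : Fin 3
  /-- column index -/
  j : Fin 3
  /-- third index -/
  l : Fin 3
  hij : i ≠ j
  hil : i ≠ l
  hjl : j ≠ l

/-- the chart index. -/
def Tri.c (t : Tri) : Idx := (t.i, t.j)

lemma Tri.univ (t : Tri) : (Finset.univ : Finset (Fin 3)) = {t.i, t.j, t.l} := by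
  have h : ∀ i j l : Fin 3, i ≠ j → i ≠ l → j ≠ l →
    (Finset.univ : Finset (Fin 3)) = {i, j, l} := by decide
  exact h _ _ _ t.hij t.hil t.hjl

lemma Tri.sum (t : Tri) {M : Type*} [AddCommMonoid M] (f : Fin 3 → M) :
    ∑ a, f a = f t.i + f t.j + f t.l := by
  rw [t.univ, Finset.sum_insert, Finset.sum_insert, Finset.sum_singleton, add_assoc]
  · simpa using t.hjl
  · simp only [Finset.mem_insert, Finset.mem_singleton, not_or]
    exact ⟨t.hij, t.hil⟩

lemma Tri.cases (t : Tri) (a : Fin 3) : a = t.i ∨ a = t.j ∨ a = t.l := by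
  have := Finset.mem_univ a
  rw [t.univ] at this
  simpa using this

/-- `ζ` coordinates. -/
def Tri.ze (t : Tri) {E : Type*} [CommRing E] (v z : E) (a : Fin 3) : E :=
  if a = t.i then 1 else if a = t.j then v else z

/-- `η` coordinates. -/
def Tri.et (t : Tri) {E : Type*} [CommRing E] (w y : E) (b : Fin 3) : E :=
  if b = t.j then 1 else if b = t.i then w else y

section
variable (t : Tri) {E : Type*} [CommRing E] (v z w y : E)
@[simp] lemma Tri.ze_i : t.ze v z t.i = 1 := by simp [Tri.ze]
@[simp] lemma Tri.ze_j : t.ze v z t.j = v := by simp [Tri.ze, t.hij.symm]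
@[simp] lemma Tri.ze_l : t.ze v z t.l = z := by simp [Tri.ze, t.hil.symm, t.hjl.symm]
@[simp] lemma Tri.et_j : t.et w y t.j = 1 := by simp [Tri.et]
@[simp] lemma Tri.et_i : t.et w y t.i = w := by simp [Tri.et, t.hij]
@[simp] lemma Tri.et_l : t.et w y t.l = y := by simp [Tri.et, t.hil.symm, t.hjl.symm]
end

/-- points from `ζ, η`. -/
lemma satX_prod {p : ℕ} (hp : p ≠ 0) {E : Type*} [CommRing E] (ζ η : Fin 3 → E)
    (h1 : ∑ a, ζ a * η a = 0) (h2 : ∑ a, ζ a ^ p * η a = 0) :
    SatX p (fun q : Idx => ζ q.1 * η q.2) := by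
  refine ⟨?_, h1, ?_⟩
  · intro a b c d
    ring
  · intro b
    have hp' : p - 1 + 1 = p := Nat.sub_add_cancel (Nat.one_le_iff_ne_zero.2 hp)
    have : ∀ a : Fin 3, (ζ a * η b) ^ (p - 1) * (ζ a * η a) =
        η b ^ (p - 1) * (ζ a ^ p * η a) := by
      intro a
      rw [mul_pow]
      have : ζ a ^ p = ζ a ^ (p - 1) * ζ a := by rw [← pow_succ, hp']
      rw [this]
      ring
    simp only
    rw [Finset.sum_congr rfl (fun a _ => this a), ← Finset.mul_sum, h2, mul_zero]

lemma satL_prod {p : ℕ} {E : Type*} [CommRing E] (ζ η α : Fin 3 → E)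
    (h : ∑ b, α b ^ p * η b = 0) : SatL p α (fun q : Idx => ζ q.1 * η q.2) := by
  intro a
  have : ∀ b : Fin 3, α b ^ p * (ζ a * η b) = ζ a * (α b ^ p * η b) := by
    intro b; ring
  simp only
  rw [Finset.sum_congr rfl (fun b _ => this b), ← Finset.mul_sum, h, mul_zero]

section analysis

variable {p : ℕ} {E : Type*} [CommRing E] {u : Idx → E} (t : Tri)

lemma SatX.prod (h : SatX p u) (hc : u t.c = 1) (a b : Fin 3) :
    u (a, b) = u (a, t.j) * u (t.i, b) := by
  have := h.minor a b t.i t.j
  have hc' : u (t.i, t.j) = 1 := hc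
  rw [hc', mul_one] at this
  exact this

lemma SatX.tr (h : SatX p u) (hc : u t.c = 1) :
    u (t.i, t.i) = -u (t.j, t.j) - u (t.l, t.j) * u (t.i, t.l) := by
  have h1 := h.trace
  rw [t.sum, h.prod t hc t.l t.l] at h1
  linear_combination h1

lemma SatX.rel (hp : p ≠ 0) (h : SatX p u) (hc : u t.c = 1) :
    u (t.j, t.j) ^ p - u (t.j, t.j) +
      (u (t.l, t.j) ^ p - u (t.l, t.j)) * u (t.i, t.l) = 0 := by
  have h1 := h.pow t.j
  have hc' : u (t.i, t.j) = 1 := hc
  have hp' : p - 1 + 1 = p := Nat.sub_add_cancel (Nat.one_le_iff_ne_zero.2 hp)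
  rw [t.sum, h.prod t hc t.l t.l, hc', one_pow, one_mul, ← pow_succ, hp', ← mul_assoc,
    ← pow_succ, hp'] at h1
  have h2 := h.tr t hc
  linear_combination h1 - h2

end analysis

/-! ### the explicit chart ring of the surface -/

/-- the equation `v^p - v + (z^p - z) y`, with `y, z, v` the variables `0, 1, 2`. -/
noncomputable def fX (p : ℕ) (R : Type) [CommRing R] : Unit → MvPolynomial (Fin 3) R :=
  fun _ => (X 1 ^ p - X 1) * X 0 + (X 2 ^ p - X 2)

/-- explicit chart ring. -/
abbrev QX (p : ℕ) (R : Type) [CommRing R] : Type :=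
  MvPolynomial (Fin 3) R ⧸ Ideal.span (Set.range (fX p R))

/-- coordinates on the chart -/
noncomputable def qv (p : ℕ) (R : Type) [CommRing R] (s : Fin 3) : QX p R :=
  Ideal.Quotient.mk _ (X s)

lemma qv_rel (p : ℕ) (R : Type) [CommRing R] :
    (qv p R 1 ^ p - qv p R 1) * qv p R 0 + (qv p R 2 ^ p - qv p R 2) = 0 := by
  have : Ideal.Quotient.mk (Ideal.span (Set.range (fX p R))) (fX p R ()) = 0 :=
    Ideal.Quotient.eq_zero_iff_mem.2 (Ideal.subset_span ⟨(), rfl⟩)
  simpa [fX, qv] using this

section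

variable {R : Type} [CommRing R] {p : ℕ} (t : Tri)

/-- the universal point on the explicit chart ring. -/
noncomputable def uX (p : ℕ) (R : Type) [CommRing R] (t : Tri) : Idx → QX p R :=
  fun q => t.ze (qv p R 2) (qv p R 1) q.1 *
    t.et (-qv p R 2 - qv p R 1 * qv p R 0) (qv p R 0) q.2

lemma uX_c : uX p R t t.c = 1 := by simp [uX, Tri.c]

lemma satX_uX (hp : p ≠ 0) : SatX p (uX p R t) := by
  apply satX_prod hp
  · rw [t.sum]
    simp
    ring
  · rw [t.sum]
    simp
    have := qv_rel p R
    linear_combination this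

/-- chart iso, forward. -/
noncomputable def chX_to (hp : p ≠ 0) : Ch (JX p R) t.c →ₐ[R] QX p R :=
  chLift (JX p R) t.c (uX p R t) (uX_c t) (aeval_JX p _ (satX_uX t hp))

/-- chart iso, backward. -/
noncomputable def chX_from (hp : p ≠ 0) : QX p R →ₐ[R] Ch (JX p R) t.c :=
  Ideal.Quotient.liftₐ _ (aeval ![frac (JX p R) t.c (t.i, t.l), frac (JX p R) t.c (t.l, t.j),
    frac (JX p R) t.c (t.j, t.j)]) (by
      have h2 : Ideal.span (Set.range (fX p R)) ≤
        RingHom.ker (aeval ![frac (JX p R) t.c (t.i, t.l), frac (JX p R) t.c (t.l, t.j),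
          frac (JX p R) t.c (t.j, t.j)] : MvPolynomial (Fin 3) R →ₐ[R] _).toRingHom := by
        rw [Ideal.span_le]
        rintro _ ⟨_, rfl⟩
        change aeval _ (fX p R _) = 0
        have := (satX_frac p (J := JX p R) le_rfl t.c).rel t hp (frac_self _ _)
        simp [fX]
        linear_combination this
      intro f hf
      exact h2 hf)

lemma chX_from_qv (hp : p ≠ 0) (s : Fin 3) :
    chX_from (R := R) t hp (qv p R s) =
      ![frac (JX p R) t.c (t.i, t.l), frac (JX p R) t.c (t.l, t.j),
        frac (JX p R) t.c (t.j, t.j)] s := by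
  change aeval _ (X s) = _
  rw [aeval_X]

/-- the chart iso. -/
noncomputable def chX_equiv (hp : p ≠ 0) : Ch (JX p R) t.c ≃ₐ[R] QX p R :=
  AlgEquiv.ofAlgHom (chX_to t hp) (chX_from t hp)
    (by
      apply Ideal.Quotient.algHom_ext
      apply MvPolynomial.algHom_ext
      intro s
      change chX_to t hp (chX_from t hp (qv p R s)) = qv p R s
      rw [chX_from_qv]
      fin_cases s
      · change chX_to t hp (frac (JX p R) t.c (t.i, t.l)) = qv p R 0
        rw [chX_to, chLift_frac]
        simp [uX]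
      · change chX_to t hp (frac (JX p R) t.c (t.l, t.j)) = qv p R 1
        rw [chX_to, chLift_frac]
        simp [uX]
      · change chX_to t hp (frac (JX p R) t.c (t.j, t.j)) = qv p R 2
        rw [chX_to, chLift_frac]
        simp [uX])
    (by
      have hc : frac (JX p R) t.c t.c = 1 := frac_self _ _
      have hs := satX_frac p (J := JX p R) le_rfl t.c
      have h0 : chX_from (R := R) t hp (qv p R 0) = frac (JX p R) t.c (t.i, t.l) :=
        chX_from_qv t hp 0
      have h1 : chX_from (R := R) t hp (qv p R 1) = frac (JX p R) t.c (t.l, t.j) :=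
        chX_from_qv t hp 1
      have h2 : chX_from (R := R) t hp (qv p R 2) = frac (JX p R) t.c (t.j, t.j) :=
        chX_from_qv t hp 2
      apply ch_algHom_ext
      rintro ⟨a, b⟩
      rw [AlgHom.comp_apply, AlgHom.id_apply, chX_to, chLift_frac, hs.prod t hc a b, uX, map_mul]
      congr 1
      · rcases t.cases a with rfl | rfl | rfl
        · simp only [Tri.ze_i, map_one]
          exact hc.symm
        · simp only [Tri.ze_j, h2]
        · simp only [Tri.ze_l, h1]
      · rcases t.cases b with rfl | rfl | rfl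
        · simp only [Tri.et_i, map_sub, map_neg, map_mul, h0, h1, h2]
          exact (hs.tr t hc).symm
        · simp only [Tri.et_j, map_one]
          exact hc.symm
        · simp only [Tri.et_l, h0])

end

end Pool.Agent.Helper198.Sch
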