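import Pool.Agent.Helper198.SchG

open MvPolynomial

namespace Pool.Agent.Helper198.Sch

attribute [local instance] MvPolynomial.gradedAlgebra

section smooth

variable (p : ℕ) (R : Type) [CommRing R]

/-- The index of the pivot variable. -/
def pivot : Unit → Fin 3 := fun _ => 2

lemma pivot_inj : Function.Injective pivot := fun _ _ _ => rfl

/-- The presentation with invertible Jacobian. -/
noncomputable def presX : Algebra.PreSubmersivePresentation R (QX p R) (Fin 3) Unit :=
  Algebra.PreSubmersivePresentation.naive (v := fX p R) pivot pivot_inj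

lemma pderiv_fX [CharP R p] : pderiv (2 : Fin 3) (fX p R ()) = -1 := by
  simp [fX, pderiv_X]

lemma presX_jac [CharP R p] : (presX p R).jacobian = -1 := by
  rw [Algebra.PreSubmersivePresentation.jacobian_eq_jacobiMatrix_det]
  have : (presX p R).jacobiMatrix = Matrix.of (fun _ _ => -1) := by
    apply Matrix.ext
    intro i j
    rw [presX, Algebra.PreSubmersivePresentation.jacobiMatrix_naive]
    exact pderiv_fX p R
  rw [this, Matrix.det_unique]
  simp

instance smooth_QX [CharP R p] : Algebra.IsStandardSmoothOfRelativeDimension 2 R (QX p R) := by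
  let P : Algebra.SubmersivePresentation R (QX p R) (Fin 3) Unit :=
    { presX p R with
      jacobian_isUnit := by
        have h : IsUnit (-1 : QX p R) := IsUnit.of_mul_eq_one (-1) (by ring)
        exact (presX_jac p R) ▸ h }
  apply P.isStandardSmoothOfRelativeDimension
  simp [Algebra.Presentation.dimension]

end smooth

section domain

variable (p : ℕ) [Fact p.Prime] (k : Type) [Field k]

lemma isRelPrime_monic_C {A : Type*} [CommRing A] [IsDomain A] {m : Polynomial A}
    (hm : m.Monic) {a : A} (ha : a ≠ 0) : IsRelPrime m (Polynomial.C a) := by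
  intro d h1 h2
  have h3 : d.natDegree = 0 := by
    have h4 := Polynomial.natDegree_le_of_dvd h2 (Polynomial.C_ne_zero.2 ha)
    rw [Polynomial.natDegree_C] at h4
    omega
  rw [Polynomial.eq_C_of_natDegree_eq_zero h3] at h1 ⊢
  obtain ⟨e, he⟩ := h1
  have h5 := congrArg Polynomial.leadingCoeff he
  rw [hm.leadingCoeff, Polynomial.leadingCoeff_mul, Polynomial.leadingCoeff_C] at h5
  exact (IsUnit.of_mul_eq_one _ h5.symm).map Polynomial.C

lemma isRelPrime_of_equiv {A B : Type*} [CommRing A] [CommRing B] (e : A ≃+* B) {a b : A}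
    (h : IsRelPrime (e a) (e b)) : IsRelPrime a b := by
  intro d h1 h2
  have := h (map_dvd e h1) (map_dvd e h2)
  exact (MulEquiv.isUnit_map e).1 this

lemma monic_XpX {A : Type*} [CommRing A] [Nontrivial A] :
    (Polynomial.X ^ p - Polynomial.X : Polynomial A).Monic :=
  Polynomial.monic_X_pow_sub (by
    rw [Polynomial.degree_X]
    exact_mod_cast (Fact.out (p := p.Prime)).one_lt)

lemma irreducible_fX : Irreducible (fX p k ()) := by
  rw [← MulEquiv.irreducible_iff (finSuccEquiv k 2)]
  have h1 : finSuccEquiv k 2 (fX p k ()) =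
      Polynomial.C (X 0 ^ p - X 0) * Polynomial.X + Polynomial.C (X 1 ^ p - X 1) := by
    have e1 : finSuccEquiv k 2 (X 1) = Polynomial.C (X 0) := finSuccEquiv_X_succ (j := 0)
    have e2 : finSuccEquiv k 2 (X 2) = Polynomial.C (X 1) := finSuccEquiv_X_succ (j := 1)
    simp only [fX, map_add, map_mul, map_sub, map_pow, e1, e2, finSuccEquiv_X_zero]
  rw [h1]
  -- polynomials in two variables
  have hX0 : finSuccEquiv k 1 (X 0 ^ p - X 0) = Polynomial.X ^ p - Polynomial.X := by
    simp only [map_sub, map_pow, finSuccEquiv_X_zero]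
  have hX1 : finSuccEquiv k 1 (X 1 ^ p - X 1) = Polynomial.C (X 0 ^ p - X 0) := by
    have e1 : finSuccEquiv k 1 (X 1) = Polynomial.C (X 0) := finSuccEquiv_X_succ (j := 0)
    simp only [map_sub, map_pow, e1]
  have hne : (X 0 ^ p - X 0 : MvPolynomial (Fin 1) k) ≠ 0 := by
    intro h
    have h2 := congrArg (fun f => finSuccEquiv k 0 f) h
    simp only [map_sub, map_pow, finSuccEquiv_X_zero, map_zero] at h2
    exact (monic_XpX p).ne_zero h2
  apply Polynomial.irreducible_C_mul_X_add_C
  · intro h
    have h2 : finSuccEquiv k 1 (X 0 ^ p - X 0) = finSuccEquiv k 1 0 := congrArg _ h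
    rw [hX0, map_zero] at h2
    exact (monic_XpX p).ne_zero h2
  · apply isRelPrime_of_equiv (finSuccEquiv k 1).toRingEquiv
    change IsRelPrime (finSuccEquiv k 1 (X 0 ^ p - X 0)) (finSuccEquiv k 1 (X 1 ^ p - X 1))
    rw [hX0, hX1]
    exact isRelPrime_monic_C (monic_XpX p) hne

instance isDomain_QX : IsDomain (QX p k) := by
  have h1 : Prime (fX p k ()) := (irreducible_fX p k).prime
  have h2 : Set.range (fX p k) = {fX p k ()} := by
    ext g
    constructor
    · rintro ⟨_, rfl⟩; rfl
    · rintro rfl; exact ⟨(), rfl⟩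
  have h3 : (Ideal.span (Set.range (fX p k))).IsPrime := by
    rw [h2, Ideal.span_singleton_prime h1.ne_zero]
    exact h1
  exact Ideal.Quotient.isDomain _

end domain

end Pool.Agent.Helper198.Sch
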