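import Pool.Agent.Helper198.SchH

open Polynomial

namespace Pool.Agent.Helper198.Sch

section BC

variable (p : ℕ) {R : Type} [CommRing R] (a b : R)

/-- `y - y^p`. -/
noncomputable def polyA (p : ℕ) (R : Type) [CommRing R] : R[X] := X - X ^ p

/-- `(a^p)^p - a^p + (b^p)^p y^p - b^p y`. -/
noncomputable def polyB : R[X] :=
  C ((a ^ p) ^ p - a ^ p) + C ((b ^ p) ^ p) * X ^ p - C (b ^ p) * X

/-- `R[y][1/(y-y^p)]`. -/
abbrev LL (p : ℕ) (R : Type) [CommRing R] : Type := Localization.Away (polyA p R)

/-- the constant term. -/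
noncomputable def cst : LL p R :=
  algebraMap R[X] (LL p R) (polyB p a b) * IsLocalization.Away.invSelf (polyA p R)

/-- `z^p + B/A`. -/
noncomputable def gC : (LL p R)[X] := X ^ p + C (cst p a b)

/-- The explicit chart ring of the curve. -/
abbrev BC : Type := AdjoinRoot (gC p a b)

/-- coordinate `y`. -/
noncomputable def yC : BC p a b :=
  AdjoinRoot.of (gC p a b) (algebraMap R[X] (LL p R) X)

/-- coordinate `z`. -/
noncomputable def zC : BC p a b := AdjoinRoot.root (gC p a b)

/-- the map from the polynomial ring. -/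
noncomputable def polyToBC : R[X] →ₐ[R] BC p a b :=
  ((AdjoinRoot.ofAlgHom R (gC p a b))).comp (IsScalarTower.toAlgHom R R[X] (LL p R))

lemma polyToBC_apply (f : R[X]) : polyToBC p a b f =
    AdjoinRoot.of (gC p a b) (algebraMap R[X] (LL p R) f) := rfl

lemma polyToBC_X : polyToBC p a b X = yC p a b := rfl

lemma polyToBC_eq (f : R[X]) : polyToBC p a b f = aeval (yC p a b) f := by
  rw [← polyToBC_X, aeval_algHom_apply, aeval_X_left_apply]

lemma aeval_polyA {E : Type*} [CommRing E] [Algebra R E] (y : E) :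
    aeval y (polyA p R) = y - y ^ p := by
  simp [polyA]

lemma aeval_polyB {E : Type*} [CommRing E] [Algebra R E] (y : E) :
    aeval y (polyB p a b) = (algebraMap R E a ^ p) ^ p - algebraMap R E a ^ p +
      (algebraMap R E b ^ p) ^ p * y ^ p - algebraMap R E b ^ p * y := by
  simp [polyB]

lemma unitC : IsUnit (yC p a b - yC p a b ^ p) := by
  rw [← aeval_polyA (R := R), ← polyToBC_eq, polyToBC_apply]
  exact (IsLocalization.Away.algebraMap_isUnit (polyA p R)).map _

lemma relC : zC p a b ^ p * (yC p a b - yC p a b ^ p) +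
    ((algebraMap R (BC p a b) a ^ p) ^ p - algebraMap R (BC p a b) a ^ p +
      (algebraMap R (BC p a b) b ^ p) ^ p * yC p a b ^ p -
        algebraMap R (BC p a b) b ^ p * yC p a b) = 0 := by
  have h1 : zC p a b ^ p + AdjoinRoot.of (gC p a b) (cst p a b) = 0 := by
    have h' : eval₂ (AdjoinRoot.of (gC p a b)) (AdjoinRoot.root (gC p a b))
      (X ^ p + C (cst p a b)) = 0 := AdjoinRoot.eval₂_root (gC p a b)
    rwa [eval₂_add, eval₂_pow, eval₂_X, eval₂_C] at h'
  have h2 : AdjoinRoot.of (gC p a b) (cst p a b) * (yC p a b - yC p a b ^ p) =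
      aeval (yC p a b) (polyB p a b) := by
    rw [← aeval_polyA (R := R), ← polyToBC_eq, ← polyToBC_eq, polyToBC_apply, polyToBC_apply,
      ← map_mul]
    congr 1
    rw [cst, mul_assoc, mul_comm (IsLocalization.Away.invSelf _),
      IsLocalization.Away.mul_invSelf, mul_one]
  rw [aeval_polyB] at h2
  linear_combination (yC p a b - yC p a b ^ p) * h1 - h2

section lift

variable {E : Type*} [CommRing E] [Algebra R E] (y z : E) (hu : IsUnit (y - y ^ p))
  (hr : z ^ p * (y - y ^ p) + ((algebraMap R E a ^ p) ^ p - algebraMap R E a ^ p +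
      (algebraMap R E b ^ p) ^ p * y ^ p - algebraMap R E b ^ p * y) = 0)

lemma liftL_aux (hu : IsUnit (y - y ^ p)) (s : Submonoid.powers (polyA p R)) :
    IsUnit (aeval y (s : R[X])) := by
  obtain ⟨_, n, rfl⟩ := s
  simp only
  rw [map_pow, aeval_polyA]
  exact hu.pow n

/-- lift to `LL`. -/
noncomputable def liftL (hu : IsUnit (y - y ^ p)) : LL p R →ₐ[R] E :=
  IsLocalization.liftAlgHom (M := Submonoid.powers (polyA p R)) (f := aeval y)
    (liftL_aux p y hu)

lemma liftL_algebraMap (f : R[X]) :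
    liftL p y hu (algebraMap R[X] (LL p R) f) = aeval y f := by
  rw [liftL, IsLocalization.liftAlgHom_apply, IsLocalization.lift_eq]
  rfl

include hr in
lemma liftBC_aux :
    eval₂ ((liftL p y hu : LL p R →ₐ[R] E) : LL p R →+* E) z (gC p a b) = 0 := by
  rw [gC, eval₂_add, eval₂_pow, eval₂_X, eval₂_C]
  have h1 : liftL p y hu (cst p a b) * (y - y ^ p) = aeval y (polyB p a b) := by
    rw [← aeval_polyA (R := R), ← liftL_algebraMap p y hu, ← liftL_algebraMap p y hu,
      ← map_mul]
    congr 1
    rw [cst, mul_assoc, mul_comm (IsLocalization.Away.invSelf _),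
      IsLocalization.Away.mul_invSelf, mul_one]
  rw [aeval_polyB] at h1
  apply hu.mul_right_cancel
  change (z ^ p + liftL p y hu (cst p a b)) * (y - y ^ p) = 0 * (y - y ^ p)
  linear_combination hr + h1

/-- lift to `BC`. -/
noncomputable def liftBC : BC p a b →ₐ[R] E :=
  AdjoinRoot.liftAlgHom (gC p a b) (liftL p y hu) z (liftBC_aux p a b y z hu hr)

lemma liftBC_y : liftBC p a b y z hu hr (yC p a b) = y := by
  rw [liftBC, yC]
  refine (AdjoinRoot.liftAlgHom_of _ _ _ _ _).trans ?_
  rw [liftL_algebraMap, aeval_X]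

lemma liftBC_z : liftBC p a b y z hu hr (zC p a b) = z :=
  AdjoinRoot.liftAlgHom_root _ _ _ _

end lift

lemma BC_hom_ext {E : Type*} [CommRing E] [Algebra R E] {f g : BC p a b →ₐ[R] E}
    (hy : f (yC p a b) = g (yC p a b)) (hz : f (zC p a b) = g (zC p a b)) : f = g := by
  apply AdjoinRoot.algHom_ext'
  · apply IsLocalization.algHom_ext (Submonoid.powers (polyA p R))
    apply Polynomial.algHom_ext
    exact hy
  · exact hz

end BC

end Pool.Agent.Helper198.Sch
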