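import Pool.Agent.Helper198.SchI

namespace Pool.Agent.Helper198.Sch

section charp

variable {E : Type*} [CommRing E] {p : ℕ} [hp : Fact p.Prime]

lemma subsingleton_or_charP (h : (p : E) = 0) : Subsingleton E ∨ CharP E p := by
  rcases subsingleton_or_nontrivial E with h1 | h1
  · exact Or.inl h1
  · refine Or.inr ?_
    have h2 : ringChar E ∣ p := (ringChar.spec E p).1 h
    rcases (Nat.dvd_prime hp.out).1 h2 with h3 | h3
    · exact absurd (ringChar.spec E 1 |>.2 (by rw [h3])) (by simp)
    · rw [← h3]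
      exact ringChar.charP E

lemma natCast_eq_zero_of_algebra (R : Type*) [CommRing R] [CharP R p] (E : Type*) [CommRing E]
    [Algebra R E] : (p : E) = 0 := by
  have := congrArg (algebraMap R E) (CharP.cast_eq_zero R p)
  rw [map_natCast, map_zero] at this
  exact this

lemma isUnit_of_key' (hE : (p : E) = 0) {a b z η : E}
    (h : z ^ p * (η - η ^ p) +
      ((a ^ p) ^ p - a ^ p + (b ^ p) ^ p * η ^ p - b ^ p * η) = 0)
    (hM : IsUnit (Mo p 1 a b)) : IsUnit (η - η ^ p) := by
  rcases subsingleton_or_charP hE with h1 | h1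
  · exact isUnit_of_subsingleton _
  · exact isUnit_of_key p h hM

lemma v_pow (hE : (p : E) = 0) (c d z y : E) :
    (c + d * y - z * y) ^ p = c ^ p + d ^ p * y ^ p - z ^ p * y ^ p := by
  rcases subsingleton_or_charP hE with h1 | h1
  · exact Subsingleton.elim _ _
  · rw [sub_pow_char, add_pow_char, mul_pow, mul_pow]

end charp

section chart

attribute [local instance] MvPolynomial.gradedAlgebra

variable {R : Type} [CommRing R] {p : ℕ} [hp : Fact p.Prime] [CharP R p] (t : Tri)
  (α : Fin 3 → R) (xi : R)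

/-- the universal point of the explicit chart ring of the curve. -/
noncomputable def uC (p : ℕ) (t : Tri) (a b : R) : Idx → BC p a b :=
  fun q => t.ze ((algebraMap R (BC p a b) a) ^ p + (algebraMap R (BC p a b) b) ^ p * yC p a b
      - zC p a b * yC p a b) (zC p a b) q.1 *
    t.et (-((algebraMap R (BC p a b) a) ^ p + (algebraMap R (BC p a b) b) ^ p * yC p a b))
      (yC p a b) q.2

omit hp [CharP R p] in
lemma uC_c (a b : R) : uC p t a b t.c = 1 := by simp [uC, Tri.c]

lemma satX_uC (a b : R) : SatX p (uC p t a b) := by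
  have hpE : (p : BC p a b) = 0 := natCast_eq_zero_of_algebra R _
  apply satX_prod hp.out.ne_zero
  · rw [t.sum]
    simp
    ring
  · rw [t.sum]
    simp only [Tri.ze_i, Tri.ze_j, Tri.ze_l, Tri.et_i, Tri.et_j, Tri.et_l]
    rw [v_pow hpE]
    have := relC p a b
    linear_combination this

omit hp [CharP R p] in
lemma satL_uC (hx : xi * α t.i = 1) :
    SatL p (fun q => algebraMap R (BC p (xi * α t.j) (xi * α t.l)) (α q))
      (uC p t (xi * α t.j) (xi * α t.l)) := by
  apply satL_prod
  rw [t.sum]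
  simp only [Tri.et_i, Tri.et_j, Tri.et_l, map_mul]
  have h : (algebraMap R (BC p (xi * α t.j) (xi * α t.l)) xi) ^ p *
      (algebraMap R (BC p (xi * α t.j) (xi * α t.l)) (α t.i)) ^ p = 1 := by
    rw [← mul_pow, ← map_mul, hx, map_one, one_pow]
  set A := algebraMap R (BC p (xi * α t.j) (xi * α t.l))
  rw [mul_pow, mul_pow]
  linear_combination (-(A (α t.j)) ^ p - (A (α t.l)) ^ p * yC p (xi * α t.j) (xi * α t.l)) * h

/-- forward. -/
noncomputable def chC_to (hx : xi * α t.i = 1) :
    Ch (JC p α) t.c →ₐ[R] BC p (xi * α t.j) (xi * α t.l) :=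
  chLift (JC p α) t.c (uC p t _ _) (uC_c t _ _)
    (aeval_JC p α _ (satX_uC t _ _) (satL_uC t α xi hx))

section back

variable {t α xi}

omit hp [CharP R p] in
lemma fracC_ii (hx : xi * α t.i = 1) :
    frac (JC p α) t.c (t.i, t.i) =
      -((algebraMap R (Ch (JC p α) t.c) (xi * α t.j)) ^ p +
        (algebraMap R (Ch (JC p α) t.c) (xi * α t.l)) ^ p * frac (JC p α) t.c (t.i, t.l)) := by
  have h1 := satL_frac p α (J := JC p α) le_rfl t.c t.i
  rw [t.sum] at h1
  have hc : frac (JC p α) t.c (t.i, t.j) = 1 := frac_self (JC p α) t.c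
  rw [hc] at h1
  have h : (algebraMap R (Ch (JC p α) t.c) xi) ^ p *
      (algebraMap R (Ch (JC p α) t.c) (α t.i)) ^ p = 1 := by
    rw [← mul_pow, ← map_mul, hx, map_one, one_pow]
  rw [map_mul, map_mul, mul_pow, mul_pow]
  linear_combination (algebraMap R (Ch (JC p α) t.c) xi) ^ p * h1 -
    frac (JC p α) t.c (t.i, t.i) * h

omit hp [CharP R p] in
lemma fracC_jj (hx : xi * α t.i = 1) :
    frac (JC p α) t.c (t.j, t.j) =
      (algebraMap R (Ch (JC p α) t.c) (xi * α t.j)) ^ p +
        (algebraMap R (Ch (JC p α) t.c) (xi * α t.l)) ^ p * frac (JC p α) t.c (t.i, t.l) -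
        frac (JC p α) t.c (t.l, t.j) * frac (JC p α) t.c (t.i, t.l) := by
  have h1 := fracC_ii (p := p) hx
  have h2 := (satX_frac p (J := JC p α) (JX_le_JC p α) t.c).tr t (frac_self _ _)
  linear_combination -h1 + h2

lemma fracC_rel (hx : xi * α t.i = 1) :
    frac (JC p α) t.c (t.l, t.j) ^ p *
      (frac (JC p α) t.c (t.i, t.l) - frac (JC p α) t.c (t.i, t.l) ^ p) +
      ((algebraMap R (Ch (JC p α) t.c) (xi * α t.j) ^ p) ^ p -
        algebraMap R (Ch (JC p α) t.c) (xi * α t.j) ^ p +
      (algebraMap R (Ch (JC p α) t.c) (xi * α t.l) ^ p) ^ p *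
        frac (JC p α) t.c (t.i, t.l) ^ p -
        algebraMap R (Ch (JC p α) t.c) (xi * α t.l) ^ p * frac (JC p α) t.c (t.i, t.l)) = 0 := by
  have hpE : (p : Ch (JC p α) t.c) = 0 := natCast_eq_zero_of_algebra R _
  have h1 := fracC_jj (p := p) hx
  have h2 := (satX_frac p (J := JC p α) (JX_le_JC p α) t.c).rel t hp.out.ne_zero (frac_self _ _)
  have h3 : frac (JC p α) t.c (t.j, t.j) ^ p =
      ((algebraMap R (Ch (JC p α) t.c) (xi * α t.j)) ^ p) ^ p +
      ((algebraMap R (Ch (JC p α) t.c) (xi * α t.l)) ^ p) ^ p *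
        frac (JC p α) t.c (t.i, t.l) ^ p -
      frac (JC p α) t.c (t.l, t.j) ^ p * frac (JC p α) t.c (t.i, t.l) ^ p := by
    rw [h1, v_pow hpE]
  linear_combination h2 - h3 + h1

lemma fracC_unit (hx : xi * α t.i = 1) (hM : IsUnit (Mo p 1 (xi * α t.j) (xi * α t.l))) :
    IsUnit (frac (JC p α) t.c (t.i, t.l) - frac (JC p α) t.c (t.i, t.l) ^ p) := by
  have hpE : (p : Ch (JC p α) t.c) = 0 := natCast_eq_zero_of_algebra R _
  apply isUnit_of_key' hpE (fracC_rel hx)
  have := hM.map (algebraMap R (Ch (JC p α) t.c))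
  rwa [map_Mo, map_one] at this

end back

/-- backward. -/
noncomputable def chC_from (hx : xi * α t.i = 1)
    (hM : IsUnit (Mo p 1 (xi * α t.j) (xi * α t.l))) :
    BC p (xi * α t.j) (xi * α t.l) →ₐ[R] Ch (JC p α) t.c :=
  liftBC p _ _ (frac (JC p α) t.c (t.i, t.l)) (frac (JC p α) t.c (t.l, t.j))
    (fracC_unit hx hM) (fracC_rel hx)

/-- the chart iso. -/
noncomputable def chC_equiv (hx : xi * α t.i = 1)
    (hM : IsUnit (Mo p 1 (xi * α t.j) (xi * α t.l))) :
    Ch (JC p α) t.c ≃ₐ[R] BC p (xi * α t.j) (xi * α t.l) :=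
  AlgEquiv.ofAlgHom (chC_to t α xi hx) (chC_from t α xi hx hM)
    (by
      apply BC_hom_ext
      · rw [AlgHom.comp_apply, AlgHom.id_apply, chC_from, liftBC_y, chC_to, chLift_frac]
        simp [uC]
      · rw [AlgHom.comp_apply, AlgHom.id_apply, chC_from, liftBC_z, chC_to, chLift_frac]
        simp [uC])
    (by
      have hc : frac (JC p α) t.c t.c = 1 := frac_self _ _
      have hs := satX_frac p (J := JC p α) (JX_le_JC p α) t.c
      apply ch_algHom_ext
      rintro ⟨a, b⟩
      have hy : chC_from t α xi hx hM (yC p (xi * α t.j) (xi * α t.l)) =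
        frac (JC p α) t.c (t.i, t.l) := liftBC_y _ _ _ _ _ _ _
      have hz : chC_from t α xi hx hM (zC p (xi * α t.j) (xi * α t.l)) =
        frac (JC p α) t.c (t.l, t.j) := liftBC_z _ _ _ _ _ _ _
      rw [AlgHom.comp_apply, AlgHom.id_apply, chC_to, chLift_frac, hs.prod t hc a b, uC, map_mul]
      congr 1
      · rcases t.cases a with rfl | rfl | rfl
        · simp only [Tri.ze_i, map_one]
          exact hc.symm
        · simp only [Tri.ze_j, map_sub, map_add, map_mul, map_pow, hy, hz, AlgHom.commutes]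
          rw [fracC_jj hx, map_mul, map_mul]
        · simp only [Tri.ze_l, hz]
      · rcases t.cases b with rfl | rfl | rfl
        · simp only [Tri.et_i, map_neg, map_add, map_mul, map_pow, hy, AlgHom.commutes]
          rw [fracC_ii hx, map_mul, map_mul]
        · simp only [Tri.et_j, map_one]
          exact hc.symm
        · simp only [Tri.et_l, hy])

end chart

end Pool.Agent.Helper198.Sch
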