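import Pool.Agent.Helper198.SchJ

open Polynomial

namespace Pool.Agent.Helper198.Sch

section flat

variable (p : ℕ) [hp : Fact p.Prime] {R : Type} [CommRing R] (a b : R)

lemma monic_gC : (gC p a b).Monic :=
  monic_X_pow_add_C _ hp.out.ne_zero

lemma free_BC : Module.Free (LL p R) (BC p a b) :=
  (monic_gC p a b).free_adjoinRoot

instance flat_BC : Module.Flat R (BC p a b) := by
  have := free_BC p a b
  have h1 : Module.Flat R[X] (LL p R) := IsLocalization.flat _ (Submonoid.powers (polyA p R))
  have h2 : Module.Flat R (LL p R) := Module.Flat.trans R R[X] (LL p R)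
  exact Module.Flat.trans R (LL p R) (BC p a b)

end flat

section domain

variable (p : ℕ) [hp : Fact p.Prime] {k : Type} [Field k] [CharP k p] (a b : k)

omit [CharP k p] in
lemma polyA_ne_zero : polyA p k ≠ 0 := by
  intro h
  have h1 := congrArg (fun f => -f) h
  simp only [polyA, neg_sub, neg_zero] at h1
  exact (monic_XpX p).ne_zero h1

instance isDomain_LL : IsDomain (LL p k) :=
  IsLocalization.isDomain_localization
    (powers_le_nonZeroDivisors_of_noZeroDivisors (polyA_ne_zero p))

/-- map to the fraction field. -/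
noncomputable def toK : LL p k →+* FractionRing k[X] :=
  IsLocalization.Away.lift (polyA p k) (g := algebraMap k[X] (FractionRing k[X]))
    (IsUnit.mk0 _ (by
      rw [Ne, map_eq_zero_iff _ (IsFractionRing.injective k[X] (FractionRing k[X]))]
      exact polyA_ne_zero p))

lemma toK_algebraMap (f : k[X]) :
    toK p (algebraMap k[X] (LL p k) f) = algebraMap k[X] (FractionRing k[X]) f :=
  IsLocalization.Away.lift_eq _ _ _

lemma toK_injective : Function.Injective (toK (k := k) p) := by
  rw [injective_iff_map_eq_zero]
  intro x hx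
  obtain ⟨f, s, rfl⟩ := IsLocalization.exists_mk'_eq (Submonoid.powers (polyA p k)) x
  have h1 : IsLocalization.mk' (LL p k) f s * algebraMap k[X] (LL p k) s =
    algebraMap k[X] (LL p k) f := IsLocalization.mk'_spec _ _ _
  have h2 := congrArg (toK p) h1
  rw [map_mul, hx, zero_mul, toK_algebraMap] at h2
  have h3 : f = 0 := (map_eq_zero_iff _ (IsFractionRing.injective k[X] (FractionRing k[X]))).1
    h2.symm
  rw [h3, IsLocalization.mk'_zero]

lemma not_pth_power (hb : b ^ p - b ≠ 0) (x : FractionRing k[X]) :
    x ^ p ≠ -toK p (cst p a b) := by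
  intro hx
  have hA : toK p (cst p a b) * algebraMap k[X] (FractionRing k[X]) (polyA p k) =
      algebraMap k[X] (FractionRing k[X]) (polyB p a b) := by
    rw [← toK_algebraMap, ← toK_algebraMap, ← map_mul]
    congr 1
    rw [cst, mul_assoc, mul_comm (IsLocalization.Away.invSelf _),
      IsLocalization.Away.mul_invSelf, mul_one]
  obtain ⟨u, v, hv, rfl⟩ := IsFractionRing.div_surjective (A := k[X]) x
  have hv0 : v ≠ 0 := nonZeroDivisors.ne_zero hv
  have hv1 : algebraMap k[X] (FractionRing k[X]) v ≠ 0 := by
    rw [Ne, map_eq_zero_iff _ (IsFractionRing.injective k[X] (FractionRing k[X]))]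
    exact hv0
  have h1 : u ^ p * polyA p k = -polyB p a b * v ^ p := by
    apply IsFractionRing.injective k[X] (FractionRing k[X])
    rw [div_pow, div_eq_iff (pow_ne_zero _ hv1)] at hx
    rw [map_mul, map_mul, map_neg, map_pow, map_pow, ← hA]
    linear_combination (algebraMap k[X] (FractionRing k[X]) (polyA p k)) * hx
  have h2 := congrArg derivative h1
  have d1 : derivative (u ^ p) = 0 := by
    rw [derivative_pow, CharP.cast_eq_zero, map_zero, zero_mul, zero_mul]
  have d2 : derivative (v ^ p) = 0 := by
    rw [derivative_pow, CharP.cast_eq_zero, map_zero, zero_mul, zero_mul]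
  have d0 : derivative (X ^ p : k[X]) = 0 := by
    rw [derivative_X_pow, CharP.cast_eq_zero, map_zero, zero_mul]
  have d3 : derivative (polyA p k) = 1 := by
    rw [polyA, derivative_sub, d0, derivative_X, sub_zero]
  have d4 : derivative (polyB p a b) = -C (b ^ p) := by
    rw [polyB, derivative_sub, derivative_add, derivative_C, derivative_C_mul, derivative_C_mul,
      d0, derivative_X]
    ring
  rw [derivative_mul, derivative_mul, d1, d2, d3, derivative_neg, d4, zero_mul, zero_add, mul_one,
    mul_zero, add_zero, neg_neg] at h2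
  rw [h2] at h1
  have h3 : C (b ^ p) * polyA p k + polyB p a b = 0 := by
    have h4 : (C (b ^ p) * polyA p k + polyB p a b) * v ^ p = 0 := by
      linear_combination h1
    rcases mul_eq_zero.1 h4 with h5 | h5
    · exact h5
    · exact absurd h5 (pow_ne_zero _ hv0)
  have h6 : C ((a ^ p) ^ p - a ^ p) + C ((b ^ p) ^ p - b ^ p) * X ^ p = 0 := by
    rw [← h3, polyA, polyB]
    simp only [C_sub]
    ring
  have h7 := congrArg (fun f => coeff f p) h6
  simp only [coeff_add, coeff_C_mul, coeff_X_pow, coeff_C, coeff_zero, if_true, mul_one,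
    if_neg hp.out.ne_zero, zero_add] at h7
  apply hb
  have h8 : (b ^ p - b) ^ p = 0 := by
    rw [sub_pow_char]; exact h7
  exact pow_eq_zero_iff hp.out.ne_zero |>.1 h8

lemma prime_gC (hb : b ^ p - b ≠ 0) : Prime (gC p a b) := by
  have hm : (gC p a b).Monic := monic_gC p a b
  have h1 : (gC p a b).map (toK p) = X ^ p - C (-toK p (cst p a b)) := by
    simp [gC]
  have h2 : Irreducible ((gC p a b).map (toK p)) := by
    rw [h1]
    exact X_pow_sub_C_irreducible_of_prime hp.out (not_pth_power p a b hb)
  have h3 := h2.prime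
  refine ⟨hm.ne_zero, ?_, ?_⟩
  · intro h
    exact h3.not_isUnit (h.map (mapRingHom (toK p)))
  · intro f g hfg
    have h4 : (gC p a b).map (toK p) ∣ f.map (toK p) * g.map (toK p) := by
      rw [← Polynomial.map_mul]
      exact Polynomial.map_dvd _ hfg
    rcases h3.dvd_or_dvd h4 with h5 | h5
    · exact Or.inl ((Polynomial.map_dvd_map _ (toK_injective p) hm).1 h5)
    · exact Or.inr ((Polynomial.map_dvd_map _ (toK_injective p) hm).1 h5)

lemma isDomain_BC (hb : b ^ p - b ≠ 0) : IsDomain (BC p a b) :=
  AdjoinRoot.isDomain_of_prime (prime_gC p a b hb)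

end domain

end Pool.Agent.Helper198.Sch
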