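import Pool.Agent.Helper198.SchK

open Polynomial TopologicalSpace

namespace Pool.Agent.Helper198.Sch

section dim

variable (p : ℕ) [hp : Fact p.Prime] {k : Type} [Field k] [CharP k p] (a b : k)

instance dimLEOne_LL : Ring.DimensionLEOne (LL p k) :=
  Ring.DimensionLEOne.localization (R := k[X]) (M := Submonoid.powers (polyA p k)) (LL p k)
    (powers_le_nonZeroDivisors_of_noZeroDivisors (polyA_ne_zero p))

omit [CharP k p] in
lemma integral_BC : Algebra.IsIntegral (LL p k) (BC p a b) := by
  have := (monic_gC p a b).finite_adjoinRoot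
  infer_instance

lemma krullDimLE_BC (hb : b ^ p - b ≠ 0) : Ring.KrullDimLE 1 (BC p a b) := by
  have := isDomain_BC p a b hb
  have := integral_BC p a b
  apply Ring.KrullDimLE.mk₁'
  intro I hI hI2
  have h1 : I.comap (algebraMap (LL p k) (BC p a b)) ≠ ⊥ := by
    intro h
    exact hI (Ideal.eq_bot_of_comap_eq_bot h)
  have h2 : (I.comap (algebraMap (LL p k) (BC p a b))).IsPrime := inferInstance
  have h3 := Ring.DimensionLEOne.maximalOfPrime h1 h2
  exact Ideal.isMaximal_of_isIntegral_of_isMaximal_comap I h3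

omit [CharP k p] in
lemma not_isField_LL [Infinite k] : ¬ IsField (LL p k) := by
  intro h
  -- a point with y ≠ y^p
  obtain ⟨y0, hy0⟩ : ∃ y0 : k, aeval y0 (polyA p k) ≠ 0 := by
    by_contra hcon
    push Not at hcon
    apply polyA_ne_zero (k := k) p
    apply Polynomial.funext
    intro r
    rw [eval_zero, ← Polynomial.coe_aeval_eq_eval]
    exact hcon r
  have hu : IsUnit (y0 - y0 ^ p) := by
    rw [aeval_polyA] at hy0
    exact IsUnit.mk0 _ hy0
  have h1 : algebraMap k[X] (LL p k) (X - C y0) ≠ 0 := by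
    intro h0
    have := IsLocalization.injective (LL p k)
      (powers_le_nonZeroDivisors_of_noZeroDivisors (polyA_ne_zero (k := k) p))
    rw [map_eq_zero_iff _ this] at h0
    exact X_sub_C_ne_zero _ h0
  obtain ⟨w, hw⟩ := h.mul_inv_cancel h1
  have h2 := congrArg (liftL p y0 hu) hw
  rw [map_mul, liftL_algebraMap, map_one] at h2
  simp at h2

lemma ringKrullDim_BC [Infinite k] (hb : b ^ p - b ≠ 0) : ringKrullDim (BC p a b) = 1 := by
  have := isDomain_BC p a b hb
  have := integral_BC p a b
  have := krullDimLE_BC p a b hb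
  apply eq_of_le_of_not_lt ?_ fun h' ↦ ?_
  · rw [← Nat.cast_one, ← Ring.krullDimLE_iff]
    infer_instance
  · have h'' : ringKrullDim (BC p a b) ≤ 0 := Order.le_of_lt_succ h'
    rw [← Nat.cast_zero, ← Ring.krullDimLE_iff] at h''
    have hf : IsField (BC p a b) := Ring.KrullDimLE.isField_of_isDomain
    apply not_isField_LL (k := k) p
    have hinj : Function.Injective (algebraMap (LL p k) (BC p a b)) := by
      have := free_BC p a b
      have : Module.Free (LL p k) (BC p a b) := free_BC p a b
      exact FaithfulSMul.algebraMap_injective _ _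
    exact isField_of_isIntegral_of_isField hinj hf

end dim

section topdim

/-- dimension of a space covered by open subspaces. -/
lemma topologicalKrullDim_le_of_cover {X : Type*} [TopologicalSpace X] {ι : Type*}
    {U : ι → Type*} [∀ i, TopologicalSpace (U i)] (f : ∀ i, U i → X)
    (hf : ∀ i, Topology.IsOpenEmbedding (f i)) (hcov : ∀ x, ∃ i, x ∈ Set.range (f i))
    (n : WithBot ℕ∞) (h : ∀ i, topologicalKrullDim (U i) ≤ n) : topologicalKrullDim X ≤ n := by
  rw [topologicalKrullDim, Order.krullDim_eq_iSup_coheight]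
  refine iSup_le (fun Z => ?_)
  obtain ⟨x, hx⟩ := Z.2.nonempty
  obtain ⟨i, y, rfl⟩ := hcov x
  let e := IrreducibleCloseds.orderIsoOfIsOpenEmbedding (f i) (hf i)
  let Z' := e.symm ⟨Z, ⟨y, hx⟩⟩
  have h1 : IrreducibleCloseds.map (f i) (hf i).continuous Z' = Z :=
    congrArg Subtype.val (e.apply_symm_apply ⟨Z, ⟨y, hx⟩⟩)
  rw [← h1, (hf i).coheight_map]
  exact (Order.coheight_le_krullDim Z').trans (h i)

end topdim

end Pool.Agent.Helper198.Sch
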