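import Pool.Agent.Helper198.SchL

open MvPolynomial AlgebraicGeometry CategoryTheory Limits TopologicalSpace

namespace Pool.Agent.Helper198.Sch

attribute [local instance] MvPolynomial.gradedAlgebra

section top

lemma irreducibleSpace_of_cover {X : Type*} [TopologicalSpace X] {ι : Type*}
    {U : ι → Type*} [∀ i, TopologicalSpace (U i)] (f : ∀ i, U i → X)
    (hf : ∀ i, Topology.IsOpenEmbedding (f i)) (hirr : ∀ i, PreirreducibleSpace (U i))
    (hcov : ∀ x, ∃ i, x ∈ Set.range (f i)) (x0 : X) (hx0 : ∀ i, x0 ∈ Set.range (f i)) :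
    IrreducibleSpace X := by
  have h1 : PreirreducibleSpace X := by
    apply PreirreducibleSpace.of_forall_nonempty_inter
    rintro A B hA hB ⟨x, hx⟩ ⟨y, hy⟩
    obtain ⟨i, u, rfl⟩ := hcov x
    obtain ⟨j, v, rfl⟩ := hcov y
    have hi := hirr i
    have hj := hirr j
    obtain ⟨u0, hu0⟩ := hx0 i
    have hr : IsOpen (Set.range (f j)) := (hf j).isOpen_range
    obtain ⟨w, hw1, hw2⟩ := nonempty_preirreducible_inter (X := U i)
      (hA.preimage (hf i).continuous) (hr.preimage (hf i).continuous) ⟨u, hx⟩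
      ⟨u0, by rw [Set.mem_preimage, hu0]; exact hx0 j⟩
    obtain ⟨w', hw'⟩ := hw2
    obtain ⟨w2, hw3, hw4⟩ := nonempty_preirreducible_inter (X := U j)
      (hA.preimage (hf j).continuous) (hB.preimage (hf j).continuous)
      ⟨w', by rw [Set.mem_preimage, hw']; exact hw1⟩ ⟨v, hy⟩
    exact ⟨f j w2, hw3, hw4⟩
  exact { toNonempty := ⟨x0⟩ }

end top

variable {σ : Type} {R : Type} [CommRing R]

namespace V

lemma isIntegral_of_charts (J : HI σ R) {ι : Type} (e : ι → σ)
    (hcov : ∀ x : V J, ∃ i, x ∈ D J (e i)) (hdom : ∀ i, IsDomain (Ch J (e i))) (x0 : V J)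
    (hx0 : ∀ i, x0 ∈ D J (e i)) : IsIntegral (V J) := by
  have h1 : IrreducibleSpace (V J) := by
    apply irreducibleSpace_of_cover (fun i => chart J (e i))
      (fun i => (chart J (e i)).isOpenEmbedding) _ _ x0 (fun i => (mem_range_chart J _ x0).2 (hx0 i))
    · intro i
      have := hdom i
      have : IrreducibleSpace (Spec (.of (Ch J (e i)))) := inferInstance
      infer_instance
    · intro x
      obtain ⟨i, hi⟩ := hcov x
      exact ⟨i, (mem_range_chart J _ x).2 hi⟩
  have h2 : IsReduced (V J) := by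
    have : ∀ i, IsReduced ((coverOf J e hcov).openCover.X i) := by
      intro (i : ι)
      have := hdom i
      change IsReduced (Spec (.of (Ch J (e i))))
      infer_instance
    exact IsReduced.of_openCover _ (coverOf J e hcov).openCover
  exact isIntegral_of_irreducibleSpace_of_isReduced _

lemma krullDim_le_of_charts (J : HI σ R) {ι : Type} (e : ι → σ)
    (hcov : ∀ x : V J, ∃ i, x ∈ D J (e i)) (n : WithBot ℕ∞)
    (h : ∀ i, ringKrullDim (Ch J (e i)) ≤ n) : topologicalKrullDim (V J) ≤ n := by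
  apply topologicalKrullDim_le_of_cover (fun i => chart J (e i))
      (fun i => (chart J (e i)).isOpenEmbedding)
  · intro x
    obtain ⟨i, hi⟩ := hcov x
    exact ⟨i, (mem_range_chart J _ x).2 hi⟩
  · intro i
    have := PrimeSpectrum.topologicalKrullDim_eq_ringKrullDim (R := Ch J (e i))
    exact this.le.trans (h i)

lemma le_krullDim_of_chart (J : HI σ R) (c : σ) :
    ringKrullDim (Ch J c) ≤ topologicalKrullDim (V J) := by
  have h1 := (chart J c).isOpenEmbedding.isInducing.topologicalKrullDim_le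
  have := PrimeSpectrum.topologicalKrullDim_eq_ringKrullDim (R := Ch J c)
  exact this.ge.trans h1

lemma mem_D_iff (J : HI σ R) (c : σ) (x : V J) :
    x ∈ D J c ↔ gen J c ∉ ProjectiveSpectrum.asHomogeneousIdeal (𝒜 := qgrad J.toIdeal) x :=
  Proj.mem_basicOpen _ _ _

end V

/-- third index -/
lemma exists_third (i j : Fin 3) (h : i ≠ j) : ∃ l, i ≠ l ∧ j ≠ l := by
  revert i j; decide

lemma gen_minor (p : ℕ) {J : HI Idx R} (hJ : (JX p R).toIdeal ≤ J.toIdeal) (a b c d : Fin 3) :
    gen J (a, b) * gen J (c, d) = gen J (a, d) * gen J (c, b) := by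
  have h : Ideal.Quotient.mk J.toIdeal (minorP R ((a, b), (c, d))) = 0 :=
    Ideal.Quotient.eq_zero_iff_mem.2 (hJ (mem_ofSet (Or.inl (Or.inl ⟨_, rfl⟩))))
  rw [minorP, map_sub, map_mul, map_mul, sub_eq_zero] at h
  exact h

lemma gen_trace (p : ℕ) {J : HI Idx R} (hJ : (JX p R).toIdeal ≤ J.toIdeal) :
    ∑ a : Fin 3, gen J (a, a) = 0 := by
  have h : Ideal.Quotient.mk J.toIdeal (traceP R) = 0 :=
    Ideal.Quotient.eq_zero_iff_mem.2 (hJ (mem_ofSet (Or.inl (Or.inr rfl))))
  rw [traceP, map_sum] at h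
  exact h

lemma gen_pow (p : ℕ) {J : HI Idx R} (hJ : (JX p R).toIdeal ≤ J.toIdeal) (b : Fin 3) :
    ∑ a : Fin 3, gen J (a, b) ^ (p - 1) * gen J (a, a) = 0 := by
  have h : Ideal.Quotient.mk J.toIdeal (powP p R b) = 0 :=
    Ideal.Quotient.eq_zero_iff_mem.2 (hJ (mem_ofSet (Or.inr ⟨b, rfl⟩)))
  rw [powP, map_sum] at h
  simp only [map_mul, map_pow] at h
  exact h

lemma gen_lin (p : ℕ) (α : Fin 3 → R) {J : HI Idx R} (hJ : (JC p α).toIdeal ≤ J.toIdeal)
    (a : Fin 3) : ∑ b : Fin 3, algebraMap R _ (α b ^ p) * gen J (a, b) = 0 := by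
  have h : Ideal.Quotient.mk J.toIdeal (linP p α a) = 0 :=
    Ideal.Quotient.eq_zero_iff_mem.2 (hJ (mem_ofSet (Or.inr ⟨a, rfl⟩)))
  rw [linP, map_sum] at h
  simp only [map_mul] at h
  exact h

/-- The six off-diagonal charts cover. -/
lemma exists_tri (p : ℕ) {J : HI Idx R} (hJ : (JX p R).toIdeal ≤ J.toIdeal) (x : V J) :
    ∃ t : Tri, x ∈ V.D J t.c := by
  obtain ⟨⟨a, b⟩, hab⟩ := V.exists_mem_D J x
  by_cases h : a = b
  · subst h
    by_contra hcon
    push Not at hcon
    have hoff : ∀ b c, b ≠ c →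
        gen J (b, c) ∈ ProjectiveSpectrum.asHomogeneousIdeal (𝒜 := qgrad J.toIdeal) x := by
      intro b c hbc
      obtain ⟨l, h1, h2⟩ := exists_third b c hbc
      have := hcon ⟨b, c, l, hbc, h1, h2⟩
      rw [V.mem_D_iff, not_not] at this
      exact this
    rw [V.mem_D_iff] at hab
    have hdiag : ∀ b, b ≠ a →
        gen J (b, b) ∈ ProjectiveSpectrum.asHomogeneousIdeal (𝒜 := qgrad J.toIdeal) x := by
      intro b hb
      have h1 : gen J (a, a) * gen J (b, b) ∈
          ProjectiveSpectrum.asHomogeneousIdeal (𝒜 := qgrad J.toIdeal) x := by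
        rw [gen_minor p hJ a a b b]
        exact Ideal.mul_mem_right _ (HomogeneousIdeal.toIdeal _) (hoff a b hb.symm)
      rcases x.isPrime.mem_or_mem h1 with h2 | h2
      · exact absurd h2 hab
      · exact h2
    apply hab
    have h1 := gen_trace p hJ
    rw [← Finset.add_sum_erase _ _ (Finset.mem_univ a)] at h1
    rw [eq_neg_of_add_eq_zero_left h1]
    change -_ ∈ (ProjectiveSpectrum.asHomogeneousIdeal (𝒜 := qgrad J.toIdeal) x).toIdeal
    rw [Ideal.neg_mem_iff]
    apply Ideal.sum_mem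
    intro b hb
    exact hdiag b (Finset.ne_of_mem_erase hb)
  · obtain ⟨l, h1, h2⟩ := exists_third a b h
    exact ⟨⟨a, b, l, h, h1, h2⟩, hab⟩

end Pool.Agent.Helper198.Sch
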