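import Pool.Agent.Helper198.SchM

open MvPolynomial AlgebraicGeometry CategoryTheory Limits TopologicalSpace

namespace Pool.Agent.Helper198.Sch

attribute [local instance] MvPolynomial.gradedAlgebra

section good

variable {E : Type*} [CommRing E] (p : ℕ)

lemma Mo_swap12 (x y w : E) : Mo p y x w = -Mo p x y w := by unfold Mo; ring

lemma Mo_swap23 (x y w : E) : Mo p x w y = -Mo p x y w := by unfold Mo; ring

/-- The parameter is off all rational lines. -/
def Good (α : Fin 3 → E) : Prop := IsUnit (Mo p (α 0) (α 1) (α 2))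

variable {p}

lemma Good.map {E' : Type*} [CommRing E'] (φ : E →+* E') {α : Fin 3 → E} (h : Good p α) :
    Good p (fun b => φ (α b)) := by
  unfold Good
  rw [← map_Mo]
  exact IsUnit.map φ h

lemma Good.tri {α : Fin 3 → E} (h : Good p α) (t : Tri) :
    IsUnit (Mo p (α t.i) (α t.j) (α t.l)) := by
  have h' : IsUnit (-Mo p (α 0) (α 1) (α 2)) := h.neg
  obtain ⟨i, j, l, hij, hil, hjl⟩ := t
  simp only
  have e1 := Mo_swap12 p (α 0) (α 1) (α 2)
  have e2 := Mo_swap23 p (α 0) (α 1) (α 2)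
  have e3 := Mo_swap23 p (α 1) (α 0) (α 2)
  have e4 := Mo_swap12 p (α 0) (α 2) (α 1)
  have e5 := Mo_swap12 p (α 1) (α 2) (α 0)
  rw [e1, neg_neg] at e3
  rw [e2, neg_neg] at e4
  rw [e3] at e5
  fin_cases i <;> fin_cases j <;> fin_cases l <;> first
    | exact absurd rfl hij
    | exact absurd rfl hil
    | exact absurd rfl hjl
    | exact h
    | (simp only [Fin.mk_zero, Fin.mk_one, Fin.reduceFinMk, Fin.isValue]; rw [e1]; exact h')
    | (simp only [Fin.mk_zero, Fin.mk_one, Fin.reduceFinMk, Fin.isValue]; rw [e2]; exact h')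
    | (simp only [Fin.mk_zero, Fin.mk_one, Fin.reduceFinMk, Fin.isValue]; rw [e3]; exact h)
    | (simp only [Fin.mk_zero, Fin.mk_one, Fin.reduceFinMk, Fin.isValue]; rw [e4]; exact h)
    | (simp only [Fin.mk_zero, Fin.mk_one, Fin.reduceFinMk, Fin.isValue]; rw [e5]; exact h')

lemma Good.exists_inv (hp : p ≠ 0) {α : Fin 3 → E} (h : Good p α) (t : Tri) :
    ∃ xi : E, xi * α t.i = 1 := by
  have h1 : IsUnit (α t.i) := isUnit_of_dvd_unit (dvd_Mo p hp _ _ _) (h.tri t)
  obtain ⟨xi, hxi⟩ := h1.exists_left_inv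
  exact ⟨xi, hxi⟩

lemma Good.Mo_one {α : Fin 3 → E} (h : Good p α) (t : Tri) {xi : E} (hx : xi * α t.i = 1) :
    IsUnit (Mo p 1 (xi * α t.j) (xi * α t.l)) := by
  have h1 := Mo_scale p (α t.i) (α t.j) (α t.l) xi
  rw [hx] at h1
  rw [h1]
  have h2 : IsUnit xi := IsUnit.of_mul_eq_one _ hx
  exact (h2.pow _).mul (h.tri t)

end good

section point

variable {E : Type*} [CommRing E] (p : ℕ)

/-- the cross product `α × α^p`. -/
def cr (α : Fin 3 → E) : Fin 3 → E :=
  ![α 1 * α 2 ^ p - α 2 * α 1 ^ p, α 2 * α 0 ^ p - α 0 * α 2 ^ p, α 0 * α 1 ^ p - α 1 * α 0 ^ p]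

lemma cr_sum (α : Fin 3 → E) : ∑ a, α a * cr p α a = 0 := by
  simp [Fin.sum_univ_three, cr]
  ring

lemma cr_sum_pow (α : Fin 3 → E) : ∑ a, α a ^ p * cr p α a = 0 := by
  simp [Fin.sum_univ_three, cr]
  ring

/-- `cr` is a unit at good parameters. -/
lemma cr_unit [hp : Fact p.Prime] (hE : (p : E) = 0) {α : Fin 3 → E} (h : Good p α)
    (b : Fin 3) : IsUnit (cr p α b) := by
  rcases subsingleton_or_charP hE with h0 | h0
  · exact isUnit_of_subsingleton _
  have key : ∀ t : Tri, IsUnit (α t.l ^ p * α t.i - α t.l * α t.i ^ p) := by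
    intro t
    obtain ⟨xi, hx⟩ := h.exists_inv hp.out.ne_zero t
    have h1 := (isUnit_of_Mo_one p (h.Mo_one t hx)).1
    have h2 : IsUnit xi := IsUnit.of_mul_eq_one _ hx
    have h3 : (xi * α t.l) ^ p - xi * α t.l = xi ^ (p + 1) *
        (α t.l ^ p * α t.i - α t.l * α t.i ^ p) := by
      have h4 : xi ^ p * α t.i ^ p = 1 := by rw [← mul_pow, hx, one_pow]
      rw [mul_pow, pow_succ]
      linear_combination (-(xi ^ p * α t.l ^ p)) * hx + (xi * α t.l) * h4
    rw [h3] at h1
    exact isUnit_of_mul_isUnit_right h1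
  fin_cases b
  · have := (key ⟨1, 0, 2, by decide, by decide, by decide⟩)
    simp only at this
    have e : cr p α 0 = α 2 ^ p * α 1 - α 2 * α 1 ^ p := by simp [cr]; ring
    change IsUnit (cr p α 0)
    rw [e]; exact this
  · have := (key ⟨2, 1, 0, by decide, by decide, by decide⟩)
    simp only at this
    have e : cr p α 1 = α 0 ^ p * α 2 - α 0 * α 2 ^ p := by simp [cr]; ring
    change IsUnit (cr p α 1)
    rw [e]; exact this
  · have := (key ⟨0, 2, 1, by decide, by decide, by decide⟩)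
    simp only at this
    have e : cr p α 2 = α 1 ^ p * α 0 - α 1 * α 0 ^ p := by simp [cr]; ring
    change IsUnit (cr p α 2)
    rw [e]; exact this

/-- The marked point in the chart `c`, as values of coordinates; `s` is the scaling factor. -/
def uP (α : Fin 3 → E) (s : E) : Idx → E := fun q => (s * α q.1) * cr p α q.2

lemma satX_uP (hp : p ≠ 0) (α : Fin 3 → E) (s : E) : SatX p (uP p α s) := by
  apply satX_prod hp (fun a => s * α a) (cr p α)
  · have : ∀ a : Fin 3, s * α a * cr p α a = s * (α a * cr p α a) := by intro a; ring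
    rw [Finset.sum_congr rfl (fun a _ => this a), ← Finset.mul_sum, cr_sum, mul_zero]
  · have : ∀ a : Fin 3, (s * α a) ^ p * cr p α a = s ^ p * (α a ^ p * cr p α a) := by
      intro a; ring
    rw [Finset.sum_congr rfl (fun a _ => this a), ← Finset.mul_sum, cr_sum_pow, mul_zero]

lemma satL_uP (α : Fin 3 → E) (s : E) : SatL p α (uP p α s) :=
  satL_prod (fun a => s * α a) (cr p α) α (cr_sum_pow p α)

end point

end Pool.Agent.Helper198.Sch
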