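import Pool.Agent.Helper198.SchN

open MvPolynomial AlgebraicGeometry CategoryTheory Limits TopologicalSpace

namespace Pool.Agent.Helper198.Sch

attribute [local instance] MvPolynomial.gradedAlgebra

variable {σ : Type} {R : Type} [CommRing R]

namespace V

lemma isLocalizationElem_eq (J : HI σ R) (c c' : σ) :
    HomogeneousLocalization.Away.isLocalizationElem (gen_mem J c) (gen_mem J c') =
      frac J c c' := by
  apply HomogeneousLocalization.val_injective
  unfold frac
  change (Localization.mk (gen J c' ^ 1) ⟨gen J c ^ 1, _⟩ : Localization.Away (gen J c)) =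
    Localization.mk (gen J c') ⟨gen J c ^ 1, _⟩
  congr 1
  exact pow_one _

lemma chart_mem_D (J : HI σ R) (c c' : σ) (x : Spec (.of (Ch J c))) :
    chart J c x ∈ D J c' ↔ frac J c c' ∉ x.asIdeal := by
  have h := Proj.awayι_preimage_basicOpen (qgrad J.toIdeal) (gen_mem J c) one_pos
    (gen_mem J c') one_pos
  rw [isLocalizationElem_eq] at h
  have h2 : x ∈ (Proj.awayι (qgrad J.toIdeal) (gen J c) (gen_mem J c) one_pos ⁻¹ᵁ
      Proj.basicOpen (qgrad J.toIdeal) (gen J c')) ↔ x ∈ PrimeSpectrum.basicOpen (frac J c c') := by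
    rw [h]
    exact Iff.rfl
  exact h2

lemma map_mem_D {R' : Type} [CommRing R'] (φ : R →+* R') (J : HI σ R) (J' : HI σ R')
    (h : Rel φ J J') (c : σ) (y : V J') : map φ J J' h y ∈ D J c ↔ y ∈ D J' c := by
  rw [← map_preimage φ J J' h c]
  exact Iff.rfl

end V

section pt

variable (p : ℕ) [hp : Fact p.Prime] [CharP R p]

/-- scaling factor -/
noncomputable def sc (t : Tri) (α : Fin 3 → R) : R := Ring.inverse (α t.i * cr p α t.j)

variable {p}

lemma sc_mul (t : Tri) {α : Fin 3 → R} (h : Good p α) :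
    sc p t α * (α t.i * cr p α t.j) = 1 := by
  apply Ring.inverse_mul_cancel
  obtain ⟨xi, hx⟩ := h.exists_inv hp.out.ne_zero t
  exact (IsUnit.of_mul_eq_one _ (by rw [mul_comm]; exact hx)).mul
    (cr_unit p (CharP.cast_eq_zero R p) h _)

lemma uP_c (t : Tri) {α : Fin 3 → R} (h : Good p α) : uP p α (sc p t α) t.c = 1 := by
  rw [← sc_mul (p := p) t h]
  simp [uP, Tri.c]
  ring

lemma uP_unit (t : Tri) {α : Fin 3 → R} (h : Good p α) (c : Idx) :
    IsUnit (uP p α (sc p t α) c) := by
  have h1 : IsUnit (sc p t α) := IsUnit.of_mul_eq_one _ (sc_mul (p := p) t h)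
  have h2 : IsUnit (α c.1) := by
    obtain ⟨a, b⟩ := c
    obtain ⟨b', hb'⟩ : ∃ b' : Fin 3, a ≠ b' := ⟨a + 1, by revert a; decide⟩
    obtain ⟨l, hl1, hl2⟩ := exists_third a b' hb'
    obtain ⟨xi, hx⟩ := h.exists_inv hp.out.ne_zero ⟨a, b', l, hb', hl1, hl2⟩
    exact IsUnit.of_mul_eq_one _ (by rw [mul_comm]; exact hx)
  exact (h1.mul h2).mul (cr_unit p (CharP.cast_eq_zero R p) h _)

/-- the ring map of the marked point. -/
noncomputable def ptRing (t : Tri) (α : Fin 3 → R) (h : Good p α) : Ch (JC p α) t.c →ₐ[R] R :=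
  chLift (JC p α) t.c (uP p α (sc p t α)) (uP_c t h)
    (aeval_JC p α _ (satX_uP p hp.out.ne_zero α _) (satL_uP p α _))

/-- the marked point. -/
noncomputable def pt (t : Tri) (α : Fin 3 → R) (h : Good p α) : Spec (.of R) ⟶ V (JC p α) :=
  Spec.map (CommRingCat.ofHom (ptRing t α h : Ch (JC p α) t.c →+* R)) ≫ V.chart (JC p α) t.c

lemma pt_str (t : Tri) (α : Fin 3 → R) (h : Good p α) :
    pt t α h ≫ V.str (JC p α) = 𝟙 _ := by
  rw [pt, Category.assoc, V.chart_str, ← Spec.map_comp, ← CommRingCat.ofHom_comp]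
  have : ((ptRing t α h : Ch (JC p α) t.c →+* R)).comp (algebraMap R (Ch (JC p α) t.c)) =
      RingHom.id R := by
    ext r
    exact (ptRing t α h).commutes r
  rw [this]
  exact Spec.map_id _

lemma pt_mem (t : Tri) (α : Fin 3 → R) (h : Good p α) (x : Spec (.of R)) (c : Idx) :
    pt t α h x ∈ V.D (JC p α) c := by
  have : pt t α h x = V.chart (JC p α) t.c
    (Spec.map (CommRingCat.ofHom (ptRing t α h : Ch (JC p α) t.c →+* R)) x) := rfl
  rw [this, V.chart_mem_D]
  intro hmem
  have h2 : ptRing t α h (frac (JC p α) t.c c) ∈ x.asIdeal := hmem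
  rw [ptRing, chLift_frac] at h2
  exact x.isPrime.ne_top (Ideal.eq_top_of_isUnit_mem _ h2 (uP_unit t h c))

variable {R' : Type} [CommRing R'] [CharP R' p]

lemma map_cr (φ : R →+* R') (α : Fin 3 → R) (b : Fin 3) :
    φ (cr p α b) = cr p (fun a => φ (α a)) b := by
  fin_cases b <;> simp [cr]

lemma map_sc (φ : R →+* R') (t : Tri) {α : Fin 3 → R} (h : Good p α) :
    φ (sc p t α) = sc p t (fun a => φ (α a)) := by
  have h1 := congrArg φ (sc_mul (p := p) t h)
  rw [map_mul, map_mul, map_cr, map_one] at h1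
  have h2 := sc_mul (p := p) t (h.map φ)
  have h3 : IsUnit (φ (α t.i) * cr p (fun a => φ (α a)) t.j) :=
    IsUnit.of_mul_eq_one _ (by rw [mul_comm]; exact h1)
  apply h3.mul_right_cancel
  rw [h1, h2]

/-- naturality of the marked point. -/
lemma pt_map (φ : R →+* R') (t : Tri) (α : Fin 3 → R) (h : Good p α) (β : Fin 3 → R')
    (hβ : ∀ b, β b = φ (α b)) (h' : Good p β) :
    pt t β h' ≫ V.map φ (JC p α) (JC p β) (rel_JC_JC φ p α β hβ) =
      Spec.map (CommRingCat.ofHom φ) ≫ pt t α h := by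
  have hβ' : β = fun b => φ (α b) := funext hβ
  subst hβ'
  rw [pt, pt, Category.assoc, V.chart_map, ← Category.assoc, ← Category.assoc, ← Spec.map_comp,
    ← Spec.map_comp, ← CommRingCat.ofHom_comp, ← CommRingCat.ofHom_comp]
  congr 3
  apply ch_ringHom_ext
  · intro r
    rw [RingHom.comp_apply, V.chMap_algebraMap]
    have e1 := (ptRing t (fun b => φ (α b)) h').commutes (φ r)
    have e2 := (ptRing t α h).commutes r
    change (ptRing t (fun b => φ (α b)) h') (algebraMap R' _ (φ r)) =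
      φ ((ptRing t α h) (algebraMap R _ r))
    rw [e1, e2]
    rfl
  · intro a
    rw [RingHom.comp_apply, V.chMap_frac]
    change (ptRing t (fun b => φ (α b)) h') (frac _ _ a) = φ ((ptRing t α h) (frac _ _ a))
    rw [ptRing, ptRing, chLift_frac, chLift_frac, uP, uP, map_mul, map_mul, map_cr,
      map_sc φ t h]

end pt

section integral

variable {p : ℕ} [hp : Fact p.Prime] {k : Type} [Field k] [CharP k p]

lemma ch_JC_isDomain (t : Tri) {α : Fin 3 → k} (h : Good p α) : IsDomain (Ch (JC p α) t.c) := by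
  obtain ⟨xi, hx⟩ := h.exists_inv hp.out.ne_zero t
  have hM := h.Mo_one t hx
  have := isDomain_BC p (xi * α t.j) (xi * α t.l) ((isUnit_of_Mo_one p hM).1.ne_zero)
  exact (chC_equiv t α xi hx hM).toMulEquiv.isDomain _

lemma ch_JC_dim [Infinite k] (t : Tri) {α : Fin 3 → k} (h : Good p α) :
    ringKrullDim (Ch (JC p α) t.c) = 1 := by
  obtain ⟨xi, hx⟩ := h.exists_inv hp.out.ne_zero t
  have hM := h.Mo_one t hx
  rw [ringKrullDim_eq_of_ringEquiv (chC_equiv t α xi hx hM).toRingEquiv]
  exact ringKrullDim_BC p _ _ ((isUnit_of_Mo_one p hM).1.ne_zero)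

/-- the first chart. -/
def t0 : Tri := ⟨0, 1, 2, by decide, by decide, by decide⟩

lemma isIntegral_VC {α : Fin 3 → k} (h : Good p α) : IsIntegral (V (JC p α)) := by
  let x : Spec (.of k) := IsLocalRing.closedPoint k
  exact V.isIntegral_of_charts (JC p α) (ι := Tri) Tri.c
    (fun x => exists_tri p (JX_le_JC p α) x) (fun t => ch_JC_isDomain t h)
    (pt t0 α h x) (fun t => pt_mem t0 α h x t.c)

lemma dim_VC [Infinite k] {α : Fin 3 → k} (h : Good p α) :
    topologicalKrullDim (V (JC p α)) = 1 := by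
  apply le_antisymm
  · exact V.krullDim_le_of_charts (JC p α) (ι := Tri) Tri.c
      (fun x => exists_tri p (JX_le_JC p α) x) 1 (fun t => (ch_JC_dim t h).le)
  · rw [← ch_JC_dim t0 h]
    exact V.le_krullDim_of_chart _ _

lemma ch_JX_isDomain (t : Tri) : IsDomain (Ch (JX p k) t.c) :=
  (chX_equiv t hp.out.ne_zero).toMulEquiv.isDomain _

lemma isIntegral_VX {α : Fin 3 → k} (h : Good p α) : IsIntegral (V (JX p k)) := by
  let x : Spec (.of k) := IsLocalRing.closedPoint k
  exact V.isIntegral_of_charts (JX p k) (ι := Tri) Tri.c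
    (fun x => exists_tri p le_rfl x) (fun t => ch_JX_isDomain t)
    (V.map (RingHom.id k) (JX p k) (JC p α) (rel_JX_JC _ p α) (pt t0 α h x))
    (fun t => (V.map_mem_D _ _ _ _ _ _).2 (pt_mem t0 α h x t.c))

end integral

end Pool.Agent.Helper198.Sch
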