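import Pool.Agent.Helper198.SchO

open MvPolynomial AlgebraicGeometry CategoryTheory Limits TopologicalSpace

namespace Pool.Agent.Helper198.Sch

attribute [local instance] MvPolynomial.gradedAlgebra

section general

variable {A B : Type} [CommRing A] [CommRing B] {τ υ : Type}
    [SetLike τ A] [SetLike υ B] [AddSubgroupClass τ A] [AddSubgroupClass υ B]
    {𝒜 : ℕ → τ} {ℬ : ℕ → υ} [GradedRing 𝒜] [GradedRing ℬ] (f : 𝒜 →+*ᵍ ℬ)

lemma away_map_surjective (hf : Function.Surjective f) {i : ℕ} (s : A) (hs : s ∈ 𝒜 i) :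
    Function.Surjective (HomogeneousLocalization.Away.map f s) := by
  intro x
  obtain ⟨n, b, hb, rfl⟩ := HomogeneousLocalization.Away.mk_surjective ℬ (f.2 hs) x
  obtain ⟨a, rfl⟩ := hf b
  refine ⟨HomogeneousLocalization.Away.mk 𝒜 hs n (DirectSum.decompose 𝒜 a (n • i)).1
    (DirectSum.decompose 𝒜 a (n • i)).2, ?_⟩
  rw [HomogeneousLocalization.Away.map_mk]
  congr 1
  rw [f.map_directSumDecompose, DirectSum.decompose_of_mem_same ℬ hb]

lemma isPullback_proj_map
    (hirr : HomogeneousIdeal.irrelevant ℬ ≤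
      HomogeneousIdeal.map f (HomogeneousIdeal.irrelevant 𝒜))
    {i : ℕ} (hi : 0 < i) (s : A) (hs : s ∈ 𝒜 i) :
    IsPullback (Spec.map (CommRingCat.ofHom (HomogeneousLocalization.Away.map f s)))
      (Proj.awayι ℬ (f s) (f.2 hs) hi) (Proj.awayι 𝒜 s hs hi) (Proj.map f hirr) := by
  apply IsOpenImmersion.isPullback
  · exact Proj.awayι_comp_map f hirr hi s hs
  · rw [Proj.opensRange_awayι, Proj.opensRange_awayι]
    exact Proj.map_preimage_basicOpen f hirr s

lemma isClosedImmersion_proj_map_chart
    (hirr : HomogeneousIdeal.irrelevant ℬ ≤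
      HomogeneousIdeal.map f (HomogeneousIdeal.irrelevant 𝒜))
    (hf : Function.Surjective f) {i : ℕ} (hi : 0 < i) (s : A) (hs : s ∈ 𝒜 i) :
    IsClosedImmersion (pullback.snd (Proj.map f hirr) (Proj.awayι 𝒜 s hs hi)) := by
  have h := isPullback_proj_map f hirr hi s hs
  have h1 : pullback.snd (Proj.map f hirr) (Proj.awayι 𝒜 s hs hi) =
      h.flip.isoPullback.inv ≫
        Spec.map (CommRingCat.ofHom (HomogeneousLocalization.Away.map f s)) :=
    (h.flip.isoPullback_inv_snd).symm
  rw [h1, MorphismProperty.cancel_left_of_respectsIso @IsClosedImmersion]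
  exact IsClosedImmersion.spec_of_surjective _ (away_map_surjective f hf s hs)

lemma isClosedImmersion_proj_map
    (hirr : HomogeneousIdeal.irrelevant ℬ ≤
      HomogeneousIdeal.map f (HomogeneousIdeal.irrelevant 𝒜))
    (hf : Function.Surjective f) : IsClosedImmersion (Proj.map f hirr) := by
  apply IsZariskiLocalAtTarget.of_openCover (Proj.affineOpenCover 𝒜).openCover
  rintro (⟨i, s⟩ : Σ i : PNat, 𝒜 i)
  exact isClosedImmersion_proj_map_chart f hirr hf i.2 s.1 s.2

end general

section proj

variable {σ τ : Type} {R : Type} [CommRing R]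

/-- The graded map from the polynomial ring in renamed variables. -/
noncomputable def renMap (J : HI σ R) (e : τ ≃ σ) :
    homogeneousSubmodule τ R →+*ᵍ qgrad J.toIdeal where
  toRingHom := (Ideal.Quotient.mk J.toIdeal).comp (rename e : MvPolynomial τ R →ₐ[R] _).toRingHom
  map_mem := by
    intro i x hx
    exact mk_mem_qgrad (IsHomogeneous.rename_isHomogeneous (f := e) hx)

lemma renMap_apply (J : HI σ R) (e : τ ≃ σ) (x : MvPolynomial τ R) :
    renMap J e x = Ideal.Quotient.mk J.toIdeal (rename e x) := rfl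

lemma renMap_X (J : HI σ R) (e : τ ≃ σ) (s : σ) : renMap J e (X (e.symm s)) = gen J s := by
  rw [renMap_apply, rename_X, Equiv.apply_symm_apply]
  rfl

lemma renMap_surjective (J : HI σ R) (e : τ ≃ σ) : Function.Surjective (renMap J e) := by
  intro y
  obtain ⟨x, rfl⟩ := Ideal.Quotient.mk_surjective y
  refine ⟨rename e.symm x, ?_⟩
  rw [renMap_apply, rename_rename]
  simp

lemma renMap_irr (J : HI σ R) (e : τ ≃ σ) :
    HomogeneousIdeal.irrelevant (qgrad J.toIdeal) ≤
      HomogeneousIdeal.map (renMap J e) (HomogeneousIdeal.irrelevant (homogeneousSubmodule τ R)) := by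
  change (HomogeneousIdeal.irrelevant (qgrad J.toIdeal)).toIdeal ≤ _
  refine le_trans (V.irrelevant_le J) ?_
  rw [Ideal.span_le]
  rintro _ ⟨s, rfl⟩
  rw [← renMap_X J e s]
  refine Ideal.mem_map_of_mem _ ?_
  exact HomogeneousIdeal.mem_irrelevant_of_mem _ one_pos (isHomogeneous_X R _)

/-- The closed embedding in projective space. -/
noncomputable def emb (J : HI σ R) (e : τ ≃ σ) : V J ⟶ Proj (homogeneousSubmodule τ R) :=
  Proj.map (renMap J e) (renMap_irr J e)

instance (J : HI σ R) (e : τ ≃ σ) : IsClosedImmersion (emb J e) :=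
  isClosedImmersion_proj_map _ _ (renMap_surjective J e)

lemma emb_str (J : HI σ R) (e : τ ≃ σ) :
    emb J e ≫ (Proj.toSpecZero (homogeneousSubmodule τ R) ≫
        Spec.map (CommRingCat.ofHom (algebraMap R (homogeneousSubmodule τ R 0)))) = V.str J := by
  apply (V.cover J).openCover.hom_ext
  intro (c : σ)
  change V.chart J c ≫ _ = V.chart J c ≫ _
  rw [V.chart_str]
  have hX : (X (e.symm c) : MvPolynomial τ R) ∈ homogeneousSubmodule τ R 1 :=
    isHomogeneous_X R _
  have hle : Submonoid.powers (X (e.symm c) : MvPolynomial τ R) ≤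
      (Submonoid.powers (gen J c)).comap (renMap J e) := by
    rw [Submonoid.powers_le]
    exact ⟨1, by simp [renMap_X]⟩
  have h1 := V.awayι_comp_map' (renMap J e) (renMap_irr J e) one_pos (X (e.symm c)) hX
    (gen J c) (gen_mem J c) (renMap_X J e c) hle
  let θ : Spec (.of (Ch J c)) ⟶ Spec (.of (HomogeneousLocalization.Away
      (homogeneousSubmodule τ R) (X (e.symm c)))) :=
    Spec.map (CommRingCat.ofHom (HomogeneousLocalization.map (renMap J e) hle))
  have h2 : V.chart J c ≫ emb J e =
      θ ≫ Proj.awayι (homogeneousSubmodule τ R) (X (e.symm c)) hX one_pos := h1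
  rw [← Category.assoc, h2, Category.assoc, ← Category.assoc (Proj.awayι _ _ _ _),
    Proj.awayι_toSpecZero, ← Spec.map_comp]
  refine (Spec.map_comp _ _).symm.trans ?_
  congr 1
  ext r
  apply HomogeneousLocalization.val_injective
  change (Localization.mk (renMap J e (C r)) ⟨renMap J e 1, _⟩ : Localization.Away (gen J c)) =
    Localization.mk (Ideal.Quotient.mk J.toIdeal (C r)) ⟨1, _⟩
  congr 1
  · rw [renMap_apply, rename_C]
  · apply Subtype.ext
    simp

end proj

end Pool.Agent.Helper198.Sch
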