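import Pool.Agent.Helper198.SchP

open MvPolynomial AlgebraicGeometry CategoryTheory Limits TopologicalSpace

namespace Pool.Agent.Helper198.Sch

attribute [local instance] MvPolynomial.gradedAlgebra

section smooth

variable (p : ℕ) [hp : Fact p.Prime] (k : Type) [Field k] [CharP k p]

set_option backward.isDefEq.respectTransparency.types false in
lemma smooth_VX : SmoothOfRelativeDimension 2 (V.str (JX p k)) := by
  apply IsZariskiLocalAtSource.of_openCover
    (V.coverOf (JX p k) Tri.c (fun x => exists_tri p le_rfl x)).openCover
  intro (t : Tri)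
  change SmoothOfRelativeDimension 2 (V.chart (JX p k) t.c ≫ V.str (JX p k))
  rw [V.chart_str, HasRingHomProperty.Spec_iff (P := @SmoothOfRelativeDimension 2)]
  apply RingHom.locally_of
  · exact RingHom.isStandardSmoothOfRelativeDimension_respectsIso
  · have h1 := smooth_QX p k
    have h2 : Algebra.IsStandardSmoothOfRelativeDimension 2 k (Ch (JX p k) t.c) :=
      Algebra.IsStandardSmoothOfRelativeDimension.of_algEquiv 2
        (chX_equiv t hp.out.ne_zero).symm
    exact (RingHom.isStandardSmoothOfRelativeDimension_algebraMap 2).2 h2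

end smooth

section flat

variable (p : ℕ) [hp : Fact p.Prime] {R : Type} [CommRing R] [CharP R p]

set_option backward.isDefEq.respectTransparency.types false in
lemma flat_VC {α : Fin 3 → R} (h : Good p α) : Flat (V.str (JC p α)) := by
  apply IsZariskiLocalAtSource.of_openCover
    (V.coverOf (JC p α) Tri.c (fun x => exists_tri p (JX_le_JC p α) x)).openCover
  intro (t : Tri)
  change Flat (V.chart (JC p α) t.c ≫ V.str (JC p α))
  rw [V.chart_str, HasRingHomProperty.Spec_iff (P := @Flat)]
  obtain ⟨xi, hx⟩ := h.exists_inv hp.out.ne_zero t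
  have hM := h.Mo_one t hx
  have h1 := flat_BC p (xi * α t.j) (xi * α t.l)
  have h2 : Module.Flat R (Ch (JC p α) t.c) :=
    Module.Flat.of_linearEquiv (chC_equiv t α xi hx hM).toLinearEquiv
  exact RingHom.flat_algebraMap_iff.2 h2

end flat

end Pool.Agent.Helper198.Sch
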