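import Pool.Agent.Helper198.SchQ

open MvPolynomial AlgebraicGeometry CategoryTheory Limits TopologicalSpace

namespace Pool.Agent.Helper198.Sch

attribute [local instance] MvPolynomial.gradedAlgebra

section T

variable (p : ℕ) [hp : Fact p.Prime] (k : Type) [Field k]

/-- The Moore determinant as a polynomial in two variables. -/
noncomputable def MoP : MvPolynomial (Fin 2) k := Mo p 1 (X 0) (X 1)

lemma XX_eq (a b : ℕ) : (X 0 ^ a * X 1 ^ b : MvPolynomial (Fin 2) k) =
    monomial (Finsupp.single 0 a + Finsupp.single 1 b) 1 := by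
  rw [X_pow_eq_monomial, X_pow_eq_monomial, monomial_mul, one_mul]

lemma single_inj {a b c d : ℕ}
    (h : (Finsupp.single 0 a + Finsupp.single 1 b : Fin 2 →₀ ℕ) =
      Finsupp.single 0 c + Finsupp.single 1 d) : a = c ∧ b = d := by
  have h0 := DFunLike.congr_fun h 0
  have h1 := DFunLike.congr_fun h 1
  simp at h0 h1
  exact ⟨h0, h1⟩

lemma coeff_XX (a b c d : ℕ) :
    coeff (Finsupp.single 0 c + Finsupp.single 1 d) (X 0 ^ a * X 1 ^ b : MvPolynomial (Fin 2) k) =
      if a = c ∧ b = d then 1 else 0 := by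
  rw [XX_eq, coeff_monomial]
  by_cases h : a = c ∧ b = d
  · rw [if_pos h, if_pos (by rw [h.1, h.2])]
  · rw [if_neg h, if_neg (fun h' => h (single_inj h'))]

lemma MoP_ne_zero : MoP p k ≠ 0 := by
  have hp2 : 2 ≤ p := hp.out.two_le
  have h2 : p ^ 2 ≠ p := by
    intro h
    have : p * p = p * 1 := by rw [← pow_two, h, mul_one]
    have := Nat.eq_of_mul_eq_mul_left (by omega) this
    omega
  have h1 : p ^ 2 ≠ 1 := by
    intro h
    have := Nat.pow_eq_one.1 h
    omega
  have e : MoP p k = X 0 ^ p * X 1 ^ (p ^ 2) + X 0 ^ 1 * X 1 ^ p + X 0 ^ (p ^ 2) * X 1 ^ 1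
      - X 0 ^ (p ^ 2) * X 1 ^ p - X 0 ^ 1 * X 1 ^ (p ^ 2) - X 0 ^ p * X 1 ^ 1 := by
    unfold MoP Mo
    ring
  intro h
  have h3 := congrArg (coeff (Finsupp.single 0 p + Finsupp.single 1 (p ^ 2))) h
  rw [e] at h3
  rw [coeff_sub, coeff_sub, coeff_sub, coeff_add, coeff_add, coeff_XX, coeff_XX, coeff_XX,
    coeff_XX, coeff_XX, coeff_XX, coeff_zero] at h3
  rw [if_pos ⟨rfl, rfl⟩, if_neg (by omega), if_neg (by omega), if_neg (by omega),
    if_neg (by omega), if_neg (by omega)] at h3
  simp at h3

/-- Coordinate ring of the parameter space. -/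
abbrev RT : Type := Localization.Away (MoP p k)

instance isDomain_RT : IsDomain (RT p k) :=
  IsLocalization.isDomain_localization
    (powers_le_nonZeroDivisors_of_noZeroDivisors (MoP_ne_zero p k))

instance charP_RT [CharP k p] : CharP (RT p k) p :=
  charP_of_injective_algebraMap (algebraMap k (RT p k)).injective p

/-- the generic parameter. -/
noncomputable def αT : Fin 3 → RT p k :=
  ![1, algebraMap (MvPolynomial (Fin 2) k) (RT p k) (X 0),
    algebraMap (MvPolynomial (Fin 2) k) (RT p k) (X 1)]

omit hp in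
lemma good_αT : Good p (αT p k) := by
  have h : Mo p (αT p k 0) (αT p k 1) (αT p k 2) = algebraMap _ (RT p k) (MoP p k) := by
    have e := map_Mo p (algebraMap (MvPolynomial (Fin 2) k) (RT p k)) 1 (X 0) (X 1)
    rw [map_one] at e
    exact e.symm
  rw [Good, h]
  exact IsLocalization.Away.algebraMap_isUnit _

/-- The parameter variety. -/
noncomputable abbrev TT : Scheme.{0} := Spec (.of (RT p k))

/-- structure map. -/
noncomputable def sTT : TT p k ⟶ Spec (.of k) :=
  Spec.map (CommRingCat.ofHom (algebraMap k (RT p k)))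

lemma isIntegral_TT : IsIntegral (TT p k) := inferInstance

instance : LocallyOfFiniteType (sTT p k) := by
  unfold sTT
  rw [HasRingHomProperty.Spec_iff (P := @LocallyOfFiniteType)]
  have h1 : Algebra.FiniteType (MvPolynomial (Fin 2) k) (RT p k) :=
    IsLocalization.finiteType_of_monoid_fg (Submonoid.powers (MoP p k)) (RT p k)
  have h2 : Algebra.FiniteType k (RT p k) :=
    Algebra.FiniteType.trans (R := k) (S := MvPolynomial (Fin 2) k) (A := RT p k)
      inferInstance h1
  exact (RingHom.finiteType_algebraMap).2 h2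

instance : QuasiCompact (sTT p k) := by
  unfold sTT
  infer_instance

instance : IsSeparated (sTT p k) := by
  unfold sTT
  infer_instance

end T

end Pool.Agent.Helper198.Sch
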