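import Pool.Agent.Helper198.SchR

open MvPolynomial AlgebraicGeometry CategoryTheory Limits TopologicalSpace

namespace Pool.Agent.Helper198.Sch

attribute [local instance] MvPolynomial.gradedAlgebra

section loc

variable {p : ℕ} [hp : Fact p.Prime] {k : Type} [Field k]

/-- inclusion of the plane. -/
noncomputable def τX (p : ℕ) (k : Type) [Field k] : MvPolynomial (Fin 2) k →ₐ[k] QX p k :=
  aeval ![qv p k 2, qv p k 1]

omit hp in
lemma τX_0 : τX p k (X 0) = qv p k 2 := by simp [τX]

omit hp in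
lemma τX_1 : τX p k (X 1) = qv p k 1 := by simp [τX]

lemma exists_τX (b : QX p k) :
    ∃ (n : ℕ) (f : MvPolynomial (Fin 2) k), (qv p k 1 ^ p - qv p k 1) ^ n * b = τX p k f := by
  obtain ⟨g, rfl⟩ := Ideal.Quotient.mk_surjective b
  have hD : qv p k 1 ^ p - qv p k 1 = τX p k (X 1 ^ p - X 1) := by
    rw [map_sub, map_pow, τX_1]
  induction g using MvPolynomial.induction_on with
  | C a =>
    refine ⟨0, C a, ?_⟩
    rw [pow_zero, one_mul]
    exact ((τX p k).commutes a).symm
  | add g h ihg ihh =>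
    obtain ⟨n, f, hf⟩ := ihg
    obtain ⟨m, f', hf'⟩ := ihh
    refine ⟨n + m, (X 1 ^ p - X 1) ^ m * f + (X 1 ^ p - X 1) ^ n * f', ?_⟩
    rw [map_add, map_add, map_mul, map_mul, map_pow, map_pow, ← hD, ← hf, ← hf', pow_add]
    ring
  | mul_X g s ih =>
    obtain ⟨n, f, hf⟩ := ih
    have hs : (Ideal.Quotient.mk (Ideal.span (Set.range (fX p k)))) (g * X s) =
      (Ideal.Quotient.mk (Ideal.span (Set.range (fX p k)))) g * qv p k s := map_mul _ _ _
    rw [hs]
    fin_cases s
    · refine ⟨n + 1, f * (-(X 0 ^ p - X 0)), ?_⟩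
      have h1 := qv_rel p k
      rw [map_mul, map_neg, map_sub, map_pow, τX_0, ← hf, pow_succ]
      change (qv p k 1 ^ p - qv p k 1) ^ n * (qv p k 1 ^ p - qv p k 1) * (_ * qv p k 0) = _
      linear_combination ((qv p k 1 ^ p - qv p k 1) ^ n *
        (Ideal.Quotient.mk (Ideal.span (Set.range (fX p k)))) g) * h1
    · refine ⟨n, f * X 1, ?_⟩
      rw [map_mul, τX_1, ← hf]
      change (qv p k 1 ^ p - qv p k 1) ^ n * (_ * qv p k 1) = _
      ring
    · refine ⟨n, f * X 0, ?_⟩
      rw [map_mul, τX_0, ← hf]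
      change (qv p k 1 ^ p - qv p k 1) ^ n * (_ * qv p k 2) = _
      ring

variable [CharP k p]

lemma isUnit_D2 : IsUnit (αT p k 2 ^ p - αT p k 2) := by
  have h := good_αT p k
  exact (isUnit_of_Mo_one p (a := αT p k 1) (b := αT p k 2) h).1

lemma isLocalization_of (χ : QX p k →ₐ[k] RT p k) (h1 : χ (qv p k 1) = αT p k 2)
    (h2 : χ (qv p k 2) = αT p k 1) :
    @IsLocalization.Away (QX p k) _ (Mo p 1 (qv p k 2) (qv p k 1)) (RT p k) _
      (χ : QX p k →+* RT p k).toAlgebra := by
  let := (χ : QX p k →+* RT p k).toAlgebra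
  have hcomp : ∀ f, χ (τX p k f) = algebraMap (MvPolynomial (Fin 2) k) (RT p k) f := by
    intro f
    have : χ.comp (τX p k) = IsScalarTower.toAlgHom k (MvPolynomial (Fin 2) k) (RT p k) := by
      apply MvPolynomial.algHom_ext
      intro s
      fin_cases s
      · change χ (τX p k (X 0)) = _
        rw [τX_0, h2]
        rfl
      · change χ (τX p k (X 1)) = _
        rw [τX_1, h1]
        rfl
    exact DFunLike.congr_fun this f
  have hM : Mo p 1 (qv p k 2) (qv p k 1) = τX p k (MoP p k) := by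
    have e := map_Mo p (τX p k : MvPolynomial (Fin 2) k →+* QX p k) 1 (X 0) (X 1)
    rw [map_one] at e
    refine Eq.trans ?_ e.symm
    congr 1
    · exact τX_0.symm
    · exact τX_1.symm
  have halg : ∀ x, algebraMap (QX p k) (RT p k) x = χ x := fun x => rfl
  have hinj0 : ∀ b : QX p k, χ b = 0 → b = 0 := by
    intro b hb
    obtain ⟨n, f, hf⟩ := exists_τX b
    have h3 := congrArg χ hf
    rw [map_mul, hb, mul_zero, hcomp] at h3
    have h4 : f = 0 := by
      have hinj := IsLocalization.injective (RT p k)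
        (powers_le_nonZeroDivisors_of_noZeroDivisors (MoP_ne_zero p k))
      exact (map_eq_zero_iff _ hinj).1 h3.symm
    rw [h4, map_zero] at hf
    rcases mul_eq_zero.1 hf with h5 | h5
    · exfalso
      have h7 := congrArg χ h5
      rw [map_pow, map_sub, map_pow, h1, map_zero] at h7
      exact ((isUnit_D2 (p := p) (k := k)).pow n).ne_zero h7
    · exact h5
  have hinj : Function.Injective χ := by
    rw [injective_iff_map_eq_zero]
    exact hinj0
  refine ⟨?_, ?_, ?_⟩
  · rintro ⟨_, n, rfl⟩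
    simp only [map_pow, halg]
    apply IsUnit.pow
    rw [hM, hcomp]
    exact IsLocalization.Away.algebraMap_isUnit _
  · intro z
    obtain ⟨⟨f, s⟩, hfs⟩ := IsLocalization.surj (Submonoid.powers (MoP p k)) z
    obtain ⟨_, n, rfl⟩ := s
    refine ⟨⟨τX p k f, ⟨(Mo p 1 (qv p k 2) (qv p k 1)) ^ n, n, rfl⟩⟩, ?_⟩
    simp only [halg, hcomp]
    rw [map_pow, hM, hcomp]
    simp only [map_pow] at hfs
    exact hfs
  · intro x y hxy
    refine ⟨1, ?_⟩
    rw [hinj hxy]

end loc

end Pool.Agent.Helper198.Sch
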