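import Pool.Agent.Helper198.SchS

open MvPolynomial AlgebraicGeometry CategoryTheory Limits TopologicalSpace

namespace Pool.Agent.Helper198.Sch

attribute [local instance] MvPolynomial.gradedAlgebra

section family

variable (p : ℕ) [hp : Fact p.Prime] (k : Type) [Field k]

/-- The map from the total space to the surface. -/
noncomputable def toX : V (JC p (αT p k)) ⟶ V (JX p k) :=
  V.map (algebraMap k (RT p k)) (JX p k) (JC p (αT p k)) (rel_JX_JC _ p _)

omit hp in
lemma toX_comm : toX p k ≫ V.str (JX p k) = V.str (JC p (αT p k)) ≫ sTT p k :=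
  V.map_str _ _ _ _

variable [CharP k p]

/-- The marked section. -/
noncomputable def ptT : TT p k ⟶ V (JC p (αT p k)) := pt t0 (αT p k) (good_αT p k)

lemma ptT_str : ptT p k ≫ V.str (JC p (αT p k)) = 𝟙 _ := pt_str _ _ _

/-- the ring map of the moving point. -/
noncomputable def psi : Ch (JX p k) t0.c →ₐ[k] RT p k where
  toRingHom := (ptRing t0 (αT p k) (good_αT p k) : Ch (JC p (αT p k)) t0.c →+* RT p k).comp
    (V.chMap (algebraMap k (RT p k)) (JX p k) (JC p (αT p k)) (rel_JX_JC _ p _) t0.c)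
  commutes' := by
    intro r
    change ptRing t0 (αT p k) (good_αT p k) (V.chMap _ _ _ _ _ (algebraMap k _ r)) = _
    rw [V.chMap_algebraMap]
    exact (ptRing t0 (αT p k) (good_αT p k)).commutes _

lemma psi_frac (q : Idx) : psi p k (frac (JX p k) t0.c q) =
    uP p (αT p k) (sc p t0 (αT p k)) q := by
  change ptRing t0 (αT p k) (good_αT p k) (V.chMap _ _ _ _ _ (frac _ _ q)) = _
  rw [V.chMap_frac, ptRing, chLift_frac]

/-- on the explicit chart. -/
noncomputable def chi : QX p k →ₐ[k] RT p k := (psi p k).comp (chX_from t0 hp.out.ne_zero)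

lemma sc_cr : sc p t0 (αT p k) * cr p (αT p k) 1 = 1 := by
  have h := sc_mul (p := p) t0 (good_αT p k)
  have h0 : αT p k t0.i = 1 := rfl
  rw [h0, one_mul] at h
  exact h

lemma chi_1 : chi p k (qv p k 1) = αT p k 2 := by
  rw [chi, AlgHom.comp_apply, chX_from_qv]
  change psi p k (frac (JX p k) t0.c (2, 1)) = _
  rw [psi_frac, uP]
  linear_combination (αT p k 2) * sc_cr p k

lemma chi_2 : chi p k (qv p k 2) = αT p k 1 := by
  rw [chi, AlgHom.comp_apply, chX_from_qv]
  change psi p k (frac (JX p k) t0.c (1, 1)) = _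
  rw [psi_frac, uP]
  linear_combination (αT p k 1) * sc_cr p k

lemma isOpenImmersion_chi :
    IsOpenImmersion (Spec.map (CommRingCat.ofHom (chi p k : QX p k →+* RT p k))) := by
  let := (chi p k : QX p k →+* RT p k).toAlgebra
  have := isLocalization_of (chi p k) (chi_1 p k) (chi_2 p k)
  exact IsOpenImmersion.of_isLocalization (Mo p 1 (qv p k 2) (qv p k 1))

lemma psi_eq : (psi p k : Ch (JX p k) t0.c →+* RT p k) =
    (chi p k : QX p k →+* RT p k).comp
      ((chX_equiv (R := k) t0 (hp.out.ne_zero)).toRingEquiv : Ch (JX p k) t0.c →+* QX p k) := by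
  ext x
  change psi p k x = psi p k (chX_from t0 hp.out.ne_zero (chX_to t0 hp.out.ne_zero x))
  congr 1
  exact ((chX_equiv (R := k) t0 (hp.out.ne_zero)).symm_apply_apply x).symm

lemma ptT_toX : ptT p k ≫ toX p k =
    Spec.map (CommRingCat.ofHom (psi p k : Ch (JX p k) t0.c →+* RT p k)) ≫
      V.chart (JX p k) t0.c := by
  rw [ptT, pt, toX, Category.assoc, V.chart_map, ← Category.assoc, ← Spec.map_comp,
    ← CommRingCat.ofHom_comp]
  rfl

lemma isOpenImmersion_pt : IsOpenImmersion (ptT p k ≫ toX p k) := by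
  rw [ptT_toX, psi_eq, CommRingCat.ofHom_comp, Spec.map_comp]
  have h1 := isOpenImmersion_chi p k
  have h2 : IsIso (Spec.map (CommRingCat.ofHom
      ((chX_equiv (R := k) t0 (hp.out.ne_zero)).toRingEquiv : Ch (JX p k) t0.c →+* QX p k))) := by
    have : IsIso (CommRingCat.ofHom
      ((chX_equiv (R := k) t0 (hp.out.ne_zero)).toRingEquiv : Ch (JX p k) t0.c →+* QX p k)) :=
      inferInstanceAs (IsIso (chX_equiv (R := k) t0
        (hp.out.ne_zero)).toRingEquiv.toCommRingCatIso.hom)
    infer_instance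
  infer_instance

end family

end Pool.Agent.Helper198.Sch
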