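import Pool.Agent.Helper198.CurveDefs

open AlgebraicGeometry CategoryTheory Limits

namespace Pool.Agent.Helper198.Sch

open Pool.Agent.Helper198.CurveFamily

section alg

/-- the multiplicity condition for a ring map out of a local ring. -/
def MultRing {A B : Type*} [CommRing A] [IsLocalRing A] [CommRing B] (f : A →+* B) (m : ℕ) :
    Prop :=
  RingHom.ker f ≤ IsLocalRing.maximalIdeal A ^ m ∧
    ¬ RingHom.ker f ≤ IsLocalRing.maximalIdeal A ^ (m + 1)

variable {A A' B B' : Type*} [CommRing A] [IsLocalRing A] [CommRing A'] [IsLocalRing A']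
  [CommRing B] [CommRing B']

lemma ker_le_iff_post (f : A →+* B) (e' : B →+* B') (he' : Function.Injective e') (m : ℕ) :
    MultRing (e'.comp f) m ↔ MultRing f m := by
  have : RingHom.ker (e'.comp f) = RingHom.ker f := by
    ext x
    rw [RingHom.mem_ker, RingHom.mem_ker, RingHom.comp_apply, map_eq_zero_iff _ he']
  rw [MultRing, MultRing, this]

lemma comap_max_pow (e : A →+* A') (he : Function.Bijective e) (m : ℕ) :
    (IsLocalRing.maximalIdeal A' ^ m).comap e = IsLocalRing.maximalIdeal A ^ m := by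
  let E := RingEquiv.ofBijective e he
  have h1 : (IsLocalRing.maximalIdeal A').map (E.symm : A' →+* A) = IsLocalRing.maximalIdeal A := by
    apply le_antisymm
    · rw [Ideal.map_le_iff_le_comap]
      intro x hx
      rw [Ideal.mem_comap, IsLocalRing.mem_maximalIdeal, mem_nonunits_iff]
      intro hu
      apply (IsLocalRing.mem_maximalIdeal x).1 hx
      have := hu.map E
      simpa using this
    · intro x hx
      have hx2 : E x ∈ IsLocalRing.maximalIdeal A' := by
        rw [IsLocalRing.mem_maximalIdeal, mem_nonunits_iff]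
        intro hu
        apply (IsLocalRing.mem_maximalIdeal x).1 hx
        have := hu.map E.symm
        simpa using this
      have := Ideal.mem_map_of_mem (E.symm : A' →+* A) hx2
      simpa using this
  have h2 : (IsLocalRing.maximalIdeal A' ^ m).comap e =
      (IsLocalRing.maximalIdeal A' ^ m).map (E.symm : A' →+* A) := by
    have := Ideal.map_comap_of_equiv (I := IsLocalRing.maximalIdeal A' ^ m) E.symm
    exact this.symm ▸ rfl
  rw [h2, Ideal.map_pow, h1]

lemma ker_le_iff_pre (f : A' →+* B) (e : A →+* A') (he : Function.Bijective e) (m : ℕ) :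
    MultRing (f.comp e) m ↔ MultRing f m := by
  have key : ∀ n, RingHom.ker (f.comp e) ≤ IsLocalRing.maximalIdeal A ^ n ↔
      RingHom.ker f ≤ IsLocalRing.maximalIdeal A' ^ n := by
    intro n
    rw [← comap_max_pow e he n, ← RingHom.comap_ker]
    constructor
    · intro h x hx
      obtain ⟨y, rfl⟩ := he.2 x
      exact h hx
    · intro h
      exact Ideal.comap_mono h
  rw [MultRing, MultRing, key, key]

end alg

section scheme

variable {C X U W : Scheme.{0}}

lemma hasMultiplicityAt_iff (ι : C ⟶ X) (z : C) (m : ℕ) :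
    HasMultiplicityAt ι z m ↔ MultRing (ι.stalkMap z).hom m := Iff.rfl

lemma multRing_congr (f g : W ⟶ X) (h : f = g) (w : W) (m : ℕ) :
    HasMultiplicityAt f w m ↔ HasMultiplicityAt g w m := by
  subst h
  rfl

lemma mult_comp_left (i : W ⟶ C) [IsOpenImmersion i] (ι : C ⟶ X) (w : W) (m : ℕ) :
    HasMultiplicityAt (i ≫ ι) w m ↔ HasMultiplicityAt ι (i w) m := by
  have h1 := Scheme.Hom.stalkMap_comp i ι w
  have h2 : HasMultiplicityAt (i ≫ ι) w m ↔
      MultRing ((i.stalkMap w).hom.comp (ι.stalkMap (i w)).hom) m := by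
    rw [hasMultiplicityAt_iff, h1]
    exact Iff.rfl
  rw [h2]
  exact ker_le_iff_post _ _ (ConcreteCategory.bijective_of_isIso (i.stalkMap w)).1 m

lemma mult_comp_right (g : W ⟶ U) (j : U ⟶ X) [IsOpenImmersion j] (w : W) (m : ℕ) :
    HasMultiplicityAt (g ≫ j) w m ↔ HasMultiplicityAt g w m := by
  have h1 := Scheme.Hom.stalkMap_comp g j w
  have h2 : HasMultiplicityAt (g ≫ j) w m ↔
      MultRing ((g.stalkMap w).hom.comp (j.stalkMap (g w)).hom) m := by
    rw [hasMultiplicityAt_iff, h1]
    exact Iff.rfl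
  rw [h2]
  exact ker_le_iff_pre _ _ (ConcreteCategory.bijective_of_isIso (j.stalkMap (g w))) m

lemma mult_square (ι : C ⟶ X) (j : U ⟶ X) (i : W ⟶ C) (g : W ⟶ U) [IsOpenImmersion j]
    [IsOpenImmersion i] (h : i ≫ ι = g ≫ j) (w : W) (m : ℕ) :
    HasMultiplicityAt ι (i w) m ↔ HasMultiplicityAt g w m := by
  rw [← mult_comp_left, ← mult_comp_right g j w m, multRing_congr _ _ h w m]

end scheme

section spec

variable {R S : Type} [CommRing R] [CommRing S]

lemma mult_of_comp {A A' B B' : CommRingCat.{0}} [IsLocalRing A] [IsLocalRing A'] (f : A ⟶ B)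
    (e : A ≅ A') (g : A' ⟶ B') (e' : B' ≅ B) (h : e.hom ≫ g ≫ e'.hom = f) (m : ℕ) :
    MultRing f.hom m ↔ MultRing g.hom m := by
  subst h
  rw [CommRingCat.hom_comp, CommRingCat.hom_comp]
  refine (ker_le_iff_pre _ _ ?_ m).trans (ker_le_iff_post _ _ ?_ m)
  · exact ConcreteCategory.bijective_of_isIso e.hom
  · exact (ConcreteCategory.bijective_of_isIso e'.hom).1

lemma mult_spec (φ : R →+* S) (P : PrimeSpectrum S) (m : ℕ) :
    HasMultiplicityAt (C := Spec (.of S)) (Spec.map (CommRingCat.ofHom φ)) P m ↔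
      MultRing (Localization.localRingHom (P.asIdeal.comap φ) P.asIdeal φ rfl) m := by
  have : IsLocalRing (CommRingCat.of (Localization.AtPrime (P.asIdeal.comap φ))) :=
    inferInstanceAs (IsLocalRing (Localization.AtPrime (P.asIdeal.comap φ)))
  have i2 : ∀ x : Spec (.of R), IsLocalRing ((Spec (.of R)).presheaf.stalk x) :=
    fun x => inferInstance
  have i3 := i2 (PrimeSpectrum.comap (CommRingCat.ofHom φ).hom P)
  exact mult_of_comp _ _
    (CommRingCat.ofHom (Localization.localRingHom (P.asIdeal.comap φ) P.asIdeal φ rfl))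
    (Spec.stalkIso (.of S) P).symm
    (Scheme.localRingHom_comp_stalkIso (CommRingCat.ofHom φ) P) m

/-- A criterion for the multiplicity in the affine case. -/
lemma mult_criterion (φ : R →+* S) (hφ : Function.Surjective φ) (P : PrimeSpectrum S) (m : ℕ)
    (h1 : RingHom.ker φ ≤ (P.asIdeal.comap φ) ^ m)
    (l : R) (hl : φ l = 0) {E : Type*} [CommRing E] (θ : R →+* E) (I : Ideal E)
    (hI : (P.asIdeal.comap φ).map θ ≤ I)
    (hl' : ∀ s, φ s ∉ P.asIdeal → θ (s * l) ∉ I ^ (m + 1)) :
    MultRing (Localization.localRingHom (P.asIdeal.comap φ) P.asIdeal φ rfl) m := by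
  set Q := P.asIdeal.comap φ with hQ
  have hmax : IsLocalRing.maximalIdeal (Localization.AtPrime Q) =
      Q.map (algebraMap R (Localization.AtPrime Q)) :=
    (Localization.AtPrime.map_eq_maximalIdeal).symm
  constructor
  · intro x hx
    obtain ⟨a, s, rfl⟩ := IsLocalization.exists_mk'_eq Q.primeCompl x
    rw [RingHom.mem_ker] at hx
    have h2 : algebraMap R (Localization.AtPrime Q) a =
      IsLocalization.mk' (Localization.AtPrime Q) a s * algebraMap R (Localization.AtPrime Q) s :=
      (IsLocalization.mk'_spec _ _ _).symm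
    have h3 := congrArg (Localization.localRingHom Q P.asIdeal φ rfl) h2
    rw [map_mul, hx, zero_mul, Localization.localRingHom_to_map] at h3
    obtain ⟨c, hc⟩ := (IsLocalization.map_eq_zero_iff P.asIdeal.primeCompl
      (Localization.AtPrime P.asIdeal) (φ a)).1 h3
    obtain ⟨c', hc'⟩ := hφ c
    have hc2 : φ c' ∉ P.asIdeal := by rw [hc']; exact c.2
    have h4 : c' * a ∈ RingHom.ker φ := by
      rw [RingHom.mem_ker, map_mul, hc', hc]
    have h5 := h1 h4
    rw [hmax, ← Ideal.map_pow]
    have h6 : IsLocalization.mk' (Localization.AtPrime Q) a s =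
      IsLocalization.mk' (Localization.AtPrime Q) (c' * a)
        (⟨c', hc2⟩ * s : Q.primeCompl) := by
      rw [IsLocalization.mk'_eq_iff_eq]
      congr 1
      simp only [Submonoid.coe_mul]
      ring
    rw [h6, IsLocalization.mk'_mem_iff]
    exact Ideal.mem_map_of_mem _ h5
  · intro h
    have h2 : algebraMap R (Localization.AtPrime Q) l ∈
        RingHom.ker (Localization.localRingHom Q P.asIdeal φ rfl) := by
      rw [RingHom.mem_ker, Localization.localRingHom_to_map, hl, map_zero]
    have h3 := h h2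
    rw [hmax, ← Ideal.map_pow, IsLocalization.mem_map_algebraMap_iff Q.primeCompl] at h3
    obtain ⟨⟨x, s⟩, hxs⟩ := h3
    simp only at hxs
    rw [← map_mul, IsLocalization.eq_iff_exists Q.primeCompl] at hxs
    obtain ⟨c, hc⟩ := hxs
    have hs : φ (c * s : R) ∉ P.asIdeal := by
      have : (c * s : Q.primeCompl).1 ∉ Q := (c * s).2
      exact this
    apply hl' (c * s) hs
    have h4 : (c * s : R) * l = c * x := by
      rw [← hc]; ring
    rw [h4]
    have h5 : (c * x : R) ∈ Q ^ (m + 1) := Ideal.mul_mem_left _ _ x.2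
    have h6 := Ideal.mem_map_of_mem θ h5
    rw [Ideal.map_pow] at h6
    exact Ideal.pow_right_mono hI _ h6

end spec

end Pool.Agent.Helper198.Sch
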