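import Pool.Agent.Helper198.SchT
import Pool.Agent.Helper198.SchU

open AlgebraicGeometry CategoryTheory Limits

namespace Pool.Agent.Helper198.Sch

open Pool.Agent.Helper198.CurveFamily

attribute [local instance] MvPolynomial.gradedAlgebra

section ext

variable {R : Type} [CommRing R] {p : ℕ} (t : Tri)

lemma chX_algHom_ext (hp : p ≠ 0) {E : Type*} [CommRing E] [Algebra R E]
    (f g : Ch (JX p R) t.c →ₐ[R] E)
    (h0 : f (frac (JX p R) t.c (t.i, t.l)) = g (frac (JX p R) t.c (t.i, t.l)))
    (h1 : f (frac (JX p R) t.c (t.l, t.j)) = g (frac (JX p R) t.c (t.l, t.j)))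
    (h2 : f (frac (JX p R) t.c (t.j, t.j)) = g (frac (JX p R) t.c (t.j, t.j))) : f = g := by
  have h : f.comp (chX_from t hp) = g.comp (chX_from t hp) := by
    apply Ideal.Quotient.algHom_ext
    apply MvPolynomial.algHom_ext
    intro s
    change f (chX_from t hp (qv p R s)) = g (chX_from t hp (qv p R s))
    rw [chX_from_qv]
    fin_cases s
    · exact h0
    · exact h1
    · exact h2
  ext x
  have h3 := DFunLike.congr_fun h (chX_to t hp x)
  change f (chX_from t hp (chX_to t hp x)) = g (chX_from t hp (chX_to t hp x)) at h3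
  have h4 : chX_from t hp (chX_to t hp x) = x := (chX_equiv t hp).symm_apply_apply x
  rwa [h4] at h3

/-- lifts from the explicit chart ring. -/
noncomputable def qxLift (p : ℕ) (R : Type) [CommRing R] {E : Type*} [CommRing E] [Algebra R E]
    (y z v : E) (h : (z ^ p - z) * y + (v ^ p - v) = 0) : QX p R →ₐ[R] E :=
  Ideal.Quotient.liftₐ _ (MvPolynomial.aeval ![y, z, v]) (by
      have h2 : Ideal.span (Set.range (fX p R)) ≤
        RingHom.ker (MvPolynomial.aeval ![y, z, v] : MvPolynomial (Fin 3) R →ₐ[R] _).toRingHom := by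
        rw [Ideal.span_le]
        rintro _ ⟨_, rfl⟩
        change MvPolynomial.aeval _ (fX p R _) = 0
        simp [fX]
        linear_combination h
      intro f hf
      exact h2 hf)

lemma qxLift_qv {E : Type*} [CommRing E] [Algebra R E]
    (y z v : E) (h : (z ^ p - z) * y + (v ^ p - v) = 0) (s : Fin 3) :
    qxLift p R y z v h (qv p R s) = ![y, z, v] s := by
  change MvPolynomial.aeval _ (MvPolynomial.X s) = _
  rw [MvPolynomial.aeval_X]

/-- lifts from the chart ring of the surface. -/
noncomputable def chXLift (hp : p ≠ 0) {E : Type*} [CommRing E] [Algebra R E]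
    (y z v : E) (h : (z ^ p - z) * y + (v ^ p - v) = 0) : Ch (JX p R) t.c →ₐ[R] E :=
  (qxLift p R y z v h).comp (chX_to t hp)

lemma chXLift_il (hp : p ≠ 0) {E : Type*} [CommRing E] [Algebra R E]
    (y z v : E) (h : (z ^ p - z) * y + (v ^ p - v) = 0) :
    chXLift t hp y z v h (frac (JX p R) t.c (t.i, t.l)) = y := by
  rw [chXLift, AlgHom.comp_apply, chX_to, chLift_frac, uX]
  simp only [Tri.ze_i, Tri.et_l, one_mul]
  exact qxLift_qv y z v h 0

lemma chXLift_lj (hp : p ≠ 0) {E : Type*} [CommRing E] [Algebra R E]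
    (y z v : E) (h : (z ^ p - z) * y + (v ^ p - v) = 0) :
    chXLift t hp y z v h (frac (JX p R) t.c (t.l, t.j)) = z := by
  rw [chXLift, AlgHom.comp_apply, chX_to, chLift_frac, uX]
  simp only [Tri.ze_l, Tri.et_j, mul_one]
  exact qxLift_qv y z v h 1

lemma chXLift_jj (hp : p ≠ 0) {E : Type*} [CommRing E] [Algebra R E]
    (y z v : E) (h : (z ^ p - z) * y + (v ^ p - v) = 0) :
    chXLift t hp y z v h (frac (JX p R) t.c (t.j, t.j)) = v := by
  rw [chXLift, AlgHom.comp_apply, chX_to, chLift_frac, uX]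
  simp only [Tri.ze_j, Tri.et_j, mul_one]
  exact qxLift_qv y z v h 2

end ext

section ker

variable {k : Type} [CommRing k] (p : ℕ) (t : Tri) (α : Fin 3 → k)

/-- The local equation of the curve. -/
noncomputable def ell : Ch (JX p k) t.c :=
  ∑ b : Fin 3, (algebraMap k (Ch (JX p k) t.c) (α b)) ^ p * frac (JX p k) t.c (t.i, b)

lemma ell_row (a : Fin 3) :
    ∑ b : Fin 3, (algebraMap k (Ch (JX p k) t.c) (α b)) ^ p * frac (JX p k) t.c (a, b) =
      frac (JX p k) t.c (a, t.j) * ell p t α := by
  have hs := satX_frac p (J := JX p k) le_rfl t.c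
  rw [ell, Finset.mul_sum]
  refine Finset.sum_congr rfl (fun b _ => ?_)
  rw [hs.prod t (frac_self _ _) a b]
  ring

lemma chMap_ell : V.chMap (RingHom.id k) (JX p k) (JC p α) (rel_JX_JC _ p α) t.c (ell p t α) = 0 := by
  rw [ell, map_sum]
  have h := satL_frac p α (J := JC p α) le_rfl t.c t.i
  rw [← h]
  refine Finset.sum_congr rfl (fun b _ => ?_)
  rw [map_mul, map_pow, V.chMap_algebraMap, V.chMap_frac]
  rfl

lemma ker_chMap_le :
    RingHom.ker (V.chMap (RingHom.id k) (JX p k) (JC p α) (rel_JX_JC _ p α) t.c) ≤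
      Ideal.span {ell p t α} := by
  intro x hx
  set K := Ideal.span {ell p t α} with hK
  have hs := satX_frac p (J := JX p k) le_rfl t.c
  let u : Idx → (Ch (JX p k) t.c ⧸ K) := fun q => Ideal.Quotient.mk K (frac (JX p k) t.c q)
  have h1 : SatX p u := by
    refine ⟨?_, ?_, ?_⟩
    · intro a b c d
      change Ideal.Quotient.mk K _ * Ideal.Quotient.mk K _ =
        Ideal.Quotient.mk K _ * Ideal.Quotient.mk K _
      rw [← map_mul, hs.minor, map_mul]
    · have := congrArg (Ideal.Quotient.mk K) hs.trace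
      rw [map_sum, map_zero] at this
      exact this
    · intro b
      have := congrArg (Ideal.Quotient.mk K) (hs.pow b)
      simp only [map_sum, map_zero, map_mul, map_pow] at this
      exact this
  have h2 : SatL p (fun b => algebraMap k (Ch (JX p k) t.c ⧸ K) (α b)) u := by
    intro a
    have h3 : Ideal.Quotient.mk K (∑ b : Fin 3, (algebraMap k (Ch (JX p k) t.c) (α b)) ^ p *
        frac (JX p k) t.c (a, b)) = 0 := by
      rw [ell_row, Ideal.Quotient.eq_zero_iff_mem]
      exact Ideal.mul_mem_left _ _ (Ideal.mem_span_singleton_self _)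
    simp only [map_sum, map_mul, map_pow] at h3
    exact h3
  have hc : u t.c = 1 := by
    change Ideal.Quotient.mk K (frac (JX p k) t.c t.c) = 1
    rw [frac_self, map_one]
  let L : Ch (JC p α) t.c →ₐ[k] (Ch (JX p k) t.c ⧸ K) :=
    chLift (JC p α) t.c u hc (aeval_JC p α u h1 h2)
  have h4 : (L : Ch (JC p α) t.c →+* (Ch (JX p k) t.c ⧸ K)).comp
      (V.chMap (RingHom.id k) (JX p k) (JC p α) (rel_JX_JC _ p α) t.c) =
      Ideal.Quotient.mk K := by
    apply ch_ringHom_ext
    · intro r
      rw [RingHom.comp_apply, V.chMap_algebraMap]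
      exact L.commutes r
    · intro a
      rw [RingHom.comp_apply, V.chMap_frac]
      exact chLift_frac (JC p α) t.c u hc (aeval_JC p α u h1 h2) a
  have h5 := DFunLike.congr_fun h4 x
  rw [RingHom.comp_apply, (RingHom.mem_ker).1 hx, map_zero] at h5
  exact Ideal.Quotient.eq_zero_iff_mem.1 h5.symm

variable [hp : Fact p.Prime] [CharP k p]

lemma sub_pow_char' {E : Type*} [CommRing E] (hE : (p : E) = 0) (x y : E) :
    (x - y) ^ p = x ^ p - y ^ p := by
  rcases subsingleton_or_charP hE with h1 | h1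
  · exact Subsingleton.elim _ _
  · exact sub_pow_char _ _

/-- The identity which shows that the multiplicity is at least `p`. -/
lemma ell_eq (h1 : α t.i = 1) : ell p t α =
    (algebraMap k _ (α t.j) - frac (JX p k) t.c (t.j, t.j)) ^ p +
    (algebraMap k _ (α t.l) - frac (JX p k) t.c (t.l, t.j)) ^ p *
      frac (JX p k) t.c (t.i, t.l) := by
  have hpE : (p : Ch (JX p k) t.c) = 0 := natCast_eq_zero_of_algebra k _
  have hs := satX_frac p (J := JX p k) le_rfl t.c
  have h2 := hs.rel t hp.out.ne_zero (frac_self _ _)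
  have h3 := hs.tr t (frac_self _ _)
  have h4 : frac (JX p k) t.c (t.i, t.j) = 1 := frac_self (JX p k) t.c
  rw [sub_pow_char' p hpE, sub_pow_char' p hpE, ell, t.sum, h1, h3, h4, map_one, one_pow]
  linear_combination h2

end ker

end Pool.Agent.Helper198.Sch
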