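import Pool.Agent.Helper198.SchW

open AlgebraicGeometry CategoryTheory Limits Polynomial

namespace Pool.Agent.Helper198.Sch

open Pool.Agent.Helper198.CurveFamily

attribute [local instance] MvPolynomial.gradedAlgebra

section mult

variable {p : ℕ} [hp : Fact p.Prime] {k : Type} [Field k] [CharP k p]
  {α : Fin 3 → k} (h : Good p α)

/-- The closed immersion of the curve in the surface. -/
noncomputable def iot (p : ℕ) {k : Type} [Field k] (α : Fin 3 → k) : V (JC p α) ⟶ V (JX p k) :=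
  V.map (RingHom.id k) (JX p k) (JC p α) (rel_JX_JC _ p α)

/-- evaluation at the marked point. -/
noncomputable def evX : Ch (JX p k) t0.c →ₐ[k] k where
  toRingHom := (ptRing t0 α h : Ch (JC p α) t0.c →+* k).comp
    (V.chMap (RingHom.id k) (JX p k) (JC p α) (rel_JX_JC _ p α) t0.c)
  commutes' := by
    intro r
    change ptRing t0 α h (V.chMap _ _ _ _ _ (algebraMap k _ r)) = _
    rw [V.chMap_algebraMap]
    exact (ptRing t0 α h).commutes _

lemma evX_frac (q : Idx) : evX h (frac (JX p k) t0.c q) = uP p α (sc p t0 α) q := by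
  change ptRing t0 α h (V.chMap _ _ _ _ _ (frac _ _ q)) = _
  rw [V.chMap_frac, ptRing, chLift_frac]

include h in
lemma sc_cr' (h1 : α 0 = 1) : sc p t0 α * cr p α 1 = 1 := by
  have h2 := sc_mul (p := p) t0 h
  have h0 : α t0.i = 1 := h1
  rw [h0, one_mul] at h2
  exact h2

lemma evX_lj (h1 : α 0 = 1) : evX h (frac (JX p k) t0.c (t0.l, t0.j)) = α 2 := by
  rw [evX_frac, uP]
  change sc p t0 α * α 2 * cr p α 1 = α 2
  linear_combination α 2 * sc_cr' h h1

lemma evX_jj (h1 : α 0 = 1) : evX h (frac (JX p k) t0.c (t0.j, t0.j)) = α 1 := by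
  rw [evX_frac, uP]
  change sc p t0 α * α 1 * cr p α 1 = α 1
  linear_combination α 1 * sc_cr' h h1

include h in
lemma D2_ne (h1 : α 0 = 1) : α 2 ^ p - α 2 ≠ 0 := by
  have h2 : IsUnit (Mo p 1 (α 1) (α 2)) := by
    have := h
    rw [Good, h1] at this
    exact this
  exact (isUnit_of_Mo_one p h2).1.ne_zero

/-- The test curve. -/
noncomputable def theta (h1 : α 0 = 1) : Ch (JX p k) t0.c →ₐ[k] k[X] :=
  chXLift t0 hp.out.ne_zero (C (-(α 2 ^ p - α 2)⁻¹) * ((C (α 1) + X) ^ p - (C (α 1) + X)))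
    (C (α 2)) (C (α 1) + X) (by
      have h2 : (C (α 2) ^ p - C (α 2) : k[X]) * C (-(α 2 ^ p - α 2)⁻¹) = -1 := by
        rw [← C_pow, ← C_sub, ← C_mul, mul_neg, mul_inv_cancel₀ (D2_ne h h1), C_neg, C_1]
      rw [← mul_assoc, h2]
      ring)

lemma aeval_theta (h1 : α 0 = 1) (x : Ch (JX p k) t0.c) :
    (theta h h1 x).eval 0 = evX h x := by
  have : ((Polynomial.aeval (0 : k)).comp (theta h h1)) = evX h := by
    have e1 : ((Polynomial.aeval (0 : k)).comp (theta h h1))
        (frac (JX p k) t0.c (t0.l, t0.j)) = evX h (frac (JX p k) t0.c (t0.l, t0.j)) := by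
      rw [AlgHom.comp_apply, theta, chXLift_lj, evX_lj h h1]
      simp
    have e2 : ((Polynomial.aeval (0 : k)).comp (theta h h1))
        (frac (JX p k) t0.c (t0.j, t0.j)) = evX h (frac (JX p k) t0.c (t0.j, t0.j)) := by
      rw [AlgHom.comp_apply, theta, chXLift_jj, evX_jj h h1]
      simp
    apply chX_algHom_ext t0 hp.out.ne_zero _ _ _ e1 e2
    have hs := satX_frac p (J := JX p k) le_rfl t0.c
    have h2 := hs.rel t0 hp.out.ne_zero (frac_self _ _)
    have h3 := congrArg ((Polynomial.aeval (0 : k)).comp (theta h h1)) h2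
    have h4 := congrArg (evX h) h2
    rw [map_zero, map_add, map_mul, map_sub, map_sub, map_pow, map_pow] at h3 h4
    rw [e1, e2] at h3
    have h5 : (evX h (frac (JX p k) t0.c (t0.l, t0.j))) ^ p -
        evX h (frac (JX p k) t0.c (t0.l, t0.j)) ≠ 0 := by
      rw [evX_lj h h1]; exact D2_ne h h1
    apply mul_left_cancel₀ h5
    linear_combination h3 - h4
  rw [← this]
  rfl

lemma theta_jj (h1 : α 0 = 1) :
    theta h h1 (frac (JX p k) t0.c (t0.j, t0.j)) = C (α 1) + X := by
  rw [theta, chXLift_jj]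

lemma theta_lj (h1 : α 0 = 1) :
    theta h h1 (frac (JX p k) t0.c (t0.l, t0.j)) = C (α 2) := by
  rw [theta, chXLift_lj]

lemma theta_ell (h1 : α 0 = 1) : theta h h1 (ell p t0 α) = (-X) ^ p := by
  have e1 : theta h h1 (algebraMap k _ (α t0.j)) = C (α 1) := (theta h h1).commutes _
  have e2 : theta h h1 (algebraMap k _ (α t0.l)) = C (α 2) := (theta h h1).commutes _
  rw [ell_eq p t0 α h1, map_add, map_mul, map_pow, map_pow, map_sub, map_sub, theta_jj, theta_lj,
    e1, e2, sub_self, zero_pow hp.out.ne_zero, zero_mul, add_zero]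
  congr 1
  ring

lemma mult_pt (h1 : α 0 = 1) :
    HasMultiplicityAt (iot p α) (pt t0 α h (IsLocalRing.closedPoint k)) p := by
  let φ := V.chMap (RingHom.id k) (JX p k) (JC p α) (rel_JX_JC _ p α) t0.c
  let P : PrimeSpectrum (Ch (JC p α) t0.c) :=
    PrimeSpectrum.comap (ptRing t0 α h : Ch (JC p α) t0.c →+* k) (IsLocalRing.closedPoint k)
  have hP : ∀ x, x ∈ P.asIdeal ↔ ptRing t0 α h x = 0 := by
    intro x
    have h2 : x ∈ P.asIdeal ↔ ptRing t0 α h x ∈ IsLocalRing.maximalIdeal k := Iff.rfl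
    rw [h2, IsLocalRing.maximalIdeal_eq_bot, Ideal.mem_bot]
  have key := (mult_square (iot p α) (V.chart (JX p k) t0.c) (V.chart (JC p α) t0.c)
    (Spec.map (CommRingCat.ofHom φ)) (V.chart_map _ _ _ _ _) P p)
  refine key.2 ?_
  rw [mult_spec]
  have hQ : ∀ x, x ∈ P.asIdeal.comap φ ↔ evX h x = 0 := by
    intro x
    rw [Ideal.mem_comap, hP]
    rfl
  apply mult_criterion φ (V.chMap_id_surjective _ _ _ _) P p _ (ell p t0 α) (chMap_ell p t0 α)
    (theta h h1 : Ch (JX p k) t0.c →+* k[X]) (Ideal.span {X})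
  · rw [Ideal.map_le_iff_le_comap]
    intro x hx
    rw [hQ] at hx
    rw [Ideal.mem_comap, Ideal.mem_span_singleton, X_dvd_iff, coeff_zero_eq_eval_zero]
    exact (aeval_theta h h1 x).trans hx
  · intro s hs hmem
    have h2 : evX h s ≠ 0 := by
      intro h0
      exact hs ((hQ s).2 h0)
    rw [Ideal.span_singleton_pow, Ideal.mem_span_singleton] at hmem
    have h3 : (theta h h1 : Ch (JX p k) t0.c →+* k[X]) (s * ell p t0 α) =
      theta h h1 s * (-X) ^ p := by
      change theta h h1 (s * ell p t0 α) = _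
      rw [map_mul, theta_ell]
    rw [h3, neg_pow, pow_succ] at hmem
    have h4 : theta h h1 s * ((-1) ^ p * X ^ p) = X ^ p * (theta h h1 s * (-1) ^ p) := by ring
    rw [h4] at hmem
    have h5 : (X : k[X]) ∣ theta h h1 s * (-1) ^ p :=
      (mul_dvd_mul_iff_left (pow_ne_zero p X_ne_zero)).1 hmem
    have h6 : (X : k[X]) ∣ theta h h1 s := by
      have hu : IsUnit ((-1 : k[X]) ^ p) := (isUnit_one.neg).pow p
      exact (hu.dvd_mul_right).1 h5
    rw [X_dvd_iff, coeff_zero_eq_eval_zero, aeval_theta] at h6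
    exact h2 h6
  · refine (ker_chMap_le p t0 α).trans ?_
    rw [Ideal.span_singleton_le_iff_mem, ell_eq p t0 α h1]
    apply Ideal.add_mem
    · apply Ideal.pow_mem_pow
      rw [hQ, map_sub, evX_jj h h1, AlgHom.commutes]
      exact sub_self _
    · apply Ideal.mul_mem_right
      apply Ideal.pow_mem_pow
      rw [hQ, map_sub, evX_lj h h1, AlgHom.commutes]
      exact sub_self _

end mult

end Pool.Agent.Helper198.Sch
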