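import Pool.Agent.Helper198.SchX

open AlgebraicGeometry CategoryTheory Limits

namespace Pool.Agent.Helper198.Sch

open Pool.Agent.Helper198.CurveFamily

attribute [local instance] MvPolynomial.gradedAlgebra

variable {σ : Type} {R : Type} [CommRing R]

namespace V

section inter

variable (J0 J1 J2 J3 : HI σ R) (h01 : Rel (RingHom.id R) J0 J1) (h02 : Rel (RingHom.id R) J0 J2)
  (h13 : Rel (RingHom.id R) J1 J3) (h23 : Rel (RingHom.id R) J2 J3)
  (h3 : J3.toIdeal ≤ J1.toIdeal ⊔ J2.toIdeal)

include h3 in
/-- the pushout square of chart rings of an intersection. -/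
lemma isPushout_inter (c : σ) :
    IsPushout (CommRingCat.ofHom (chMap (RingHom.id R) J0 J1 h01 c))
      (CommRingCat.ofHom (chMap (RingHom.id R) J0 J2 h02 c))
      (CommRingCat.ofHom (chMap (RingHom.id R) J1 J3 h13 c))
      (CommRingCat.ofHom (chMap (RingHom.id R) J2 J3 h23 c)) := by
  refine ⟨⟨?_⟩, ⟨?_⟩⟩
  · rw [← CommRingCat.ofHom_comp, ← CommRingCat.ofHom_comp]
    congr 1
    apply ch_ringHom_ext
    · intro r
      rw [RingHom.comp_apply, RingHom.comp_apply, chMap_algebraMap, chMap_algebraMap,
        chMap_algebraMap, chMap_algebraMap]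
    · intro a
      rw [RingHom.comp_apply, RingHom.comp_apply, chMap_frac, chMap_frac, chMap_frac, chMap_frac]
  · have key : ∀ (s : PushoutCocone (CommRingCat.ofHom (chMap (RingHom.id R) J0 J1 h01 c))
        (CommRingCat.ofHom (chMap (RingHom.id R) J0 J2 h02 c))), ∃ m : Ch J3 c →+* s.pt,
        (∀ x, m (chMap (RingHom.id R) J1 J3 h13 c x) = s.inl.hom x) ∧
        (∀ x, m (chMap (RingHom.id R) J2 J3 h23 c x) = s.inr.hom x) := by
      intro s
      let : Algebra R s.pt := (s.inl.hom.comp (algebraMap R (Ch J1 c))).toAlgebra
      have hw : ∀ x, s.inl.hom (chMap (RingHom.id R) J0 J1 h01 c x) =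
          s.inr.hom (chMap (RingHom.id R) J0 J2 h02 c x) := by
        intro x
        have := s.condition
        exact congrArg (fun f => f.hom x) this
      have hfr : ∀ a, s.inl.hom (frac J1 c a) = s.inr.hom (frac J2 c a) := by
        intro a
        have := hw (frac J0 c a)
        rwa [chMap_frac, chMap_frac] at this
      have hal : ∀ r, s.inl.hom (algebraMap R (Ch J1 c) r) = s.inr.hom (algebraMap R (Ch J2 c) r) := by
        intro r
        have := hw (algebraMap R _ r)
        rwa [chMap_algebraMap, chMap_algebraMap] at this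
      have hev1 : ∀ f ∈ J1.toIdeal, MvPolynomial.aeval (fun a => s.inl.hom (frac J1 c a)) f = 0 := by
        intro f hf
        have h4 : MvPolynomial.aeval (fun a => s.inl.hom (frac J1 c a)) f =
            s.inl.hom (MvPolynomial.aeval (frac J1 c) f) := by
          rw [MvPolynomial.aeval_def, MvPolynomial.aeval_def, MvPolynomial.hom_eval₂]
          rfl
        rw [h4, aeval_frac_eq_zero J1 c f hf, map_zero]
      have hev2 : ∀ f ∈ J2.toIdeal, MvPolynomial.aeval (fun a => s.inl.hom (frac J1 c a)) f = 0 := by
        intro f hf
        have h4 : MvPolynomial.aeval (fun a => s.inl.hom (frac J1 c a)) f =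
            s.inr.hom (MvPolynomial.aeval (frac J2 c) f) := by
          rw [MvPolynomial.aeval_def, MvPolynomial.aeval_def, MvPolynomial.hom_eval₂]
          have h5 : s.inr.hom.comp (algebraMap R (Ch J2 c)) = algebraMap R s.pt := by
            ext r
            exact (hal r).symm
          rw [h5]
          congr 1
          funext a
          exact hfr a
        rw [h4, aeval_frac_eq_zero J2 c f hf, map_zero]
      have h1 : ∀ f ∈ J3.toIdeal, MvPolynomial.aeval (fun a => s.inl.hom (frac J1 c a)) f = 0 := by
        intro f hf
        obtain ⟨f1, hf1, f2, hf2, rfl⟩ := Submodule.mem_sup.1 (h3 hf)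
        rw [map_add, hev1 f1 hf1, hev2 f2 hf2, add_zero]
      have hc1 : (fun a => s.inl.hom (frac J1 c a)) c = 1 := by
        change s.inl.hom (frac J1 c c) = 1
        rw [frac_self, map_one]
      let L : Ch J3 c →ₐ[R] s.pt := chLift J3 c (fun a => s.inl.hom (frac J1 c a)) hc1 h1
      have hL : ∀ a, L (frac J3 c a) = s.inl.hom (frac J1 c a) := fun a => chLift_frac _ _ _ _ _ a
      refine ⟨L, ?_, ?_⟩
      · intro x
        have h4 : (L : Ch J3 c →+* s.pt).comp (chMap (RingHom.id R) J1 J3 h13 c) = s.inl.hom := by
          apply ch_ringHom_ext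
          · intro r
            rw [RingHom.comp_apply, chMap_algebraMap]
            exact L.commutes r
          · intro a
            rw [RingHom.comp_apply, chMap_frac]
            exact hL a
        exact DFunLike.congr_fun h4 x
      · intro x
        have h4 : (L : Ch J3 c →+* s.pt).comp (chMap (RingHom.id R) J2 J3 h23 c) = s.inr.hom := by
          apply ch_ringHom_ext
          · intro r
            rw [RingHom.comp_apply, chMap_algebraMap, ← hal]
            exact L.commutes r
          · intro a
            rw [RingHom.comp_apply, chMap_frac, ← hfr]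
            exact hL a
        exact DFunLike.congr_fun h4 x
    choose m hm1 hm2 using key
    refine PushoutCocone.IsColimit.mk _ (fun s => CommRingCat.ofHom (m s)) ?_ ?_ ?_
    · intro s
      ext x
      exact hm1 s x
    · intro s
      ext x
      exact hm2 s x
    · intro s m' h1 h2
      ext x
      have : m'.hom = m s := by
        apply ch_ringHom_ext
        · intro r
          have e1 : algebraMap R (Ch J3 c) r =
            chMap (RingHom.id R) J1 J3 h13 c (algebraMap R (Ch J1 c) r) := by
            rw [chMap_algebraMap]; rfl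
          rw [e1, hm1]
          exact congrArg (fun f => f.hom (algebraMap R (Ch J1 c) r)) h1
        · intro a
          rw [← chMap_frac (RingHom.id R) J1 J3 h13 c a, hm1]
          exact congrArg (fun f => f.hom (frac J1 c a)) h1
      exact DFunLike.congr_fun this x

include h3 in
/-- The scheme-theoretic intersection. -/
lemma isPullback_inter :
    IsPullback (map (RingHom.id R) J1 J3 h13) (map (RingHom.id R) J2 J3 h23)
      (map (RingHom.id R) J0 J1 h01) (map (RingHom.id R) J0 J2 h02) := by
  apply Scheme.isPullback_of_openCover _ _ _ _ (cover J1).openCover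
  intro (c : σ)
  change IsPullback (pullback.snd (map (RingHom.id R) J1 J3 h13) (chart J1 c))
    (pullback.fst (map (RingHom.id R) J1 J3 h13) (chart J1 c) ≫ map (RingHom.id R) J2 J3 h23)
    (chart J1 c ≫ map (RingHom.id R) J0 J1 h01) _
  have h1 := isPullback_SpecMap_of_isPushout _ _ _ _
    (isPushout_inter J0 J1 J2 J3 h01 h02 h13 h23 h3 c)
  have h4 := isPullback_chart (RingHom.id R) J0 J2 h02 c
  have h5 := h1.paste_vert h4
  have h2 := (isPullback_chart (RingHom.id R) J1 J3 h13 c).flip
  refine IsPullback.of_iso h5 h2.isoPullback (Iso.refl _) (Iso.refl _) (Iso.refl _) ?_ ?_ ?_ ?_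
  · simp
  · rw [← Category.assoc, h2.isoPullback_hom_fst, chart_map]
    simp
  · rw [chart_map]
    simp
  · simp

end inter

end V

end Pool.Agent.Helper198.Sch
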