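import Pool.Agent.Helper198.SchY

open AlgebraicGeometry CategoryTheory Limits

namespace Pool.Agent.Helper198.Sch

open Pool.Agent.Helper198.CurveFamily

attribute [local instance] MvPolynomial.gradedAlgebra

section JI

variable {R : Type} [CommRing R] (p : ℕ) (α β : Fin 3 → R)

/-- ideal of the intersection of two curves. -/
noncomputable def JI : HI Idx R := HI.ofSet (setC p α ∪ setC p β) (by
  rintro f (hf | hf)
  · exact setC_hom p α f hf
  · exact setC_hom p β f hf)

lemma JC_le_JI_left : (JC p α).toIdeal ≤ (JI p α β).toIdeal :=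
  Ideal.span_mono (fun _ hf => Or.inl hf)

lemma JC_le_JI_right : (JC p β).toIdeal ≤ (JI p α β).toIdeal :=
  Ideal.span_mono (fun _ hf => Or.inr hf)

lemma JI_le : (JI p α β).toIdeal ≤ (JC p α).toIdeal ⊔ (JC p β).toIdeal := by
  change Ideal.span _ ≤ Ideal.span _ ⊔ Ideal.span _
  rw [Ideal.span_union]

lemma rel_id_of_le {σ : Type} {J J' : HI σ R} (h : J.toIdeal ≤ J'.toIdeal) :
    V.Rel (RingHom.id R) J J' := by
  intro f hf
  rw [Ideal.mem_comap, MvPolynomial.map_id]
  exact h hf

lemma JX_le_JI : (JX p R).toIdeal ≤ (JI p α β).toIdeal :=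
  (JX_le_JC p α).trans (JC_le_JI_left p α β)

lemma aeval_JI {E : Type*} [CommRing E] [Algebra R E] (u : Idx → E)
    (h : SatX p u) (h' : SatL p (fun b => algebraMap R E (α b)) u)
    (h'' : SatL p (fun b => algebraMap R E (β b)) u) :
    ∀ f ∈ (JI p α β).toIdeal, MvPolynomial.aeval u f = 0 := by
  apply aeval_ofSet u
  rintro f (hf | hf)
  · exact aeval_JC p α u h h' f (mem_ofSet hf)
  · exact aeval_JC p β u h h'' f (mem_ofSet hf)

end JI

section data

variable {k : Type} [Field k]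

/-- The intersection data of two parameters. -/
structure IData (p : ℕ) (α β : Fin 3 → k) where
  /-- indices -/
  t : Tri
  /-- ratio -/
  ri : k
  /-- ratio -/
  rl : k
  hα : α t.i * ri + α t.j + α t.l * rl = 0
  hβ : β t.i * ri + β t.j + β t.l * rl = 0
  hd : α t.i * β t.l - α t.l * β t.i ≠ 0
  hρ : rl ^ p - rl ≠ 0

/-- cross product. -/
def xp (α β : Fin 3 → k) : Fin 3 → k :=
  ![α 1 * β 2 - α 2 * β 1, α 2 * β 0 - α 0 * β 2, α 0 * β 1 - α 1 * β 0]

lemma xp_tri (α β : Fin 3 → k) (t : Tri) :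
    α t.i * β t.l - α t.l * β t.i = xp α β t.j ∨
      α t.i * β t.l - α t.l * β t.i = -xp α β t.j := by
  obtain ⟨i, j, l, hij, hil, hjl⟩ := t
  simp only
  fin_cases i <;> fin_cases j <;> fin_cases l <;> first
    | exact absurd rfl hij
    | exact absurd rfl hil
    | exact absurd rfl hjl
    | (left; simp [xp]; done)
    | (right; simp [xp])

lemma exists_idata {p : ℕ} [hp : Fact p.Prime] [CharP k p] {α β : Fin 3 → k} (h : Good p α)
    (h1 : α 0 = 1) (h2 : β 0 = 1) (hne : α ≠ β) : Nonempty (IData p α β) := by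
  set r := xp α β with hr
  have hαr : ∑ a, α a * r a = 0 := by
    simp [Fin.sum_univ_three, hr, xp]; ring
  have hβr : ∑ a, β a * r a = 0 := by
    simp [Fin.sum_univ_three, hr, xp]; ring
  have hr0 : ∃ b, r b ≠ 0 := by
    by_contra hcon
    push Not at hcon
    apply hne
    have e1 := hcon 1
    have e2 := hcon 2
    simp [hr, xp, h1, h2] at e1 e2
    funext a
    fin_cases a
    · exact h1.trans h2.symm
    · change α 1 = β 1
      linear_combination -e2
    · change α 2 = β 2
      linear_combination e1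
  have key : ∃ a b : Fin 3, r a ^ p * r b ≠ r a * r b ^ p := by
    by_contra hcon
    push Not at hcon
    obtain ⟨b, hb⟩ := hr0
    have hp1 : p - 1 + 1 = p := Nat.sub_add_cancel hp.out.one_lt.le
    have hlam : ∀ a, r a ^ p = r b ^ (p - 1) * r a := by
      intro a
      apply mul_right_cancel₀ hb
      rw [hcon a b]
      have : r b ^ p = r b ^ (p - 1) * r b := by rw [← pow_succ, hp1]
      rw [this]; ring
    have hl0 : r b ^ (p - 1) ≠ 0 := pow_ne_zero _ hb
    have s1 : ∑ a, α a ^ p * r a = 0 := by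
      have e1 : (∑ a, α a * r a) ^ p = 0 := by rw [hαr, zero_pow hp.out.ne_zero]
      rw [sum_pow_char] at e1
      apply mul_left_cancel₀ hl0
      rw [mul_zero, ← e1, Finset.mul_sum]
      refine Finset.sum_congr rfl (fun a _ => ?_)
      rw [mul_pow, hlam a]; ring
    have s2 : ∑ a, α a ^ (p ^ 2) * r a = 0 := by
      have e1 : (∑ a, α a ^ p * r a) ^ p = 0 := by rw [s1, zero_pow hp.out.ne_zero]
      rw [sum_pow_char] at e1
      apply mul_left_cancel₀ hl0
      rw [mul_zero, ← e1, Finset.mul_sum]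
      refine Finset.sum_congr rfl (fun a _ => ?_)
      rw [mul_pow, hlam a, ← pow_mul, ← pow_two]; ring
    rw [Fin.sum_univ_three] at s1 s2 hαr
    have hM : Mo p (α 0) (α 1) (α 2) ≠ 0 := IsUnit.ne_zero h
    have hMr : ∀ a, Mo p (α 0) (α 1) (α 2) * r a = 0 := by
      intro a
      fin_cases a
      · change Mo p (α 0) (α 1) (α 2) * r 0 = 0
        unfold Mo
        linear_combination (α 1 ^ p * α 2 ^ (p ^ 2) - α 2 ^ p * α 1 ^ (p ^ 2)) * hαr +
          (α 2 * α 1 ^ (p ^ 2) - α 1 * α 2 ^ (p ^ 2)) * s1 +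
          (α 1 * α 2 ^ p - α 2 * α 1 ^ p) * s2
      · change Mo p (α 0) (α 1) (α 2) * r 1 = 0
        unfold Mo
        linear_combination (α 2 ^ p * α 0 ^ (p ^ 2) - α 0 ^ p * α 2 ^ (p ^ 2)) * hαr +
          (α 0 * α 2 ^ (p ^ 2) - α 2 * α 0 ^ (p ^ 2)) * s1 +
          (α 2 * α 0 ^ p - α 0 * α 2 ^ p) * s2
      · change Mo p (α 0) (α 1) (α 2) * r 2 = 0
        unfold Mo
        linear_combination (α 0 ^ p * α 1 ^ (p ^ 2) - α 1 ^ p * α 0 ^ (p ^ 2)) * hαr +
          (α 1 * α 0 ^ (p ^ 2) - α 0 * α 1 ^ (p ^ 2)) * s1 +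
          (α 0 * α 1 ^ p - α 1 * α 0 ^ p) * s2
    rcases mul_eq_zero.1 (hMr b) with h3 | h3
    · exact hM h3
    · exact hb h3
  obtain ⟨l, j, hlj⟩ := key
  have hjl : j ≠ l := by
    rintro rfl
    exact hlj (mul_comm _ _)
  obtain ⟨i, hi1, hi2⟩ := exists_third j l hjl
  have hrj : r j ≠ 0 := by
    intro h0
    apply hlj
    rw [h0, zero_pow hp.out.ne_zero, mul_zero, mul_zero]
  let t : Tri := ⟨i, j, l, hi1.symm, hi2.symm, hjl⟩
  refine ⟨⟨t, r i / r j, r l / r j, ?_, ?_, ?_, ?_⟩⟩
  · rw [t.sum] at hαr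
    change α i * r i + α j * r j + α l * r l = 0 at hαr
    change α i * (r i / r j) + α j + α l * (r l / r j) = 0
    field_simp
    linear_combination hαr
  · rw [t.sum] at hβr
    change β i * r i + β j * r j + β l * r l = 0 at hβr
    change β i * (r i / r j) + β j + β l * (r l / r j) = 0
    field_simp
    linear_combination hβr
  · rcases xp_tri α β t with h3 | h3
    · rw [h3]; exact hrj
    · rw [h3]; exact neg_ne_zero.2 hrj
  · intro h0
    apply hlj
    rw [div_pow, sub_eq_zero, div_eq_div_iff (pow_ne_zero _ hrj) hrj] at h0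
    exact h0

end data

end Pool.Agent.Helper198.Sch
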