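import Pool.Agent.Helper198.SchZA

open AlgebraicGeometry CategoryTheory Limits Polynomial

namespace Pool.Agent.Helper198.Sch

open Pool.Agent.Helper198.CurveFamily

attribute [local instance] MvPolynomial.gradedAlgebra

section inter

variable {p : ℕ} [hp : Fact p.Prime] {k : Type} [Field k] [CharP k p]
  {α β : Fin 3 → k} (D : IData p α β)

omit hp in
lemma char_E {E : Type*} [CommRing E] [Algebra k E] [Nontrivial E] : CharP E p :=
  charP_of_injective_algebraMap (algebraMap k E).injective p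

omit hp [CharP k p] in
lemma D_pow [hp : Fact p.Prime] [CharP k p] {γ : Fin 3 → k}
    (hγ : γ D.t.i * D.ri + γ D.t.j + γ D.t.l * D.rl = 0) :
    γ D.t.i ^ p * D.ri ^ p + γ D.t.j ^ p + γ D.t.l ^ p * D.rl ^ p = 0 := by
  have := congrArg (fun x => x ^ p) hγ
  simp only [zero_pow hp.out.ne_zero] at this
  rwa [add_pow_char, add_pow_char, mul_pow, mul_pow] at this

/-- Solving the two linear equations. -/
lemma solve {E : Type*} [CommRing E] [Algebra k E] (w : Fin 3 → E)
    (h1 : ∑ b, algebraMap k E (α b ^ p) * w b = 0)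
    (h2 : ∑ b, algebraMap k E (β b ^ p) * w b = 0) :
    w D.t.i = algebraMap k E (D.ri ^ p) * w D.t.j ∧
      w D.t.l = algebraMap k E (D.rl ^ p) * w D.t.j := by
  rw [D.t.sum] at h1 h2
  have e1 := congrArg (algebraMap k E) (D_pow D D.hα)
  have e2 := congrArg (algebraMap k E) (D_pow D D.hβ)
  simp only [map_add, map_mul, map_zero] at e1 e2
  have hd : (D.t.i = D.t.i) := rfl
  have hdu : IsUnit (algebraMap k E ((α D.t.i * β D.t.l - α D.t.l * β D.t.i) ^ p)) :=
    (IsUnit.mk0 _ (pow_ne_zero p D.hd)).map _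
  have hde : algebraMap k E ((α D.t.i * β D.t.l - α D.t.l * β D.t.i) ^ p) =
      algebraMap k E (α D.t.i ^ p) * algebraMap k E (β D.t.l ^ p) -
        algebraMap k E (α D.t.l ^ p) * algebraMap k E (β D.t.i ^ p) := by
    rw [sub_pow_char, mul_pow, mul_pow, map_sub, map_mul, map_mul]
  rw [hde] at hdu
  constructor
  · apply hdu.mul_left_cancel
    linear_combination (algebraMap k E (β D.t.l ^ p)) * (h1 - w D.t.j * e1) -
      (algebraMap k E (α D.t.l ^ p)) * (h2 - w D.t.j * e2)
  · apply hdu.mul_left_cancel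
    linear_combination (algebraMap k E (α D.t.i ^ p)) * (h2 - w D.t.j * e2) -
      (algebraMap k E (β D.t.i ^ p)) * (h1 - w D.t.j * e1)

lemma mem_of_smul_mem {E : Type*} [CommRing E] [Algebra k E] (P : Ideal E) {c : k} (hc : c ≠ 0)
    {x : E} (h : algebraMap k E c * x ∈ P) : x ∈ P := by
  have h1 := Ideal.mul_mem_left P (algebraMap k E c⁻¹) h
  rwa [← mul_assoc, ← map_mul, inv_mul_cancel₀ hc, map_one, one_mul] at h1

/-- The single chart covers the intersection. -/
lemma mem_D_JI {J : HI Idx k} (hJ1 : (JC p α).toIdeal ≤ J.toIdeal)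
    (hJ2 : (JC p β).toIdeal ≤ J.toIdeal) (x : V J) : x ∈ V.D J D.t.c := by
  let P := (ProjectiveSpectrum.asHomogeneousIdeal (𝒜 := qgrad J.toIdeal) x).toIdeal
  have hPp : P.IsPrime := x.isPrime
  obtain ⟨⟨a, b⟩, hab⟩ := V.exists_mem_D J x
  rw [V.mem_D_iff] at hab ⊢
  intro hc
  have hc' : gen J (D.t.i, D.t.j) ∈ P := hc
  apply hab
  have hrow : ∀ a : Fin 3, gen J (a, D.t.i) = algebraMap k _ (D.ri ^ p) * gen J (a, D.t.j) ∧
      gen J (a, D.t.l) = algebraMap k _ (D.rl ^ p) * gen J (a, D.t.j) := by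
    intro a
    exact solve D (fun b => gen J (a, b)) (gen_lin p α hJ1 a)
      (gen_lin p β hJ2 a)
  have hcol : ∀ a : Fin 3, gen J (a, D.t.j) ∈ P := by
    have htr := gen_trace p ((JX_le_JC p α).trans hJ1)
    have hpw := gen_pow p ((JX_le_JC p α).trans hJ1) D.t.j
    rw [D.t.sum, (hrow D.t.i).1, (hrow D.t.l).2] at htr hpw
    have hp1 : p - 1 + 1 = p := Nat.sub_add_cancel hp.out.one_lt.le
    have e1 : ∀ y : MvPolynomial Idx k ⧸ J.toIdeal, y ^ (p - 1) * y = y ^ p := by
      intro y; rw [← pow_succ, hp1]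
    have hpE : (p : MvPolynomial Idx k ⧸ J.toIdeal) = 0 := natCast_eq_zero_of_algebra k _
    have e2 : (algebraMap k _ D.ri * gen J (D.t.i, D.t.j) + gen J (D.t.j, D.t.j) +
        algebraMap k _ D.rl * gen J (D.t.l, D.t.j)) ^ p = 0 := by
      have e3 : (algebraMap k _ D.ri * gen J (D.t.i, D.t.j) + gen J (D.t.j, D.t.j) +
        algebraMap k _ D.rl * gen J (D.t.l, D.t.j)) ^ p =
        (algebraMap k _ D.ri * gen J (D.t.i, D.t.j)) ^ p + gen J (D.t.j, D.t.j) ^ p +
        (algebraMap k _ D.rl * gen J (D.t.l, D.t.j)) ^ p := by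
        rcases subsingleton_or_charP hpE with h1 | h1
        · exact Subsingleton.elim _ _
        · rw [add_pow_char, add_pow_char]
      rw [e3, mul_pow, mul_pow, ← map_pow, ← map_pow, ← e1 (gen J (D.t.i, D.t.j)),
        ← e1 (gen J (D.t.j, D.t.j)), ← e1 (gen J (D.t.l, D.t.j))]
      linear_combination hpw
    have e3 : algebraMap k _ D.ri * gen J (D.t.i, D.t.j) + gen J (D.t.j, D.t.j) +
        algebraMap k _ D.rl * gen J (D.t.l, D.t.j) ∈ P := by
      apply hPp.mem_of_pow_mem p
      rw [e2]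
      exact zero_mem _
    have e4 : gen J (D.t.j, D.t.j) + algebraMap k _ D.rl * gen J (D.t.l, D.t.j) ∈ P := by
      have := Ideal.sub_mem _ e3 (Ideal.mul_mem_left P (algebraMap k _ D.ri) hc')
      convert this using 1
      ring
    have e5 : gen J (D.t.j, D.t.j) + algebraMap k _ (D.rl ^ p) * gen J (D.t.l, D.t.j) ∈ P := by
      have h0 : (0 : MvPolynomial Idx k ⧸ J.toIdeal) ∈ P := zero_mem _
      rw [← htr] at h0
      have := Ideal.sub_mem _ h0 (Ideal.mul_mem_left P (algebraMap k _ (D.ri ^ p)) hc')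
      convert this using 1
      ring
    have e6 : gen J (D.t.l, D.t.j) ∈ P := by
      apply mem_of_smul_mem P D.hρ
      have := Ideal.sub_mem _ e5 e4
      convert this using 1
      rw [map_sub]
      ring
    have e7 : gen J (D.t.j, D.t.j) ∈ P := by
      have := Ideal.sub_mem _ e4 (Ideal.mul_mem_left P (algebraMap k _ D.rl) e6)
      convert this using 1
      ring
    intro a
    rcases D.t.cases a with rfl | rfl | rfl
    · exact hc'
    · exact e7
    · exact e6
  change gen J (a, b) ∈ P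
  rcases D.t.cases b with rfl | rfl | rfl
  · rw [(hrow a).1]
    exact Ideal.mul_mem_left _ _ (hcol a)
  · exact hcol a
  · rw [(hrow a).2]
    exact Ideal.mul_mem_left _ _ (hcol a)

/-- The chart is the whole intersection. -/
lemma isIso_chart_JI : IsIso (V.chart (JI p α β) D.t.c) := by
  have : Surjective (V.chart (JI p α β) D.t.c) := by
    refine ⟨fun x => ?_⟩
    exact (V.mem_range_chart _ _ _).2
      (mem_D_JI D (JC_le_JI_left p α β) (JC_le_JI_right p α β) x)
  have : Epi (V.chart (JI p α β) D.t.c).base := by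
    rw [TopCat.epi_iff_surjective]
    exact (V.chart (JI p α β) D.t.c).surjective
  exact IsOpenImmersion.isIso _

end inter

end Pool.Agent.Helper198.Sch
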