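import Pool.Agent.Helper198.SchZB

open AlgebraicGeometry CategoryTheory Limits Polynomial

namespace Pool.Agent.Helper198.Sch

open Pool.Agent.Helper198.CurveFamily

attribute [local instance] MvPolynomial.gradedAlgebra

section ring

variable {p : ℕ} [hp : Fact p.Prime] {k : Type} [Field k] [CharP k p]
  {α β : Fin 3 → k} (D : IData p α β)

/-- the linear form. -/
noncomputable def gL : k[X] := C (D.ri - D.ri ^ p) - C (D.rl ^ p - D.rl) * X

/-- its `p`-th power. -/
noncomputable def gI : k[X] := gL D ^ p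

/-- explicit ring of the intersection. -/
abbrev QI : Type := k[X] ⧸ Ideal.span {gI D}

/-- the coordinate. -/
noncomputable def zI : QI D := Ideal.Quotient.mk _ X

omit hp [CharP k p] in
lemma mk_eq_aeval (f : k[X]) : Ideal.Quotient.mk (Ideal.span {gI D}) f = aeval (zI D) f := by
  have : (Ideal.Quotient.mkₐ k (Ideal.span {gI D})) = aeval (zI D) := by
    apply Polynomial.algHom_ext
    rw [aeval_X]
    rfl
  exact DFunLike.congr_fun this f

omit hp [CharP k p] in
lemma zI_rel : (algebraMap k (QI D) (D.ri - D.ri ^ p) -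
    algebraMap k (QI D) (D.rl ^ p - D.rl) * zI D) ^ p = 0 := by
  have h : Ideal.Quotient.mk (Ideal.span {gI D}) (gI D) = 0 :=
    Ideal.Quotient.eq_zero_iff_mem.2 (Ideal.mem_span_singleton_self _)
  have h2 : aeval (zI D) (gL D ^ p) = 0 := (mk_eq_aeval D (gI D)).symm.trans h
  rw [map_pow, gL, map_sub, map_mul, aeval_C, aeval_C, aeval_X] at h2
  exact h2

lemma pow_char_add {E : Type*} [CommRing E] (hE : (p : E) = 0) (x y : E) :
    (x + y) ^ p = x ^ p + y ^ p := by
  rcases subsingleton_or_charP hE with h1 | h1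
  · exact Subsingleton.elim _ _
  · exact add_pow_char _ _ _

/-- the universal solution. -/
noncomputable def uI : Idx → QI D :=
  fun q => D.t.ze (-(algebraMap k (QI D) (D.ri ^ p)) - zI D * algebraMap k (QI D) (D.rl ^ p))
    (zI D) q.1 * D.t.et (algebraMap k (QI D) (D.ri ^ p)) (algebraMap k (QI D) (D.rl ^ p)) q.2

omit hp [CharP k p] in
lemma uI_c : uI D D.t.c = 1 := by simp [uI, Tri.c]

lemma satX_uI : SatX p (uI D) := by
  have hpE : (p : QI D) = 0 := natCast_eq_zero_of_algebra k _
  apply satX_prod hp.out.ne_zero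
  · rw [D.t.sum]
    simp only [Tri.ze_i, Tri.ze_j, Tri.ze_l, Tri.et_i, Tri.et_j, Tri.et_l]
    ring
  · rw [D.t.sum]
    simp only [Tri.ze_i, Tri.ze_j, Tri.ze_l, Tri.et_i, Tri.et_j, Tri.et_l]
    have h := zI_rel D
    have e : (algebraMap k (QI D) (D.ri - D.ri ^ p) -
        algebraMap k (QI D) (D.rl ^ p - D.rl) * zI D) =
        (algebraMap k (QI D) D.ri + (-(algebraMap k (QI D) (D.ri ^ p)) -
          zI D * algebraMap k (QI D) (D.rl ^ p))) + zI D * algebraMap k (QI D) D.rl := by
      rw [map_sub, map_sub]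
      ring
    rw [e, pow_char_add hpE, pow_char_add hpE, mul_pow, ← map_pow, ← map_pow] at h
    rw [one_pow]
    linear_combination h

lemma satL_uI {γ : Fin 3 → k} (hγ : γ D.t.i * D.ri + γ D.t.j + γ D.t.l * D.rl = 0) :
    SatL p (fun b => algebraMap k (QI D) (γ b)) (uI D) := by
  apply satL_prod
  rw [D.t.sum]
  simp only [Tri.et_i, Tri.et_j, Tri.et_l]
  have e1 := congrArg (algebraMap k (QI D)) (D_pow D hγ)
  simp only [map_add, map_mul, map_zero, map_pow] at e1 ⊢
  linear_combination e1

/-- forward map. -/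
noncomputable def chI_to : Ch (JI p α β) D.t.c →ₐ[k] QI D :=
  chLift (JI p α β) D.t.c (uI D) (uI_c D)
    (aeval_JI p α β _ (satX_uI D) (satL_uI D D.hα) (satL_uI D D.hβ))

lemma fracI_row (a : Fin 3) :
    frac (JI p α β) D.t.c (a, D.t.i) = algebraMap k _ (D.ri ^ p) *
        frac (JI p α β) D.t.c (a, D.t.j) ∧
      frac (JI p α β) D.t.c (a, D.t.l) = algebraMap k _ (D.rl ^ p) *
        frac (JI p α β) D.t.c (a, D.t.j) := by
  have h1 := satL_frac p α (JC_le_JI_left p α β) D.t.c a
  have h2 := satL_frac p β (JC_le_JI_right p α β) D.t.c a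
  simp only [← map_pow] at h1 h2
  exact solve D (fun b => frac (JI p α β) D.t.c (a, b)) h1 h2

omit hp [CharP k p] in
lemma fracI_ij : frac (JI p α β) D.t.c (D.t.i, D.t.j) = 1 := frac_self (JI p α β) D.t.c

lemma fracI_jj : frac (JI p α β) D.t.c (D.t.j, D.t.j) =
    -(algebraMap k _ (D.ri ^ p)) - frac (JI p α β) D.t.c (D.t.l, D.t.j) *
      algebraMap k _ (D.rl ^ p) := by
  have hs := satX_frac p (JX_le_JI p α β) D.t.c
  have h1 := hs.tr D.t (frac_self _ _)
  rw [(fracI_row D D.t.i).1, (fracI_row D D.t.i).2, fracI_ij, mul_one, mul_one] at h1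
  linear_combination h1

lemma fracI_rel : aeval (frac (JI p α β) D.t.c (D.t.l, D.t.j)) (gI D) = 0 := by
  have hpE : (p : Ch (JI p α β) D.t.c) = 0 := natCast_eq_zero_of_algebra k _
  have hs := satX_frac p (JX_le_JI p α β) D.t.c
  have h1 := hs.rel D.t hp.out.ne_zero (frac_self _ _)
  rw [(fracI_row D D.t.i).2, fracI_ij, mul_one] at h1
  have h2 := fracI_jj D
  have e : aeval (frac (JI p α β) D.t.c (D.t.l, D.t.j)) (gL D) =
      (algebraMap k _ D.ri + frac (JI p α β) D.t.c (D.t.j, D.t.j)) +
        frac (JI p α β) D.t.c (D.t.l, D.t.j) * algebraMap k _ D.rl := by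
    rw [h2, gL, map_sub, map_mul, aeval_C, aeval_C, aeval_X, map_sub, map_sub]
    ring
  rw [gI, map_pow, e, pow_char_add hpE, pow_char_add hpE, mul_pow, ← map_pow, ← map_pow]
  linear_combination h1 + h2

/-- backward map. -/
noncomputable def chI_from : QI D →ₐ[k] Ch (JI p α β) D.t.c :=
  Ideal.Quotient.liftₐ _ (aeval (frac (JI p α β) D.t.c (D.t.l, D.t.j))) (by
    intro f hf
    obtain ⟨g, rfl⟩ := Ideal.mem_span_singleton'.1 hf
    rw [map_mul, fracI_rel, mul_zero])

lemma chI_from_z : chI_from D (zI D) = frac (JI p α β) D.t.c (D.t.l, D.t.j) := by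
  change aeval _ X = _
  rw [aeval_X]

/-- The ring of the intersection. -/
noncomputable def chI_equiv : Ch (JI p α β) D.t.c ≃ₐ[k] QI D :=
  AlgEquiv.ofAlgHom (chI_to D) (chI_from D)
    (by
      apply Ideal.Quotient.algHom_ext
      apply Polynomial.algHom_ext
      change chI_to D (chI_from D (zI D)) = zI D
      rw [chI_from_z, chI_to, chLift_frac]
      simp [uI])
    (by
      have hs := satX_frac p (JX_le_JI p α β) D.t.c
      apply ch_algHom_ext
      rintro ⟨a, b⟩
      rw [AlgHom.comp_apply, AlgHom.id_apply, chI_to, chLift_frac,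
        hs.prod D.t (frac_self _ _) a b, uI, map_mul]
      congr 1
      · rcases D.t.cases a with rfl | rfl | rfl
        · simp only [Tri.ze_i, map_one]
          exact (fracI_ij D).symm
        · simp only [Tri.ze_j, map_sub, map_neg, map_mul, chI_from_z, AlgHom.commutes]
          exact (fracI_jj D).symm
        · simp only [Tri.ze_l, chI_from_z]
      · rcases D.t.cases b with rfl | rfl | rfl
        · simp only [Tri.et_i, AlgHom.commutes]
          rw [(fracI_row D D.t.i).1, fracI_ij, mul_one]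
        · simp only [Tri.et_j, map_one]
          exact (fracI_ij D).symm
        · simp only [Tri.et_l, AlgHom.commutes]
          rw [(fracI_row D D.t.i).2, fracI_ij, mul_one])

omit hp [CharP k p] in
lemma natDegree_gI : (gI D).natDegree = p := by
  have h1 : (gL D).natDegree = 1 := by
    have h2 : gL D = C (-(D.rl ^ p - D.rl)) * X + C (D.ri - D.ri ^ p) := by
      rw [gL, C_neg]
      ring
    rw [h2]
    exact natDegree_linear (neg_ne_zero.2 D.hρ)
  rw [gI, natDegree_pow, h1, mul_one]

lemma finrank_QI : Module.finrank k (QI D) = p := by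
  rw [finrank_quotient_span_eq_natDegree, natDegree_gI]

lemma finrank_ChI : Module.finrank k (Ch (JI p α β) D.t.c) = p := by
  rw [(chI_equiv D).toLinearEquiv.finrank_eq, finrank_QI]

lemma finite_ChI : Module.Finite k (Ch (JI p α β) D.t.c) := by
  apply Module.finite_of_finrank_pos
  rw [finrank_ChI]
  exact hp.out.pos

end ring

section global

variable {k : Type} [Field k]

lemma hasGlobalDimension_spec (A : Type) [CommRing A] [Algebra k A] (d : ℕ)
    (h1 : Module.Finite k A) (h2 : Module.finrank k A = d) :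
    HasGlobalDimension (Y := Spec (.of A)) (Spec.map (CommRingCat.ofHom (algebraMap k A))) d := by
  let := (scalars (Y := Spec (.of A))
    (Spec.map (CommRingCat.ofHom (algebraMap k A)))).hom.toAlgebra
  have key : ∀ r : k, (Scheme.ΓSpecIso (.of A)).inv.hom (algebraMap k A r) =
      algebraMap k (globalFunctions (Spec (.of A))) r := by
    intro r
    have h3 := Scheme.ΓSpecIso_inv_naturality (CommRingCat.ofHom (algebraMap k A))
    exact congrArg (fun f => f.hom r) h3
  let e0 : A ≃+* globalFunctions (Spec (.of A)) :=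
    (Scheme.ΓSpecIso (.of A)).symm.commRingCatIsoToRingEquiv
  let e : A ≃ₐ[k] globalFunctions (Spec (.of A)) :=
    AlgEquiv.ofRingEquiv (f := e0) (fun r => key r)
  constructor
  · exact Module.Finite.equiv e.toLinearEquiv
  · rw [← e.toLinearEquiv.finrank_eq]
    exact h2

lemma hasGlobalDimension_iso {Y Y' : Scheme.{0}} (sY : Y ⟶ Spec (.of k)) (sY' : Y' ⟶ Spec (.of k))
    (e : Y' ≅ Y) (he : e.hom ≫ sY = sY') (d : ℕ) (h : HasGlobalDimension sY' d) :
    HasGlobalDimension sY d := by
  subst he
  obtain ⟨h1, h2⟩ := h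
  let i1 := (scalars sY).hom.toAlgebra
  let i2 := (scalars (e.hom ≫ sY)).hom.toAlgebra
  have key : ∀ r : k, e.hom.appTop.hom (algebraMap k (globalFunctions Y) r) =
      algebraMap k (globalFunctions Y') r := by
    intro r
    have h3 : ((Scheme.ΓSpecIso (.of k)).inv ≫ sY.appTop) ≫ e.hom.appTop =
      (Scheme.ΓSpecIso (.of k)).inv ≫ (e.hom ≫ sY).appTop := by
      rw [Scheme.Hom.comp_appTop, Category.assoc]
    exact congrArg (fun f => f.hom r) h3
  have hi : IsIso e.hom.appTop := inferInstanceAs (IsIso (e.hom.app ⊤))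
  let e0 : globalFunctions Y ≃+* globalFunctions Y' :=
    (asIso e.hom.appTop).commRingCatIsoToRingEquiv
  let e' : globalFunctions Y ≃ₐ[k] globalFunctions Y' :=
    AlgEquiv.ofRingEquiv (f := e0) (fun r => key r)
  constructor
  · exact Module.Finite.equiv e'.symm.toLinearEquiv
  · rw [e'.toLinearEquiv.finrank_eq]
    exact h2

end global

end Pool.Agent.Helper198.Sch
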