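import Pool.Agent.Helper198.SchZC

open AlgebraicGeometry CategoryTheory Limits TopologicalSpace

namespace Pool.Agent.Helper198.Sch

open Pool.Agent.Helper198.CurveFamily

attribute [local instance] MvPolynomial.gradedAlgebra

namespace V

lemma map_congr {σ R R' : Type} [CommRing R] [CommRing R'] (φ ψ : R →+* R') (J : HI σ R)
    (J' : HI σ R') (h : Rel φ J J') (h' : Rel ψ J J') (e : φ = ψ) :
    map φ J J' h = map ψ J J' h' := by
  subst e
  rfl

lemma map_id_str {σ R : Type} [CommRing R] (J J' : HI σ R) (h : Rel (RingHom.id R) J J') :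
    map (RingHom.id R) J J' h ≫ str J = str J' := by
  rw [map_str]
  have : Spec.map (CommRingCat.ofHom (RingHom.id R)) = 𝟙 _ := Spec.map_id _
  rw [this, Category.comp_id]

end V

section closed

variable (p : ℕ) (k : Type) [Field k]

lemma isPullback_base : IsPullback
    (V.map (algebraMap k (RT p k)) (JX p k) (JX p (RT p k)) (rel_JX_JX _ p))
    (V.str (JX p (RT p k))) (V.str (JX p k)) (sTT p k) :=
  V.isPullback_map _ _ _ _ (JX_le_map _ p)

lemma closed_fam :
    IsClosedImmersion (pullback.lift (toX p k) (V.str (JC p (αT p k))) (toX_comm p k)) := by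
  have hpb := isPullback_base p k
  have hr : V.Rel (RingHom.id (RT p k)) (JX p (RT p k)) (JC p (αT p k)) :=
    rel_id_of_le (JX_le_JC p (αT p k))
  have h1 : pullback.lift (toX p k) (V.str (JC p (αT p k))) (toX_comm p k) =
      V.map (RingHom.id (RT p k)) (JX p (RT p k)) (JC p (αT p k)) hr ≫ hpb.isoPullback.hom := by
    apply pullback.hom_ext
    · rw [pullback.lift_fst, Category.assoc, hpb.isoPullback_hom_fst]
      exact (V.map_comp (algebraMap k (RT p k)) (RingHom.id (RT p k)) (JX p k)
        (JX p (RT p k)) (JC p (αT p k)) (rel_JX_JX _ p) hr (rel_JX_JC _ p _)).symm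
    · rw [pullback.lift_snd, Category.assoc, hpb.isoPullback_hom_snd, V.map_id_str]
  rw [h1]
  infer_instance

end closed

section fibre

variable {p : ℕ} {k : Type} [Field k] (t : Spec (.of k) ⟶ TT p k)

/-- the ring map of a rational point of the parameter space. -/
noncomputable def phi : RT p k →+* k := (Spec.preimage t).hom

lemma spec_phi : Spec.map (CommRingCat.ofHom (phi t)) = t := by
  change Spec.map (Spec.preimage t) = t
  exact Spec.map_preimage t

lemma phi_comp (ht : t ≫ sTT p k = 𝟙 _) :
    (phi t).comp (algebraMap k (RT p k)) = RingHom.id k := by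
  rw [← spec_phi t, sTT, ← Spec.map_comp, ← CommRingCat.ofHom_comp, ← Spec.map_id] at ht
  have h2 := Spec.map_injective ht
  exact congrArg (fun f => f.hom) h2

/-- the parameter vector of a rational point. -/
noncomputable def αt : Fin 3 → k := fun b => phi t (αT p k b)

lemma αt_zero : αt t 0 = 1 := map_one (phi t)

lemma good_αt : Good p (αt t) := (good_αT p k).map (phi t)

lemma isPullback_fibre : IsPullback
    (V.map (phi t) (JC p (αT p k)) (JC p (αt t)) (rel_JC_JC _ p _ _ (fun _ => rfl)))
    (V.str (JC p (αt t))) (V.str (JC p (αT p k))) t := by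
  have h := V.isPullback_map (phi t) (JC p (αT p k)) (JC p (αt t))
    (rel_JC_JC _ p _ _ (fun _ => rfl)) (JC_le_map _ p _ _ (fun _ => rfl))
  rwa [spec_phi] at h

/-- the fibre is the explicit curve. -/
noncomputable def EE : V (JC p (αt t)) ≅ pullback (V.str (JC p (αT p k))) t :=
  (isPullback_fibre t).isoPullback

lemma EE_fst : (EE t).hom ≫ pullback.fst _ _ =
    V.map (phi t) (JC p (αT p k)) (JC p (αt t)) (rel_JC_JC _ p _ _ (fun _ => rfl)) :=
  (isPullback_fibre t).isoPullback_hom_fst

lemma EE_snd : (EE t).hom ≫ pullback.snd _ _ = V.str (JC p (αt t)) :=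
  (isPullback_fibre t).isoPullback_hom_snd

lemma EE_incl (ht : t ≫ sTT p k = 𝟙 _) :
    (EE t).hom ≫ pullback.fst _ _ ≫ toX p k = iot p (αt t) := by
  rw [← Category.assoc, EE_fst, toX, iot]
  have hr : V.Rel ((phi t).comp (algebraMap k (RT p k))) (JX p k) (JC p (αt t)) :=
    rel_JX_JC _ p _
  rw [V.map_comp (algebraMap k (RT p k)) (phi t) (JX p k) (JC p (αT p k)) (JC p (αt t))
    (rel_JX_JC _ p _) (rel_JC_JC _ p _ _ (fun _ => rfl)) hr]
  exact V.map_congr _ _ _ _ _ _ (phi_comp t ht)

variable [hp : Fact p.Prime] [CharP k p]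

lemma pt_EE : pt t0 (αt t) (good_αt t) ≫ (EE t).hom =
    pullback.lift (t ≫ ptT p k) (𝟙 _)
      (by rw [Category.assoc, ptT_str, Category.comp_id, Category.id_comp]) := by
  apply pullback.hom_ext
  · rw [pullback.lift_fst, Category.assoc, EE_fst]
    have h := pt_map (phi t) t0 (αT p k) (good_αT p k) (αt t) (fun _ => rfl) (good_αt t)
    rw [h, spec_phi]
    rfl
  · rw [pullback.lift_snd, Category.assoc, EE_snd, pt_str]

lemma nonempty_fibre : Nonempty ↥(pullback (V.str (JC p (αT p k))) t) :=
  ⟨(pt t0 (αt t) (good_αt t) ≫ (EE t).hom) (IsLocalRing.closedPoint k)⟩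

lemma isIntegral_fibre : IsIntegral (pullback (V.str (JC p (αT p k))) t) := by
  have := isIntegral_VC (good_αt t)
  have := nonempty_fibre t
  exact isIntegral_of_isOpenImmersion (EE t).inv

lemma dim_fibre [Infinite k] :
    topologicalKrullDim ↥(pullback (V.str (JC p (αT p k))) t) = 1 := by
  rw [← dim_VC (good_αt t)]
  exact (IsHomeomorph.topologicalKrullDim_eq _
    (Scheme.homeoOfIso (EE t)).isHomeomorph).symm

end fibre

section fam

variable (p : ℕ) [hp : Fact p.Prime] (k : Type) [Field k] [CharP k p] [Infinite k]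

/-- The family of pointed curves. -/
noncomputable def fam : PointedCurveFamily (V.str (JX p k)) where
  T := TT p k
  sT := sTT p k
  isVariety := ⟨inferInstance, inferInstance, inferInstance, inferInstance⟩
  C := V (JC p (αT p k))
  toX := toX p k
  toT := V.str (JC p (αT p k))
  comm := toX_comm p k
  closed := closed_fam p k
  flat := flat_VC p (good_αT p k)
  pt := ptT p k
  pt_toT := ptT_str p k
  fibre := fun t _ => ⟨isIntegral_fibre t, dim_fibre t⟩

variable {p k}

lemma incl_eq (t : (fam p k).Points) :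
    (EE t.1).hom ≫ (fam p k).incl t = iot p (αt t.1) := EE_incl t.1 t.2

lemma mark_eq (t : (fam p k).Points) :
    (fam p k).mark t = pt t0 (αt t.1) (good_αt t.1) ≫ (EE t.1).hom := (pt_EE t.1).symm

lemma markedPoint_eq (t : (fam p k).Points) : (fam p k).markedPoint t =
    (EE t.1).hom (pt t0 (αt t.1) (good_αt t.1) (IsLocalRing.closedPoint k)) := by
  unfold PointedCurveFamily.markedPoint
  rw [mark_eq]
  rfl

/-- All curves have multiplicity `p` at the marked point. -/
lemma hasMultiplicity_fam : (fam p k).HasMultiplicity p := by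
  intro t
  rw [markedPoint_eq]
  have h1 := mult_comp_left (EE t.1).hom ((fam p k).incl t)
    (pt t0 (αt t.1) (good_αt t.1) (IsLocalRing.closedPoint k)) p
  refine h1.1 ?_
  rw [incl_eq]
  exact mult_pt (good_αt t.1) (αt_zero t.1)

lemma range_incl (t : (fam p k).Points) :
    Set.range ((fam p k).incl t) = Set.range (iot p (αt t.1)) := by
  rw [← incl_eq]
  ext x
  constructor
  · rintro ⟨y, rfl⟩
    refine ⟨(EE t.1).inv y, ?_⟩
    have e1 : (EE t.1).inv ≫ ((EE t.1).hom ≫ (fam p k).incl t) = (fam p k).incl t :=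
      Iso.inv_hom_id_assoc _ _
    exact congrArg (fun f : (fam p k).curve t ⟶ V (JX p k) => f y) e1
  · rintro ⟨y, rfl⟩
    exact ⟨(EE t.1).hom y, rfl⟩

end fam

end Pool.Agent.Helper198.Sch
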