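import Pool.Agent.Helper198.SchZD

open AlgebraicGeometry CategoryTheory Limits TopologicalSpace

namespace Pool.Agent.Helper198.Sch

open Pool.Agent.Helper198.CurveFamily

attribute [local instance] MvPolynomial.gradedAlgebra

section points

variable {p : ℕ} [hp : Fact p.Prime] {k : Type} [Field k]

/-- the ring map of the rational point with coordinates `a`, `b`. -/
noncomputable def ptHom (a b : k) (h : Mo p 1 a b ≠ 0) : RT p k →+* k :=
  IsLocalization.Away.lift (MoP p k)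
    (g := (MvPolynomial.aeval ![a, b] : MvPolynomial (Fin 2) k →ₐ[k] k).toRingHom) (by
      have e := map_Mo p (MvPolynomial.aeval ![a, b] : MvPolynomial (Fin 2) k →ₐ[k] k).toRingHom
        1 (MvPolynomial.X 0) (MvPolynomial.X 1)
      rw [map_one] at e
      have e0 : (MvPolynomial.aeval ![a, b] : MvPolynomial (Fin 2) k →ₐ[k] k).toRingHom
        (MvPolynomial.X 0) = a := by
        change MvPolynomial.aeval ![a, b] (MvPolynomial.X 0) = a
        rw [MvPolynomial.aeval_X]; rfl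
      have e1 : (MvPolynomial.aeval ![a, b] : MvPolynomial (Fin 2) k →ₐ[k] k).toRingHom
        (MvPolynomial.X 1) = b := by
        change MvPolynomial.aeval ![a, b] (MvPolynomial.X 1) = b
        rw [MvPolynomial.aeval_X]; rfl
      rw [e0, e1] at e
      unfold MoP
      rw [e]
      exact IsUnit.mk0 _ h)

omit hp in
lemma ptHom_algebraMap (a b : k) (h : Mo p 1 a b ≠ 0) (f : MvPolynomial (Fin 2) k) :
    ptHom a b h (algebraMap _ (RT p k) f) = MvPolynomial.aeval ![a, b] f :=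
  IsLocalization.Away.lift_eq _ _ _

/-- the rational point. -/
noncomputable def ptOf (a b : k) (h : Mo p 1 a b ≠ 0) : Spec (.of k) ⟶ TT p k :=
  Spec.map (CommRingCat.ofHom (ptHom a b h))

omit hp in
lemma ptOf_str (a b : k) (h : Mo p 1 a b ≠ 0) : ptOf a b h ≫ sTT p k = 𝟙 _ := by
  rw [ptOf, sTT, ← Spec.map_comp, ← CommRingCat.ofHom_comp]
  have : (ptHom a b h).comp (algebraMap k (RT p k)) = RingHom.id k := by
    ext r
    rw [RingHom.comp_apply]
    have e : algebraMap k (RT p k) r =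
        algebraMap (MvPolynomial (Fin 2) k) (RT p k) (MvPolynomial.C r) := rfl
    rw [e, ptHom_algebraMap, MvPolynomial.aeval_C]
    rfl
  rw [this]
  exact Spec.map_id _

omit hp in
lemma αt_ptOf (a b : k) (h : Mo p 1 a b ≠ 0) : αt (ptOf a b h) = ![1, a, b] := by
  have e : phi (ptOf a b h) = ptHom a b h := by
    unfold phi ptOf
    rw [Spec.preimage_map]
    rfl
  funext i
  unfold αt
  rw [e]
  fin_cases i
  · exact map_one _
  · exact (ptHom_algebraMap a b h (MvPolynomial.X 0)).trans (by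
      rw [MvPolynomial.aeval_X]; rfl)
  · exact (ptHom_algebraMap a b h (MvPolynomial.X 1)).trans (by
      rw [MvPolynomial.aeval_X]; rfl)

variable [Infinite k]

omit hp in
lemma exists_ne_zero {f : MvPolynomial (Fin 2) k} (hf : f ≠ 0) :
    ∃ a b : k, MvPolynomial.aeval ![a, b] f ≠ 0 := by
  by_contra hcon
  push Not at hcon
  apply hf
  apply MvPolynomial.funext
  intro x
  have h := hcon (x 0) (x 1)
  have hx : ![x 0, x 1] = x := by
    funext i
    fin_cases i <;> rfl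
  rw [hx] at h
  rw [map_zero]
  exact h

omit hp [Infinite k] in
lemma aeval_MoP (a b : k) : MvPolynomial.aeval ![a, b] (MoP p k) = Mo p 1 a b := by
  have e := map_Mo p (MvPolynomial.aeval ![a, b] : MvPolynomial (Fin 2) k →ₐ[k] k).toRingHom
        1 (MvPolynomial.X 0) (MvPolynomial.X 1)
  rw [map_one] at e
  have e0 : (MvPolynomial.aeval ![a, b] : MvPolynomial (Fin 2) k →ₐ[k] k).toRingHom
    (MvPolynomial.X 0) = a := by
    change MvPolynomial.aeval ![a, b] (MvPolynomial.X 0) = a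
    rw [MvPolynomial.aeval_X]; rfl
  have e1 : (MvPolynomial.aeval ![a, b] : MvPolynomial (Fin 2) k →ₐ[k] k).toRingHom
    (MvPolynomial.X 1) = b := by
    change MvPolynomial.aeval ![a, b] (MvPolynomial.X 1) = b
    rw [MvPolynomial.aeval_X]; rfl
  rw [e0, e1] at e
  exact e

lemma exists_two [CharP k p] : ∃ (a b a' b' : k), Mo p 1 a b ≠ 0 ∧ Mo p 1 a' b' ≠ 0 ∧
    ∑ i, (![1, a', b'] : Fin 3 → k) i ^ p * cr p ![1, a, b] i ≠ 0 := by
  obtain ⟨a, b, hab⟩ := exists_ne_zero (MoP_ne_zero p k)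
  rw [aeval_MoP] at hab
  have hg : Good p (![1, a, b] : Fin 3 → k) := IsUnit.mk0 _ hab
  have hc0 : cr p (![1, a, b] : Fin 3 → k) 0 ≠ 0 :=
    (cr_unit p (CharP.cast_eq_zero k p) hg 0).ne_zero
  let g : MvPolynomial (Fin 2) k := MvPolynomial.C (cr p (![1, a, b] : Fin 3 → k) 0) +
    MvPolynomial.X 0 ^ p * MvPolynomial.C (cr p (![1, a, b] : Fin 3 → k) 1) +
    MvPolynomial.X 1 ^ p * MvPolynomial.C (cr p (![1, a, b] : Fin 3 → k) 2)
  have hg0 : g ≠ 0 := by
    intro h0
    have h1 := congrArg (MvPolynomial.aeval ![(0 : k), 0]) h0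
    simp [g, hp.out.ne_zero] at h1
    exact hc0 h1
  obtain ⟨a', b', hab'⟩ := exists_ne_zero (mul_ne_zero (MoP_ne_zero p k) hg0)
  rw [map_mul, aeval_MoP] at hab'
  refine ⟨a, b, a', b', hab, left_ne_zero_of_mul hab', ?_⟩
  have h2 := right_ne_zero_of_mul hab'
  have h3 : MvPolynomial.aeval ![a', b'] g =
      ∑ i, (![1, a', b'] : Fin 3 → k) i ^ p * cr p ![1, a, b] i := by
    simp [g, Fin.sum_univ_three]
  rwa [h3] at h2

end points

section ranges

variable {p : ℕ} [hp : Fact p.Prime] {k : Type} [Field k] [CharP k p] {α β : Fin 3 → k}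

lemma evX_ell (h : Good p α) (h1 : α 0 = 1) : evX h (ell p t0 β) =
    sc p t0 α * ∑ b, β b ^ p * cr p α b := by
  rw [ell, map_sum, Finset.mul_sum]
  refine Finset.sum_congr rfl (fun b _ => ?_)
  rw [map_mul, map_pow, AlgHom.commutes, evX_frac, uP]
  change β b ^ p * (sc p t0 α * α 0 * cr p α b) = _
  rw [h1]
  ring

omit hp [CharP k p] in
lemma square_pt {X Y Y' Z : Scheme.{0}} {f : X ⟶ Y} {g : Y ⟶ Z} {f' : X ⟶ Y'} {g' : Y' ⟶ Z}
    (h : f ≫ g = f' ≫ g') (x : X) : g (f x) = g' (f' x) := by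
  have e : (f ≫ g) x = (f' ≫ g') x := by rw [h]
  rwa [Scheme.Hom.comp_apply, Scheme.Hom.comp_apply] at e

lemma pt_apply (h : Good p α) (x : Spec (.of k)) : pt t0 α h x =
    V.chart (JC p α) t0.c
      (Spec.map (CommRingCat.ofHom (ptRing t0 α h : Ch (JC p α) t0.c →+* k)) x) := by
  rw [pt, Scheme.Hom.comp_apply]

omit hp [CharP k p] in
lemma iot_chart (P : Spec (.of (Ch (JC p α) t0.c))) :
    iot p α (V.chart (JC p α) t0.c P) =
      V.chart (JX p k) t0.c (Spec.map (CommRingCat.ofHom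
      (V.chMap (RingHom.id k) (JX p k) (JC p α) (rel_JX_JC _ p α) t0.c)) P) :=
  square_pt (V.chart_map (RingHom.id k) (JX p k) (JC p α) (rel_JX_JC _ p α) t0.c) P

omit hp [CharP k p] in
lemma mem_asIdeal (P : Spec (.of (Ch (JC p α) t0.c))) (x : Ch (JX p k) t0.c) :
    x ∈ (Spec.map (CommRingCat.ofHom
      (V.chMap (RingHom.id k) (JX p k) (JC p α) (rel_JX_JC _ p α) t0.c)) P).asIdeal ↔
      V.chMap (RingHom.id k) (JX p k) (JC p α) (rel_JX_JC _ p α) t0.c x ∈ P.asIdeal := Iff.rfl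

lemma mem_asIdeal_pt (h : Good p α) (x : Ch (JC p α) t0.c) :
    x ∈ (Spec.map (CommRingCat.ofHom (ptRing t0 α h : Ch (JC p α) t0.c →+* k))
      (IsLocalRing.closedPoint k)).asIdeal ↔ ptRing t0 α h x = 0 := by
  have h2 : x ∈ (Spec.map (CommRingCat.ofHom (ptRing t0 α h : Ch (JC p α) t0.c →+* k))
      (IsLocalRing.closedPoint k)).asIdeal ↔ ptRing t0 α h x ∈ IsLocalRing.maximalIdeal k := Iff.rfl
  rw [h2, IsLocalRing.maximalIdeal_eq_bot, Ideal.mem_bot]

lemma pt_notMem_range (h : Good p α) (h1 : α 0 = 1) (hne : ∑ b, β b ^ p * cr p α b ≠ 0) :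
    iot p α (pt t0 α h (IsLocalRing.closedPoint k)) ∉ Set.range (iot p β) := by
  rintro ⟨y, hy⟩
  have hz : pt t0 α h (IsLocalRing.closedPoint k) ∈ V.D (JC p α) t0.c := pt_mem t0 α h _ _
  have hx : iot p α (pt t0 α h (IsLocalRing.closedPoint k)) ∈ V.D (JX p k) t0.c :=
    (V.map_mem_D _ _ _ _ _ _).2 hz
  rw [← hy] at hx
  have hy2 : y ∈ V.D (JC p β) t0.c := (V.map_mem_D _ _ _ _ _ _).1 hx
  obtain ⟨P, rfl⟩ := (V.mem_range_chart _ _ _).2 hy2
  let cp : Spec (.of k) := IsLocalRing.closedPoint k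
  have e3 := (congrArg (fun x => iot p α x) (pt_apply h cp)).trans (iot_chart _)
  have hy3 := (iot_chart P).symm.trans (hy.trans e3)
  have hy4 := (V.chart (JX p k) t0.c).isOpenEmbedding.injective hy3
  have hmem := (mem_asIdeal (p := p) (α := β) P (ell p t0 β)).2 (by
    rw [chMap_ell]
    exact zero_mem _)
  rw [hy4] at hmem
  have hmem2 : evX h (ell p t0 β) = 0 := (mem_asIdeal_pt h _).1 ((mem_asIdeal _ _).1 hmem)
  rw [evX_ell h h1] at hmem2
  rcases mul_eq_zero.1 hmem2 with h3 | h3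
  · have := sc_cr' h h1
    rw [h3, zero_mul] at this
    exact zero_ne_one this
  · exact hne h3

end ranges

end Pool.Agent.Helper198.Sch
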