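import Pool.Agent.Helper198.SchZE

open AlgebraicGeometry CategoryTheory Limits TopologicalSpace

namespace Pool.Agent.Helper198.Sch

open Pool.Agent.Helper198.CurveFamily

attribute [local instance] MvPolynomial.gradedAlgebra

section surface

variable (p : ℕ) [hp : Fact p.Prime] (k : Type) [Field k] [CharP k p] [Infinite k]

lemma isIntegral_VX' : IsIntegral (V (JX p k)) := by
  obtain ⟨a, b, hab⟩ := exists_ne_zero (MoP_ne_zero p k)
  rw [aeval_MoP] at hab
  have hg : Good p (![1, a, b] : Fin 3 → k) := IsUnit.mk0 _ hab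
  exact isIntegral_VX hg

/-- renumbering the nine coordinates. -/
def e9 : Fin (8 + 1) ≃ Idx := (finProdFinEquiv (m := 3) (n := 3)).symm

/-- The surface is a smooth projective surface. -/
lemma isSmoothProjectiveSurface_VX : IsSmoothProjectiveSurface (V.str (JX p k)) where
  integral := isIntegral_VX' p k
  smooth := smooth_VX p k
  projective := ⟨8, emb (JX p k) e9,
    inferInstanceAs (IsClosedImmersion (emb (JX p k) e9)), emb_str _ _⟩

end surface

section explicit

variable {p : ℕ} {k : Type} [Field k]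

/-- The inclusion of the fibre in the surface. -/
noncomputable def icl (t : Spec (.of k) ⟶ TT p k) :
    pullback (V.str (JC p (αT p k))) t ⟶ V (JX p k) := pullback.fst _ _ ≫ toX p k

lemma EE_icl (t : Spec (.of k) ⟶ TT p k) (ht : t ≫ sTT p k = 𝟙 _) :
    (EE t).hom ≫ icl t = iot p (αt t) := EE_incl t ht

lemma icl_eq (t : Spec (.of k) ⟶ TT p k) (ht : t ≫ sTT p k = 𝟙 _) :
    icl t = (EE t).inv ≫ iot p (αt t) := by
  rw [← EE_icl t ht, Iso.inv_hom_id_assoc]

lemma range_icl (t : Spec (.of k) ⟶ TT p k) (ht : t ≫ sTT p k = 𝟙 _) :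
    Set.range (icl t) = Set.range (iot p (αt t)) := by
  ext x
  constructor
  · rintro ⟨y, rfl⟩
    refine ⟨(EE t).inv y, ?_⟩
    rw [icl_eq t ht, Scheme.Hom.comp_apply]
  · rintro ⟨y, rfl⟩
    refine ⟨(EE t).hom y, ?_⟩
    rw [← EE_icl t ht, Scheme.Hom.comp_apply]

variable [hp : Fact p.Prime] [CharP k p]

/-- The marked point of the fibre. -/
noncomputable def mrk (t : Spec (.of k) ⟶ TT p k) :
    Spec (.of k) ⟶ pullback (V.str (JC p (αT p k))) t :=
  pullback.lift (t ≫ ptT p k) (𝟙 _)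
      (by rw [Category.assoc, ptT_str, Category.comp_id, Category.id_comp])

lemma mrk_icl (t : Spec (.of k) ⟶ TT p k) : mrk t ≫ icl t = t ≫ (ptT p k ≫ toX p k) := by
  rw [mrk, icl, ← Category.assoc, pullback.lift_fst, Category.assoc]

lemma mrk_icl_str (t : Spec (.of k) ⟶ TT p k) (ht : t ≫ sTT p k = 𝟙 _) :
    (t ≫ (ptT p k ≫ toX p k)) ≫ V.str (JX p k) = 𝟙 _ := by
  rw [Category.assoc, Category.assoc, toX_comm, ← Category.assoc (ptT p k), ptT_str,
    Category.id_comp, ht]

/-- two different members meet in degree `p`. -/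
lemma intersection_icl (s t : Spec (.of k) ⟶ TT p k) (hs : s ≫ sTT p k = 𝟙 _)
    (ht : t ≫ sTT p k = 𝟙 _) (hst : Set.range (icl s) ≠ Set.range (icl t)) :
    HasIntersectionNumber (V.str (JX p k)) (icl s) (icl t) p := by
  rw [range_icl s hs, range_icl t ht] at hst
  have hne : αt s ≠ αt t := by
    intro h
    rw [h] at hst
    exact hst rfl
  obtain ⟨D⟩ := exists_idata (good_αt s) (αt_zero s) (αt_zero t) hne
  have hpb : IsPullback
      (V.map (RingHom.id k) (JC p (αt s)) (JI p (αt s) (αt t))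
        (rel_id_of_le (JC_le_JI_left p _ _)))
      (V.map (RingHom.id k) (JC p (αt t)) (JI p (αt s) (αt t))
        (rel_id_of_le (JC_le_JI_right p _ _))) (iot p (αt s)) (iot p (αt t)) :=
    V.isPullback_inter (JX p k) (JC p (αt s)) (JC p (αt t))
      (JI p (αt s) (αt t)) (rel_JX_JC _ p _) (rel_JX_JC _ p _)
      (rel_id_of_le (JC_le_JI_left p _ _)) (rel_id_of_le (JC_le_JI_right p _ _))
      (JI_le p _ _)
  have hpb2 : IsPullback
      (V.map (RingHom.id k) (JC p (αt s)) (JI p (αt s) (αt t))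
        (rel_id_of_le (JC_le_JI_left p _ _)) ≫ (EE s).hom)
      (V.map (RingHom.id k) (JC p (αt t)) (JI p (αt s) (αt t))
        (rel_id_of_le (JC_le_JI_right p _ _)) ≫ (EE t).hom)
      (icl s) (icl t) := by
    refine IsPullback.of_iso hpb (Iso.refl _) (EE s) (EE t) (Iso.refl _) ?_ ?_ ?_ ?_
    · simp
    · simp
    · rw [EE_icl s hs]; simp
    · rw [EE_icl t ht]; simp
  have hiso := isIso_chart_JI D
  have h1 := hasGlobalDimension_spec (k := k) (Ch (JI p (αt s) (αt t)) D.t.c) p
    (finite_ChI D) (finrank_ChI D)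
  refine hasGlobalDimension_iso _ _
    ((asIso (V.chart (JI p (αt s) (αt t)) D.t.c)) ≪≫ hpb2.isoPullback) ?_ p h1
  rw [Iso.trans_hom, asIso_hom, Category.assoc, ← Category.assoc hpb2.isoPullback.hom,
    hpb2.isoPullback_hom_fst, Category.assoc, ← Category.assoc (EE s).hom, EE_icl s hs]
  have e3 : iot p (αt s) ≫ V.str (JX p k) = V.str (JC p (αt s)) := V.map_id_str _ _ _
  rw [e3, V.map_id_str, V.chart_str]

/-- two different members. -/
lemma exists_ne_icl [Infinite k] : ∃ s t : Spec (.of k) ⟶ TT p k, s ≫ sTT p k = 𝟙 _ ∧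
    t ≫ sTT p k = 𝟙 _ ∧ Set.range (icl s) ≠ Set.range (icl t) := by
  obtain ⟨a, b, a', b', h1, h2, h3⟩ := exists_two (p := p) (k := k)
  refine ⟨ptOf a b h1, ptOf a' b' h2, ptOf_str a b h1, ptOf_str a' b' h2, ?_⟩
  rw [range_icl _ (ptOf_str a b h1), range_icl _ (ptOf_str a' b' h2)]
  intro h
  have hmem : iot p (αt (ptOf a b h1)) (pt t0 (αt (ptOf a b h1)) (good_αt (ptOf a b h1))
      (IsLocalRing.closedPoint k)) ∈ Set.range (iot p (αt (ptOf a' b' h2))) := by
    rw [← h]
    exact ⟨_, rfl⟩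
  refine pt_notMem_range (good_αt (ptOf a b h1)) (αt_zero (ptOf a b h1)) ?_ hmem
  rw [αt_ptOf, αt_ptOf]
  exact h3

end explicit

section covering

variable (p : ℕ) [hp : Fact p.Prime] (k : Type) [Field k] [CharP k p] [IsAlgClosed k]

lemma locFT_VX : LocallyOfFiniteType (V.str (JX p k)) := by
  have hsm := smooth_VX p k
  have h2 : Smooth (V.str (JX p k)) := SmoothOfRelativeDimension.smooth 2 _
  infer_instance

lemma locFT_TT : LocallyOfFiniteType (sTT p k) := inferInstance

lemma covering_aux [Infinite k] (x : V (JX p k)) :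
    (∃ t : Spec (.of k) ⟶ TT p k, t ≫ sTT p k = 𝟙 _ ∧
      (ptT p k ≫ toX p k) (t (IsLocalRing.closedPoint k)) = x) ↔
      (x ∈ Set.range (ptT p k ≫ toX p k) ∧ IsClosed {x}) := by
  have hoi := isOpenImmersion_pt p k
  have hft := locFT_VX p k
  have hft2 := locFT_TT p k
  constructor
  · rintro ⟨t, ht, rfl⟩
    refine ⟨⟨t (IsLocalRing.closedPoint k), rfl⟩, ?_⟩
    exact (pointEquivClosedPoint (V.str (JX p k))
      ⟨t ≫ (ptT p k ≫ toX p k), mrk_icl_str t ht⟩).2
  · rintro ⟨⟨y, rfl⟩, hcl⟩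
    have hy : IsClosed {y} := by
      have h1 := hcl.preimage (ptT p k ≫ toX p k).continuous
      have h2 : (ptT p k ≫ toX p k) ⁻¹' {(ptT p k ≫ toX p k) y} = {y} := by
        ext z
        constructor
        · intro hz
          exact (ptT p k ≫ toX p k).isOpenEmbedding.injective hz
        · rintro rfl
          rfl
      rwa [h2] at h1
    refine ⟨pointOfClosedPoint (sTT p k) y hy, pointOfClosedPoint_comp _ _ _, ?_⟩
    exact congrArg _ (pointOfClosedPoint_apply (sTT p k) y hy _)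

end covering

end Pool.Agent.Helper198.Sch
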